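import Pool.Agent.Lib.MP_391708_nt.TG.BasF

/-!
# Theorem T1b (`a < 0`): automorphisms in the cone (AUT)

`x = T x₀` with an automorphism `T` of the form; `d T` is bilinear in `x₀.1`, `x.1`, both of size
`O(√d)` in the cone, so the entries of `T` are bounded.
-/

set_option autoImplicit false

namespace Pool.Agent.Lib.MP391708.TG

open Finset
open Pool.Agent.Lib.MP391708.Eqd (V cross pairs)

section

variable [Aa] [Frm]

lemma aut_mul_le {v w : V} {d : ℤ} (hv : Cn v) (hw : Cn w) (hdv : nsq v = d) (hdw : nsq w = d)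
    (i j : ℤ) (hi : i = v.1 ∨ i = v.2) (hj : j = w.1 ∨ j = w.2) :
    |i * j| ≤ 2 * PQ ^ 2 * d := by
  have h1 := sq_le_nsq hv
  have h2 := sq_le_nsq hw
  rw [hdv] at h1
  rw [hdw] at h2
  have hi2 : i ^ 2 ≤ 2 * PQ ^ 2 * d := by
    rcases hi with rfl | rfl
    · exact h1.1
    · exact h1.2
  have hj2 : j ^ 2 ≤ 2 * PQ ^ 2 * d := by
    rcases hj with rfl | rfl
    · exact h2.1
    · exact h2.2
  rw [abs_le]
  constructor <;> nlinarith [sq_nonneg (i + j), sq_nonneg (i - j)]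

/-- a number `z` with `d z = a₁ (v₁ w₁) + a₂ (v₁ w₂) + a₃ (v₂ w₁) + a₄ (v₂ w₂)` -/
lemma aut_entry {v w : V} {d : ℤ} (hd : 0 < d) (hv : Cn v) (hw : Cn w) (hdv : nsq v = d)
    (hdw : nsq w = d) {z a₁ a₂ a₃ a₄ : ℤ} (ha : |a₁| + |a₂| + |a₃| + |a₄| ≤ 2 * SS)
    (hz : d * z = a₁ * (v.1 * w.1) + a₂ * (v.1 * w.2) + a₃ * (v.2 * w.1) + a₄ * (v.2 * w.2)) :
    |z| ≤ 4 * SS * PQ ^ 2 := by
  have b1 := aut_mul_le hv hw hdv hdw v.1 w.1 (Or.inl rfl) (Or.inl rfl)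
  have b2 := aut_mul_le hv hw hdv hdw v.1 w.2 (Or.inl rfl) (Or.inr rfl)
  have b3 := aut_mul_le hv hw hdv hdw v.2 w.1 (Or.inr rfl) (Or.inl rfl)
  have b4 := aut_mul_le hv hw hdv hdw v.2 w.2 (Or.inr rfl) (Or.inr rfl)
  have hP : 0 ≤ 2 * PQ ^ 2 * d := by positivity
  have h1 : |d * z| ≤ (|a₁| + |a₂| + |a₃| + |a₄|) * (2 * PQ ^ 2 * d) := by
    rw [hz]
    calc |a₁ * (v.1 * w.1) + a₂ * (v.1 * w.2) + a₃ * (v.2 * w.1) + a₄ * (v.2 * w.2)|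
        ≤ |a₁ * (v.1 * w.1)| + |a₂ * (v.1 * w.2)| + |a₃ * (v.2 * w.1)| + |a₄ * (v.2 * w.2)| := by
          refine (abs_add_le _ _).trans ?_
          gcongr
          refine (abs_add_le _ _).trans ?_
          gcongr
          exact abs_add_le _ _
      _ = |a₁| * |v.1 * w.1| + |a₂| * |v.1 * w.2| + |a₃| * |v.2 * w.1| + |a₄| * |v.2 * w.2| := by
          rw [abs_mul a₁, abs_mul a₂, abs_mul a₃, abs_mul a₄]
      _ ≤ |a₁| * (2 * PQ ^ 2 * d) + |a₂| * (2 * PQ ^ 2 * d) + |a₃| * (2 * PQ ^ 2 * d) +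
          |a₄| * (2 * PQ ^ 2 * d) := by gcongr
      _ = _ := by ring
  have h2 : d * |z| ≤ d * (4 * SS * PQ ^ 2) := by
    calc d * |z| = |d * z| := by rw [abs_mul, abs_of_pos hd]
      _ ≤ (|a₁| + |a₂| + |a₃| + |a₄|) * (2 * PQ ^ 2 * d) := h1
      _ ≤ (2 * SS) * (2 * PQ ^ 2 * d) := mul_le_mul_of_nonneg_right ha hP
      _ = _ := by ring
  exact le_of_mul_le_mul_left h2 hd

end

/-- **AUT** -/
theorem specAUT [Aa] [Frm] : SpecAUT := by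
  classical
  set M0 : ℕ := (4 * SS * PQ ^ 2 : ℤ).toNat with hM0
  have hS0 := SS_nonneg
  have hM : ((M0 : ℕ) : ℤ) = 4 * SS * PQ ^ 2 := by
    rw [hM0, Int.toNat_of_nonneg (by positivity)]
  refine ⟨(Eqd.box M0 ×ˢ Eqd.box M0).card + 1, by omega, fun S M d hd hS => ?_⟩
  rcases S.eq_empty_or_nonempty with rfl | ⟨x₀, hx₀⟩
  · simp
  obtain ⟨c0, k0, m0, d0⟩ := hS x₀ hx₀
  have hcr : x₀.1.1 * x₀.2.2 - x₀.1.2 * x₀.2.1 = -1 := c0
  obtain ⟨u1, u2⟩ := dd_mul_snd c0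
  rw [m0, d0] at u1 u2
  let g : VV → V × V := fun x =>
    ((-x₀.2.2 * x.1.1 + x₀.1.2 * x.2.1, -x₀.2.2 * x.1.2 + x₀.1.2 * x.2.2),
      (x₀.2.1 * x.1.1 + (-x₀.1.1) * x.2.1, x₀.2.1 * x.1.2 + (-x₀.1.1) * x.2.2))
  have hmem : ∀ x ∈ S, g x ∈ Eqd.box M0 ×ˢ Eqd.box M0 := by
    intro x hx
    obtain ⟨c1, k1, m1, d1⟩ := hS x hx
    obtain ⟨w1, w2⟩ := dd_mul_snd c1
    rw [m1, d1] at w1 w2
    have hA0 := abs_nonneg Frm.A
    have hB0 := abs_nonneg Frm.B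
    have hC0 := abs_nonneg Frm.C
    have e : ∀ {z a₁ a₂ a₃ a₄ : ℤ}, |a₁| + |a₂| + |a₃| + |a₄| ≤ 2 * SS →
        d * z = a₁ * (x₀.1.1 * x.1.1) + a₂ * (x₀.1.1 * x.1.2) + a₃ * (x₀.1.2 * x.1.1) +
          a₄ * (x₀.1.2 * x.1.2) → |z| ≤ (M0 : ℤ) := by
      intro z a₁ a₂ a₃ a₄ h1 h2
      rw [hM]
      exact aut_entry hd k0 k1 d0 d1 h1 h2
    have f1 : |-x₀.2.2 * x.1.1 + x₀.1.2 * x.2.1| ≤ (M0 : ℤ) := by
      refine e (a₁ := Frm.A) (a₂ := 0) (a₃ := 2 * Frm.B) (a₄ := Frm.C) ?_ ?_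
      · rw [abs_mul]
        simp only [SS, abs_two, abs_zero]
        linarith
      · linear_combination (-x.1.1) * u2 + x₀.1.2 * w1
    have f2 : |-x₀.2.2 * x.1.2 + x₀.1.2 * x.2.2| ≤ (M0 : ℤ) := by
      refine e (a₁ := 0) (a₂ := Frm.A) (a₃ := -Frm.A) (a₄ := 0) ?_ ?_
      · rw [abs_neg]
        simp only [SS, abs_zero]
        linarith
      · linear_combination (-x.1.2) * u2 + x₀.1.2 * w2
    have f3 : |x₀.2.1 * x.1.1 + (-x₀.1.1) * x.2.1| ≤ (M0 : ℤ) := by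
      refine e (a₁ := 0) (a₂ := -Frm.C) (a₃ := Frm.C) (a₄ := 0) ?_ ?_
      · rw [abs_neg]
        simp only [SS, abs_zero]
        linarith
      · linear_combination x.1.1 * u1 + (-x₀.1.1) * w1
    have f4 : |x₀.2.1 * x.1.2 + (-x₀.1.1) * x.2.2| ≤ (M0 : ℤ) := by
      refine e (a₁ := Frm.A) (a₂ := 2 * Frm.B) (a₃ := 0) (a₄ := Frm.C) ?_ ?_
      · rw [abs_mul]
        simp only [SS, abs_two, abs_zero]
        linarith
      · linear_combination x.1.2 * u1 + (-x₀.1.1) * w2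
    rw [mem_product]
    simp only [g, Eqd.box, mem_product, mem_Icc]
    exact ⟨⟨abs_le.1 f1, abs_le.1 f2⟩, abs_le.1 f3, abs_le.1 f4⟩
  have hinj : Set.InjOn g (S : Set VV) := by
    intro x _ y _ hxy
    simp only [g, Prod.mk.injEq] at hxy
    obtain ⟨⟨a1, a2⟩, a3, a4⟩ := hxy
    refine Prod.ext (Prod.ext ?_ ?_) (Prod.ext ?_ ?_)
    · linear_combination x₀.1.1 * a1 + x₀.1.2 * a3 + (x.1.1 - y.1.1) * hcr
    · linear_combination x₀.1.1 * a2 + x₀.1.2 * a4 + (x.1.2 - y.1.2) * hcr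
    · linear_combination x₀.2.1 * a1 + x₀.2.2 * a3 + (x.2.1 - y.2.1) * hcr
    · linear_combination x₀.2.1 * a2 + x₀.2.2 * a4 + (x.2.2 - y.2.2) * hcr
  have := card_le_card_of_injOn g hmem hinj
  omega

end Pool.Agent.Lib.MP391708.TG
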