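import Pool.Agent.Lib.MP_391708_nt.TG.Aut
import Pool.Agent.Lib.MP_391708_nt.TA.Red
import Pool.Agent.Lib.MP_391708_nt.SR.RED

/-!
# Theorem T1b: finitely many forms represent all pairs `(M, d)` (CLS); for AUT see `TG/Aut.lean`

Indefinite forms: reduction to `0 < A ≤ k`, `|B|, |C| ≤ k`, `k = -a`; the automorphism from Pell's
equation; the cone from `SR/RED.lean`.
-/

set_option autoImplicit false

namespace Pool.Agent.Lib.MP391708.TG

open Finset
open Pool.Agent.Lib.MP391708.Eqd (V cross pairs)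

namespace ClsI

/-- the Gram matrix `(A, B; B, C)` of determinant `-k`, in a finite set -/
def IsRed (k A B C : ℤ) : Prop := 0 < A ∧ A ≤ k ∧ |B| ≤ k ∧ |C| ≤ k ∧ A * C - B ^ 2 = -k

lemma round_exists (M V : ℤ) (hV : V ≠ 0) : ∃ j : ℤ, 2 * |M - j * V| ≤ |V| := by
  rcases lt_or_gt_of_ne hV with h | h
  · obtain ⟨j, hj⟩ := TA.Red.round_exists M (-V) (by linarith)
    refine ⟨-j, ?_⟩
    rw [abs_of_neg h]
    rwa [show M - -j * V = M - j * -V by ring]
  · obtain ⟨j, hj⟩ := TA.Red.round_exists M V h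
    exact ⟨j, by rwa [abs_of_pos h]⟩

/-- **reduction** of indefinite forms -/
theorem exists_red (k : ℤ) (hk : 0 < k) (hs : ¬ IsSquare k) : ∀ (n : ℕ) (V M W : ℤ), V.natAbs ≤ n →
    V * W - M ^ 2 = -k → ∃ A B C : ℤ, IsRed k A B C ∧ ∃ v w : ℤ × ℤ,
      v.1 * w.2 - v.2 * w.1 = 1 ∧ TA.Red.q A B C v = V ∧ TA.Red.bil A B C v w = M ∧
      TA.Red.q A B C w = W := by
  intro n
  induction n with
  | zero =>
    intro V M W h1 h2
    exfalso
    have hV : V = 0 := by omega
    exact hs ⟨M, by rw [hV] at h2; linarith⟩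
  | succ n ih =>
    intro V M W hn h
    have hV : V ≠ 0 := by
      rintro rfl
      exact hs ⟨M, by linarith⟩
    obtain ⟨j, hj⟩ := round_exists M V hV
    set M' := M - j * V with hM'
    set W' := W - 2 * j * M + j ^ 2 * V with hW'
    have h' : V * W' - M' ^ 2 = -k := by rw [hM', hW', ← h]; ring
    have hW0 : W' ≠ 0 := by
      intro h0
      rw [h0] at h'
      exact hs ⟨M', by linarith⟩
    by_cases hVW : |V| ≤ |W'|
    · have hV0 : 0 < |V| := abs_pos.2 hV
      have hM2 : 4 * M' ^ 2 ≤ |V| ^ 2 := by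
        have h6 : (2 * |M'|) ^ 2 ≤ |V| ^ 2 := pow_le_pow_left₀ (by positivity) hj 2
        rw [mul_pow, sq_abs] at h6
        linarith
      have hVV : |V| ^ 2 ≤ |V * W'| := by
        rw [abs_mul, sq]
        exact mul_le_mul_of_nonneg_left hVW hV0.le
      have hneg : V * W' < 0 := by
        by_contra hc
        rw [not_lt] at hc
        rw [abs_of_nonneg hc] at hVV
        nlinarith
      rw [abs_of_neg hneg] at hVV
      have hle : -(V * W') ≤ k := by nlinarith [sq_nonneg M']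
      have hW1 : 0 < |W'| := abs_pos.2 hW0
      have habs : |V| * |W'| ≤ k := by
        rw [← abs_mul, abs_of_neg hneg]; exact hle
      have hVk : |V| ≤ k := by nlinarith
      have hWk : |W'| ≤ k := by nlinarith
      have hMk : |M'| ≤ k := by
        have := abs_nonneg M'
        linarith
      rcases lt_or_gt_of_ne hV with hV1 | hV1
      · have hW2 : 0 < W' := by
          by_contra hc
          rw [not_lt] at hc
          nlinarith
        refine ⟨W', -M', V, ⟨hW2, (le_abs_self _).trans hWk, by rwa [abs_neg], hVk, ?_⟩,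
          (0, -1), (1, -j), by norm_num, ?_, ?_, ?_⟩
        · rw [← h']; ring
        · simp [TA.Red.q]
        · simp only [TA.Red.bil, hM']; ring
        · simp only [TA.Red.q, hM', hW']; ring
      · refine ⟨V, M', W', ⟨hV1, (le_abs_self _).trans hVk, hMk, hWk, h'⟩, (1, 0), (j, 1),
          by norm_num, ?_, ?_, ?_⟩
        · simp [TA.Red.q]
        · simp only [TA.Red.bil, hM']; ring
        · simp only [TA.Red.q, hM', hW']; ring
    · have hlt : W'.natAbs < V.natAbs := by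
        rw [← Int.ofNat_lt, Int.natCast_natAbs, Int.natCast_natAbs]
        exact not_le.1 hVW
      obtain ⟨A, B, C, hR, v, w, hc, e1, e2, e3⟩ := ih W' (-M') V (by omega)
        (by rw [← h']; ring)
      refine ⟨A, B, C, hR, (-w.1, -w.2), (v.1 - j * w.1, v.2 - j * w.2), ?_, ?_, ?_, ?_⟩
      · simp only; linarith
      · simp only [TA.Red.q] at e3 ⊢; linarith
      · simp only [TA.Red.q, TA.Red.bil] at e1 e2 e3 ⊢
        have : M = M' + j * V := by rw [hM']; ring
        rw [this, ← e3]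
        have e2' : M' = -(A * v.1 * w.1 + B * (v.1 * w.2 + v.2 * w.1) + C * v.2 * w.2) := by
          linarith
        rw [e2']; ring
      · simp only [TA.Red.q, TA.Red.bil] at e1 e2 e3 ⊢
        have : W = W' + 2 * j * M' + j ^ 2 * V := by rw [hM', hW']; ring
        rw [this]
        have e2' : M' = -(A * v.1 * w.1 + B * (v.1 * w.2 + v.2 * w.1) + C * v.2 * w.2) := by
          linarith
        rw [e2', ← e1, ← e3]; ring

/-- the finite set of reduced Gram matrices -/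
noncomputable def reds (k : ℤ) : Finset (ℤ × ℤ × ℤ) := by
  classical
  exact (Finset.Icc (-k) k ×ˢ Finset.Icc (-k) k ×ˢ Finset.Icc (-k) k).filter
    (fun t => IsRed k t.1 t.2.1 t.2.2)

lemma mem_reds {k A B C : ℤ} (h : IsRed k A B C) : (A, B, C) ∈ reds k := by
  classical
  have h' := h
  obtain ⟨h1, h2, h3, h4, h5⟩ := h
  simp only [reds, Finset.mem_filter, Finset.mem_product, Finset.mem_Icc]
  exact ⟨⟨⟨by linarith, h2⟩, abs_le.1 h3, abs_le.1 h4⟩, h'⟩

lemma not_isSquare_aa [Aa] : ¬ IsSquare (aa : ℤ) := by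
  rintro ⟨s, hs⟩
  obtain ⟨n, hn⟩ := nsq_az
  have h0 : -az = s * s := by rw [az_eq, neg_neg]; exact hs
  rcases Nat.mod_two_eq_zero_or_one n with h | h
  · rw [TA.chz_even h] at hn
    norm_num at hn
  · rw [TA.chz_odd h, h0, jacobiSym.mul_left] at hn
    have h1 := mul_self_nonneg (jacobiSym s n)
    rw [hn] at h1
    norm_num at h1

lemma exists_pell [Aa] : ∃ x y : ℤ, x ^ 2 - (aa : ℤ) * y ^ 2 = 1 ∧ 0 < x ∧ 0 < y := by
  obtain ⟨x, y, h, hy⟩ := Pell.exists_of_not_isSquare aa_posZ not_isSquare_aa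
  have hy2 : 0 < y ^ 2 := by positivity
  have ha := aa_posZ
  refine ⟨|x|, |y|, by rw [sq_abs, sq_abs]; exact h, ?_, abs_pos.2 hy⟩
  rw [abs_pos]
  rintro rfl
  nlinarith [mul_pos ha hy2]

/-- an automorphism of `(A, B; B, C)` -/
noncomputable def au [Aa] {A B C : ℤ} (hA : 0 < A) (hd : A * C - B ^ 2 = az) :
    SR.Au (⟨A, B, C⟩ : SG.Fm) :=
  let x := exists_pell.choose
  let y := exists_pell.choose_spec.choose
  have h : x ^ 2 - (aa : ℤ) * y ^ 2 = 1 ∧ 0 < x ∧ 0 < y := exists_pell.choose_spec.choose_spec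
  { p := x - B * y
    q := -(C * y)
    r := A * y
    s := x + B * y
    det := by
      have h1 : x ^ 2 - (aa : ℤ) * y ^ 2 = 1 := h.1
      rw [az_eq] at hd
      linear_combination h1 + y ^ 2 * hd
    inv := fun v w => by
      have h1 : x ^ 2 - (aa : ℤ) * y ^ 2 = 1 := h.1
      rw [az_eq] at hd
      simp only [SG.Fm.b]
      linear_combination (A * v.1 * w.1 + B * (v.1 * w.2 + v.2 * w.1) + C * v.2 * w.2) *
        (h1 + y ^ 2 * hd)
    rpos := mul_pos hA h.2.2
    bpos := by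
      have h2 : 0 < x := h.2.1
      show 0 < A * (x - B * y) + B * (A * y)
      have : A * (x - B * y) + B * (A * y) = A * x := by ring
      rw [this]
      exact mul_pos hA h2 }

/-- the form with its automorphism as an instance -/
@[reducible] noncomputable def frm [Aa] {A B C : ℤ} (hA : 0 < A) (hd : A * C - B ^ 2 = az) : Frm :=
  { A := A
    B := B
    C := C
    hA := hA
    det := hd
    P := (au hA hd).p
    Q := (au hA hd).q
    R := (au hA hd).r
    S := (au hA hd).s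
    mdet := (au hA hd).det
    inv := fun v w => by
      have h1 := (au hA hd).inv v w
      unfold SG.Fm.b at h1
      simp only at h1
      linear_combination h1
    rpos := (au hA hd).rpos
    bpos := (au hA hd).bpos }

lemma idf [Aa] {A B C : ℤ} (hA : 0 < A) (hd : A * C - B ^ 2 = az) :
    SR.Idf (⟨A, B, C⟩ : SG.Fm) := by
  have ha : (⟨A, B, C⟩ : SG.Fm).a = az := hd
  refine ⟨hA, ?_, ?_⟩
  · rw [ha]; exact az_neg
  · rw [ha, az_eq, neg_neg]; exact not_isSquare_aa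

/-- move a pair to the cone -/
lemma to_cone [Aa] {A B C : ℤ} (hA : 0 < A) (hd : A * C - B ^ 2 = az) (v w : V)
    (hv : 0 < (⟨A, B, C⟩ : SG.Fm).q v) : ∃ v' w' : V, cross v' w' = cross v w ∧
      SR.Cn (au hA hd) v' ∧ (⟨A, B, C⟩ : SG.Fm).q v' = (⟨A, B, C⟩ : SG.Fm).q v ∧
      (⟨A, B, C⟩ : SG.Fm).b v' w' = (⟨A, B, C⟩ : SG.Fm).b v w := by
  set F : SG.Fm := ⟨A, B, C⟩ with hF
  have hI : SR.Idf F := idf hA hd
  have main : ∀ v w : V, 0 < F.q v → 0 < F.A * v.1 + F.B * v.2 → ∃ v' w' : V,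
      cross v' w' = cross v w ∧ SR.Cn (au hA hd) v' ∧ F.q v' = F.q v ∧ F.b v' w' = F.b v w := by
    intro v w h1 h2
    obtain ⟨j, hj⟩ := SR.RD.exists_cn (au hA hd) hI v ⟨h1, h2⟩
    have hG := SR.RD.zpow_mem (au hA hd) hI j
    refine ⟨((au hA hd).E ^ j) v, ((au hA hd).E ^ j) w, hG.1 v w, hj, ?_, hG.2.1 v w⟩
    rw [← SR.LG.b_self, ← SR.LG.b_self, hG.2.1]
  have hl : F.A * v.1 + F.B * v.2 ≠ 0 := by
    intro h0
    have h1 : A * v.1 + B * v.2 = 0 := h0
    have h2 : 0 < A * v.1 ^ 2 + 2 * B * v.1 * v.2 + C * v.2 ^ 2 := hv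
    have h3 : A * (A * v.1 ^ 2 + 2 * B * v.1 * v.2 + C * v.2 ^ 2) =
        (A * v.1 + B * v.2) ^ 2 + (A * C - B ^ 2) * v.2 ^ 2 := by ring
    rw [h1, hd] at h3
    have h4 := mul_pos hA h2
    have h5 : az * v.2 ^ 2 ≤ 0 := mul_nonpos_of_nonpos_of_nonneg az_neg.le (sq_nonneg _)
    rw [h3] at h4
    linarith
  rcases lt_or_gt_of_ne hl with h | h
  · obtain ⟨v', w', a1, a2, a3, a4⟩ := main (-v.1, -v.2) (-w.1, -w.2) (by
      have : F.q (-v.1, -v.2) = F.q v := by simp only [SG.Fm.q]; ring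
      rw [this]; exact hv) (by
      show 0 < F.A * (-v.1) + F.B * (-v.2)
      linarith)
    refine ⟨v', w', ?_, a2, ?_, ?_⟩
    · rw [a1]; simp only [cross]; ring
    · rw [a3]; simp only [SG.Fm.q]; ring
    · rw [a4]; simp only [SG.Fm.b]; ring
  · exact main v w hv h

end ClsI

/-- **CLS** -/
theorem specCLS [Aa] : SpecCLS := by
  classical
  have hred : ∀ t : ClsI.reds (aa : ℤ), ClsI.IsRed (aa : ℤ) t.1.1 t.1.2.1 t.1.2.2 := by
    intro t
    have := t.2
    unfold ClsI.reds at this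
    exact (mem_filter.1 this).2
  let F : ClsI.reds (aa : ℤ) → Frm := fun t =>
    ClsI.frm (A := t.1.1) (B := t.1.2.1) (C := t.1.2.2) (hred t).1 (hred t).2.2.2.2
  refine ⟨(ClsI.reds (aa : ℤ)).card, fun i => F ((ClsI.reds (aa : ℤ)).equivFin.symm i), ?_⟩
  intro M d hM hMa hd hdvd
  obtain ⟨W, hW⟩ := hdvd
  obtain ⟨A, B, C, h1, v, w, h2, h3, h4, h5⟩ := ClsI.exists_red (aa : ℤ) aa_posZ
    ClsI.not_isSquare_aa d.natAbs d M W le_rfl (by rw [← hW, az_eq]; ring)
  have h1' : ClsI.IsRed (aa : ℤ) A (-B) C := by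
    obtain ⟨a1, a2, a3, a4, a5⟩ := h1
    exact ⟨a1, a2, by rwa [abs_neg], a4, by rw [← a5]; ring⟩
  obtain ⟨t, ht⟩ : ∃ t : ClsI.reds (aa : ℤ), t.1 = (A, -B, C) := ⟨⟨_, ClsI.mem_reds h1'⟩, rfl⟩
  have t1 : t.1.1 = A := by rw [ht]
  have t2 : t.1.2.1 = -B := by rw [ht]
  have t3 : t.1.2.2 = C := by rw [ht]
  obtain ⟨v', w', a1, a2, a3, a4⟩ := ClsI.to_cone (hred t).1 (hred t).2.2.2.2 (v.1, -v.2)
    (w.1, -w.2) (by
      have : (⟨t.1.1, t.1.2.1, t.1.2.2⟩ : SG.Fm).q (v.1, -v.2) = d := by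
        rw [← h3]; simp only [SG.Fm.q, TA.Red.q, t1, t2, t3]; ring
      rw [this]; exact hd)
  have fin : ∀ t' : ClsI.reds (aa : ℤ), t' = t → @Cn _ (F t') v' ∧
      @mm _ (F t') (v', w') = M ∧ @dd _ (F t') (v', w') = d := by
    rintro t' ht'
    rw [ht']
    refine ⟨a2, ?_, ?_⟩
    · have e : @mm _ (F t) (v', w') = (⟨t.1.1, t.1.2.1, t.1.2.2⟩ : SG.Fm).b v' w' := by
        show t.1.1 * (v'.1 * w'.1) + t.1.2.1 * (v'.1 * w'.2 + v'.2 * w'.1) +
          t.1.2.2 * (v'.2 * w'.2) = _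
        simp only [SG.Fm.b]; ring
      rw [e, a4, ← h4]
      simp only [SG.Fm.b, TA.Red.bil, t1, t2, t3]
      ring
    · have e : @dd _ (F t) (v', w') = (⟨t.1.1, t.1.2.1, t.1.2.2⟩ : SG.Fm).q v' := rfl
      rw [e, a3, ← h3]
      simp only [SG.Fm.q, TA.Red.q, t1, t2, t3]
      ring
  refine ⟨(ClsI.reds (aa : ℤ)).equivFin t, (v', w'), ?_, fin _ (Equiv.symm_apply_apply _ _)⟩
  show cross v' w' = -1
  rw [a1]; simp only [cross]; linarith

end Pool.Agent.Lib.MP391708.TG
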