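import Pool.Agent.Lib.MP_391708_nt.TG.BasF

/-!
# Theorem T1a: basic lemmas (namespace `TG.Bs`)
-/

set_option autoImplicit false

namespace Pool.Agent.Lib.MP391708.TG

open Finset Filter Topology
open Pool.Agent.Lib.MP391708.Eqd (V cross pairs)
open scoped Classical

namespace Bs

/-! ## The determinant -/

section det

variable [Aa]

theorem aa_pos : 0 < aa := Aa.ha

theorem aa_one_le : 1 ≤ aa := Aa.ha

theorem aa_ne : aa ≠ 0 := aa_pos.ne'

theorem aa_sqf : Squarefree aa := Aa.sqf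

theorem aa_pos_int : (0 : ℤ) < (aa : ℤ) := by exact_mod_cast aa_pos

theorem aa_one_le_int : (1 : ℤ) ≤ (aa : ℤ) := by exact_mod_cast aa_pos

theorem aa_pos_real : (0 : ℝ) < (aa : ℝ) := by exact_mod_cast aa_pos

theorem aa_one_le_real : (1 : ℝ) ≤ (aa : ℝ) := by exact_mod_cast aa_pos

theorem nsq_chz : TA.Nsq az := nsq_az

/-- `-a` is not a square -/
theorem sq_ne (M : ℤ) : M ^ 2 + az ≠ 0 := by
  intro h
  obtain ⟨n, hn⟩ := nsq_az
  have h1 : -az = M ^ 2 := by linarith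
  unfold TA.chz at hn
  split_ifs at hn with h2
  rw [h1, jacobiSym.pow_left] at hn
  rcases jacobiSym.trichotomy M n with h3 | h3 | h3 <;> rw [h3] at hn <;> norm_num at hn

/-- `|M² + a| > 0`, every `M` -/
theorem vl_pos_all (M : ℕ) : 0 < vl M := by
  unfold vl
  exact Int.natAbs_pos.2 (sq_ne _)

theorem vl_cast_abs (M : ℕ) : ((vl M : ℕ) : ℤ) = |(M : ℤ) ^ 2 + az| := by
  unfold vl
  rw [Int.natCast_natAbs]

theorem sq_add_pos_int {n : ℤ} (h : (aa : ℤ) < n ^ 2) : 0 < n ^ 2 + az := by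
  rw [az_eq]
  linarith

/-- for `M ≥ aa + 1` -/
theorem lt_sq {M : ℕ} (h : aa < M) : aa < M ^ 2 := by
  have : 1 ≤ M := by omega
  nlinarith

/-! ## Split primes -/

theorem spl_iff {l : ℕ} : spl l ↔ TA.chz az l = 1 := Iff.rfl

theorem spl_one : spl 1 := TA.chz_one _

theorem ch_of_spl {l : ℕ} (h : spl l) : ch l = 1 := by
  unfold ch TA.ch
  rw [h]
  norm_num

theorem ch_le_one (l : ℕ) : ch l ≤ 1 := TA.ch_le _ l

theorem neg_one_le_ch (l : ℕ) : -1 ≤ ch l := TA.ch_ge _ l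

theorem abs_ch_le (l : ℕ) : |ch l| ≤ 1 := TA.ch_abs_le _ l

/-- a split number is prime to `2a` -/
theorem coprime_of_spl {l : ℕ} (h : spl l) : l.Coprime (2 * aa) := by
  have hl : l ≠ 0 := by
    rintro rfl
    unfold spl at h
    rw [TA.chz_zero] at h
    exact zero_ne_one h
  by_contra hc
  have h1 := (TA.chz_eq_zero_iff (a := az) hl).2 (by rwa [az_natAbs])
  unfold spl at h
  rw [h1] at h
  exact zero_ne_one h

theorem odd_of_spl {l : ℕ} (h : spl l) : l % 2 = 1 := by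
  by_contra hc
  have h2 : l % 2 = 0 := by omega
  unfold spl at h
  rw [TA.chz_even h2] at h
  exact zero_ne_one h

theorem ne_two_of_spl {l : ℕ} (h : spl l) : l ≠ 2 := by
  rintro rfl
  have := odd_of_spl h
  omega

theorem not_dvd_aa_of_spl {l : ℕ} (hl : l.Prime) (h : spl l) : ¬ l ∣ aa := by
  intro hd
  have h1 := coprime_of_spl h
  have h2 : l ∣ Nat.gcd l (2 * aa) := Nat.dvd_gcd dvd_rfl (hd.mul_left 2)
  rw [h1] at h2
  exact hl.one_lt.ne' (Nat.dvd_one.1 h2)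

theorem not_dvd_two_aa_of_spl {l : ℕ} (hl : l.Prime) (h : spl l) : ¬ l ∣ 2 * aa := by
  intro hd
  have h1 := coprime_of_spl h
  have h2 : l ∣ Nat.gcd l (2 * aa) := Nat.dvd_gcd dvd_rfl hd
  rw [h1] at h2
  exact hl.one_lt.ne' (Nat.dvd_one.1 h2)

theorem three_le_of_spl {l : ℕ} (hl : l.Prime) (h : spl l) : 3 ≤ l := by
  have h1 := ne_two_of_spl h
  have h2 := hl.two_le
  omega

theorem spl_mul {m n : ℕ} (hm : spl m) (hn : spl n) : spl (m * n) := by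
  unfold spl at *
  rw [TA.chz_mul, hm, hn, mul_one]

theorem natCast_dvd_az {l : ℕ} : (l : ℤ) ∣ az ↔ l ∣ aa := by
  rw [az_eq, Int.dvd_neg, Int.natCast_dvd_natCast]

/-- `spl l` iff `-a` is a square modulo `l`, for primes `l ∤ 2a` -/
theorem spl_iff_exists {l : ℕ} (hl : l.Prime) (h2 : ¬ l ∣ 2 * aa) :
    spl l ↔ ∃ s : ℤ, (l : ℤ) ∣ s ^ 2 + az := by
  refine TA.chz_prime_one hl ?_ ?_
  · rintro rfl
    exact h2 (Dvd.intro _ rfl)
  · intro h
    exact h2 ((natCast_dvd_az.1 h).mul_left 2)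

/-- the prime divisors of `M² + a` which do not divide `2a` are split -/
theorem spl_of_dvd_int {l : ℕ} (hl : l.Prime) (h2 : ¬ l ∣ 2 * aa) {M : ℤ}
    (h : (l : ℤ) ∣ M ^ 2 + az) : spl l := (spl_iff_exists hl h2).2 ⟨M, h⟩

theorem spl_of_dvd {l : ℕ} (hl : l.Prime) (h2 : ¬ l ∣ 2 * aa) {M : ℕ} (h : l ∣ vl M) :
    spl l := spl_of_dvd_int hl h2 (M := (M : ℤ)) (natCast_dvd_vl.1 h)

/-- the same if the prime is larger than `2a` -/
theorem spl_of_dvd_of_lt {l : ℕ} (hl : l.Prime) (h2 : 2 * aa < l) {M : ℕ} (h : l ∣ vl M) :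
    spl l :=
  spl_of_dvd hl (fun hd => by
    have := Nat.le_of_dvd (by have := aa_pos; omega) hd
    omega) h

theorem exists_root {l : ℕ} (hl : l.Prime) (h : spl l) : ∃ s : ℤ, (l : ℤ) ∣ s ^ 2 + az :=
  (spl_iff_exists hl (not_dvd_two_aa_of_spl hl h)).1 h

theorem not_dvd_of_dvd {l : ℕ} (hl : l.Prime) (h : spl l) {M : ℤ}
    (hd : (l : ℤ) ∣ M ^ 2 + az) : ¬ (l : ℤ) ∣ M := by
  intro h1
  have h2 : (l : ℤ) ∣ M ^ 2 := dvd_pow h1 two_ne_zero
  have h3 : (l : ℤ) ∣ az := by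
    have := dvd_sub hd h2
    rwa [add_sub_cancel_left] at this
  exact not_dvd_aa_of_spl hl h (natCast_dvd_az.1 h3)

/-! ## `PP` -/

theorem mem_PP {p : Prm} {N l : ℕ} :
    l ∈ PP p N ↔ (l : ℝ) < zz p N ∧ l.Prime ∧ spl l ∧ p.E < l := by
  unfold PP
  rw [mem_filter, mem_range, Nat.lt_ceil]

theorem prime_of_mem_PP {p : Prm} {N l : ℕ} (h : l ∈ PP p N) : l.Prime := (mem_PP.1 h).2.1

theorem lt_of_mem_PP {p : Prm} {N l : ℕ} (h : l ∈ PP p N) : (l : ℝ) < zz p N := (mem_PP.1 h).1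

theorem spl_of_mem_PP {p : Prm} {N l : ℕ} (h : l ∈ PP p N) : spl l := (mem_PP.1 h).2.2.1

theorem E_lt_of_mem_PP {p : Prm} {N l : ℕ} (h : l ∈ PP p N) : p.E < l := (mem_PP.1 h).2.2.2

/-! ## `rp`, `ch` -/

theorem one_sub_pos {l : ℕ} (hl : l.Prime) : 0 < 1 - ch l / l := TA.one_sub_pos hl

theorem rp_pos (D : ℕ) : 0 < rp D :=
  prod_pos fun _ hl => one_sub_pos (Nat.prime_of_mem_primeFactors hl)

theorem rp_one : rp 1 = 1 := by simp [rp]

/-! ## `Good` -/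

omit [Aa] in
/-- every condition on `E` -/
theorem good_E (K : ℕ) : Good (fun p => K ≤ p.E) :=
  ⟨K, fun _ hE => ⟨0, fun _ _ => ⟨0, fun _ _ => ⟨0, fun _ _ => ⟨1, one_pos, fun _ _ _ => hE⟩⟩⟩⟩⟩

/-- `E ≥ 2a` -/
theorem good_aa : Good (fun p => 2 * aa ≤ p.E) := good_E _

theorem not_dvd_of_lt {p : Prm} (hp : 2 * aa ≤ p.E) {l : ℕ} (h : p.E < l) : ¬ l ∣ 2 * aa :=
  fun hd => by
    have := Nat.le_of_dvd (by have := aa_pos; omega) hd
    omega

/-- the primes `l > E` that divide `M² + a` are split -/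
theorem spl_of_dvd_of_E {p : Prm} (hp : 2 * aa ≤ p.E) {l : ℕ} (hl : l.Prime) (h : p.E < l)
    {M : ℕ} (hd : l ∣ vl M) : spl l := spl_of_dvd hl (not_dvd_of_lt hp h) hd

end det

/-! ## The form -/

section form

variable [Aa] [Frm]

theorem det : (Frm.A * Frm.C - Frm.B ^ 2 : ℤ) = az := Frm.det

theorem nsq_mul (v w : V) : nsq v * nsq w = dot v w ^ 2 + az * cross v w ^ 2 := by
  unfold nsq dot cross
  rw [← det]
  ring

theorem A_nsq (v : V) : Frm.A * nsq v = (Frm.A * v.1 + Frm.B * v.2) ^ 2 + az * v.2 ^ 2 := by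
  unfold nsq
  rw [← det]
  ring

theorem C_nsq (v : V) : Frm.C * nsq v = (Frm.B * v.1 + Frm.C * v.2) ^ 2 + az * v.1 ^ 2 := by
  unfold nsq
  rw [← det]
  ring

theorem nsq_zero : nsq (0 : V) = 0 := by simp [nsq]

/-- in the cone, `v.1 ^ 2 + v.2 ^ 2 ≤ 4 P² F(v)` -/
theorem sq_add_sq_le {v : V} (h : Cn v) : v.1 ^ 2 + v.2 ^ 2 ≤ 4 * PQ ^ 2 * nsq v := by
  have h1 := sq_le_nsq h
  linarith [h1.1, h1.2]

theorem nsq_nonneg {v : V} (h : Cn v) : 0 ≤ nsq v := by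
  have h1 := sq_add_sq_le h
  by_contra hc
  push Not at hc
  have h0 : PQ ^ 2 * nsq v ≤ 0 := mul_nonpos_of_nonneg_of_nonpos (sq_nonneg _) hc.le
  have h2 : v.1 = 0 := by nlinarith [sq_nonneg v.1, sq_nonneg v.2]
  have h3 : v.2 = 0 := by nlinarith [sq_nonneg v.1, sq_nonneg v.2]
  have : nsq v = 0 := by simp [nsq, h2, h3]
  omega

theorem nsq_pos {v : V} (h : Cn v) : 0 < nsq v := by
  rcases (nsq_nonneg h).eq_or_lt with h0 | h0
  · exfalso
    have h1 := sq_add_sq_le h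
    rw [← h0, mul_zero] at h1
    have h2 : v.1 = 0 := by nlinarith [sq_nonneg v.1, sq_nonneg v.2]
    have h3 : v.2 = 0 := by nlinarith [sq_nonneg v.1, sq_nonneg v.2]
    have h4 := h.2
    simp [cross, h2, h3] at h4
  · exact h0

/-- `|F(v)| ≤ (|A| + |B| + |C|) |v|²` -/
theorem abs_nsq_le (v : V) : |nsq v| ≤ SS * (v.1 ^ 2 + v.2 ^ 2) := by
  unfold nsq SS
  have e1 : |2 * v.1 * v.2| ≤ v.1 ^ 2 + v.2 ^ 2 := by
    rw [abs_le]
    constructor <;> nlinarith [sq_nonneg (v.1 + v.2), sq_nonneg (v.1 - v.2)]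
  calc |Frm.A * v.1 ^ 2 + 2 * Frm.B * v.1 * v.2 + Frm.C * v.2 ^ 2|
      = |Frm.A * v.1 ^ 2 + Frm.B * (2 * v.1 * v.2) + Frm.C * v.2 ^ 2| := by congr 1; ring
    _ ≤ |Frm.A * v.1 ^ 2| + |Frm.B * (2 * v.1 * v.2)| + |Frm.C * v.2 ^ 2| := by
        refine (abs_add_le _ _).trans ?_
        gcongr
        exact abs_add_le _ _
    _ = |Frm.A| * v.1 ^ 2 + |Frm.B| * |2 * v.1 * v.2| + |Frm.C| * v.2 ^ 2 := by
        rw [abs_mul, abs_mul Frm.B, abs_mul Frm.C, abs_of_nonneg (sq_nonneg v.1),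
          abs_of_nonneg (sq_nonneg v.2)]
    _ ≤ |Frm.A| * (v.1 ^ 2 + v.2 ^ 2) + |Frm.B| * (v.1 ^ 2 + v.2 ^ 2) +
        |Frm.C| * (v.1 ^ 2 + v.2 ^ 2) := by
        gcongr
        · linarith [sq_nonneg v.2]
        · linarith [sq_nonneg v.1]
    _ = _ := by ring

theorem nsq_neg (v : V) : nsq (-v) = nsq v := by
  unfold nsq
  simp only [Prod.fst_neg, Prod.snd_neg]
  ring

theorem dot_comm (v w : V) : dot v w = dot w v := by
  unfold dot
  ring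

theorem dot_self (v : V) : dot v v = nsq v := by
  unfold dot nsq
  ring

theorem dot_add_left (u v w : V) : dot (u + v) w = dot u w + dot v w := by
  unfold dot
  simp only [Prod.fst_add, Prod.snd_add]
  ring

theorem dot_add_right (u v w : V) : dot u (v + w) = dot u v + dot u w := by
  unfold dot
  simp only [Prod.fst_add, Prod.snd_add]
  ring

theorem dot_smul_left (t : ℤ) (v w : V) : dot (t • v) w = t * dot v w := by
  unfold dot
  simp only [Prod.smul_fst, Prod.smul_snd, smul_eq_mul]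
  ring

theorem dot_smul_right (t : ℤ) (v w : V) : dot v (t • w) = t * dot v w := by
  unfold dot
  simp only [Prod.smul_fst, Prod.smul_snd, smul_eq_mul]
  ring

theorem nsq_smul (t : ℤ) (v : V) : nsq (t • v) = t ^ 2 * nsq v := by
  unfold nsq
  simp only [Prod.smul_fst, Prod.smul_snd, smul_eq_mul]
  ring

theorem nsq_add (v w : V) : nsq (v + w) = nsq v + 2 * dot v w + nsq w := by
  unfold nsq dot
  simp only [Prod.fst_add, Prod.snd_add]
  ring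

/-! ## Unimodular pairs -/

theorem dd_mul_ee' {x : VV} (h : cross x.1 x.2 = -1) : dd x * ee x = mm x ^ 2 + az :=
  TG.dd_mul_ee' h

theorem dd_mul_ee {x : VV} (h : CC x) : dd x * ee x = mm x ^ 2 + az := TG.dd_mul_ee' h.1

theorem dd_pos {x : VV} (h : CC x) : 0 < dd x := h.2.2.1

theorem ee_pos {x : VV} (h : CC x) : 0 < ee x := h.2.2.2

theorem dd_nonneg {x : VV} (h : CC x) : 0 ≤ dd x := (dd_pos h).le

theorem ee_nonneg {x : VV} (h : CC x) : 0 ≤ ee x := (ee_pos h).le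

theorem dd_dvd {x : VV} (h : cross x.1 x.2 = -1) : dd x ∣ mm x ^ 2 + az :=
  ⟨ee x, (dd_mul_ee' h).symm⟩

theorem ee_dvd {x : VV} (h : cross x.1 x.2 = -1) : ee x ∣ mm x ^ 2 + az :=
  ⟨dd x, by rw [mul_comm, dd_mul_ee' h]⟩

/-- `qf x s t = F(s v + t w)` -/
theorem qf_eq (x : VV) (s t : ℤ) : qf x s t = nsq (s • x.1 + t • x.2) := by
  rw [nsq_add, nsq_smul, nsq_smul, dot_smul_left, dot_smul_right]
  unfold qf dd ee mm
  ring

theorem dd_mul_qf {x : VV} (h : cross x.1 x.2 = -1) (s t : ℤ) :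
    dd x * qf x s t = (dd x * s + mm x * t) ^ 2 + az * t ^ 2 := by
  have h1 := dd_mul_ee' h
  unfold qf
  linear_combination t ^ 2 * h1

theorem ee_mul_qf {x : VV} (h : cross x.1 x.2 = -1) (s t : ℤ) :
    ee x * qf x s t = (ee x * t + mm x * s) ^ 2 + az * s ^ 2 := by
  have h1 := dd_mul_ee' h
  unfold qf
  linear_combination s ^ 2 * h1

/-! ## `Gam` -/

omit [Aa] [Frm] in
theorem mem_pairs {J M : ℕ} {x : VV} : x ∈ pairs J M ↔
    ((|x.1.1| ≤ M ∧ |x.1.2| ≤ M) ∧ |x.2.1| ≤ M ∧ |x.2.2| ≤ M) ∧ cross x.1 x.2 = -(J : ℤ) := by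
  rw [Eqd.mem_pairs, Eqd.mem_box, Eqd.mem_box]

theorem mem_Gam {N : ℕ} {α β : ℝ} {x : VV} :
    x ∈ Gam N α β ↔ CC x ∧ (N : ℤ) < mm x ∧ mm x ≤ 2 * N ∧
      α * (mm x : ℝ) < (dd x : ℝ) ∧ (dd x : ℝ) ≤ β * (mm x : ℝ) := TG.mem_Gam

theorem CC_of_mem_Gam {N : ℕ} {α β : ℝ} {x : VV} (h : x ∈ Gam N α β) : CC x := (mem_Gam.1 h).1

theorem cross_of_mem_Gam {N : ℕ} {α β : ℝ} {x : VV} (h : x ∈ Gam N α β) :
    cross x.1 x.2 = -1 := (mem_Gam.1 h).1.1

theorem Gam_mono {N : ℕ} {α β α' β' : ℝ} (hα : α' ≤ α) (hβ : β ≤ β') :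
    Gam N α β ⊆ Gam N α' β' := by
  intro x hx
  rw [mem_Gam] at hx ⊢
  obtain ⟨h1, h2, h3, h4, h5⟩ := hx
  have h6 : (0 : ℝ) ≤ (mm x : ℝ) := by
    have h7 : (0 : ℤ) ≤ mm x := by
      have : (0 : ℤ) ≤ N := Int.natCast_nonneg N
      linarith
    exact_mod_cast h7
  exact ⟨h1, h2, h3, lt_of_le_of_lt (mul_le_mul_of_nonneg_right hα h6) h4,
    h5.trans (mul_le_mul_of_nonneg_right hβ h6)⟩

end form

end Bs

end Pool.Agent.Lib.MP391708.TG
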