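import Pool.Agent.Lib.MP_391708_nt.TG.Spec
import Pool.Agent.Lib.MP_391708_nt.T4.BrA

/-!
# Theorem T1b: basic lemmas on the form, on the cone and on `Gam`

Against `TF/BasF.lean`: `mem_Gam : x ∈ Gam N al be ↔ CC x ∧ ...` with
`CC x = (cross x.1 x.2 = -1 ∧ Cn x.1 ∧ 0 < dd x ∧ 0 < ee x)`; `dd_pos, ee_pos, dd_mul_ee` take `CC x`
(`dd_mul_ee'` takes `cross x.1 x.2 = -1`).
-/

set_option autoImplicit false

namespace Pool.Agent.Lib.MP391708.TG

open Finset Filter Topology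
open Pool.Agent.Lib.MP391708.Eqd (V cross pairs res)
open scoped Classical

section det

variable [Aa]

lemma aa_pos : 0 < aa := Aa.ha

lemma aa_posZ : (0 : ℤ) < (aa : ℤ) := by exact_mod_cast Aa.ha

lemma aa_oneZ : (1 : ℤ) ≤ (aa : ℤ) := aa_posZ

end det

section form

variable [Aa] [Frm]

/-- `F(v) F(w) = B(v,w)² + a (cross v w)²` -/
lemma nsq_mul (v w : V) : nsq v * nsq w = dot v w ^ 2 + az * cross v w ^ 2 := by
  rw [← Frm.det]
  simp only [nsq, dot, cross]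
  ring

lemma A_mul_nsq (v : V) : Frm.A * nsq v = (Frm.A * v.1 + Frm.B * v.2) ^ 2 + az * v.2 ^ 2 := by
  rw [← Frm.det]
  simp only [nsq]
  ring

lemma C_mul_nsq (v : V) : Frm.C * nsq v = (Frm.B * v.1 + Frm.C * v.2) ^ 2 + az * v.1 ^ 2 := by
  rw [← Frm.det]
  simp only [nsq]
  ring

lemma nsq_neg (v : V) : nsq (-v) = nsq v := by
  simp only [nsq, Prod.fst_neg, Prod.snd_neg]; ring

lemma dot_comm (v w : V) : dot v w = dot w v := by
  simp only [dot]; ring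

lemma dot_self (v : V) : dot v v = nsq v := by
  simp only [dot, nsq]; ring

omit [Aa] [Frm] in
lemma cross_ne {v w : V} (h : cross v w = -1) : v ≠ 0 ∧ w ≠ 0 := by
  constructor
  · rintro rfl; simp [cross] at h
  · rintro rfl; simp [cross] at h

/-- the size of the two vectors of the cone -/
def PQ : ℤ := |Frm.P| + |Frm.R| + 1

/-- the first vector of the cone -/
def cp : V := (1, 0)

lemma A_pos : 0 < Frm.A := Frm.hA

lemma nsq_cp : nsq cp = Frm.A := by simp [nsq, cp]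

lemma nsq_ce : nsq ce = Frm.A := by
  have h := Frm.inv (1, 0) (1, 0)
  simp only [nsq, ce]
  linear_combination h

lemma dot_cp_ce : dot cp ce = Frm.A * Frm.P + Frm.B * Frm.R := by simp [dot, cp, ce]

lemma Cn_iff {v : V} : Cn v ↔ 0 ≤ cross cp v ∧ 0 < cross v ce := by
  unfold Cn
  simp [cross, cp]

/-- in the cone, `|v|² ≤ 2 P² F(v)` -/
lemma sq_le_nsq {v : V} (h : Cn v) :
    v.1 ^ 2 ≤ 2 * PQ ^ 2 * nsq v ∧ v.2 ^ 2 ≤ 2 * PQ ^ 2 * nsq v := by
  obtain ⟨h1, h2⟩ := Cn_iff.1 h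
  have hpq : 0 < cross cp ce := by
    have := Frm.rpos
    simpa [cross, cp, ce] using this
  set D : ℤ := cross cp ce with hD
  set s : ℤ := cross v ce with hs
  set t : ℤ := cross cp v with ht
  -- `D v = s p + t q`
  have e1 : D * v.1 = s * cp.1 + t * ce.1 := by
    rw [hD, hs, ht]; simp only [cross]; ring
  have e2 : D * v.2 = s * cp.2 + t * ce.2 := by
    rw [hD, hs, ht]; simp only [cross]; ring
  have hp : 1 ≤ nsq cp := by rw [nsq_cp]; exact A_pos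
  have hq : 1 ≤ nsq ce := by rw [nsq_ce]; exact A_pos
  have hb : 1 ≤ dot cp ce := by rw [dot_cp_ce]; exact Frm.bpos
  have e3 : D ^ 2 * nsq v = s ^ 2 * nsq cp + 2 * (s * t) * dot cp ce + t ^ 2 * nsq ce := by
    have : D ^ 2 * nsq v = Frm.A * (D * v.1) ^ 2 + 2 * Frm.B * (D * v.1) * (D * v.2) +
        Frm.C * (D * v.2) ^ 2 := by
      simp only [nsq]; ring
    rw [this, e1, e2]
    simp only [nsq, dot]
    ring
  have h5 : s ^ 2 + t ^ 2 ≤ D ^ 2 * nsq v := by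
    rw [e3]
    have a1 : s ^ 2 * 1 ≤ s ^ 2 * nsq cp := mul_le_mul_of_nonneg_left hp (sq_nonneg _)
    have a2 : t ^ 2 * 1 ≤ t ^ 2 * nsq ce := mul_le_mul_of_nonneg_left hq (sq_nonneg _)
    have a3 : 0 ≤ 2 * (s * t) * dot cp ce := by
      have : 0 ≤ s * t := mul_nonneg h2.le h1
      positivity
    linarith
  have key : ∀ x y : ℤ, |x| + |y| ≤ PQ → ∀ u : ℤ, D * u = s * x + t * y →
      u ^ 2 ≤ 2 * PQ ^ 2 * nsq v := by
    intro x y hxy u hu
    have hD2 : 0 < D ^ 2 := by positivity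
    have hx : |x| ≤ PQ := by linarith [abs_nonneg y]
    have hy : |y| ≤ PQ := by linarith [abs_nonneg x]
    have hP0 : 0 ≤ PQ := by linarith [abs_nonneg x]
    have b1 : |s * x + t * y| ≤ (|s| + |t|) * PQ := by
      calc |s * x + t * y| ≤ |s * x| + |t * y| := abs_add_le _ _
        _ = |s| * |x| + |t| * |y| := by rw [abs_mul, abs_mul]
        _ ≤ |s| * PQ + |t| * PQ := by gcongr
        _ = _ := by ring
    have b2 : (s * x + t * y) ^ 2 ≤ ((|s| + |t|) * PQ) ^ 2 := by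
      rw [← sq_abs (s * x + t * y)]
      exact pow_le_pow_left₀ (abs_nonneg _) b1 2
    have b3 : (|s| + |t|) ^ 2 ≤ 2 * (s ^ 2 + t ^ 2) := by
      nlinarith [sq_nonneg (|s| - |t|), sq_abs s, sq_abs t]
    have b4 : D ^ 2 * u ^ 2 ≤ D ^ 2 * (2 * PQ ^ 2 * nsq v) := by
      calc D ^ 2 * u ^ 2 = (s * x + t * y) ^ 2 := by rw [← hu]; ring
        _ ≤ ((|s| + |t|) * PQ) ^ 2 := b2
        _ = (|s| + |t|) ^ 2 * PQ ^ 2 := by ring
        _ ≤ 2 * (s ^ 2 + t ^ 2) * PQ ^ 2 := by gcongr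
        _ ≤ 2 * (D ^ 2 * nsq v) * PQ ^ 2 := by gcongr
        _ = _ := by ring
    exact le_of_mul_le_mul_left b4 hD2
  refine ⟨key _ _ ?_ _ e1, key _ _ ?_ _ e2⟩ <;>
  · simp only [PQ, cp, ce, abs_one, abs_zero]
    linarith [abs_nonneg Frm.P, abs_nonneg Frm.R]

/-- `F(v) F(w) = M² + a` -/
lemma dd_mul_ee' {x : VV} (h : cross x.1 x.2 = -1) : dd x * ee x = mm x ^ 2 + az := by
  have h1 := nsq_mul x.1 x.2
  rw [h] at h1
  unfold dd ee mm
  rw [h1]; ring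

lemma dd_mul_ee {x : VV} (h : CC x) : dd x * ee x = mm x ^ 2 + az := dd_mul_ee' h.1

lemma dd_pos {x : VV} (h : CC x) : 0 < dd x := h.2.2.1

lemma ee_pos {x : VV} (h : CC x) : 0 < ee x := h.2.2.2

lemma CC_cross {x : VV} (h : CC x) : cross x.1 x.2 = -1 := h.1

/-- `0 < M² + a` for `CC x` -/
lemma sq_pos_of {x : VV} (h : CC x) : 0 < mm x ^ 2 + az := by
  rw [← dd_mul_ee h]
  exact mul_pos (dd_pos h) (ee_pos h)

lemma dd_le_sq {x : VV} (h : CC x) : dd x ≤ mm x ^ 2 := by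
  have h1 := dd_mul_ee h
  have h2 := dd_pos h
  have h3 : 1 ≤ ee x := ee_pos h
  have h4 := az_neg
  nlinarith

lemma aa_lt_sq {x : VV} (h : CC x) : aa < (mm x).natAbs ^ 2 := by
  have h1 := sq_pos_of h
  rw [az_eq] at h1
  have : (aa : ℤ) < (((mm x).natAbs ^ 2 : ℕ) : ℤ) := by
    push_cast
    rw [sq_abs]
    linarith
  exact_mod_cast this

/-- the equation for the second vector -/
lemma dd_mul_snd {x : VV} (h : cross x.1 x.2 = -1) :
    dd x * x.2.1 = mm x * x.1.1 + (Frm.B * x.1.1 + Frm.C * x.1.2) ∧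
    dd x * x.2.2 = mm x * x.1.2 - (Frm.A * x.1.1 + Frm.B * x.1.2) := by
  simp only [cross] at h
  simp only [dd, mm, nsq, dot]
  constructor
  · linear_combination (Frm.B * x.1.1 + Frm.C * x.1.2) * (-h)
  · linear_combination (Frm.A * x.1.1 + Frm.B * x.1.2) * h

lemma PQ_nonneg : (0 : ℤ) ≤ PQ := by
  unfold PQ
  positivity

/-- the size of the coefficients -/
def SS : ℤ := |Frm.A| + |Frm.B| + |Frm.C|

lemma SS_nonneg : (0 : ℤ) ≤ SS := by
  unfold SS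
  positivity

lemma bF_cast : (bF : ℤ) = 100 * (SS + aa + PQ + 1) ^ 2 := by
  unfold bF SS PQ
  push_cast
  ring

/-- the coordinates of `v` and `w` -/
lemma coord {x : VV} (h : CC x) {K : ℤ} (hK : |mm x| ≤ K) (i : ℤ)
    (hi : i = x.1.1 ∨ i = x.1.2 ∨ i = x.2.1 ∨ i = x.2.2) : |i| ≤ 2 * PQ * (K + SS) := by
  have hP := PQ_nonneg
  have hS := SS_nonneg
  have hK0 : 0 ≤ K := (abs_nonneg _).trans hK
  have hd : 1 ≤ dd x := dd_pos h
  have hdM : dd x ≤ K ^ 2 := by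
    refine (dd_le_sq h).trans ?_
    rw [← sq_abs]
    exact pow_le_pow_left₀ (abs_nonneg _) hK 2
  have fin : ∀ j : ℤ, j ^ 2 ≤ 2 * PQ ^ 2 * (K + SS) ^ 2 → |j| ≤ 2 * PQ * (K + SS) := by
    intro j hj
    refine abs_le_of_sq_le_sq (hj.trans ?_) (by positivity)
    have : 0 ≤ PQ ^ 2 * (K + SS) ^ 2 := by positivity
    nlinarith
  obtain ⟨v1, v2⟩ := sq_le_nsq h.2.1
  have hv : ∀ j : ℤ, j ^ 2 ≤ 2 * PQ ^ 2 * nsq x.1 → |j| ≤ 2 * PQ * (K + SS) := by
    intro j hj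
    refine fin j (hj.trans ?_)
    have e1 : nsq x.1 ≤ (K + SS) ^ 2 := by
      refine le_trans (show nsq x.1 ≤ K ^ 2 from hdM) ?_
      exact pow_le_pow_left₀ hK0 (by linarith) 2
    exact mul_le_mul_of_nonneg_left e1 (by positivity)
  have hA : |Frm.A| ≤ SS := by unfold SS; linarith [abs_nonneg Frm.B, abs_nonneg Frm.C]
  -- `|d w| ≤ (K + SS) m`
  have hw : ∀ (j z : ℤ), dd x * j = z → z ^ 2 ≤ (K + SS) ^ 2 * (2 * PQ ^ 2 * dd x) →
      |j| ≤ 2 * PQ * (K + SS) := by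
    intro j z hj hz
    refine fin j ?_
    have h1 : dd x * (dd x * j ^ 2) ≤ dd x * (2 * PQ ^ 2 * (K + SS) ^ 2) := by
      calc dd x * (dd x * j ^ 2) = z ^ 2 := by rw [← hj]; ring
        _ ≤ _ := hz
        _ = _ := by ring
    have h2 : dd x * j ^ 2 ≤ 2 * PQ ^ 2 * (K + SS) ^ 2 := le_of_mul_le_mul_left h1 (by linarith)
    calc j ^ 2 = 1 * j ^ 2 := by ring
      _ ≤ dd x * j ^ 2 := mul_le_mul_of_nonneg_right hd (sq_nonneg _)
      _ ≤ _ := h2
  obtain ⟨w1, w2⟩ := dd_mul_snd h.1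
  obtain ⟨m, hm1, hm2, hm3⟩ : ∃ m : ℤ, |x.1.1| ≤ m ∧ |x.1.2| ≤ m ∧ m ^ 2 ≤ 2 * PQ ^ 2 * dd x := by
    refine ⟨max |x.1.1| |x.1.2|, le_max_left _ _, le_max_right _ _, ?_⟩
    rcases max_choice |x.1.1| |x.1.2| with h5 | h5 <;> rw [h5, sq_abs]
    · exact v1
    · exact v2
  have hm0 : 0 ≤ m := (abs_nonneg _).trans hm1
  have lin : ∀ (y a b : ℤ), |y| ≤ m → |a| + |b| ≤ SS → ∀ z : ℤ, z = mm x * y + (a * x.1.1 + b * x.1.2) →
      z ^ 2 ≤ (K + SS) ^ 2 * (2 * PQ ^ 2 * dd x) := by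
    intro y a b hy hab z hz
    have h1 : |z| ≤ (K + SS) * m := by
      rw [hz]
      calc |mm x * y + (a * x.1.1 + b * x.1.2)| ≤ |mm x * y| + |a * x.1.1 + b * x.1.2| :=
            abs_add_le _ _
        _ ≤ |mm x * y| + (|a * x.1.1| + |b * x.1.2|) := by gcongr; exact abs_add_le _ _
        _ = |mm x| * |y| + (|a| * |x.1.1| + |b| * |x.1.2|) := by rw [abs_mul, abs_mul, abs_mul]
        _ ≤ K * m + (|a| * m + |b| * m) := by gcongr
        _ = K * m + (|a| + |b|) * m := by ring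
        _ ≤ K * m + SS * m := by gcongr
        _ = _ := by ring
    calc z ^ 2 = |z| ^ 2 := (sq_abs z).symm
      _ ≤ ((K + SS) * m) ^ 2 := pow_le_pow_left₀ (abs_nonneg _) h1 2
      _ = (K + SS) ^ 2 * m ^ 2 := by ring
      _ ≤ _ := mul_le_mul_of_nonneg_left hm3 (sq_nonneg _)
  rcases hi with rfl | rfl | rfl | rfl
  · exact hv _ v1
  · exact hv _ v2
  · refine hw _ _ w1 (lin x.1.1 Frm.B Frm.C hm1 ?_ _ rfl)
    unfold SS; linarith [abs_nonneg Frm.A]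
  · refine hw _ _ w2 (lin x.1.2 (-Frm.A) (-Frm.B) hm2 ?_ _ (by ring))
    rw [abs_neg, abs_neg]
    unfold SS; linarith [abs_nonneg Frm.C]

lemma mem_pairs_of {N : ℕ} {x : VV} (h : CC x) (hM : |mm x| ≤ 2 * N) :
    x ∈ pairs 1 (bF * (N + 1) ^ 2) := by
  have hc := coord h hM
  have hP := PQ_nonneg
  have hS := SS_nonneg
  have ha := aa_posZ
  have hN : (0 : ℤ) ≤ N := Int.natCast_nonneg N
  have hb : 2 * PQ * (2 * (N : ℤ) + SS) ≤ ((bF * (N + 1) ^ 2 : ℕ) : ℤ) := by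
    push_cast
    rw [bF_cast]
    set T : ℤ := SS + aa + PQ + 1 with hT
    have h1 : 2 * PQ * (2 * (N : ℤ) + SS) ≤ 2 * T * (2 * T * (N + 1)) := by
      have a1 : PQ ≤ T := by rw [hT]; linarith
      have a2 : 2 * (N : ℤ) + SS ≤ 2 * T * (N + 1) := by
        have : SS ≤ T := by rw [hT]; linarith
        have : 1 ≤ T := by rw [hT]; linarith
        nlinarith
      have : 0 ≤ T := by linarith
      gcongr
    have h2 : 2 * T * (2 * T * ((N : ℤ) + 1)) ≤ 100 * T ^ 2 * ((N : ℤ) + 1) ^ 2 := by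
      have : 0 ≤ T ^ 2 * ((N : ℤ) + 1) * (100 * ((N : ℤ) + 1) - 4) := by
        have : 0 ≤ 100 * ((N : ℤ) + 1) - 4 := by linarith
        positivity
      nlinarith
    exact h1.trans h2
  have hbox : ∀ v : V, |v.1| ≤ 2 * PQ * (2 * (N : ℤ) + SS) → |v.2| ≤ 2 * PQ * (2 * (N : ℤ) + SS) →
      v ∈ Eqd.box (bF * (N + 1) ^ 2) := by
    intro v h1 h2
    unfold Eqd.box
    rw [Finset.mem_product, Finset.mem_Icc, Finset.mem_Icc]
    exact ⟨abs_le.1 (h1.trans hb), abs_le.1 (h2.trans hb)⟩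
  rw [pairs, Finset.mem_filter, Finset.mem_product]
  exact ⟨⟨hbox _ (hc _ (Or.inl rfl)) (hc _ (Or.inr (Or.inl rfl))),
    hbox _ (hc _ (Or.inr (Or.inr (Or.inl rfl)))) (hc _ (Or.inr (Or.inr (Or.inr rfl))))⟩,
    by rw [h.1]; rfl⟩

/-- **membership in `Gam`** -/
lemma mem_Gam {N : ℕ} {al be : ℝ} {x : VV} : x ∈ Gam N al be ↔
    CC x ∧ (N : ℤ) < mm x ∧ mm x ≤ 2 * N ∧
    al * (mm x : ℝ) < (dd x : ℝ) ∧ (dd x : ℝ) ≤ be * (mm x : ℝ) := by
  unfold Gam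
  rw [Finset.mem_filter]
  constructor
  · rintro ⟨h1, h2, h3⟩
    rw [pairs, Finset.mem_filter] at h1
    exact ⟨⟨by simpa using h1.2, h2⟩, h3⟩
  · rintro ⟨h1, h2⟩
    refine ⟨mem_pairs_of h1 ?_, h1.2, h2⟩
    rw [abs_of_nonneg (le_trans (Int.natCast_nonneg N) h2.1.le)]
    exact h2.2.1

/-- the value at `s v + t w` -/
lemma qf_eq (x : VV) (s t : ℤ) :
    qf x s t = nsq (s * x.1.1 + t * x.2.1, s * x.1.2 + t * x.2.2) := by
  simp only [qf, dd, mm, ee, nsq, dot]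
  ring

lemma Gam_split {N : ℕ} {al be ga : ℝ} (h1 : al ≤ ga) (h2 : ga ≤ be) :
    Gam N al be = Gam N al ga ∪ Gam N ga be ∧ Disjoint (Gam N al ga) (Gam N ga be) := by
  constructor
  · ext x
    rw [Finset.mem_union, mem_Gam, mem_Gam, mem_Gam]
    constructor
    · rintro ⟨a, b, c, d, e⟩
      rcases le_or_gt (dd x : ℝ) (ga * (mm x : ℝ)) with h | h
      · exact Or.inl ⟨a, b, c, d, h⟩
      · exact Or.inr ⟨a, b, c, h, e⟩
    · rintro (⟨a, b, c, d, e⟩ | ⟨a, b, c, d, e⟩)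
      · have : (0 : ℝ) < (mm x : ℝ) := by
          have : (0 : ℤ) < mm x := lt_of_le_of_lt (Int.natCast_nonneg N) b
          exact_mod_cast this
        exact ⟨a, b, c, d, e.trans (by nlinarith)⟩
      · have : (0 : ℝ) < (mm x : ℝ) := by
          have : (0 : ℤ) < mm x := lt_of_le_of_lt (Int.natCast_nonneg N) b
          exact_mod_cast this
        exact ⟨a, b, c, lt_of_le_of_lt (by nlinarith) d, e⟩
  · rw [Finset.disjoint_left]
    intro x hx hx'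
    rw [mem_Gam] at hx hx'
    linarith [hx.2.2.2.2, hx'.2.2.2.1]

end form

end Pool.Agent.Lib.MP391708.TG
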