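import Pool.Agent.Lib.MP_391708_nt.TG.Spec
import Pool.Agent.Lib.MP_391708_nt.T1.Conc
import Pool.Agent.Lib.MP_391708_nt.T1.Conc2
import Pool.Agent.Lib.MP_391708_nt.T1.GoodL
import Pool.Agent.Lib.MP_391708_nt.Path

/-!
# Group K: the theorem from the interface statements, `a < 0`, every sign function

`kcore` is the assembly with conditions at the base points and at the other vertices; `kseed` the
theorem for one sign from seeds of that sign; `specK` the Liouville function.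
-/

set_option autoImplicit false
set_option linter.constructorNameAsVariable false

namespace Pool.Agent.Lib.MP391708.TG

variable [Pool.Agent.Lib.MP391708.TG.Aa]

open Finset Filter Topology
open Pool.Agent.Lib.MP391708.Eqd (V cross pairs)
open scoped Classical

/-! ## General sign functions -/

/-- the relation of the signs, for a sign function `g` -/
def SpecA1g (g : ℕ → ℤ) : Prop :=
  ∀ e₁ : ℝ, Good (fun p => ∀ᶠ N : ℕ in atTop, ∀ r ∈ RP p e₁ N,
    g (vl (rM r)) * g (vl (M2 r).natAbs) * g (vl (M3 r).natAbs) *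
      g (vl (M4 r).natAbs) = 1)

/-- seeds of sign `e` for the sign function `g` -/
def SpecSEEDg [Frm] (g : ℕ → ℤ) (e : ℤ) : Prop :=
  ∃ c : ℝ, 0 < c ∧ ∃ B : ℕ, 0 < B ∧ ∀ᶠ N : ℕ in atTop,
    ∃ N₁ : ℕ, N ≤ B * N₁ ∧ N₁ ≤ N ∧
      c * N₁ ≤ (((Gam N₁ 1 3).filter (fun x => g (vl (mm x).natAbs) = e)).card : ℝ)

/-- **Theorem T1a** for the sign function `g` and the sign `e` -/
def SpecT1g (g : ℕ → ℤ) (e : ℤ) : Prop :=
  ∃ c : ℝ, 0 < c ∧ ∀ᶠ N : ℕ in atTop,
    c * N ≤ (((Icc 1 N).filter (fun n => g (vl n) = e)).card : ℝ)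

lemma isSign_lam : IsSign lam := by
  constructor
  · intro n _
    exact neg_one_pow_eq_or ℤ _
  · intro m n hm hn
    show (-1 : ℤ) ^ ArithmeticFunction.cardFactors (m * n) = _
    rw [ArithmeticFunction.cardFactors_mul hm.ne' hn.ne', pow_add]
    rfl

/-! ## `Good` and positivity of the weights -/

namespace KK

theorem good_ex {φ : Prm → Prop} (h : Good φ) : ∃ p : Prm, 0 < p.ζ ∧ φ p := by
  obtain ⟨E, h⟩ := h
  obtain ⟨K, h⟩ := h E le_rfl
  obtain ⟨r, h⟩ := h K le_rfl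
  obtain ⟨k, h⟩ := h r le_rfl
  obtain ⟨ζ, hζ, h⟩ := h k le_rfl
  exact ⟨⟨E, K, r, k, ζ⟩, hζ, h ζ hζ le_rfl⟩

theorem rp_pos (D : ℕ) : 0 < rp D := TA.rp_pos az D

/-- `|M² + a| > 0`, every `M` -/
theorem vl_pos_all (M : ℕ) : 0 < vl M := by
  unfold vl
  refine Int.natAbs_pos.2 fun h => ?_
  obtain ⟨n, hn⟩ := nsq_az
  have h1 : -az = (M : ℤ) ^ 2 := by linarith
  unfold TA.chz at hn
  split_ifs at hn with h2
  rw [h1, jacobiSym.pow_left] at hn
  rcases jacobiSym.trichotomy (M : ℤ) n with h3 | h3 | h3 <;> rw [h3] at hn <;> norm_num at hn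

theorem tilt_nonneg (p : Prm) (N : ℕ) {bT bR : ℝ} (hT : 0 ≤ bT) (hR : 0 ≤ bR) (r : Rl) :
    0 ≤ tilt p N bT bR r := by
  unfold tilt
  refine prod_nonneg fun l _ => mul_nonneg ?_ ?_ <;> split_ifs <;> norm_num <;> assumption

theorem UW_nonneg (p : Prm) (N : ℕ) {c : Wts} (hc : c.ok) (r : Rl) : 0 ≤ UW p N c r := by
  obtain ⟨h1, h2, h3, -, h4, -, h5, -, h6, -⟩ := hc
  unfold UW
  have h7 := rp_pos (rD r).natAbs
  have h8 := tilt_nonneg p N h5.le h6.le r
  positivity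

theorem WC_nonneg (p : Prm) (N : ℕ) (r : Rl) : 0 ≤ WC p N r := by
  unfold WC
  have h7 := rp_pos (rD r).natAbs
  positivity

theorem w2_ok : w2.ok := by
  unfold T4.w2 T4.Wts.ok
  norm_num

theorem w3_ok : w3.ok := by
  unfold T4.w3 T4.Wts.ok
  norm_num

theorem w4_ok : w4.ok := by
  unfold T4.w4 T4.Wts.ok
  norm_num

theorem rM_le_of_mem_RG {p : Prm} {N : ℕ} (hN : 1 ≤ N) {r : Rl} (hr : r ∈ RG p N) :
    rM r ∈ Icc 1 (8 * N) := by
  unfold RG at hr
  rw [mem_filter] at hr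
  obtain ⟨-, -, -, b1, b2, -⟩ := hr
  rw [mem_Icc]
  omega

/-! ## The bound at one of the other vertices -/

variable [Frm]

/-- few pairs over `M` -/
noncomputable def GG (p : Prm) (N : ℕ) (K' : ℝ) (x : VV) : Prop :=
  (((Gam N 1 3).filter (fun y => mm y = mm x)).card : ℝ) ≤
    K' * 2 ^ om p N (vl (mm x).natAbs) / Real.log (zz p N)

attribute [local irreducible] RP RG Gam

/-- the sum over the relations with given `m_j` -/
theorem vertex_bound {p : Prm} {N : ℕ} {e₁ : ℝ} {ρ : Rl → Rl} {c : Wts} (hc : c.ok)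
    {Zf : VV → Rl → ℝ} {C₁ K' C₃ CB : ℝ} (hC₁ : 0 ≤ C₁) (hK' : 0 ≤ K') (hC₃ : 0 ≤ C₃)
    (h0 : ∀ x r, 0 ≤ Zf x r) (h1 : ∀ x r, Zf x r ≤ C₁ * WC p N r)
    (h2 : ∀ x r, Zf x r ≠ 0 → x ∈ Gam N 1 3 ∧ r ∈ RP p e₁ N ∧ (rM r : ℤ) = mm x)
    (hinj : Set.InjOn ρ (RP p e₁ N : Set Rl)) (hmap : ∀ r ∈ RP p e₁ N, ρ r ∈ RG p N)
    (hU : ∀ r ∈ RP p e₁ N, UW p N c (ρ r) ≤ 1 ∧
      WC p N r * 2 ^ om p N (vl (rM r)) / Real.log (zz p N) ≤ C₃ * UW p N c (ρ r))
    (hB : ∑ M ∈ range (8 * N + 1),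
      (∑ r ∈ (RG p N).filter (fun r => rM r = M ∧ UW p N c r ≤ 1), UW p N c r) ^ 2 ≤ CB * N) :
    ∑ n ∈ Icc 1 (8 * N), (∑ t ∈ (Gam N 1 3 ×ˢ RP p e₁ N).filter (fun t =>
      GG p N K' t.1 ∧ rM (ρ t.2) = n), Zf t.1 t.2) ^ 2 ≤ (C₁ * K' * C₃) ^ 2 * CB * N := by
  set κ : ℝ := C₁ * K' * C₃ with hκ
  have hκ0 : 0 ≤ κ := by positivity
  -- the inner sum over `x`
  have hx : ∀ r ∈ RP p e₁ N, ∑ x ∈ (Gam N 1 3).filter (fun x => GG p N K' x), Zf x r ≤
      κ * UW p N c (ρ r) := by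
    intro r hr
    obtain ⟨hU1, hU2⟩ := hU r hr
    by_cases hne : ∃ x ∈ (Gam N 1 3).filter (fun x => GG p N K' x), Zf x r ≠ 0
    · obtain ⟨x₀, hx₀, hx₀'⟩ := hne
      rw [mem_filter] at hx₀
      have hM₀ := (h2 x₀ r hx₀').2.2
      have hnu : (((Gam N 1 3).filter (fun y => mm y = (rM r : ℤ))).card : ℝ) ≤
          K' * 2 ^ om p N (vl (rM r)) / Real.log (zz p N) := by
        have := hx₀.2
        unfold GG at this
        rw [← hM₀, Int.natAbs_natCast] at this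
        exact this
      calc ∑ x ∈ (Gam N 1 3).filter (fun x => GG p N K' x), Zf x r
          ≤ ∑ x ∈ (Gam N 1 3).filter (fun x => mm x = (rM r : ℤ)), C₁ * WC p N r := by
            rw [← sum_filter_ne_zero]
            refine (sum_le_sum_of_subset_of_nonneg ?_ fun x _ _ => h0 x r).trans
              (sum_le_sum fun x _ => h1 x r)
            intro x hx
            rw [mem_filter, mem_filter] at hx
            exact mem_filter.2 ⟨hx.1.1, (h2 x r hx.2).2.2.symm⟩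
        _ = (((Gam N 1 3).filter (fun x => mm x = (rM r : ℤ))).card : ℝ) * (C₁ * WC p N r) := by
            rw [sum_const, nsmul_eq_mul]
        _ ≤ (K' * 2 ^ om p N (vl (rM r)) / Real.log (zz p N)) * (C₁ * WC p N r) := by
            have hW := WC_nonneg p N r
            gcongr
        _ = C₁ * K' * (WC p N r * 2 ^ om p N (vl (rM r)) / Real.log (zz p N)) := by ring
        _ ≤ C₁ * K' * (C₃ * UW p N c (ρ r)) := by gcongr
        _ = κ * UW p N c (ρ r) := by rw [hκ]; ring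
    · push Not at hne
      rw [sum_eq_zero fun x hx => hne x hx]
      have := UW_nonneg p N hc (ρ r)
      positivity
  -- the sum over the relations with `m_j = n`
  have hn : ∀ n : ℕ, ∑ t ∈ (Gam N 1 3 ×ˢ RP p e₁ N).filter (fun t =>
      GG p N K' t.1 ∧ rM (ρ t.2) = n), Zf t.1 t.2 ≤
      κ * ∑ r ∈ (RG p N).filter (fun r => rM r = n ∧ UW p N c r ≤ 1), UW p N c r := by
    intro n
    calc _ = ∑ r ∈ (RP p e₁ N).filter (fun r => rM (ρ r) = n),
          ∑ x ∈ (Gam N 1 3).filter (fun x => GG p N K' x), Zf x r := by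
          rw [sum_comm, ← sum_product']
          refine sum_congr ?_ fun t _ => rfl
          ext t
          simp only [mem_filter, mem_product]
          tauto
      _ ≤ ∑ r ∈ (RP p e₁ N).filter (fun r => rM (ρ r) = n), κ * UW p N c (ρ r) :=
          sum_le_sum fun r hr => hx r (mem_filter.1 hr).1
      _ = κ * ∑ r ∈ (RP p e₁ N).filter (fun r => rM (ρ r) = n), UW p N c (ρ r) := by
          rw [mul_sum]
      _ = κ * ∑ r ∈ ((RP p e₁ N).filter (fun r => rM (ρ r) = n)).image ρ, UW p N c r := by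
          rw [sum_image]
          intro a ha b hb hab
          rw [coe_filter] at ha hb
          exact hinj ha.1 hb.1 hab
      _ ≤ _ := by
          refine mul_le_mul_of_nonneg_left ?_ hκ0
          refine sum_le_sum_of_subset_of_nonneg ?_ fun r _ _ => UW_nonneg p N hc r
          intro r hr
          rw [mem_image] at hr
          obtain ⟨r', hr', rfl⟩ := hr
          rw [mem_filter] at hr'
          exact mem_filter.2 ⟨hmap r' hr'.1, hr'.2, (hU r' hr'.1).1⟩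
  calc _ ≤ ∑ n ∈ Icc 1 (8 * N),
        (κ * ∑ r ∈ (RG p N).filter (fun r => rM r = n ∧ UW p N c r ≤ 1), UW p N c r) ^ 2 := by
        refine sum_le_sum fun n _ => ?_
        have h3 : 0 ≤ ∑ t ∈ (Gam N 1 3 ×ˢ RP p e₁ N).filter (fun t =>
          GG p N K' t.1 ∧ rM (ρ t.2) = n), Zf t.1 t.2 := sum_nonneg fun t _ => h0 _ _
        gcongr
        exact hn n
    _ = κ ^ 2 * ∑ n ∈ Icc 1 (8 * N),
        (∑ r ∈ (RG p N).filter (fun r => rM r = n ∧ UW p N c r ≤ 1), UW p N c r) ^ 2 := by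
        rw [mul_sum]
        exact sum_congr rfl fun n _ => by rw [mul_pow]
    _ ≤ κ ^ 2 * (CB * N) := by
        refine mul_le_mul_of_nonneg_left (le_trans ?_ hB) (sq_nonneg _)
        refine sum_le_sum_of_subset_of_nonneg ?_ fun n _ _ => sq_nonneg _
        intro n hn
        rw [mem_Icc] at hn
        rw [mem_range]
        omega
    _ = κ ^ 2 * CB * N := by ring

theorem sign_other {a b c d e : ℤ} (ha : a = 1 ∨ a = -1) (hb : b = 1 ∨ b = -1)
    (hc : c = 1 ∨ c = -1) (hd : d = 1 ∨ d = -1) (h : a * b * c * d = 1) (he : a = e) :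
    b = e ∨ c = e ∨ d = e := by
  subst he
  rcases ha with rfl | rfl <;> rcases hb with rfl | rfl <;> rcases hc with rfl | rfl <;>
    rcases hd with rfl | rfl <;> simp_all

end KK

/-! ## The assembly -/

variable [Frm]

attribute [local irreducible] RP RG Gam

open KK in
/-- the assembly: `A₀` is a condition at the base points, `P₀` the condition which it gives at the
other vertices.  If at the scale `N` the pairs with `A₀` and sign `e` have proportion `≥ η`, then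
`≥ κ N` of the `n ≤ 8 N` have `P₀` and sign `e`. -/
theorem kcore (hCNT : SpecCNT) (hNU : SpecNU) (hAA : SpecAA) (hBB : SpecBB) {g : ℕ → ℤ}
    (hg : IsSign g) (hA1 : SpecA1g g) (hA2 : SpecA2) (hA3 : SpecA3) {η : ℝ} (hη : 0 < η)
    {A₀ : Prm → ℕ → Prop} {P₀ : Prm → ℕ → ℕ → Prop} {E₁ : ℕ}
    (hmove : ∀ p : Prm, E₁ ≤ p.E → 0 < p.ζ → ∀ e₁ : ℝ, ∀ᶠ N : ℕ in atTop, ∀ r ∈ RP p e₁ N,
      A₀ p (rM r) → P₀ p N (M2 r).natAbs ∧ P₀ p N (M3 r).natAbs ∧ P₀ p N (M4 r).natAbs) :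
    ∃ p : Prm, E₁ ≤ p.E ∧ 0 < p.ζ ∧ ∃ κ : ℝ, 0 < κ ∧ ∀ᶠ N : ℕ in atTop, ∀ e : ℤ,
      η * ((Gam N 1 3).card : ℝ) ≤ (((Gam N 1 3).filter (fun x => A₀ p (mm x).natAbs ∧
        g (vl (mm x).natAbs) = e)).card : ℝ) →
      κ * N ≤ (((Icc 1 (8 * N)).filter (fun n => P₀ p N n ∧ g (vl n) = e)).card : ℝ) := by
  have haa : 0 < aa := Aa.ha
  obtain ⟨-, c₀, hc₀, hlow⟩ := hCNT
  obtain ⟨e₀, he₀, hA3⟩ := hA3
  set ε : ℝ := η ^ 2 / 48 with hε
  have hε0 : 0 < ε := by positivity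
  have g3 := hA3 e₀ he₀ le_rfl
  have g2 := hA2 e₀ he₀
  have g1 := hA1 e₀
  have gA := hAA ε e₀ hε0 he₀
  have gN := hNU (η / 2) (by positivity)
  have gB2 := hBB w2 w2_ok
  have gB3 := hBB w3 w3_ok
  have gB4 := hBB w4 w4_ok
  obtain ⟨p, hζ, ⟨⟨⟨⟨⟨⟨⟨⟨⟨C₃, hC₃, k3⟩, k2⟩, k1⟩, ⟨C₁, hC₁, kA⟩⟩, ⟨K', hK', kN⟩⟩,
    ⟨B₂, hB₂, kB2⟩⟩, ⟨B₃, hB₃, kB3⟩⟩, ⟨B₄, hB₄, kB4⟩⟩, hE₁⟩⟩ :=
    good_ex ((((((((g3.and g2).and g1).and gA).and gN).and gB2).and gB3).and gB4).and
      (T4.Good.large_E E₁))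
  set B : ℝ := (C₁ * K' * C₃) ^ 2 * (B₂ + B₃ + B₄) with hB
  have hB0 : 0 < B := by positivity
  set κ : ℝ := (η / 2 * c₀ / 6) ^ 2 / B with hκdef
  have hκ : 0 < κ := by positivity
  refine ⟨p, hE₁, hζ, κ, hκ, ?_⟩
  -- the statement for one `N`
  filter_upwards [k3, k2, k1, kA, kN, kB2, kB3, kB4, hlow, hmove p hE₁ hζ e₀,
    eventually_ge_atTop 2] with N a3 a2 a1 aA aN aB2 aB3 aB4 alow amove hN2 e acls
  have hN1 : 1 ≤ N := by omega
  have hNr : (0 : ℝ) < N := by exact_mod_cast hN1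
  obtain ⟨Zf, z0, z1, z2, z3, z4⟩ := aA
  obtain ⟨-, hroles⟩ := a2
  obtain ⟨A, hA⟩ : ∃ A : VV → Prop, ∀ x, A x ↔ GG p N K' x ∧ A₀ p (mm x).natAbs ∧
    g (vl (mm x).natAbs) = e := ⟨_, fun _ => Iff.rfl⟩
  obtain ⟨P, hP⟩ : ∃ P : ℕ → Prop, ∀ n, P n ↔ P₀ p N n ∧ g (vl n) = e :=
    ⟨_, fun _ => Iff.rfl⟩
  have hrole2 := hroles role2 (by simp)
  have hrole3 := hroles role3 (by simp)
  have hrole4 := hroles role4 (by simp)
  -- the four vertices
  set m : Fin 4 → VV × Rl → ℕ := ![fun t => (mm t.1).natAbs, fun t => rM (role2 t.2),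
    fun t => rM (role3 t.2), fun t => rM (role4 t.2)] with hm
  have hbox : ∀ r ∈ RG p N, rM r ∈ Icc 1 (8 * N) := fun r hr => rM_le_of_mem_RG hN1 hr
  -- the set `A` is large
  have hcardA : η / 2 * ((Gam N 1 3).card : ℝ) ≤ (((Gam N 1 3).filter A).card : ℝ) := by
    have hc2 : (((Gam N 1 3).filter (fun x => A₀ p (mm x).natAbs ∧
        g (vl (mm x).natAbs) = e)).card : ℝ) ≤
        ((Gam N 1 3).filter A).card + ((Gam N 1 3).filter (fun x => ¬ GG p N K' x)).card := by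
      have h1 : (Gam N 1 3).filter (fun x => A₀ p (mm x).natAbs ∧
          g (vl (mm x).natAbs) = e) ⊆
          (Gam N 1 3).filter A ∪ (Gam N 1 3).filter (fun x => ¬ GG p N K' x) := by
        intro x hx
        rw [mem_filter] at hx
        rw [mem_union, mem_filter, mem_filter]
        by_cases h2 : GG p N K' x
        · exact Or.inl ⟨hx.1, (hA x).2 ⟨h2, hx.2⟩⟩
        · exact Or.inr ⟨hx.1, h2⟩
      have h4 := (card_le_card h1).trans (card_union_le _ _)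
      exact_mod_cast h4
    have hnG : (((Gam N 1 3).filter (fun x => ¬ GG p N K' x)).card : ℝ) ≤
        η / 2 * ((Gam N 1 3).card : ℝ) := by
      refine le_trans (le_of_eq ?_) aN
      congr 2
      refine filter_congr fun x _ => ?_
      unfold GG
      rw [not_le]
    linarith
  have hcount : κ * N ≤ (((Icc 1 (8 * N)).filter P).card : ℝ) := by
    refine T1.assemble2 (Gam N 1 3) A (GG p N K') (fun x hx => ((hA x).1 hx).1)
      (Gam N 1 3 ×ˢ RP p e₀ N) Prod.fst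
      (fun t ht => (mem_product.1 ht).1) (fun t => Zf t.1 t.2) (fun t _ => z0 _ _)
      m (8 * N) P ?_ ?_ hNr hB0 hc₀ (by positivity : 0 < η / 2) alow (ε := ε) ?_ hcardA ?_ ?_ ?_
    · intro t ht hne hAt
      obtain ⟨-, hr, hM⟩ := z2 _ _ hne
      have hM' : (mm t.1).natAbs = rM t.2 := by rw [← hM, Int.natAbs_natCast]
      obtain ⟨-, hcl, hlam⟩ := (hA _).1 hAt
      rw [hM'] at hlam hcl
      obtain ⟨m2, m3, m4⟩ := amove t.2 hr hcl
      have h := a1 t.2 hr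
      have hv : ∀ n : ℕ, g (vl n) = 1 ∨ g (vl n) = -1 := fun n =>
        hg.val _ (vl_pos_all n)
      rcases sign_other (hv _) (hv _) (hv _) (hv _) h hlam with k | k | k
      · exact ⟨1, by decide, (hP _).2 ⟨m2, k⟩⟩
      · exact ⟨2, by decide, (hP _).2 ⟨m3, k⟩⟩
      · exact ⟨3, by decide, (hP _).2 ⟨m4, k⟩⟩
    · intro j hj t ht hne
      obtain ⟨-, hr, -⟩ := z2 _ _ hne
      fin_cases j
      · exact absurd rfl hj
      · exact hbox _ (hrole2.2 _ hr)
      · exact hbox _ (hrole3.2 _ hr)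
      · exact hbox _ (hrole4.2 _ hr)
    · rw [hε]
      exact le_of_eq (by ring)
    · rw [sum_product]
      exact z3
    · refine le_trans (le_of_eq (sum_congr rfl fun x hx => ?_)) z4
      congr 1
      calc _ = ∑ t ∈ {x} ×ˢ RP p e₀ N, Zf t.1 t.2 := sum_congr (by
            ext t
            simp only [mem_filter, mem_product, mem_singleton]
            constructor
            · rintro ⟨⟨_, h2⟩, h3⟩; exact ⟨h3, h2⟩
            · rintro ⟨h1, h2⟩; exact ⟨⟨by rw [h1]; exact hx, h2⟩, h1⟩) fun _ _ => rfl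
        _ = _ := by rw [sum_product, sum_singleton]
    · intro j hj
      have hBle : ∀ b : ℝ, b ≤ B₂ + B₃ + B₄ →
          (C₁ * K' * C₃) ^ 2 * b * N ≤ B * N := by
        intro b hb
        rw [hB]
        gcongr
      fin_cases j
      · exact absurd rfl hj
      · refine (vertex_bound (ρ := role2) w2_ok hC₁.le hK'.le hC₃.le z0 z1 z2 hrole2.1 hrole2.2
          (fun r hr => (a3 r hr).2 (role2, w2) (by simp)) aB2).trans (hBle _ (by linarith))
      · refine (vertex_bound (ρ := role3) w3_ok hC₁.le hK'.le hC₃.le z0 z1 z2 hrole3.1 hrole3.2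
          (fun r hr => (a3 r hr).2 (role3, w3) (by simp)) aB3).trans (hBle _ (by linarith))
      · refine (vertex_bound (ρ := role4) w4_ok hC₁.le hK'.le hC₃.le z0 z1 z2 hrole4.1 hrole4.2
          (fun r hr => (a3 r hr).2 (role4, w4) (by simp)) aB4).trans (hBle _ (by linarith))
  refine hcount.trans (le_of_eq ?_)
  congr 2
  ext n
  simp only [mem_filter, hP]

/-- the theorem for the sign `e` of the sign function `g`, from seeds -/
theorem kseed (hCNT : SpecCNT) (hNU : SpecNU) (hAA : SpecAA) (hBB : SpecBB) {g : ℕ → ℤ}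
    (hg : IsSign g) (hA1 : SpecA1g g) (hA2 : SpecA2) (hA3 : SpecA3) {e : ℤ}
    (hS : SpecSEEDg g e) : SpecT1g g e := by
  obtain ⟨c, hc, B, hB, hS⟩ := hS
  have hCNT' := hCNT
  obtain ⟨⟨C, hC, hup⟩, -⟩ := hCNT'
  obtain ⟨p, -, -, κ, hκ, hcore⟩ := kcore hCNT hNU hAA hBB hg hA1 hA2 hA3
    (show 0 < c / C by positivity) (A₀ := fun _ _ => True) (P₀ := fun _ _ _ => True) (E₁ := 0)
    (fun _ _ _ _ => Eventually.of_forall fun _ _ _ _ => ⟨trivial, trivial, trivial⟩)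
  obtain ⟨N₂, hN₂⟩ := eventually_atTop.1 hcore
  obtain ⟨N₃, hN₃⟩ := eventually_atTop.1 hS
  obtain ⟨P, hP⟩ : ∃ P : ℕ → Prop, ∀ n, P n ↔ g (vl n) = e := ⟨_, fun _ => Iff.rfl⟩
  have key : ∀ N : ℕ, B * (N₂ + 1) + N₃ ≤ N → κ / B * N ≤ (((Icc 1 (8 * N)).filter P).card : ℝ) := by
    intro N hN
    obtain ⟨N₁, h1, h2, h3⟩ := hN₃ N (by omega)
    have hN₁2 : N₂ + 1 ≤ N₁ := by
      have : B * (N₂ + 1) ≤ B * N₁ := by omega
      exact Nat.le_of_mul_le_mul_left this hB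
    have hN₁r : (1 : ℝ) ≤ N₁ := by
      have : 1 ≤ N₁ := by omega
      exact_mod_cast this
    have h4 := hup N₁ 1 3 (by omega) one_pos (by norm_num)
    have h5 := hN₂ N₁ (by omega) e (by
      calc c / C * ((Gam N₁ 1 3).card : ℝ) ≤ c / C * (C * N₁) := by gcongr
        _ = c * N₁ := by field_simp
        _ ≤ _ := h3
        _ ≤ _ := by
          refine le_of_eq ?_
          congr 2
          ext x
          simp only [mem_filter, true_and])
    have hBr : (0 : ℝ) < B := by exact_mod_cast hB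
    calc κ / B * N ≤ κ / B * (B * N₁) := by
          have : (N : ℝ) ≤ B * N₁ := by exact_mod_cast h1
          gcongr
      _ = κ * N₁ := by field_simp
      _ ≤ _ := h5
      _ ≤ _ := by
          refine Nat.cast_le.2 (card_le_card fun n hn => ?_)
          simp only [mem_filter, mem_Icc] at hn ⊢
          exact ⟨⟨hn.1.1, by omega⟩, (hP n).2 hn.2.2⟩
  have hBr : (0 : ℝ) < B := by exact_mod_cast hB
  obtain ⟨c', hc', N₀, h⟩ := T1.scale_down (P := P) (show 0 < κ / B by positivity) 8 (by norm_num)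
    ⟨_, key⟩
  refine ⟨c', hc', ?_⟩
  filter_upwards [eventually_ge_atTop N₀] with N hN
  refine (h N hN).trans (le_of_eq ?_)
  congr 2
  ext n
  simp only [mem_filter, hP]

/-- **K** -/
theorem specK : SpecK := by
  intro hCNT hNU hAA hBB hA1 hA2 hA3 hS
  have h : ∀ e : ℤ, (e = 1 ∨ e = -1) → SpecT1g lam e := by
    intro e he
    obtain ⟨c, hc, B, hB, hS⟩ := hS
    exact kseed hCNT hNU hAA hBB isSign_lam hA1 hA2 hA3
      ⟨c, hc, B, hB, hS.mono fun N hN => hN e he⟩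
  obtain ⟨c₁, hc₁, h₁⟩ := h 1 (Or.inl rfl)
  obtain ⟨c₂, hc₂, h₂⟩ := h (-1) (Or.inr rfl)
  refine ⟨min c₁ c₂, lt_min hc₁ hc₂, ?_⟩
  filter_upwards [h₁, h₂] with N h₁ h₂
  exact ⟨(mul_le_mul_of_nonneg_right (min_le_left _ _) (Nat.cast_nonneg _)).trans h₁,
    (mul_le_mul_of_nonneg_right (min_le_right _ _) (Nat.cast_nonneg _)).trans h₂⟩

end Pool.Agent.Lib.MP391708.TG
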