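import Pool.Agent.Lib.MP_391708_nt.SR.Spec
import Pool.Agent.Lib.MP_391708_nt.TG.BasF
import Pool.Agent.Lib.MP_391708_nt.TG.Kasm

/-!
# T1b: the bridge from the indefinite group S (`SR`) to `TG`, every sign function
-/

set_option autoImplicit false

namespace Pool.Agent.Lib.MP391708.TG

open Finset Filter Topology
open Pool.Agent.Lib.MP391708.Eqd (V cross pairs)
open scoped Classical

/-- the form of group S with its automorphism as an instance -/
@[reducible] def frmOf [Aa] {F : SG.Fm} (μ : SR.Au F) (hA : 0 < F.A) (h : F.a = az) : Frm :=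
  { A := F.A
    B := F.B
    C := F.C
    hA := hA
    det := h
    P := μ.p
    Q := μ.q
    R := μ.r
    S := μ.s
    mdet := μ.det
    inv := fun v w => by
      have h1 := μ.inv v w
      unfold SG.Fm.b at h1
      linear_combination h1
    rpos := μ.rpos
    bpos := μ.bpos }

namespace SeedBr

variable [Aa]

lemma nsq_eq {F : SG.Fm} (μ : SR.Au F) (hA : 0 < F.A) (h : F.a = az) (v : V) :
    @nsq _ (frmOf μ hA h) v = F.q v := rfl

lemma dot_eq {F : SG.Fm} (μ : SR.Au F) (hA : 0 < F.A) (h : F.a = az) (v w : V) :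
    @dot _ (frmOf μ hA h) v w = F.b v w := by
  show F.A * (v.1 * w.1) + F.B * (v.1 * w.2 + v.2 * w.1) + F.C * (v.2 * w.2) = F.b v w
  unfold SG.Fm.b
  ring

lemma sub {F : SG.Fm} (μ : SR.Au F) (hA : 0 < F.A) (h : F.a = az) {N : ℕ} (hN : aa ≤ N ^ 2) :
    SR.G1 μ N ⊆ @Gam _ (frmOf μ hA h) N 1 3 := by
  intro x hx
  unfold SR.G1 at hx
  rw [mem_filter] at hx
  obtain ⟨-, h3, h4, h5, h6, h7, h8⟩ := hx
  letI : Frm := frmOf μ hA h
  have hmm : mm x = F.b x.1 x.2 := dot_eq μ hA h _ _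
  have hdd : dd x = F.q x.1 := rfl
  have hN0 : (0 : ℤ) ≤ N := Int.natCast_nonneg N
  have hmul := dd_mul_ee' h4
  have hpos : 0 < mm x ^ 2 + az := by
    have h9 : (aa : ℤ) ≤ (N : ℤ) ^ 2 := by exact_mod_cast hN
    have h10 : (N : ℤ) < mm x := by rw [hmm]; exact h5
    rw [az_eq]
    nlinarith
  have hd : 0 < dd x := by rw [hdd]; linarith
  have he : 0 < ee x := by
    rw [← hmul] at hpos
    exact (pos_iff_pos_of_mul_pos hpos).1 hd
  rw [mem_Gam]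
  refine ⟨⟨h4, h3, hd, he⟩, by rw [hmm]; exact h5, by rw [hmm]; exact h6, ?_, ?_⟩
  · rw [hmm, hdd, one_mul]; exact_mod_cast h7
  · rw [hmm, hdd]; exact_mod_cast h8

/-- from group S to `SpecSEEDg`; `G` is the sign function on the integers used in group S -/
theorem seedg {F : SG.Fm} (μ : SR.Au F) (hA : 0 < F.A) (h : F.a = az) {g : ℕ → ℤ} {G : ℤ → ℤ}
    (hG : ∀ n : ℕ, 0 < n → G (n : ℤ) = g n) {e : ℤ}
    (hS : ∃ (T : ℕ) (c : ℝ), 0 < T ∧ 0 < c ∧ ∀ᶠ N : ℕ in atTop, ∃ N' : ℕ, N ≤ T * N' ∧ N' ≤ N ∧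
        c * N' ≤ (((SR.G1 μ N').filter (fun x => G (F.b x.1 x.2 ^ 2 + F.a) = e)).card : ℝ)) :
    @SpecSEEDg _ (frmOf μ hA h) g e := by
  obtain ⟨T₁, c₁, hT₁, hc₁, h₁⟩ := hS
  refine ⟨c₁, hc₁, T₁, hT₁, ?_⟩
  filter_upwards [h₁, eventually_ge_atTop (T₁ * (aa + 1))] with N hN hN2
  obtain ⟨N', h2, h3, h4⟩ := hN
  have hN' : aa + 1 ≤ N' := by
    have : T₁ * (aa + 1) ≤ T₁ * N' := hN2.trans h2
    exact Nat.le_of_mul_le_mul_left this hT₁
  have hN3 : aa ≤ N' ^ 2 := by nlinarith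
  refine ⟨N', h2, h3, h4.trans (Nat.cast_le.2 (card_le_card fun x hx => ?_))⟩
  rw [mem_filter] at hx ⊢
  have hxG := sub μ hA h hN3 hx.1
  refine ⟨hxG, ?_⟩
  letI : Frm := frmOf μ hA h
  have hCC : CC x := (mem_Gam.1 hxG).1
  have hmm : mm x = F.b x.1 x.2 := dot_eq μ hA h _ _
  have h5 := hx.2
  rw [← hmm, h] at h5
  have h6 := sq_pos_of hCC
  have h7 : mm x ^ 2 + az = ((vl (mm x).natAbs : ℕ) : ℤ) := by
    rw [vl_natAbs, Int.natCast_natAbs, abs_of_pos h6]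
  rw [h7, hG _ (vl_pos (aa_lt_sq hCC))] at h5
  exact h5

end SeedBr

end Pool.Agent.Lib.MP391708.TG
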