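import Pool.Agent.Lib.MP_391708_nt.TG.Spec
import Pool.Agent.Lib.MP_391708_nt.TG.Basic
import Pool.Agent.Lib.MP_391708_nt.TG.SeedG
import Pool.Agent.Lib.MP_391708_nt.SR.LOW

/-!
# Theorem T1b: the base measure `Gam`, upper and lower bound (`SpecCNT`), for every indefinite form

Upper bound: for fixed `v` the vectors `w` with `cross v w = -1` are `w₀ + t v`, so there are at most
`N / F(v) + 1` of them with `N < B(v, w) ≤ 2 N`; if `α > 1` the roles of `v` and `w` are exchanged
(`w` is in a slightly larger cone: `snd_sq`).  Lower bound: `SR/LOW.lean`.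
-/

set_option autoImplicit false
set_option linter.unusedVariables false

namespace Pool.Agent.Lib.MP391708.TG

open Finset Filter Topology
open Pool.Agent.Lib.MP391708.Eqd (V cross pairs)
open scoped Classical

namespace GamM

variable [Aa] [Frm]

/-! ## Counting -/

/-- the constant -/
def Kc : ℕ := (2 * PQ ^ 2 * (1 + SS) ^ 2 * (aa + 1) : ℤ).toNat

lemma Kc_cast : ((Kc : ℕ) : ℤ) = 2 * PQ ^ 2 * (1 + SS) ^ 2 * (aa + 1) := by
  unfold Kc
  refine Int.toNat_of_nonneg ?_
  have := aa_posZ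
  positivity

lemma PQ_one_le : (1 : ℤ) ≤ PQ := by
  unfold PQ
  linarith [abs_nonneg Frm.P, abs_nonneg Frm.R]

lemma Kc_ge : 2 * PQ ^ 2 ≤ ((Kc : ℕ) : ℤ) := by
  rw [Kc_cast]
  have h1 := SS_nonneg
  have h2 := aa_posZ
  have h3 : (1 : ℤ) ≤ (1 + SS) ^ 2 := by nlinarith
  have h4 : (1 : ℤ) ≤ (1 + SS) ^ 2 * (aa + 1) := by nlinarith
  have h5 : (0 : ℤ) ≤ 2 * PQ ^ 2 := by positivity
  calc 2 * PQ ^ 2 = 2 * PQ ^ 2 * 1 := by ring
    _ ≤ 2 * PQ ^ 2 * ((1 + SS) ^ 2 * (aa + 1)) := mul_le_mul_of_nonneg_left h4 h5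
    _ = _ := by ring

lemma Kc_one : 1 ≤ Kc := by
  have h1 := Kc_ge
  have h2 := PQ_one_le
  have : (1 : ℤ) ≤ ((Kc : ℕ) : ℤ) := by nlinarith
  exact_mod_cast this

/-- `M² ≤ (|a| + 1) (M² + a)` -/
lemma sq_le_mul {x : VV} (h : CC x) : mm x ^ 2 ≤ (aa + 1) * (dd x * ee x) := by
  rw [Bs.dd_mul_ee h]
  have h1 := sq_pos_of h
  have h2 := aa_posZ
  rw [az_eq] at h1 ⊢
  nlinarith

/-- the second vector of a pair -/
lemma snd_sq {x : VV} (h : CC x) :
    x.2.1 ^ 2 ≤ Kc * ee x ∧ x.2.2 ^ 2 ≤ Kc * ee x := by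
  have hS := SS_nonneg
  have hP := PQ_nonneg
  have hd : 1 ≤ dd x := dd_pos h
  have ha := aa_posZ
  have hM : 1 ≤ |mm x| := by
    have h1 := sq_pos_of h
    rw [az_eq] at h1
    by_contra hc
    push Not at hc
    have : mm x = 0 := Int.abs_lt_one_iff.1 hc
    rw [this] at h1
    nlinarith
  obtain ⟨v1, v2⟩ := sq_le_nsq h.2.1
  obtain ⟨m, hm1, hm2, hm3⟩ : ∃ m : ℤ, |x.1.1| ≤ m ∧ |x.1.2| ≤ m ∧ m ^ 2 ≤ 2 * PQ ^ 2 * dd x := by
    refine ⟨max |x.1.1| |x.1.2|, le_max_left _ _, le_max_right _ _, ?_⟩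
    rcases max_choice |x.1.1| |x.1.2| with h5 | h5 <;> rw [h5, sq_abs]
    · exact v1
    · exact v2
  have hm0 : 0 ≤ m := (abs_nonneg _).trans hm1
  have lin : ∀ (y a b j : ℤ), |y| ≤ m → |a| + |b| ≤ SS →
      dd x * j = mm x * y + (a * x.1.1 + b * x.1.2) → j ^ 2 ≤ Kc * ee x := by
    intro y a b j hy hab hj
    have h1 : |dd x * j| ≤ ((1 + SS) * |mm x|) * m := by
      rw [hj]
      calc |mm x * y + (a * x.1.1 + b * x.1.2)| ≤ |mm x * y| + |a * x.1.1 + b * x.1.2| :=
            abs_add_le _ _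
        _ ≤ |mm x * y| + (|a * x.1.1| + |b * x.1.2|) := by gcongr; exact abs_add_le _ _
        _ = |mm x| * |y| + (|a| * |x.1.1| + |b| * |x.1.2|) := by rw [abs_mul, abs_mul, abs_mul]
        _ ≤ |mm x| * m + (|a| * m + |b| * m) := by gcongr
        _ = |mm x| * m + (|a| + |b|) * m := by ring
        _ ≤ |mm x| * m + SS * m := by gcongr
        _ ≤ |mm x| * m + (SS * |mm x|) * m := by
            gcongr
            nlinarith
        _ = _ := by ring
    have h2 : (dd x * j) ^ 2 ≤ dd x * (dd x * (Kc * ee x)) := by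
      calc (dd x * j) ^ 2 = |dd x * j| ^ 2 := (sq_abs _).symm
        _ ≤ (((1 + SS) * |mm x|) * m) ^ 2 := pow_le_pow_left₀ (abs_nonneg _) h1 2
        _ = (1 + SS) ^ 2 * (mm x ^ 2) * m ^ 2 := by rw [mul_pow, mul_pow, sq_abs]
        _ ≤ (1 + SS) ^ 2 * (mm x ^ 2) * (2 * PQ ^ 2 * dd x) :=
            mul_le_mul_of_nonneg_left hm3 (by positivity)
        _ ≤ (1 + SS) ^ 2 * ((aa + 1) * (dd x * ee x)) * (2 * PQ ^ 2 * dd x) := by
            refine mul_le_mul_of_nonneg_right ?_ (by positivity)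
            exact mul_le_mul_of_nonneg_left (sq_le_mul h) (by positivity)
        _ = dd x * (dd x * (Kc * ee x)) := by rw [Kc_cast]; ring
    have h3 : dd x * (dd x * j ^ 2) ≤ dd x * (dd x * (Kc * ee x)) := by
      calc dd x * (dd x * j ^ 2) = (dd x * j) ^ 2 := by ring
        _ ≤ _ := h2
    have h4 : 0 < dd x := by linarith
    exact le_of_mul_le_mul_left (le_of_mul_le_mul_left h3 h4) h4
  obtain ⟨w1, w2⟩ := dd_mul_snd h.1
  constructor
  · refine lin x.1.1 Frm.B Frm.C x.2.1 hm1 ?_ w1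
    unfold SS; linarith [abs_nonneg Frm.A]
  · refine lin x.1.2 (-Frm.A) (-Frm.B) x.2.2 hm2 ?_ (by rw [w2]; ring)
    rw [abs_neg, abs_neg]
    unfold SS; linarith [abs_nonneg Frm.C]

/-- the first vector of a pair -/
lemma fst_sq {x : VV} (h : CC x) :
    x.1.1 ^ 2 ≤ Kc * dd x ∧ x.1.2 ^ 2 ≤ Kc * dd x := by
  have h1 := sq_le_nsq h.2.1
  have h2 : 2 * PQ ^ 2 * nsq x.1 ≤ Kc * dd x :=
    mul_le_mul_of_nonneg_right Kc_ge (dd_pos h).le
  exact ⟨h1.1.trans h2, h1.2.trans h2⟩

omit [Aa] [Frm] in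
/-- the number of vectors in a box -/
theorem card_vec {S : Finset V} {T : ℕ} (hT1 : 1 ≤ T)
    (h : ∀ v ∈ S, v.1 ^ 2 ≤ (T : ℤ) ∧ v.2 ^ 2 ≤ (T : ℤ)) : S.card ≤ 9 * T := by
  set K : ℕ := Nat.sqrt T with hK
  have hK1 : 1 ≤ K := by rw [hK, Nat.le_sqrt']; simpa using hT1
  have hK2 : K ^ 2 ≤ T := Nat.sqrt_le' T
  have hb : ∀ t : ℤ, t ^ 2 ≤ T → -(K : ℤ) ≤ t ∧ t ≤ K := by
    intro t ht
    rw [← abs_le]
    have h1 : t.natAbs ^ 2 ≤ T := by
      have : ((t.natAbs ^ 2 : ℕ) : ℤ) ≤ T := by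
        push_cast
        rw [sq_abs]
        exact ht
      exact_mod_cast this
    have h2 : t.natAbs ≤ K := by rw [hK, Nat.le_sqrt']; exact h1
    rw [Int.abs_eq_natAbs]
    exact_mod_cast h2
  have hsub : S ⊆ Icc (-(K : ℤ)) K ×ˢ Icc (-(K : ℤ)) K := by
    intro v hv
    rw [mem_product, mem_Icc, mem_Icc]
    exact ⟨hb _ (h v hv).1, hb _ (h v hv).2⟩
  have hc : S.card ≤ (2 * K + 1) ^ 2 := by
    refine (card_le_card hsub).trans ?_
    rw [card_product, Int.card_Icc]
    have : ((K : ℤ) + 1 - -(K : ℤ)).toNat = 2 * K + 1 := by omega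
    rw [this, sq]
  exact hc.trans (by nlinarith)

omit [Aa] [Frm] in
lemma cross_swap (v w : V) : cross w v = -cross v w := by
  unfold cross; ring

/-- `B(v, w) cross(v, w') - B(v, w') cross(v, w) = F(v) cross(w, w')` -/
lemma dot_cross (v w w' : V) :
    dot v w * cross v w' - dot v w' * cross v w = nsq v * cross w w' := by
  unfold dot cross nsq
  ring

lemma eq_of_dot_cross {v w w' : V} (hv : 0 < nsq v) (h1 : dot v w = dot v w')
    (h2 : cross v w = cross v w') : w = w' := by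
  have e1 : nsq v * (w.1 - w'.1) = 0 := by
    have : nsq v * (w.1 - w'.1) = v.1 * (dot v w - dot v w') -
        (Frm.B * v.1 + Frm.C * v.2) * (cross v w - cross v w') := by
      unfold dot cross nsq
      ring
    rw [this, h1, h2]
    ring
  have e2 : nsq v * (w.2 - w'.2) = 0 := by
    have : nsq v * (w.2 - w'.2) = v.2 * (dot v w - dot v w') +
        (Frm.A * v.1 + Frm.B * v.2) * (cross v w - cross v w') := by
      unfold dot cross nsq
      ring
    rw [this, h1, h2]
    ring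
  have f1 : w.1 - w'.1 = 0 := by
    rcases mul_eq_zero.1 e1 with h | h
    · omega
    · exact h
  have f2 : w.2 - w'.2 = 0 := by
    rcases mul_eq_zero.1 e2 with h | h
    · omega
    · exact h
  exact Prod.ext (by omega) (by omega)

/-- for fixed `v` there are at most `N / F(v) + 1` vectors `w` with `cross v w = c = ± 1`,
`N < B(v, w) ≤ 2 N` -/
theorem card_fib {v : V} (hv : 0 < nsq v) {c : ℤ} (hc : c ^ 2 = 1) {N : ℕ} {T : Finset V}
    (hT : ∀ w ∈ T, cross v w = c ∧ (N : ℤ) < dot v w ∧ dot v w ≤ 2 * N) :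
    (T.card : ℝ) ≤ N / (nsq v : ℝ) + 1 := by
  obtain ⟨d, hd⟩ : ∃ d : ℕ, (d : ℤ) = nsq v := ⟨(nsq v).toNat, Int.toNat_of_nonneg hv.le⟩
  have hd0 : 0 < d := by
    have : (0 : ℤ) < d := by rw [hd]; exact hv
    exact_mod_cast this
  have hcard : T.card ≤ (range (N / d + 1)).card := by
    refine card_le_card_of_injOn (fun w => (dot v w - N - 1).toNat / d) ?_ ?_
    · intro w hw
      rw [mem_coe] at hw
      obtain ⟨-, h1, h2⟩ := hT w hw
      rw [mem_coe, mem_range]
      have h3 : (dot v w - N - 1).toNat ≤ N := by omega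
      exact Nat.lt_succ_of_le (Nat.div_le_div_right h3)
    · intro w hw w' hw' hq
      rw [mem_coe] at hw hw'
      obtain ⟨c1, h1, h2⟩ := hT w hw
      obtain ⟨c2, h3, h4⟩ := hT w' hw'
      have hq' : (dot v w - N - 1).toNat / d = (dot v w' - N - 1).toNat / d := hq
      have e1 : (d : ℤ) ∣ dot v w - dot v w' := by
        have e2 := dot_cross v w w'
        rw [c1, c2] at e2
        rw [hd]
        refine ⟨c * cross w w', ?_⟩
        have : dot v w - dot v w' = c * (dot v w * c - dot v w' * c) := by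
          linear_combination (-(dot v w) + dot v w') * hc
        rw [this, e2]
        ring
      have e3 : dot v w = dot v w' := by
        have a1 : (((dot v w - N - 1).toNat : ℕ) : ℤ) = dot v w - N - 1 :=
          Int.toNat_of_nonneg (by omega)
        have a2 : (((dot v w' - N - 1).toNat : ℕ) : ℤ) = dot v w' - N - 1 :=
          Int.toNat_of_nonneg (by omega)
        have a3 : (dot v w - N - 1).toNat % d = (dot v w' - N - 1).toNat % d := by
          have : (d : ℤ) ∣ (((dot v w' - N - 1).toNat : ℕ) : ℤ) -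
              (((dot v w - N - 1).toNat : ℕ) : ℤ) := by
            rw [a1, a2]
            have : dot v w' - N - 1 - (dot v w - N - 1) = -(dot v w - dot v w') := by ring
            rw [this]
            exact (dvd_neg).2 e1
          exact (Nat.modEq_iff_dvd).2 this
        have a4 : (dot v w - N - 1).toNat = (dot v w' - N - 1).toNat := by
          rw [← Nat.div_add_mod (dot v w - N - 1).toNat d,
            ← Nat.div_add_mod (dot v w' - N - 1).toNat d, hq', a3]
        have a5 : dot v w - N - 1 = dot v w' - N - 1 := by rw [← a1, ← a2, a4]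
        linarith
      exact eq_of_dot_cross hv e3 (by rw [c1, c2])
  rw [card_range] at hcard
  have h5 : (T.card : ℝ) ≤ ((N / d : ℕ) : ℝ) + 1 := by exact_mod_cast hcard
  refine h5.trans ?_
  have h6 : ((N / d : ℕ) : ℝ) ≤ (N : ℝ) / (d : ℝ) := Nat.cast_div_le
  have h7 : (d : ℝ) = (nsq v : ℝ) := by rw [← hd]; simp
  rw [← h7]
  linarith

/-- a double count -/
theorem card_le_fst {S : Finset VV} {B : ℝ} {X : ℕ} (π : VV → V) (hX : 1 ≤ X)
    (h1 : ∀ x ∈ S, (π x).1 ^ 2 ≤ (Kc : ℤ) * X ∧ (π x).2 ^ 2 ≤ (Kc : ℤ) * X)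
    (h2 : ∀ v, ((S.filter (fun x => π x = v)).card : ℝ) ≤ B) :
    (S.card : ℝ) ≤ 9 * (Kc * X : ℝ) * B := by
  have e1 : (S.card : ℝ) = ∑ v ∈ S.image π, ((S.filter (fun x => π x = v)).card : ℝ) := by
    rw [card_eq_sum_card_image π S]
    push_cast
    rfl
  have hB : 0 ≤ B := le_trans (Nat.cast_nonneg _) (h2 0)
  have e2 : ((S.image π).card : ℝ) ≤ 9 * (Kc * X : ℝ) := by
    have := card_vec (S := S.image π) (T := Kc * X) (Nat.mul_pos Kc_one hX) (by
      intro v hv
      obtain ⟨x, hx, rfl⟩ := mem_image.1 hv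
      have := h1 x hx
      push_cast
      exact this)
    exact_mod_cast this
  calc (S.card : ℝ) = ∑ v ∈ S.image π, ((S.filter (fun x => π x = v)).card : ℝ) := e1
    _ ≤ ∑ v ∈ S.image π, B := sum_le_sum fun v _ => h2 v
    _ = ((S.image π).card : ℝ) * B := by rw [sum_const, nsmul_eq_mul]
    _ ≤ 9 * (Kc * X : ℝ) * B := mul_le_mul_of_nonneg_right e2 hB

omit [Aa] [Frm] in
/-- the inequalities for one element, in abstract form -/
lemma hel_aux {A az' α β N d e M : ℝ} (hN : 1 ≤ N) (hA : 0 ≤ A) (hα : 0 < α)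
    (hβ : β ≤ 100 * α) (p1 : 0 < d) (p2 : 0 < e) (p3 : d * e = M ^ 2 + az')
    (p4 : M ^ 2 ≤ (1 + A) * (d * e)) (p5 : az' < 0) (a1 : α * M < d) (a2 : d ≤ β * M)
    (m1 : N < M) (m2 : M ≤ 2 * N) :
    α * N < d ∧ d ≤ 200 * α * N ∧ N ≤ 100 * (1 + A) * α * e ∧ α * e ≤ 2 * N := by
  have hM0 : 0 < M := by linarith
  have b2 : d ≤ 100 * α * M := a2.trans (mul_le_mul_of_nonneg_right hβ hM0.le)
  have hAn : (0 : ℝ) ≤ 1 + A := by linarith
  refine ⟨(mul_lt_mul_of_pos_left m1 hα).trans a1, ?_, ?_, ?_⟩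
  · have h := mul_le_mul_of_nonneg_left m2 (mul_pos (by norm_num : (0 : ℝ) < 100) hα).le
    linarith
  · have h0 : d * e ≤ 100 * α * M * e := mul_le_mul_of_nonneg_right b2 p2.le
    have h1 : M * M ≤ (100 * (1 + A) * α * e) * M := by
      calc M * M = M ^ 2 := by ring
        _ ≤ (1 + A) * (d * e) := p4
        _ ≤ (1 + A) * (100 * α * M * e) := mul_le_mul_of_nonneg_left h0 hAn
        _ = (100 * (1 + A) * α * e) * M := by ring
    have h2 := le_of_mul_le_mul_right h1 hM0
    linarith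
  · have h1 : α * e * M ≤ (2 * N) * M := by
      have h3 : (α * M) * e ≤ d * e := mul_le_mul_of_nonneg_right a1.le p2.le
      have h4 : M * M ≤ (2 * N) * M := mul_le_mul_of_nonneg_right m2 hM0.le
      have h5 : M ^ 2 = M * M := by ring
      have h6 : α * e * M = (α * M) * e := by ring
      linarith
    exact le_of_mul_le_mul_right h1 hM0

theorem card_le : ∃ C : ℝ, 0 < C ∧ ∀ (N : ℕ) (α β : ℝ), 1 ≤ N → 0 < α → β ≤ 100 * α →
    ((Gam N α β).card : ℝ) ≤ C * N := by
  have ha := Bs.aa_pos_real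
  have hK1 : (1 : ℝ) ≤ (Kc : ℝ) := by exact_mod_cast Kc_one
  refine ⟨4000 * (Kc : ℝ) * (1 + aa), by positivity, fun N α β hN hα hβ => ?_⟩
  have hN1 : (1 : ℝ) ≤ N := by exact_mod_cast hN
  rcases (Gam N α β).eq_empty_or_nonempty with he | ⟨x₀, hx₀⟩
  · rw [he, card_empty, Nat.cast_zero]
    positivity
  -- the facts about one element
  have hel : ∀ x ∈ Gam N α β, (0 : ℝ) < (nsq x.1 : ℝ) ∧ (0 : ℝ) < (nsq x.2 : ℝ) ∧
      α * N < (nsq x.1 : ℝ) ∧ (nsq x.1 : ℝ) ≤ 200 * α * N ∧
      (N : ℝ) ≤ 100 * (1 + aa) * α * (nsq x.2 : ℝ) ∧ α * (nsq x.2 : ℝ) ≤ 2 * N := by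
    intro x hx
    rw [Bs.mem_Gam] at hx
    obtain ⟨c1, m1, m2, a1, a2⟩ := hx
    have p1 : (0 : ℝ) < (nsq x.1 : ℝ) := by exact_mod_cast (Bs.dd_pos c1)
    have p2 : (0 : ℝ) < (nsq x.2 : ℝ) := by exact_mod_cast (Bs.ee_pos c1)
    have p3 : (nsq x.1 : ℝ) * (nsq x.2 : ℝ) = (mm x : ℝ) ^ 2 + az := by
      exact_mod_cast (Bs.dd_mul_ee c1)
    have p4 : (mm x : ℝ) ^ 2 ≤ (1 + aa) * ((nsq x.1 : ℝ) * (nsq x.2 : ℝ)) := by
      have h1 : mm x ^ 2 ≤ (1 + (aa : ℤ)) * (nsq x.1 * nsq x.2) := by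
        have := sq_le_mul c1
        unfold dd ee at this
        linarith
      exact_mod_cast h1
    have p5 : (az : ℝ) < 0 := by exact_mod_cast az_neg
    have a1' : α * (mm x : ℝ) < (nsq x.1 : ℝ) := a1
    have a2' : (nsq x.1 : ℝ) ≤ β * (mm x : ℝ) := a2
    have m1' : (N : ℝ) < (mm x : ℝ) := by exact_mod_cast m1
    have m2' : (mm x : ℝ) ≤ 2 * N := by exact_mod_cast m2
    exact ⟨p1, p2, hel_aux hN1 (Nat.cast_nonneg _) hα hβ p1 p2 p3 p4 p5 a1' a2' m1' m2'⟩
  obtain ⟨q1, q2, q3, q4, q5, q6⟩ := hel x₀ hx₀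
  rcases le_or_gt α 1 with hα1 | hα1
  · -- `d` is the smaller one
    set X : ℕ := ⌊200 * α * N⌋₊ with hX
    have hd1 : (1 : ℝ) ≤ (nsq x₀.1 : ℝ) := by
      have : (0 : ℤ) < nsq x₀.1 := by exact_mod_cast q1
      exact_mod_cast this
    have hX1 : 1 ≤ X := by
      rw [hX, Nat.one_le_floor_iff]
      linarith
    have hXr : (X : ℝ) ≤ 200 * α * N := Nat.floor_le (by positivity)
    have key := card_le_fst (S := Gam N α β) (B := 2 / α) (X := X) (fun x => x.1) hX1 (by
        intro x hx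
        obtain ⟨r1, r2, r3, r4, r5, r6⟩ := hel x hx
        have h1 : (0 : ℤ) < nsq x.1 := by exact_mod_cast r1
        obtain ⟨d, hd⟩ : ∃ d : ℕ, (d : ℤ) = nsq x.1 := ⟨(nsq x.1).toNat, Int.toNat_of_nonneg h1.le⟩
        have h2 : (d : ℝ) = (nsq x.1 : ℝ) := by rw [← hd]; simp
        have h3 : nsq x.1 ≤ X := by
          rw [← hd]
          have : d ≤ X := by
            rw [hX]
            exact Nat.le_floor (by rw [h2]; exact r4)
          exact_mod_cast this
        have h4 := fst_sq (Bs.CC_of_mem_Gam hx)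
        have h5 : (Kc : ℤ) * dd x ≤ Kc * X :=
          mul_le_mul_of_nonneg_left h3 (Int.natCast_nonneg _)
        exact ⟨h4.1.trans h5, h4.2.trans h5⟩) (by
        intro v
        rcases ((Gam N α β).filter (fun x => x.1 = v)).eq_empty_or_nonempty with he | ⟨x₁, hx₁⟩
        · rw [he, card_empty, Nat.cast_zero]
          positivity
        have hx₁' := (mem_filter.1 hx₁)
        obtain ⟨r1, r2, r3, r4, r5, r6⟩ := hel x₁ hx₁'.1
        rw [hx₁'.2] at r1 r3
        have hinj : ((Gam N α β).filter (fun x => x.1 = v)).card =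
            (((Gam N α β).filter (fun x => x.1 = v)).image (fun x => x.2)).card := by
          refine (card_image_of_injOn ?_).symm
          intro x hx y hy hxy
          have hx' := (mem_filter.1 (mem_coe.1 hx)).2
          have hy' := (mem_filter.1 (mem_coe.1 hy)).2
          exact Prod.ext (by rw [hx', hy']) hxy
        rw [hinj]
        have hv0 : 0 < nsq v := by exact_mod_cast r1
        have h3 := card_fib hv0 (c := -1) (by norm_num) (N := N)
          (T := ((Gam N α β).filter (fun x => x.1 = v)).image (fun x => x.2)) (by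
            intro w hw
            obtain ⟨x, hx, rfl⟩ := mem_image.1 hw
            have hx' := mem_filter.1 hx
            have h4 := Bs.mem_Gam.1 hx'.1
            rw [← hx'.2]
            exact ⟨h4.1.1, h4.2.1, h4.2.2.1⟩)
        refine h3.trans ?_
        have h5 : (N : ℝ) / (nsq v : ℝ) ≤ 1 / α := by
          rw [div_le_div_iff₀ r1 hα]
          linarith
        have h6 : 1 ≤ 1 / α := by rw [le_div_iff₀ hα]; linarith
        have h7 : 2 / α = 1 / α + 1 / α := by ring
        rw [h7]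
        linarith)
    refine key.trans ?_
    have h8 : 9 * ((Kc : ℝ) * X) * (2 / α) ≤
        9 * ((Kc : ℝ) * (200 * α * N)) * (2 / α) :=
      mul_le_mul_of_nonneg_right (mul_le_mul_of_nonneg_left
        (mul_le_mul_of_nonneg_left hXr (Nat.cast_nonneg _)) (by norm_num))
        (div_nonneg (by norm_num) hα.le)
    have h9 : 9 * ((Kc : ℝ) * (200 * α * N)) * (2 / α) = 3600 * (Kc : ℝ) * N := by
      field_simp; ring
    rw [h9] at h8
    refine h8.trans ?_
    have h10 : 0 < (Kc : ℝ) * N := by positivity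
    nlinarith [mul_pos h10 ha]
  · -- `e` is the smaller one
    have hα0 : 0 < α := by linarith
    set X : ℕ := ⌊2 * N / α⌋₊ with hX
    have hd1 : (1 : ℝ) ≤ (nsq x₀.2 : ℝ) := by
      have : (0 : ℤ) < nsq x₀.2 := by exact_mod_cast q2
      exact_mod_cast this
    have hX1 : 1 ≤ X := by
      rw [hX, Nat.one_le_floor_iff, le_div_iff₀ hα0]
      nlinarith
    have hXr : (X : ℝ) ≤ 2 * N / α := Nat.floor_le (by positivity)
    have key := card_le_fst (S := Gam N α β) (B := 101 * (1 + aa) * α) (X := X) (fun x => x.2) hX1 (by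
        intro x hx
        obtain ⟨r1, r2, r3, r4, r5, r6⟩ := hel x hx
        have h1 : (0 : ℤ) < nsq x.2 := by exact_mod_cast r2
        obtain ⟨d, hd⟩ : ∃ d : ℕ, (d : ℤ) = nsq x.2 := ⟨(nsq x.2).toNat, Int.toNat_of_nonneg h1.le⟩
        have h2 : (d : ℝ) = (nsq x.2 : ℝ) := by rw [← hd]; simp
        have h3 : nsq x.2 ≤ X := by
          rw [← hd]
          have : d ≤ X := by
            rw [hX]
            refine Nat.le_floor ?_
            rw [h2, le_div_iff₀ hα0]
            linarith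
          exact_mod_cast this
        have h4 := snd_sq (Bs.CC_of_mem_Gam hx)
        have h5 : (Kc : ℤ) * ee x ≤ Kc * X :=
          mul_le_mul_of_nonneg_left h3 (Int.natCast_nonneg _)
        exact ⟨h4.1.trans h5, h4.2.trans h5⟩) (by
        intro v
        rcases ((Gam N α β).filter (fun x => x.2 = v)).eq_empty_or_nonempty with he | ⟨x₁, hx₁⟩
        · rw [he, card_empty, Nat.cast_zero]
          positivity
        have hx₁' := (mem_filter.1 hx₁)
        obtain ⟨r1, r2, r3, r4, r5, r6⟩ := hel x₁ hx₁'.1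
        rw [hx₁'.2] at r2 r5
        have hinj : ((Gam N α β).filter (fun x => x.2 = v)).card =
            (((Gam N α β).filter (fun x => x.2 = v)).image (fun x => x.1)).card := by
          refine (card_image_of_injOn ?_).symm
          intro x hx y hy hxy
          have hx' := (mem_filter.1 (mem_coe.1 hx)).2
          have hy' := (mem_filter.1 (mem_coe.1 hy)).2
          exact Prod.ext hxy (by rw [hx', hy'])
        rw [hinj]
        have hv0 : 0 < nsq v := by exact_mod_cast r2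
        have h3 := card_fib hv0 (c := 1) (by norm_num) (N := N)
          (T := ((Gam N α β).filter (fun x => x.2 = v)).image (fun x => x.1)) (by
            intro w hw
            obtain ⟨x, hx, rfl⟩ := mem_image.1 hw
            have hx' := mem_filter.1 hx
            have h4 := Bs.mem_Gam.1 hx'.1
            rw [← hx'.2]
            refine ⟨?_, ?_, ?_⟩
            · show cross x.2 x.1 = 1
              rw [cross_swap, h4.1.1]
              norm_num
            · show (N : ℤ) < dot x.2 x.1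
              rw [Bs.dot_comm]
              exact h4.2.1
            · show dot x.2 x.1 ≤ 2 * N
              rw [Bs.dot_comm]
              exact h4.2.2.1)
        refine h3.trans ?_
        have h5 : (N : ℝ) / (nsq v : ℝ) ≤ 100 * (1 + aa) * α := by
          rw [div_le_iff₀ r2]
          linarith
        have h6 := mul_pos ha hα0
        have h7 : 101 * (1 + (aa : ℝ)) * α = 100 * (1 + aa) * α + (α + aa * α) := by ring
        rw [h7]
        linarith)
    refine key.trans ?_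
    have h8 : 9 * ((Kc : ℝ) * X) * (101 * (1 + aa) * α) ≤
        9 * ((Kc : ℝ) * (2 * N / α)) * (101 * (1 + aa) * α) :=
      mul_le_mul_of_nonneg_right (mul_le_mul_of_nonneg_left
        (mul_le_mul_of_nonneg_left hXr (Nat.cast_nonneg _)) (by norm_num))
        (mul_nonneg (mul_nonneg (by norm_num) (by linarith)) hα0.le)
    have h9 : 9 * ((Kc : ℝ) * (2 * N / α)) * (101 * (1 + aa) * α) =
        1818 * ((Kc : ℝ) * (1 + aa)) * N := by field_simp; ring
    rw [h9] at h8
    refine h8.trans ?_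
    have h10 : 0 < (Kc : ℝ) * (1 + aa) * N := by positivity
    nlinarith

/-- the form of group S -/
def toFm : SG.Fm := ⟨Frm.A, Frm.B, Frm.C⟩

lemma toFm_a : (toFm : SG.Fm).a = az := Frm.det

/-- its automorphism -/
def toAu : SR.Au toFm where
  p := Frm.P
  q := Frm.Q
  r := Frm.R
  s := Frm.S
  det := Frm.mdet
  inv := fun v w => by
    have h1 := Frm.inv v w
    unfold SG.Fm.b toFm
    linear_combination h1
  rpos := Frm.rpos
  bpos := Frm.bpos

lemma G1_sub {N : ℕ} (hN : aa ≤ N ^ 2) : SR.G1 toAu N ⊆ Gam N 1 3 :=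
  SeedBr.sub toAu Frm.hA toFm_a hN

lemma not_sq : ¬ IsSquare (-az) := by
  rintro ⟨r, hr⟩
  refine Bs.sq_ne r ?_
  rw [sq, ← hr]
  ring

lemma toFm_idf : SR.Idf toFm := by
  refine ⟨Frm.hA, ?_, ?_⟩
  · rw [toFm_a]; exact az_neg
  · rw [toFm_a]; exact not_sq

theorem card_ge : ∃ c : ℝ, 0 < c ∧ ∀ᶠ N : ℕ in atTop, c * N ≤ ((Gam N 1 3).card : ℝ) := by
  obtain ⟨c, hc, h⟩ := SR.specLOW toFm toAu toFm_idf
  refine ⟨c, hc, ?_⟩
  filter_upwards [h, eventually_ge_atTop (aa + 1)] with N hN hN2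
  refine hN.trans ?_
  have h3 : aa ≤ N ^ 2 := by nlinarith
  exact_mod_cast card_le_card ((filter_subset _ _).trans (G1_sub h3))

end GamM

/-- **CNT** -/
theorem specCNT [Aa] [Frm] : SpecCNT := ⟨GamM.card_le, GamM.card_ge⟩

end Pool.Agent.Lib.MP391708.TG
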