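import Pool.Agent.Lib.MP_391708_nt.TG.HBas
import Pool.Agent.Lib.MP_391708_nt.T1.GoodL

/-!
# T1b, group H: the window of a datum and a pair `(D, X)` (`SpecH2`)
-/

set_option autoImplicit false
set_option linter.constructorNameAsVariable false
set_option linter.unusedSectionVars false

namespace Pool.Agent.Lib.MP391708.TG

variable [Pool.Agent.Lib.MP391708.TG.Aa] [Pool.Agent.Lib.MP391708.TG.Frm]

open Finset Filter Topology
open Pool.Agent.Lib.MP391708.Eqd (V cross pairs)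
open scoped Classical

namespace H

namespace H2M

/-! ### inequalities -/

section
variable {M A B m₁ m₂ D D₂ P Q d e k : ℝ}

theorem win1 (hA : 0 < A) (hm : 0 < m₂) (hD : 0 < D) (h : P * A = d * m₂) :
    2 * M < D * P ↔ 2 * A / (m₂ * D) * M < d := by
  rw [div_mul_eq_mul_div, div_lt_iff₀ (mul_pos hm hD), ← mul_lt_mul_iff_left₀ hA]
  have e1 : D * P * A = d * (m₂ * D) := by rw [mul_assoc, h]; ring
  have e2 : 2 * M * A = 2 * A * M := by ring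
  rw [e1, e2]

theorem win2 (hA : 0 < A) (hm : 0 < m₂) (hD : 0 < D) (h : P * A = d * m₂) :
    D * P ≤ 3 * M ↔ d ≤ 3 * A / (m₂ * D) * M := by
  rw [div_mul_eq_mul_div, le_div_iff₀ (mul_pos hm hD), ← mul_le_mul_iff_left₀ hA]
  have e1 : D * P * A = d * (m₂ * D) := by rw [mul_assoc, h]; ring
  have e2 : 3 * M * A = 3 * A * M := by ring
  rw [e1, e2]

theorem win3 (hB : 0 < B) (he : 0 < e) (h : Q * B = e * m₁) (hde : d * e = M ^ 2 + k) :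
    M ^ 2 + k ≤ D₂ * Q * M ↔ d ≤ D₂ * m₁ / B * M := by
  rw [div_mul_eq_mul_div, le_div_iff₀ hB, ← hde, ← mul_le_mul_iff_left₀ hB]
  have e1 : D₂ * Q * M * B = D₂ * m₁ * M * e := by
    have : D₂ * Q * M * B = D₂ * M * (Q * B) := by ring
    rw [this, h]; ring
  have e2 : d * e * B = d * B * e := by ring
  rw [e1, e2, mul_le_mul_iff_left₀ he]

theorem win4 (hB : 0 < B) (he : 0 < e) (h : Q * B = e * m₁) (hde : d * e = M ^ 2 + k) :
    D₂ * Q * M < 2 * (M ^ 2 + k) ↔ D₂ * m₁ / (2 * B) * M < d := by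
  rw [div_mul_eq_mul_div, div_lt_iff₀ (by positivity), ← hde, ← mul_lt_mul_iff_left₀ hB]
  have e1 : D₂ * Q * M * B = D₂ * m₁ * M * e := by
    have : D₂ * Q * M * B = D₂ * M * (Q * B) := by ring
    rw [this, h]; ring
  have e2 : 2 * (d * e) * B = d * (2 * B) * e := by ring
  rw [e1, e2, mul_lt_mul_iff_left₀ he]

end

/-! ### sieving parts -/

section
variable {p : Prm} {N : ℕ}

theorem dvd_sm_iff {n l : ℕ} (hn : n ≠ 0) (hl : l ∈ PP p N) : l ∣ sm p N n ↔ l ∣ n := by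
  constructor
  · exact fun h => h.trans (sm_dvd hn)
  · intro h
    have hp := prime_of_mem_PP hl
    have h1 : l ∣ l ^ n.factorization l := by
      apply dvd_pow_self
      have := (hp.dvd_iff_one_le_factorization hn).1 h
      omega
    exact h1.trans (by
      unfold sm
      exact dvd_prod_of_mem (fun l => l ^ n.factorization l) hl)

theorem mem_PP_of_dvd_sm {n l : ℕ} (hl : l.Prime) (h : l ∣ sm p N n) : l ∈ PP p N := by
  unfold sm at h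
  obtain ⟨q, hq, h1⟩ := (hl.prime.dvd_finsetProd_iff _).1 h
  have h2 : l ∣ q := hl.dvd_of_dvd_pow h1
  rwa [(Nat.prime_dvd_prime_iff_eq hl (prime_of_mem_PP hq)).1 h2]

end

end H2M

open H2M in
/-- **H2** -/
theorem specH2 (h1a : SpecH1a) : SpecH2 := by
  refine (_root_.Pool.Agent.Lib.MP391708.T4.Good.and h1a good_bas).mono ?_
  rintro p ⟨h1, h2⟩
  filter_upwards [h1, h2] with N h1 hb a ha t x hx hf
  obtain ⟨hP, hQ, hG, hsd, hse, hsM, hsG, hsP, hsQ, -, -, -⟩ := h1 x hx a ha hf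
  -- positivity
  have hDA := ha
  unfold DA at hDA
  rw [mem_filter] at hDA
  obtain ⟨hbox, hsq, hpr, -, -⟩ := hDA
  simp only [mem_product] at hbox
  have hne : ds a * es a ≠ 0 := hsq.ne_zero
  have hds : ds a ≠ 0 := left_ne_zero_of_mul hne
  have hes : es a ≠ 0 := right_ne_zero_of_mul hne
  have hg1m1 : g1 a * m1 a ≠ 0 := left_ne_zero_of_mul hds
  have hn1 : n1 a ≠ 0 := right_ne_zero_of_mul hds
  have hg1 : g1 a ≠ 0 := left_ne_zero_of_mul hg1m1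
  have hm1 : m1 a ≠ 0 := right_ne_zero_of_mul hg1m1
  have hg2m2 : g2 a * m2 a ≠ 0 := left_ne_zero_of_mul hes
  have hn2 : n2 a ≠ 0 := right_ne_zero_of_mul hes
  have hg2 : g2 a ≠ 0 := left_ne_zero_of_mul hg2m2
  have hm2 : m2 a ≠ 0 := right_ne_zero_of_mul hg2m2
  have hu : du a ≠ 0 := (mem_Uu.1 hbox.2.2.1).2.2.1.ne_zero
  have hv : dv a ≠ 0 := (mem_Vv.1 hbox.2.2.2).2.2.1.ne_zero
  obtain ⟨hc, hMN, -, hd1, hd2⟩ := mem_Gam hx
  have hd0 := dd_pos hc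
  have he0 := ee_pos hc
  have hde := dd_mul_ee hc
  have hM0 : 0 < mm x := by omega
  have hMd := Md_cast hx
  -- real versions
  have rM : (0 : ℝ) < (mm x : ℝ) := by exact_mod_cast hM0
  have re : (0 : ℝ) < (ee x : ℝ) := by exact_mod_cast he0
  have rde : (dd x : ℝ) * (ee x : ℝ) = (mm x : ℝ) ^ 2 + az := by exact_mod_cast hde
  have rA : (0 : ℝ) < (g1 a : ℝ) * m1 a * du a := by positivity
  have rB : (0 : ℝ) < (g2 a : ℝ) * m2 a * dv a := by positivity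
  have rm2 : (0 : ℝ) < (m2 a : ℝ) := by positivity
  have rP : (Pd a x : ℝ) * ((g1 a : ℝ) * m1 a * du a) = (dd x : ℝ) * m2 a := by
    have h3 : ((Pd a x * (g1 a * m1 a * du a) : ℕ) : ℤ) = dd x * m2 a := by
      rw [hP]; push_cast; rw [← dd_cast hx]; simp
    have h4 : (((Pd a x * (g1 a * m1 a * du a) : ℕ) : ℤ) : ℝ) = ((dd x * m2 a : ℤ) : ℝ) := by
      rw [h3]
    push_cast at h4
    exact h4
  have rQ : (Qd a x : ℝ) * ((g2 a : ℝ) * m2 a * dv a) = (ee x : ℝ) * m1 a := by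
    have h3 : ((Qd a x * (g2 a * m2 a * dv a) : ℕ) : ℤ) = ee x * m1 a := by
      rw [hQ]; push_cast; rw [← ee_cast hx]; simp
    have h4 : (((Qd a x * (g2 a * m2 a * dv a) : ℕ) : ℤ) : ℝ) = ((ee x * m1 a : ℤ) : ℝ) := by
      rw [h3]
    push_cast at h4
    exact h4
  have hPd0 : 0 ≤ (Pd a x : ℤ) := Int.natCast_nonneg _
  have hMp : 0 < vl (Md x) := vl_pos (aa_lt_Md hx)
  have hPne : Pd a x ≠ 0 := by
    intro h
    rw [h, mul_zero, zero_mul] at hG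
    omega
  have hQne : Qd a x ≠ 0 := by
    intro h
    rw [h, mul_zero] at hG
    omega
  -- the conditions at the sieving primes
  have hcQ : ∀ l ∈ PP p N, (l ∣ Qd a x ↔ l ∣ m1 a * n2 a) := by
    intro l hl
    rw [← dvd_sm_iff hQne hl, hsQ]
  have hcM : ∀ l ∈ PP p N, (l ∣ vl (Md x) ↔ l ∣ ds a * es a) := by
    intro l hl
    rw [← dvd_sm_iff hMp.ne' hl, hsM]
  have h5 : (∀ l ∈ PP p N, (l : ℤ) ∣ t.1 → ¬ l ∣ Qd a x) ↔
      (∀ l ∈ PP p N, (l : ℤ) ∣ t.1 → ¬ l ∣ m1 a * n2 a) := by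
    constructor
    · intro h l hl h'
      rw [← hcQ l hl]
      exact h l hl h'
    · intro h l hl h'
      rw [hcQ l hl]
      exact h l hl h'
  have h6 : t.2 ≠ 0 → ((∀ l ∈ PP p N, l ∣ t.2 → ¬ l ∣ vl (Md x)) ↔
      Nat.Coprime (sm p N t.2) (ds a * es a)) := by
    intro ht
    constructor
    · intro h
      apply Nat.Coprime.symm
      refine Nat.coprime_of_dvd ?_
      intro l hl h3 h4
      have hlP := mem_PP_of_dvd_sm hl h4
      exact h l hlP ((dvd_sm_iff ht hlP).1 h4) ((hcM l hlP).2 h3)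
    · intro h l hl h3 h4
      have h5 := Nat.dvd_gcd ((dvd_sm_iff ht hl).2 h3) ((hcM l hl).1 h4)
      rw [h] at h5
      exact (prime_of_mem_PP hl).one_lt.ne' (Nat.dvd_one.1 h5)
  have hDX : DX p (Md x) (dG a) (Pd a x) (Qd a x) t ↔ DX p 0 (dG a) 0 0 t := Iff.rfl
  -- the window
  have hwin : DX p 0 (dG a) 0 0 t → 0 < t.1 →
      ((2 * (Md x : ℤ) < t.1 * Pd a x ∧ t.1 * Pd a x ≤ 3 * (Md x : ℤ) ∧
        (Md x : ℤ) ^ 2 + az ≤ D2 (Md x, dG a, Pd a x, Qd a x, t) * Qd a x * Md x ∧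
        D2 (Md x, dG a, Pd a x, Qd a x, t) * Qd a x * Md x < 2 * ((Md x : ℤ) ^ 2 + az)) ↔
      x ∈ Gam N (aL a t) (bL a t)) := by
    intro hdx htp
    have rD : (0 : ℝ) < (t.1 : ℝ) := by exact_mod_cast htp
    obtain ⟨D₂, hD₂⟩ : ∃ D₂ : ℤ, D₂ = D2 (Md x, dG a, Pd a x, Qd a x, t) := ⟨_, rfl⟩
    rw [← hD₂]
    have hD2r : (D₂ : ℝ) = ((t.2 : ℝ) - dG a) / t.1 := by
      have h7 : D₂ * t.1 = (t.2 : ℤ) - dG a := by
        rw [hD₂]
        exact Int.ediv_mul_cancel hdx.2.1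
      rw [eq_div_iff rD.ne']
      exact_mod_cast h7
    rw [hMd]
    have k1 : 2 * mm x < t.1 * Pd a x ↔
        2 * ((g1 a : ℝ) * m1 a * du a) / (m2 a * t.1) * (mm x : ℝ) < (dd x : ℝ) := by
      rw [← win1 rA rm2 rD rP]
      exact_mod_cast Iff.rfl
    have k2 : t.1 * Pd a x ≤ 3 * mm x ↔
        (dd x : ℝ) ≤ 3 * ((g1 a : ℝ) * m1 a * du a) / (m2 a * t.1) * (mm x : ℝ) := by
      rw [← win2 rA rm2 rD rP]
      exact_mod_cast Iff.rfl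
    have k3 : mm x ^ 2 + az ≤ D₂ * Qd a x * mm x ↔
        (dd x : ℝ) ≤ ((t.2 : ℝ) - dG a) / t.1 * m1 a / ((g2 a : ℝ) * m2 a * dv a) *
          (mm x : ℝ) := by
      rw [← hD2r, ← win3 rB re rQ rde]
      exact_mod_cast Iff.rfl
    have k4 : D₂ * Qd a x * mm x < 2 * (mm x ^ 2 + az) ↔
        ((t.2 : ℝ) - dG a) / t.1 * m1 a / (2 * ((g2 a : ℝ) * m2 a * dv a)) * (mm x : ℝ) <
          (dd x : ℝ) := by
      rw [← hD2r, ← win4 rB re rQ rde]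
      exact_mod_cast Iff.rfl
    rw [k1, k2, k3, k4]
    have hx' := hx
    unfold Gam at hx' ⊢
    rw [mem_filter] at hx' ⊢
    obtain ⟨y1, y0, y2, y3, y4, y5⟩ := hx'
    have l1 : aL a t * (mm x : ℝ) < dd x ↔ 1 * (mm x : ℝ) < dd x ∧
        2 * ((g1 a : ℝ) * m1 a * du a) / (m2 a * t.1) * (mm x : ℝ) < (dd x : ℝ) ∧
        ((t.2 : ℝ) - dG a) / t.1 * m1 a / (2 * ((g2 a : ℝ) * m2 a * dv a)) * (mm x : ℝ) <
          (dd x : ℝ) := by
      unfold aL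
      rw [max_mul_of_nonneg _ _ rM.le, max_lt_iff, max_mul_of_nonneg _ _ rM.le, max_lt_iff]
    have l2 : (dd x : ℝ) ≤ bL a t * (mm x : ℝ) ↔ (dd x : ℝ) ≤ 3 * (mm x : ℝ) ∧
        (dd x : ℝ) ≤ 3 * ((g1 a : ℝ) * m1 a * du a) / (m2 a * t.1) * (mm x : ℝ) ∧
        (dd x : ℝ) ≤ ((t.2 : ℝ) - dG a) / t.1 * m1 a / ((g2 a : ℝ) * m2 a * dv a) *
          (mm x : ℝ) := by
      unfold bL
      rw [min_mul_of_nonneg _ _ rM.le, le_min_iff, min_mul_of_nonneg _ _ rM.le, le_min_iff]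
    rw [l1, l2]
    constructor
    · rintro ⟨z1, z2, z3, z4⟩
      exact ⟨y1, y0, y2, y3, ⟨y4, z1, z4⟩, y5, z2, z3⟩
    · rintro ⟨-, -, -, -, ⟨-, z1, z4⟩, -, z2, z3⟩
      exact ⟨z1, z2, z3, z4⟩
  obtain ⟨B, hB⟩ : ∃ B : Prop, B = (t ∈ dbox N) := ⟨_, rfl⟩
  have hTS : t ∈ TS p N a x ↔ B ∧ DX p (Md x) (dG a) (Pd a x) (Qd a x) t ∧
      2 * (Md x : ℤ) < t.1 * Pd a x ∧ t.1 * Pd a x ≤ 3 * (Md x : ℤ) ∧
      (Md x : ℤ) ^ 2 + az ≤ D2 (Md x, dG a, Pd a x, Qd a x, t) * Qd a x * Md x ∧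
      D2 (Md x, dG a, Pd a x, Qd a x, t) * Qd a x * Md x < 2 * ((Md x : ℤ) ^ 2 + az) ∧
      (∀ l ∈ PP p N, (l : ℤ) ∣ t.1 → ¬ l ∣ Qd a x) ∧
      (∀ l ∈ PP p N, l ∣ t.2 → ¬ l ∣ vl (Md x)) ∧ (sm p N t.2 : ℝ) ≤ zz p N ^ p.K := by
    unfold TS S1
    rw [hB]
    exact mem_filter
  have hok : okT p N a t ↔ a ∈ DA p N ∧ B ∧ 0 < t.1 ∧ DX p 0 (dG a) 0 0 t ∧
      (∀ l ∈ PP p N, (l : ℤ) ∣ t.1 → ¬ l ∣ m1 a * n2 a) ∧
      Nat.Coprime (sm p N t.2) (ds a * es a) ∧ (sm p N t.2 : ℝ) ≤ zz p N ^ p.K := by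
    unfold okT
    rw [hB]
  rw [hTS, hok]
  clear hTS hok hB
  constructor
  · rintro ⟨q1, q2, q3, q4, q5, q6, q7, q8, q9⟩
    have htp : 0 < t.1 := by
      by_contra hcon
      have h7 : t.1 * (Pd a x : ℤ) ≤ 0 := mul_nonpos_of_nonpos_of_nonneg (not_lt.1 hcon) hPd0
      omega
    have ht2 : t.2 ≠ 0 := (hDX.1 q2).2.2.2.2.2.1.ne_zero
    exact ⟨⟨ha, q1, htp, hDX.1 q2, h5.1 q7, (h6 ht2).1 q8, q9⟩,
      (hwin (hDX.1 q2) htp).1 ⟨q3, q4, q5, q6⟩⟩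
  · rintro ⟨⟨-, q1, htp, q2, q7, q8, q9⟩, hw⟩
    have ht2 : t.2 ≠ 0 := q2.2.2.2.2.2.1.ne_zero
    obtain ⟨q3, q4, q5, q6⟩ := (hwin q2 htp).2 hw
    exact ⟨q1, hDX.2 q2, q3, q4, q5, q6, h5.2 q7, (h6 ht2).2 q8, q9⟩

end H

end Pool.Agent.Lib.MP391708.TG
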