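import Pool.Agent.Lib.MP_391708_nt.TG.SpecH
import Pool.Agent.Lib.MP_391708_nt.TG.Basic
import Pool.Agent.Lib.MP_391708_nt.TA.LLX
import Pool.Agent.Lib.MP_391708_nt.T1.GoodL

/-!
# T1a, group H, module HN (T1b): the relations over nontypical `x`
-/

set_option autoImplicit false
set_option linter.unusedSectionVars false

namespace Pool.Agent.Lib.MP391708.TG

variable [Pool.Agent.Lib.MP391708.TG.Aa] [Pool.Agent.Lib.MP391708.TG.Frm]

open Finset Filter Topology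
open Pool.Agent.Lib.MP391708.Eqd (V cross pairs)
open scoped Classical

noncomputable section

namespace H

namespace HNm

/-! ### nonnegativity -/

lemma Su_nonneg (p : Prm) (N : ℕ) : 0 ≤ Su p N :=
  Finset.sum_nonneg fun _ _ => by positivity

lemma Sv_nonneg (p : Prm) (N : ℕ) : 0 ≤ Sv p N :=
  Finset.sum_nonneg fun _ _ => by positivity

lemma cE_nonneg : 0 ≤ cE := by
  unfold cE
  have h := (TA.specLLX az az_ne Bs.nsq_chz).1
  linarith

lemma k0_nonneg (p : Prm) (N : ℕ) : 0 ≤ k0 p N := by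
  unfold k0 kp
  have := cE_nonneg
  have := Su_nonneg p N
  have := Sv_nonneg p N
  positivity

lemma ch_le (l : ℕ) : ch l ≤ 1 := Bs.ch_le_one l

lemma rp_nonneg (D : ℕ) : 0 ≤ rp D := by
  refine Finset.prod_nonneg fun l hl => ?_
  have h1 : 0 < l := (Nat.prime_of_mem_primeFactors hl).pos
  have h2 : (1 : ℝ) ≤ l := by exact_mod_cast h1
  have h3 : ch l / l ≤ 1 := by
    rw [div_le_one (by positivity)]
    exact (ch_le l).trans h2
  linarith

lemma tilt_nonneg (p : Prm) (N : ℕ) {bT bR : ℝ} (hT : 0 ≤ bT) (hR : 0 ≤ bR) (r : Rl) :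
    0 ≤ tilt p N bT bR r := by
  refine Finset.prod_nonneg fun l _ => ?_
  split_ifs <;> positivity

lemma wt_nonneg (p : Prm) (N : ℕ) {y : ℝ} (hy : 0 ≤ y) (r : Rl) : 0 ≤ wt p N y r := by
  unfold wt
  have := k0_nonneg p N
  have := rp_nonneg (rD r).natAbs
  have := tilt_nonneg p N hy hy r
  positivity

lemma iX_nonneg (r : Rl) : 0 ≤ iX r := by
  unfold iX; split_ifs <;> norm_num

lemma iH_nonneg (p : Prm) (N : ℕ) (r : Rl) : 0 ≤ iH p N r := by
  unfold iH dn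
  split_ifs <;> positivity

lemma Zx_nonneg (p : Prm) (N : ℕ) {y : ℝ} (hy : 0 ≤ y) (Ev : Rl → Prop) (x : VV) :
    0 ≤ Zx p N y Ev x :=
  Finset.sum_nonneg fun _ _ => Finset.sum_nonneg fun _ _ =>
    mul_nonneg (wt_nonneg p N hy _) (iX_nonneg _)

lemma Zh_nonneg (p : Prm) (N : ℕ) {y : ℝ} (hy : 0 ≤ y) (Ev : Rl → Prop) (x : VV) :
    0 ≤ Zh p N y Ev x :=
  Finset.sum_nonneg fun _ _ => Finset.sum_nonneg fun _ _ =>
    mul_nonneg (wt_nonneg p N hy _) (iH_nonneg p N _)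

/-- the event `q ∣ M² + a` does not depend on the relation -/
lemma Zx_evN (p : Prm) (N : ℕ) (y : ℝ) {q : ℕ} {x : VV} (h : q ∣ vl (Md x)) :
    Zx p N y (evN q) x = Zx p N y ev0 x := by
  unfold Zx
  refine Finset.sum_congr rfl fun a _ => ?_
  refine Finset.sum_congr ?_ fun _ _ => rfl
  refine Finset.filter_congr fun t _ => ?_
  exact ⟨fun _ => trivial, fun _ => h⟩

/-! ### data exist only over `x` with the conditions (1), (2), (4), (5) of `typ` -/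

lemma dd_mul_ee {x : VV} (h : cross x.1 x.2 = -1) : dd x * ee x = mm x ^ 2 + az :=
  Bs.dd_mul_ee' h

lemma cross_of_mem {N : ℕ} {α β : ℝ} {x : VV} (hx : x ∈ Gam N α β) : cross x.1 x.2 = -1 :=
  Bs.cross_of_mem_Gam hx

lemma natAbs_mul {x : VV} (h : cross x.1 x.2 = -1) :
    (dd x).natAbs * (ee x).natAbs = vl (Md x) := by
  have h1 := congrArg Int.natAbs (dd_mul_ee h)
  rw [Int.natAbs_mul] at h1
  rw [h1]
  exact (vl_natAbs _).symm

lemma pp_prime {p : Prm} {N l : ℕ} (h : l ∈ PP p N) : l.Prime := (mem_filter.1 h).2.1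

lemma sm_eq_of {p : Prm} {N n m : ℕ} (hn : n ≠ 0) (hm : Squarefree m)
    (hP : ∀ l : ℕ, l.Prime → l ∣ m → l ∈ PP p N)
    (h : ∀ l ∈ PP p N, (l ∣ n ↔ l ∣ m) ∧ ¬ l ^ 2 ∣ n) : sm p N n = m := by
  have hm0 : m ≠ 0 := hm.ne_zero
  have h1 : m = ∏ l ∈ PP p N, l ^ m.factorization l := by
    conv_lhs => rw [← Nat.prod_factorization_pow_eq_self hm0]
    rw [Finsupp.prod]
    refine Finset.prod_subset ?_ ?_
    · intro l hl
      rw [Nat.support_factorization] at hl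
      exact hP l (Nat.prime_of_mem_primeFactors hl) (Nat.dvd_of_mem_primeFactors hl)
    · intro l _ hl
      rw [Finsupp.notMem_support_iff] at hl
      rw [hl, pow_zero]
  rw [sm]
  conv_rhs => rw [h1]
  refine Finset.prod_congr rfl fun l hl => ?_
  have hp := pp_prime hl
  congr 1
  obtain ⟨h2, h3⟩ := h l hl
  have h4 : n.factorization l ≤ 1 := by
    by_contra h5
    push Not at h5
    exact h3 ((hp.pow_dvd_iff_le_factorization hn).2 h5)
  have h5 : m.factorization l ≤ 1 := (Nat.squarefree_iff_factorization_le_one hm0).1 hm l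
  by_cases h6 : l ∣ m
  · have h7 := (hp.dvd_iff_one_le_factorization hm0).1 h6
    have h8 := (hp.dvd_iff_one_le_factorization hn).1 (h2.2 h6)
    omega
  · rw [Nat.factorization_eq_zero_of_not_dvd h6,
      Nat.factorization_eq_zero_of_not_dvd (fun h => h6 (h2.1 h))]

/-- A nontypical `x` with a datum. -/
lemma nontyp {p : Prm} {N : ℕ} {δ e₁ : ℝ} {x : VV} {a : Dt} (hx : x ∈ Gam N 1 3)
    (ha : a ∈ DA p N) (hf : fits p N a x) (ht : ¬ typ p N δ e₁ x) :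
    δ < ∑ l ∈ (PP p N).filter (fun l => l ∣ vl (Md x)), 1 / (l : ℝ) ∨
      (om p N (vl (Md x)) : ℝ) < (2 - e₁) * S0 p N := by
  have hc := cross_of_mem hx
  have hmul := natAbs_mul hc
  have hn0 : (dd x).natAbs * (ee x).natAbs ≠ 0 := by
    rw [hmul]
    exact (Bs.vl_pos_all _).ne'
  have hd0 : (dd x).natAbs ≠ 0 := left_ne_zero_of_mul hn0
  have he0 : (ee x).natAbs ≠ 0 := right_ne_zero_of_mul hn0
  obtain ⟨h1, -, -, h2⟩ := hf
  have ha' := (mem_filter.1 ha).2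
  obtain ⟨hsq, hpr, hds, hes⟩ := ha'
  have hcop : Nat.Coprime (ds a) (es a) := (Nat.squarefree_mul_iff.1 hsq).1
  have hsd : Squarefree (ds a) := (Nat.squarefree_mul_iff.1 hsq).2.1
  have hse : Squarefree (es a) := (Nat.squarefree_mul_iff.1 hsq).2.2
  have hl : ∀ l ∈ PP p N, ((l ∣ (dd x).natAbs ↔ l ∣ ds a) ∧ ¬ l ^ 2 ∣ (dd x).natAbs) ∧
      ((l ∣ (ee x).natAbs ↔ l ∣ es a) ∧ ¬ l ^ 2 ∣ (ee x).natAbs) := by
    intro l hl
    obtain ⟨h3, h4, h5, h6⟩ := h2 l hl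
    rw [Int.natCast_dvd] at h3 h4
    have h5' : ¬ l ^ 2 ∣ (dd x).natAbs := by
      intro h; apply h5; rw [← Int.natCast_pow, Int.natCast_dvd]; exact h
    have h6' : ¬ l ^ 2 ∣ (ee x).natAbs := by
      intro h; apply h6; rw [← Int.natCast_pow, Int.natCast_dvd]; exact h
    exact ⟨⟨h3, h5'⟩, ⟨h4, h6'⟩⟩
  have e1 : sm p N (dd x).natAbs = ds a :=
    sm_eq_of hd0 hsd (fun l hp hd => hpr l hp (hd.mul_right _)) (fun l hl' => (hl l hl').1)
  have e2 : sm p N (ee x).natAbs = es a :=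
    sm_eq_of he0 hse (fun l hp hd => hpr l hp (hd.mul_left _)) (fun l hl' => (hl l hl').2)
  have e3 : ∀ l ∈ PP p N, ¬ l ^ 2 ∣ vl (Md x) := by
    intro l hl' hd
    rw [← hmul] at hd
    have hp := pp_prime hl'
    obtain ⟨⟨h3, h5⟩, ⟨h4, h6⟩⟩ := hl l hl'
    by_cases h7 : l ∣ (dd x).natAbs
    · have h8 : ¬ l ∣ (ee x).natAbs := by
        intro h9
        exact hp.one_lt.ne' (Nat.dvd_one.1 (by
          have := Nat.dvd_gcd (h3.1 h7) (h4.1 h9)
          rwa [hcop] at this))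
      apply h5
      exact (Nat.Coprime.dvd_of_dvd_mul_right
        (Nat.Coprime.pow_left 2 ((Nat.Prime.coprime_iff_not_dvd hp).2 h8)) hd)
    · apply h6
      exact (Nat.Coprime.dvd_of_dvd_mul_left
        (Nat.Coprime.pow_left 2 ((Nat.Prime.coprime_iff_not_dvd hp).2 h7)) hd)
  by_contra hcon
  push Not at hcon
  apply ht
  refine ⟨?_, ?_, hcon.1, e3, h1, hcon.2⟩
  · rw [e1]; exact hds
  · rw [e2]; exact hes

/-! ### sizes -/

lemma card_PP (p : Prm) (N : ℕ) (hz : 1 ≤ zz p N) : ((PP p N).card : ℝ) ≤ 2 * zz p N := by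
  have h1 : (PP p N).card ≤ ⌈zz p N⌉₊ := by
    refine (Finset.card_filter_le _ _).trans ?_
    rw [Finset.card_range]
  have h2 : (⌈zz p N⌉₊ : ℝ) < zz p N + 1 := Nat.ceil_lt_add_one (by linarith)
  have h3 : ((PP p N).card : ℝ) ≤ ⌈zz p N⌉₊ := by exact_mod_cast h1
  linarith

lemma S0_le (p : Prm) (N : ℕ) (hz : 1 ≤ zz p N) : S0 p N ≤ 4 + 2 * Real.log (zz p N) := by
  have h1 : S0 p N ≤ ∑ l ∈ Icc 1 ⌈zz p N⌉₊, 2 / (l : ℝ) := by
    refine Finset.sum_le_sum_of_subset_of_nonneg ?_ (fun _ _ _ => by positivity)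
    intro l hl
    have h := mem_filter.1 hl
    rw [mem_range] at h
    rw [mem_Icc]
    exact ⟨h.2.1.pos, h.1.le⟩
  have h2 : ∑ l ∈ Icc 1 ⌈zz p N⌉₊, 2 / (l : ℝ) = 2 * ((harmonic ⌈zz p N⌉₊ : ℚ) : ℝ) := by
    rw [harmonic_eq_sum_Icc]
    push_cast
    rw [Finset.mul_sum]
    refine Finset.sum_congr rfl fun l _ => ?_
    rw [div_eq_mul_inv]
  have h3 := harmonic_le_one_add_log ⌈zz p N⌉₊
  have h4 : (⌈zz p N⌉₊ : ℝ) ≤ 2 * zz p N := by
    have : (⌈zz p N⌉₊ : ℝ) < zz p N + 1 := Nat.ceil_lt_add_one (by linarith)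
    linarith
  have h5 : (0 : ℝ) < ⌈zz p N⌉₊ := by
    have : 0 < ⌈zz p N⌉₊ := Nat.ceil_pos.2 (by linarith)
    exact_mod_cast this
  have h6 : Real.log ⌈zz p N⌉₊ ≤ Real.log 2 + Real.log (zz p N) := by
    rw [← Real.log_mul (by norm_num) (by linarith)]
    exact Real.log_le_log h5 h4
  have h7 : Real.log 2 ≤ 1 := by
    have := Real.log_two_lt_d9
    linarith
  rw [h2] at h1
  linarith

/-- pointwise bound over nontypical `x` -/
lemma pointwise {p : Prm} {N : ℕ} {δ e₁ L : ℝ} (hδ : 0 < δ) (hL0 : 0 < L) (hL1 : L < 1) {x : VV}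
    (hx : x ∈ Gam N 1 3) (ht : ¬ typ p N δ e₁ x) :
    Zx p N (1 / 6) ev0 x ≤ 1 / δ * ∑ q ∈ PP p N, 1 / (q : ℝ) * Zx p N (1 / 6) (evN q) x +
      L ^ (-((2 - e₁) * S0 p N)) * (L ^ om p N (vl (Md x)) * Zx p N (1 / 6) ev0 x) := by
  have hz0 : 0 ≤ Zx p N (1 / 6) ev0 x := Zx_nonneg p N (by norm_num) _ _
  have h1 : 0 ≤ ∑ q ∈ PP p N, 1 / (q : ℝ) * Zx p N (1 / 6) (evN q) x :=
    Finset.sum_nonneg fun q _ => mul_nonneg (by positivity) (Zx_nonneg p N (by norm_num) _ _)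
  have h2 : 0 ≤ L ^ (-((2 - e₁) * S0 p N)) * (L ^ om p N (vl (Md x)) *
      Zx p N (1 / 6) ev0 x) := by positivity
  by_cases hne : (DA p N).filter (fun a => fits p N a x) = ∅
  · have h0 : Zx p N (1 / 6) ev0 x = 0 := by
      unfold Zx; rw [hne, Finset.sum_empty]
    rw [h0]
    rw [h0] at h2
    have : 0 ≤ 1 / δ * ∑ q ∈ PP p N, 1 / (q : ℝ) * Zx p N (1 / 6) (evN q) x :=
      mul_nonneg (by positivity) h1
    linarith
  · obtain ⟨a, ha⟩ := Finset.nonempty_iff_ne_empty.2 hne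
    rw [mem_filter] at ha
    rcases nontyp hx ha.1 ha.2 ht with h | h
    · have h3 : δ * Zx p N (1 / 6) ev0 x ≤
          ∑ q ∈ PP p N, 1 / (q : ℝ) * Zx p N (1 / 6) (evN q) x := by
        calc δ * Zx p N (1 / 6) ev0 x
            ≤ (∑ l ∈ (PP p N).filter (fun l => l ∣ vl (Md x)), 1 / (l : ℝ)) *
              Zx p N (1 / 6) ev0 x := mul_le_mul_of_nonneg_right h.le hz0
          _ = ∑ l ∈ (PP p N).filter (fun l => l ∣ vl (Md x)),
              1 / (l : ℝ) * Zx p N (1 / 6) (evN l) x := by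
            rw [Finset.sum_mul]
            refine Finset.sum_congr rfl fun l hl => ?_
            rw [Zx_evN p N _ (mem_filter.1 hl).2]
          _ ≤ _ := Finset.sum_le_sum_of_subset_of_nonneg (Finset.filter_subset _ _)
            fun q _ _ => mul_nonneg (by positivity) (Zx_nonneg p N (by norm_num) _ _)
      have h4 : Zx p N (1 / 6) ev0 x ≤ 1 / δ *
          ∑ q ∈ PP p N, 1 / (q : ℝ) * Zx p N (1 / 6) (evN q) x := by
        have h5 := mul_le_mul_of_nonneg_left h3 (by positivity : (0 : ℝ) ≤ 1 / δ)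
        have h6 : 1 / δ * (δ * Zx p N (1 / 6) ev0 x) = Zx p N (1 / 6) ev0 x := by
          rw [← mul_assoc, one_div_mul_cancel hδ.ne', one_mul]
        rwa [h6] at h5
      linarith
    · have h3 : 1 ≤ L ^ (-((2 - e₁) * S0 p N)) * L ^ om p N (vl (Md x)) := by
        rw [← Real.rpow_natCast, ← Real.rpow_add hL0]
        exact Real.one_le_rpow_of_pos_of_le_one_of_nonpos hL0 hL1.le (by linarith)
      have h4 : Zx p N (1 / 6) ev0 x ≤ L ^ (-((2 - e₁) * S0 p N)) *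
          (L ^ om p N (vl (Md x)) * Zx p N (1 / 6) ev0 x) := by
        rw [← mul_assoc]
        nlinarith
      have : 0 ≤ 1 / δ * ∑ q ∈ PP p N, 1 / (q : ℝ) * Zx p N (1 / 6) (evN q) x :=
        mul_nonneg (by positivity) h1
      linarith

/-- the error terms -/
lemma small_terms {c c' δ L ε e₁ : ℝ} (hc : 0 < c) (hc' : 0 < c') (hδ : 0 < δ) (hL0 : 0 < L)
    (hL1 : L < 1) (hε : 0 < ε) (he : 0 < e₁) :
    Good (fun p => ∀ᶠ N : ℕ in atTop,
      1 / δ * ((PP p N).card * (N : ℝ) ^ (1 - c)) + L ^ (-((2 - e₁) * S0 p N)) * (N : ℝ) ^ (1 - c) ≤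
        ε * (c' * N)) := by
  have hlog : 0 < Real.log (1 / L) := Real.log_pos (by rw [one_div]; exact (one_lt_inv₀ hL0).2 hL1)
  have hz := (T4.Good.zeta_pos).and (T4.Good.zeta_le
    (fun _ _ _ _ => min (c / 2) (c / (8 * (Real.log (1 / L) + 1)))) (fun _ _ _ _ => by positivity))
  refine hz.mono fun p hp => ?_
  obtain ⟨hζ, hζ'⟩ := hp
  have hζ1 : p.ζ ≤ c / 2 := hζ'.trans (min_le_left _ _)
  have hζ2 : p.ζ * (8 * (Real.log (1 / L) + 1)) ≤ c := by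
    have := hζ'.trans (min_le_right _ _)
    rwa [le_div_iff₀ (by positivity)] at this
  -- the constant
  obtain ⟨B, hB⟩ : ∃ B : ℝ, B = 2 / δ + Real.exp (8 * Real.log (1 / L)) := ⟨_, rfl⟩
  have hB0 : 0 < B := by rw [hB]; positivity
  have hlim : Tendsto (fun N : ℕ => (N : ℝ) ^ (-(c / 2))) atTop (𝓝 0) :=
    (tendsto_rpow_neg_atTop (by positivity)).comp tendsto_natCast_atTop_atTop
  have hev : ∀ᶠ N : ℕ in atTop, (N : ℝ) ^ (-(c / 2)) ≤ ε * c' / B :=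
    (hlim.eventually (gt_mem_nhds (by positivity : (0 : ℝ) < ε * c' / B))).mono
      fun _ h => h.le
  filter_upwards [hev, eventually_ge_atTop 1] with N hN hN1
  have hN0 : (1 : ℝ) ≤ N := by exact_mod_cast hN1
  have hNp : (0 : ℝ) < N := by linarith
  have hz1 : 1 ≤ zz p N := Real.one_le_rpow hN0 hζ.le
  have h1 : (PP p N).card * (N : ℝ) ^ (1 - c) ≤ 2 * (N : ℝ) ^ (1 - c / 2) := by
    calc (PP p N).card * (N : ℝ) ^ (1 - c) ≤ 2 * zz p N * (N : ℝ) ^ (1 - c) :=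
          mul_le_mul_of_nonneg_right (card_PP p N hz1) (by positivity)
      _ = 2 * (N : ℝ) ^ (p.ζ + (1 - c)) := by rw [zz, Real.rpow_add hNp, mul_assoc]
      _ ≤ 2 * (N : ℝ) ^ (1 - c / 2) := by
        refine mul_le_mul_of_nonneg_left ?_ (by norm_num)
        exact Real.rpow_le_rpow_of_exponent_le hN0 (by linarith)
  have hlz : Real.log (zz p N) = p.ζ * Real.log N := by rw [zz, Real.log_rpow hNp]
  have hS0 : 0 ≤ S0 p N := Finset.sum_nonneg fun _ _ => by positivity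
  have hlN : 0 ≤ Real.log N := Real.log_nonneg hN0
  have h2 : L ^ (-((2 - e₁) * S0 p N)) ≤ Real.exp (8 * Real.log (1 / L)) * (N : ℝ) ^ (c / 2) := by
    have e1 : L ^ (-((2 - e₁) * S0 p N)) = Real.exp (Real.log (1 / L) * ((2 - e₁) * S0 p N)) := by
      rw [Real.rpow_def_of_pos hL0, one_div, Real.log_inv]
      congr 1; ring
    have e2 : (N : ℝ) ^ (c / 2) = Real.exp (Real.log N * (c / 2)) := Real.rpow_def_of_pos hNp _
    rw [e1, e2, ← Real.exp_add]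
    apply Real.exp_le_exp.2
    have h3 := S0_le p N hz1
    rw [hlz] at h3
    have h4 : (2 - e₁) * S0 p N ≤ 2 * (4 + 2 * (p.ζ * Real.log N)) := by nlinarith
    have h5 : Real.log (1 / L) * ((2 - e₁) * S0 p N) ≤
        Real.log (1 / L) * (2 * (4 + 2 * (p.ζ * Real.log N))) :=
      mul_le_mul_of_nonneg_left h4 hlog.le
    have h6 : p.ζ * (8 * Real.log (1 / L)) ≤ c := by nlinarith
    have h7 : p.ζ * (8 * Real.log (1 / L)) * Real.log N ≤ c * Real.log N :=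
      mul_le_mul_of_nonneg_right h6 hlN
    nlinarith
  have h3 : L ^ (-((2 - e₁) * S0 p N)) * (N : ℝ) ^ (1 - c) ≤
      Real.exp (8 * Real.log (1 / L)) * (N : ℝ) ^ (1 - c / 2) := by
    calc L ^ (-((2 - e₁) * S0 p N)) * (N : ℝ) ^ (1 - c)
        ≤ Real.exp (8 * Real.log (1 / L)) * (N : ℝ) ^ (c / 2) * (N : ℝ) ^ (1 - c) :=
          mul_le_mul_of_nonneg_right h2 (by positivity)
      _ = Real.exp (8 * Real.log (1 / L)) * (N : ℝ) ^ (1 - c / 2) := by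
        rw [mul_assoc, ← Real.rpow_add hNp]
        congr 2; ring
  have h4 : 1 / δ * ((PP p N).card * (N : ℝ) ^ (1 - c)) ≤ 2 / δ * (N : ℝ) ^ (1 - c / 2) := by
    calc 1 / δ * ((PP p N).card * (N : ℝ) ^ (1 - c)) ≤ 1 / δ * (2 * (N : ℝ) ^ (1 - c / 2)) :=
          mul_le_mul_of_nonneg_left h1 (by positivity)
      _ = 2 / δ * (N : ℝ) ^ (1 - c / 2) := by ring
  have h5 : (N : ℝ) ^ (1 - c / 2) = (N : ℝ) ^ (-(c / 2)) * N := by
    rw [show 1 - c / 2 = -(c / 2) + 1 by ring, Real.rpow_add hNp, Real.rpow_one]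
  have h6 : B * (N : ℝ) ^ (1 - c / 2) ≤ ε * (c' * N) := by
    rw [h5]
    have h7 : B * (N : ℝ) ^ (-(c / 2)) ≤ ε * c' := by
      have := mul_le_mul_of_nonneg_left hN hB0.le
      rwa [mul_div_cancel₀ _ hB0.ne'] at this
    nlinarith
  rw [hB, add_mul] at h6
  linarith

end HNm

open HNm in
/-- **HN** -/
theorem specHN (hCNT : SpecCNT) (hHC : SpecHC) (hHM : SpecHM) : SpecHN := by
  intro ε δ e₁ hε hδ he he'
  obtain ⟨c', hc', hcnt⟩ := hCNT.2
  obtain ⟨c, hc, hHC⟩ := hHC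
  obtain ⟨hM1, -, hM3⟩ := hHM
  obtain ⟨L, hL0, hL1, hM3⟩ := hM3 e₁ he he'
  have hA := hHC (1 / 6) 1 1 (by norm_num) (by norm_num) one_pos one_pos le_rfl
  have hB := hHC (1 / 6) 1 L (by norm_num) (by norm_num) one_pos hL0 hL1.le
  have h1 := hM1 (ε * δ / 8) (by positivity)
  have h3 := hM3 (ε / 8) (by positivity)
  have h4 := small_terms hc hc' hδ hL0 hL1 (half_pos hε) he
  have n1 : 0 ≤ 1 / δ := by positivity
  have n2 : ∀ t : ℝ, 0 ≤ L ^ t := fun t => Real.rpow_nonneg hL0.le t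
  have n3 : ∀ q : ℕ, 0 ≤ 1 / (q : ℝ) := fun q => by positivity
  have n4 : ∀ (N : ℕ) (t : ℝ), 0 ≤ (N : ℝ) ^ t := fun N t => Real.rpow_nonneg (Nat.cast_nonneg N) t
  have n5 : 0 ≤ ε / 2 := by positivity
  refine ((((hA.and hB).and h1).and h3).and h4).mono ?_
  rintro p ⟨⟨⟨⟨hA, hB⟩, h1⟩, h3⟩, h4⟩
  filter_upwards [hA, hB, h1, h3, h4, hcnt] with N hA hB h1 h3 h4 hcnt
  obtain ⟨hA, -⟩ := hA
  obtain ⟨hB, -⟩ := hB
  obtain ⟨-, -, -, -, h1⟩ := h1
  obtain ⟨-, h3⟩ := h3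
  -- sums over all `x`
  have s1 : ∑ x ∈ (Gam N 1 3).filter (fun x => ¬ typ p N δ e₁ x), Zx p N (1 / 6) ev0 x ≤
      ∑ x ∈ Gam N 1 3, (1 / δ * ∑ q ∈ PP p N, 1 / (q : ℝ) * Zx p N (1 / 6) (evN q) x +
        L ^ (-((2 - e₁) * S0 p N)) * (L ^ om p N (vl (Md x)) * Zx p N (1 / 6) ev0 x)) := by
    refine (Finset.sum_le_sum fun x hx => ?_).trans (Finset.sum_le_sum_of_subset_of_nonneg
      (Finset.filter_subset _ _) fun x _ _ => ?_)
    · exact pointwise hδ hL0 hL1 (mem_filter.1 hx).1 (mem_filter.1 hx).2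
    · have hz0 : 0 ≤ Zx p N (1 / 6) ev0 x := Zx_nonneg p N (by norm_num) _ _
      have h1 : 0 ≤ ∑ q ∈ PP p N, 1 / (q : ℝ) * Zx p N (1 / 6) (evN q) x :=
        Finset.sum_nonneg fun q _ => mul_nonneg (n3 q) (Zx_nonneg p N (by norm_num) _ _)
      have h2 : 0 ≤ L ^ (-((2 - e₁) * S0 p N)) * (L ^ om p N (vl (Md x)) *
        Zx p N (1 / 6) ev0 x) := mul_nonneg (n2 _) (mul_nonneg (pow_nonneg hL0.le _) hz0)
      exact add_nonneg (mul_nonneg n1 h1) h2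
  have s2 : ∑ x ∈ Gam N 1 3, (1 / δ * ∑ q ∈ PP p N, 1 / (q : ℝ) * Zx p N (1 / 6) (evN q) x +
        L ^ (-((2 - e₁) * S0 p N)) * (L ^ om p N (vl (Md x)) * Zx p N (1 / 6) ev0 x)) =
      1 / δ * ∑ q ∈ PP p N, 1 / (q : ℝ) * ∑ x ∈ Gam N 1 3, Zx p N (1 / 6) (evN q) x +
        L ^ (-((2 - e₁) * S0 p N)) *
          ∑ x ∈ Gam N 1 3, L ^ om p N (vl (Md x)) * Zx p N (1 / 6) ev0 x := by
    have e1 : ∑ q ∈ PP p N, 1 / (q : ℝ) * ∑ x ∈ Gam N 1 3, Zx p N (1 / 6) (evN q) x =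
        ∑ q ∈ PP p N, ∑ x ∈ Gam N 1 3, 1 / (q : ℝ) * Zx p N (1 / 6) (evN q) x :=
      Finset.sum_congr rfl fun q _ => Finset.mul_sum _ _ _
    rw [e1, Finset.sum_add_distrib, ← Finset.mul_sum, ← Finset.mul_sum, Finset.sum_comm]
  have s3 : ∑ q ∈ PP p N, 1 / (q : ℝ) * ∑ x ∈ Gam N 1 3, Zx p N (1 / 6) (evN q) x ≤
      2 * (ε * δ / 8 * ((Gam N 1 3).card : ℝ)) + (PP p N).card * (N : ℝ) ^ (1 - c) := by
    calc ∑ q ∈ PP p N, 1 / (q : ℝ) * ∑ x ∈ Gam N 1 3, Zx p N (1 / 6) (evN q) x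
        ≤ ∑ q ∈ PP p N, (2 * (1 / (q : ℝ) * ∑ x ∈ Gam N 1 3, Zh p N (1 / 6) (evN q) x) +
            (N : ℝ) ^ (1 - c)) := by
          refine Finset.sum_le_sum fun q hq => ?_
          have h := hA (evN q) (Or.inr ⟨q, hq, Or.inr (Or.inr (Or.inr rfl))⟩)
          simp only [one_pow, one_mul] at h
          have hq1 : (1 : ℝ) ≤ q := by exact_mod_cast (pp_prime hq).pos
          have hq2 : 1 / (q : ℝ) ≤ 1 := by
            rw [div_le_one (by linarith)]; exact hq1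
          have hq3 : 0 ≤ 1 / (q : ℝ) := n3 q
          calc 1 / (q : ℝ) * ∑ x ∈ Gam N 1 3, Zx p N (1 / 6) (evN q) x
              ≤ 1 / (q : ℝ) * ((1 + 1) * ∑ x ∈ Gam N 1 3, Zh p N (1 / 6) (evN q) x +
                (N : ℝ) ^ (1 - c)) := mul_le_mul_of_nonneg_left h hq3
            _ = 2 * (1 / (q : ℝ) * ∑ x ∈ Gam N 1 3, Zh p N (1 / 6) (evN q) x) +
                1 / (q : ℝ) * (N : ℝ) ^ (1 - c) := by ring
            _ ≤ _ := by
              have g1 : 1 / (q : ℝ) * (N : ℝ) ^ (1 - c) ≤ 1 * (N : ℝ) ^ (1 - c) :=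
                mul_le_mul_of_nonneg_right hq2 (n4 N _)
              rw [one_mul] at g1
              exact add_le_add le_rfl g1
      _ = 2 * ∑ q ∈ PP p N, 1 / (q : ℝ) * ∑ x ∈ Gam N 1 3, Zh p N (1 / 6) (evN q) x +
            (PP p N).card * (N : ℝ) ^ (1 - c) := by
          rw [Finset.sum_add_distrib, ← Finset.mul_sum, Finset.sum_const, nsmul_eq_mul]
      _ ≤ _ := by linarith
  have s4 : L ^ (-((2 - e₁) * S0 p N)) *
      ∑ x ∈ Gam N 1 3, L ^ om p N (vl (Md x)) * Zx p N (1 / 6) ev0 x ≤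
      2 * (ε / 8 * ((Gam N 1 3).card : ℝ)) + L ^ (-((2 - e₁) * S0 p N)) * (N : ℝ) ^ (1 - c) := by
    have h := hB ev0 (Or.inl rfl)
    have h' := mul_le_mul_of_nonneg_left h (n2 (-((2 - e₁) * S0 p N)))
    calc _ ≤ _ := h'
      _ = 2 * (L ^ (-((2 - e₁) * S0 p N)) *
          ∑ x ∈ Gam N 1 3, L ^ om p N (vl (Md x)) * Zh p N (1 / 6) ev0 x) +
          L ^ (-((2 - e₁) * S0 p N)) * (N : ℝ) ^ (1 - c) := by ring
      _ ≤ _ := by linarith
  have s5 : 1 / δ * (2 * (ε * δ / 8 * ((Gam N 1 3).card : ℝ)) +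
      (PP p N).card * (N : ℝ) ^ (1 - c)) = ε / 4 * ((Gam N 1 3).card : ℝ) +
        1 / δ * ((PP p N).card * (N : ℝ) ^ (1 - c)) := by
    field_simp
    ring
  have s6 : 1 / δ * ∑ q ∈ PP p N, 1 / (q : ℝ) * ∑ x ∈ Gam N 1 3, Zx p N (1 / 6) (evN q) x ≤
      1 / δ * (2 * (ε * δ / 8 * ((Gam N 1 3).card : ℝ)) + (PP p N).card * (N : ℝ) ^ (1 - c)) :=
    mul_le_mul_of_nonneg_left s3 n1
  have s7 : ε / 2 * (c' * N) ≤ ε / 2 * ((Gam N 1 3).card : ℝ) :=
    mul_le_mul_of_nonneg_left hcnt n5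
  rw [s5] at s6
  rw [s2] at s1
  linarith

end H

end

end Pool.Agent.Lib.MP391708.TG
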