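import Pool.Agent.Lib.MP_391708_nt.TG.HBd
import Pool.Agent.Lib.MP_391708_nt.TG.H1a
import Pool.Agent.Lib.MP_391708_nt.TG1.A12
import Pool.Agent.Lib.MP_391708_nt.T1.GoodL

/-!
# T1b, group H, module HB2: a relation over a typical `x` is in `RP` outside the bad events
-/

set_option autoImplicit false
set_option linter.constructorNameAsVariable false

namespace Pool.Agent.Lib.MP391708.TG.H

variable [Aa] [Frm]

open Finset Filter Topology
open Pool.Agent.Lib.MP391708.Eqd (V cross pairs)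
open scoped Classical

/-- the conditions of `S1` -/
structure InS1 (p : Prm) (N M G P Q : ℕ) (t : ℤ × ℕ) : Prop where
  D0 : t.1 ≠ 0
  dvd : t.1 ∣ (t.2 : ℤ) - G
  W : (W0 p : ℤ) ∣ t.1
  W2 : (W0 p : ℤ) ∣ D2 (M, G, P, Q, t)
  cX : Nat.Coprime t.2 (W0 p)
  sqX : Squarefree t.2
  cGX : Nat.Coprime G t.2
  p1 : 2 * (M : ℤ) < t.1 * P
  p2 : t.1 * P ≤ 3 * (M : ℤ)
  q1 : (M : ℤ) ^ 2 + az ≤ D2 (M, G, P, Q, t) * Q * M
  q2 : D2 (M, G, P, Q, t) * Q * M < 2 * ((M : ℤ) ^ 2 + az)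
  smX : (sm p N t.2 : ℝ) ≤ zz p N ^ p.K
  b1 : -((10000 * (N + 1) ^ 2 : ℕ) : ℤ) < t.1 ∧ t.1 < ((10000 * (N + 1) ^ 2 : ℕ) : ℤ)
  b2 : t.2 < 10000 * (N + 1) ^ 2

lemma inS1 {p : Prm} {N M G P Q : ℕ} {t : ℤ × ℕ} (h : t ∈ S1 p N M G P Q) :
    InS1 p N M G P Q t := by
  rw [S1, mem_filter] at h
  obtain ⟨h0, h⟩ := h
  have hb : (-((10000 * (N + 1) ^ 2 : ℕ) : ℤ) < t.1 ∧ t.1 < ((10000 * (N + 1) ^ 2 : ℕ) : ℤ)) ∧
      t.2 < 10000 * (N + 1) ^ 2 := by
    unfold dbox at h0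
    generalize 10000 * (N + 1) ^ 2 = B at *
    simpa only [mem_product, mem_Ioo, mem_range] using h0
  obtain ⟨⟨a1, a2, a3, a4, a5, a6, -, a8, -⟩, b1, b2, b3, b4, -, -, b7⟩ := h
  exact ⟨a1, a2, a3, a4, a5, a6, a8, b1, b2, b3, b4, b7, hb.1, hb.2⟩

lemma mem_RP {p : Prm} {e₁ : ℝ} {N : ℕ} {r : Rl} (h1 : rM r < 10000 * (N + 1) ^ 2)
    (h2 : rG r < 10000 * (N + 1) ^ 2)
    (h3 : rP r < 10000 * (N + 1) ^ 2) (h4 : rQ r < 10000 * (N + 1) ^ 2)
    (h5 : -((10000 * (N + 1) ^ 2 : ℕ) : ℤ) < rD r ∧ rD r < ((10000 * (N + 1) ^ 2 : ℕ) : ℤ))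
    (h6 : rX r < 10000 * (N + 1) ^ 2)
    (h : InRP p e₁ N r) : r ∈ RP p e₁ N := by
  rw [RP, Finset.mem_filter]
  refine ⟨?_, h.isR, h.sml, h.M_lo, h.M_hi, h.p1, h.p2, h.q1, h.q2, h.sqG, h.sqX, h.isR.copD, h.dq,
    h.uv, h.nsq, h.D_lo, h.D_hi, h.smX, h.smM, h.smM2, h.smM3, h.smM4, h.omM, h.omX⟩
  generalize 10000 * (N + 1) ^ 2 = B at *
  simp only [rbox, Finset.mem_product, Finset.mem_range, Finset.mem_Ioo]
  exact ⟨h1, h2, h3, h4, h5, h6⟩

attribute [local irreducible] S1 dbox RP RG Gam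

section

variable {p : Prm} {N : ℕ} {r : Rl}

omit [Frm] in
lemma evL_iff (hr : IsR r) {l : ℕ} (hp : l.Prime) : evL l r ↔ l ∣ rX r * rT r * rR r := by
  have hpi := Nat.prime_iff_prime_int.1 hp
  unfold evL
  rw [hpi.dvd_mul, hpi.dvd_mul, hr.F1_iff, hr.F2_iff, Int.natCast_dvd_natCast]
  simp only [hp.dvd_mul]
  tauto

/-- no square of a sieving prime divides the product of the six numbers -/
lemma no_sq (hr : IsR r) (hsq : Squarefree (rX r)) (hP : ¬ evP p N r)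
    (hM : ∀ l ∈ PP p N, ¬ l ^ 2 ∣ vl (rM r)) (l : ℕ) (hl : l ∈ PP p N) :
    ¬ l ^ 2 ∣ rG r * rP r * rQ r * rX r * rT r * rR r := by
  have hp := prime_of_mem_PP hl
  have hB : ¬ evB l r ∧ ¬ evM l r := by
    constructor
    · intro h; exact hP ⟨l, hl, Or.inl h⟩
    · intro h; exact hP ⟨l, hl, Or.inr h⟩
  intro hd
  rw [hr.gpq] at hd
  have hd' : l ^ 2 ∣ (vl (rM r)) * (rX r * rT r * rR r) := by
    have : (vl (rM r)) * (rX r * rT r * rR r) = (vl (rM r)) * rX r * rT r * rR r := by ring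
    rw [this]; exact hd
  by_cases hlM : l ∣ vl (rM r)
  · have h1 : ¬ evL l r := fun h => hB.2 ⟨hlM, h⟩
    have h2 : ¬ l ∣ rX r * rT r * rR r := by
      intro h3
      exact h1 ((evL_iff hr hp).2 h3)
    have h3 : Nat.Coprime (l ^ 2) (rX r * rT r * rR r) :=
      Nat.Coprime.pow_left 2 ((Nat.Prime.coprime_iff_not_dvd hp).2 h2)
    exact hM l hl (h3.dvd_of_dvd_mul_right hd')
  · have h3 : Nat.Coprime (l ^ 2) (vl (rM r)) :=
      Nat.Coprime.pow_left 2 ((Nat.Prime.coprime_iff_not_dvd hp).2 hlM)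
    have h4 : l ^ 2 ∣ rX r * rT r * rR r := h3.dvd_of_dvd_mul_left hd'
    have h5 : ¬ (l : ℤ) ^ 2 ∣ F1 r ∧ ¬ (l : ℤ) ^ 2 ∣ F2 r ∧
        ¬ (¬ l ∣ rX r ∧ (l : ℤ) ∣ F1 r ∧ (l : ℤ) ∣ F2 r) := by
      refine ⟨fun h => hB.1 ⟨hlM, Or.inl h⟩, fun h => hB.1 ⟨hlM, Or.inr (Or.inl h)⟩,
        fun h => hB.1 ⟨hlM, Or.inr (Or.inr h)⟩⟩
    have f1 : ¬ l ^ 2 ∣ rX r * rT r := fun h => h5.1 (hr.F1_sq_iff.2 h)
    have f2 : ¬ l ^ 2 ∣ rX r * rR r := fun h => h5.2.1 (hr.F2_sq_iff.2 h)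
    by_cases hlX : l ∣ rX r
    · have hT : ¬ l ∣ rT r := fun h => f1 (by rw [sq]; exact mul_dvd_mul hlX h)
      have hR : ¬ l ∣ rR r := fun h => f2 (by rw [sq]; exact mul_dvd_mul hlX h)
      have h6 : Nat.Coprime (l ^ 2) (rT r * rR r) :=
        Nat.Coprime.pow_left 2 (Nat.Coprime.mul_right
          ((Nat.Prime.coprime_iff_not_dvd hp).2 hT) ((Nat.Prime.coprime_iff_not_dvd hp).2 hR))
      rw [mul_assoc] at h4
      have h7 := h6.dvd_of_dvd_mul_right h4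
      exact (Nat.squarefree_iff_prime_squarefree.1 hsq l hp) (by rwa [← sq])
    · have h6 : Nat.Coprime (l ^ 2) (rX r) :=
        Nat.Coprime.pow_left 2 ((Nat.Prime.coprime_iff_not_dvd hp).2 hlX)
      rw [mul_assoc] at h4
      have h7 : l ^ 2 ∣ rT r * rR r := h6.dvd_of_dvd_mul_left h4
      by_cases hT : l ∣ rT r
      · have hR : ¬ l ∣ rR r := by
          intro hR
          apply h5.2.2
          refine ⟨hlX, ?_, ?_⟩
          · exact hr.F1_iff.2 (Dvd.dvd.mul_left hT _)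
          · exact hr.F2_iff.2 (Dvd.dvd.mul_left hR _)
        have h8 : Nat.Coprime (l ^ 2) (rR r) :=
          Nat.Coprime.pow_left 2 ((Nat.Prime.coprime_iff_not_dvd hp).2 hR)
        exact f1 (Dvd.dvd.mul_left (h8.dvd_of_dvd_mul_right h7) _)
      · have h8 : Nat.Coprime (l ^ 2) (rT r) :=
          Nat.Coprime.pow_left 2 ((Nat.Prime.coprime_iff_not_dvd hp).2 hT)
        exact f2 (Dvd.dvd.mul_left (h8.dvd_of_dvd_mul_left h7) _)

/-- the sieving part of `X T R` -/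
lemma sm_xtr (hr : IsR r) (hS : ¬ evS p N r)
    (hsq : ∀ l ∈ PP p N, ¬ l ^ 2 ∣ rG r * rP r * rQ r * rX r * rT r * rR r) :
    (sm p N (rX r * rT r * rR r) : ℝ) ≤ zz p N ^ p.K := by
  have hX := hr.X1
  have hT := hr.T_pos
  have hR := hr.R_pos
  have hne : rX r * rT r * rR r ≠ 0 := by positivity
  unfold evS at hS
  rw [not_lt] at hS
  refine le_trans (le_of_eq ?_) hS
  congr 1
  unfold sm
  rw [prod_filter]
  refine prod_congr rfl fun l hl => ?_
  have hp := prime_of_mem_PP hl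
  have hiff : evL l r ↔ l ∣ rX r * rT r * rR r := evL_iff hr hp
  have hl2 : ¬ l ^ 2 ∣ rX r * rT r * rR r := by
    intro h
    apply hsq l hl
    refine h.trans ⟨rG r * rP r * rQ r, by ring⟩
  split_ifs with h
  · rw [hiff] at h
    have h1 : (rX r * rT r * rR r).factorization l = 1 := by
      have h2 : 1 ≤ (rX r * rT r * rR r).factorization l :=
        (hp.dvd_iff_one_le_factorization hne).1 h
      have h3 : ¬ 2 ≤ (rX r * rT r * rR r).factorization l := fun h4 =>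
        hl2 ((hp.pow_dvd_iff_le_factorization hne).2 h4)
      omega
    rw [h1, pow_one]
  · rw [hiff] at h
    rw [Nat.factorization_eq_zero_of_not_dvd h, pow_zero]

lemma sm_le_of_dvd {m n : ℕ} (h : m ∣ n) (hn : n ≠ 0) {c : ℝ} (hc : (sm p N n : ℝ) ≤ c) :
    (sm p N m : ℝ) ≤ c :=
  le_trans (by exact_mod_cast A12.sm_le h hn) hc

end

omit [Frm] in
lemma lt_box {m n N : ℕ} (hN : 8 * aa ≤ N) (hn : n ≤ vl m) (hm : m ≤ 2 * N) :
    n < 10000 * (N + 1) ^ 2 := by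
  have h1 := vl_le_add m
  have : m ^ 2 ≤ (2 * N) ^ 2 := Nat.pow_le_pow_left hm 2
  nlinarith

lemma le_gmu {g m u : ℝ} (hg : 1 ≤ g) (hm : 1 ≤ m) (hu : 0 ≤ u) : u ≤ g * m * u := by
  have h1 : 1 ≤ g * m := one_le_mul_of_one_le_of_one_le hg hm
  nlinarith

lemma le_dm {M d m : ℝ} (h1 : 1 * M < d) (h2 : 1 ≤ m) (hM : 0 < M) : M ≤ d * m := by
  nlinarith

/-- **HB2** -/
theorem specHB2 : SpecHB2 := by
  intro δ e₁ _
  refine T4.Good.mono (T4.Good.and good_bas specH1a) fun p hp => ?_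
  filter_upwards [hp.1, hp.2, eventually_ge_atTop (8 * aa)] with N hb h1a hN x hx hty a ha hf t ht hXF
  have haa := A12.aa_pos
  obtain ⟨r, hr⟩ : ∃ r, r = rel a t x := ⟨_, rfl⟩
  rw [← hr] at hXF ⊢
  obtain ⟨g1', g2', g3', g4', g5', g6', g7', g8', g9', g10', g11', -⟩ := h1a x hx a ha hf
  have hs := inS1 ht
  obtain ⟨hc, hN1, hN2, hd1, hd2⟩ := mem_Gam hx
  have hM : ((Md x : ℕ) : ℤ) = mm x := Md_cast hx
  have hMR : ((Md x : ℕ) : ℝ) = (mm x : ℝ) := by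
    have h := congrArg (Int.cast : ℤ → ℝ) hM
    rwa [Int.cast_natCast] at h
  have hdR : (((dd x).natAbs : ℕ) : ℝ) = (dd x : ℝ) := by
    have h := congrArg (Int.cast : ℤ → ℝ) (dd_cast hx)
    rwa [Int.cast_natCast] at h
  have eM : rM r = Md x := by rw [hr]; rfl
  have eG : rG r = dG a := by rw [hr]; rfl
  have eP : rP r = Pd a x := by rw [hr]; rfl
  have eQ : rQ r = Qd a x := by rw [hr]; rfl
  have eD : rD r = t.1 := by rw [hr]; rfl
  have eX : rX r = t.2 := by rw [hr]; rfl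
  have eD2 : D2 r = D2 (Md x, dG a, Pd a x, Qd a x, t) := by rw [hr]; rfl
  have hgpq : rG r * rP r * rQ r = vl (rM r) := by rw [eG, eP, eQ, eM]; exact g3'
  have hsz : aa < rM r ^ 2 := by rw [eM]; exact Bs.lt_sq (by omega)
  have hv0 := vl_pos hsz
  have hpos : rG r * rP r * rQ r ≠ 0 := by rw [hgpq]; exact hv0.ne'
  have hG0 : 0 < rG r := Nat.pos_of_ne_zero fun h => hpos (by rw [h]; simp)
  have hP0 : 0 < rP r := Nat.pos_of_ne_zero fun h => hpos (by rw [h]; simp)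
  have hQ0 : 0 < rQ r := Nat.pos_of_ne_zero fun h => hpos (by rw [h]; simp)
  have hX0 : 0 < rX r := by rw [eX]; exact Nat.pos_of_ne_zero hs.sqX.ne_zero
  have hR : IsR r := by
    refine ⟨hsz, hG0, hP0, hQ0, ?_, hX0, hgpq, ?_, hXF, ?_⟩
    · rw [eD]; exact hs.D0
    · rw [eD, eX, eG]; exact hs.dvd
    · rw [eX, eG]; exact hs.cGX
  obtain ⟨ty1, ty2, -, ty4, ty5, ty6⟩ := hty
  by_cases c1 : evP p N r
  · exact Or.inr (Or.inl c1)
  by_cases c2 : evD p r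
  · exact Or.inr (Or.inr (Or.inl c2))
  by_cases c3 : evS p N r
  · exact Or.inr (Or.inr (Or.inr (Or.inl c3)))
  by_cases c4 : evO p N e₁ r
  · exact Or.inr (Or.inr (Or.inr (Or.inr c4)))
  left
  have hsq := no_sq hR (by rw [eX]; exact hs.sqX) c1 (by rw [eM]; exact ty4)
  have hxtr := sm_xtr hR c3 hsq
  have hMlo : N < rM r := by rw [eM]; omega
  have hMhi : rM r ≤ 2 * N := by rw [eM]; omega
  have hp1 : 2 * (rM r : ℤ) < rD r * rP r := by rw [eM, eD, eP]; exact hs.p1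
  have hp2 : rD r * rP r ≤ 3 * (rM r : ℤ) := by rw [eM, eD, eP]; exact hs.p2
  have hq1 : (rM r : ℤ) ^ 2 + az ≤ D2 r * rQ r * rM r := by rw [eM, eD2, eQ]; exact hs.q1
  have hq2 : D2 r * rQ r * rM r < 2 * ((rM r : ℤ) ^ 2 + az) := by rw [eM, eD2, eQ]; exact hs.q2
  have hD1 : 0 < rD r := by
    by_contra hcc
    have h3 : rD r ≤ 0 := by omega
    have h4 : rD r * rP r ≤ 0 := mul_nonpos_of_nonpos_of_nonneg h3 (by positivity)
    have h5 : (0 : ℤ) ≤ rM r := by positivity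
    linarith
  have cr : Crit r :=
    { isR := hR
      win :=
        { a1 := az_neg
          Ma := by
            simp only [toRD_rM]
            rw [az_eq, mul_neg, neg_neg]
            exact_mod_cast (by omega : 8 * aa ≤ rM r)
          G1 := by simp only [toRD_rG]; omega
          P1 := by simp only [toRD_rP]; omega
          Q1 := by simp only [toRD_rQ]; omega
          D1 := by simp only [toRD_rD]; omega
          p1 := hp1
          p2 := hp2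
          q1 := hq1
          q2 := hq2.le } }
  have hT0 := cr.T_pos
  have hR0 := cr.R_pos
  have hz1 := hb.z1
  have hz0 := hb.z0
  have h0 := pos6 ha
  have hK2 : zz p N ^ p.K * zz p N ^ p.K = zz p N ^ (2 * p.K) := by rw [← pow_add]; congr 1; ring
  have hsmM : (sm p N (vl (rM r)) : ℝ) ≤ zz p N ^ (2 * p.K) := by
    rw [eM, g6', ← hK2]
    push_cast
    exact mul_le_mul (mem_DA ha).2.2.1 (mem_DA ha).2.2.2.1 (by positivity) (by positivity)
  -- sieving parts of `P, Q, G`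
  have hm : ∀ {m : ℕ}, m ∣ vl (rM r) → (sm p N m : ℝ) ≤ zz p N ^ (2 * p.K) := fun h =>
    sm_le_of_dvd h hv0.ne' hsmM
  have hGd : rG r ∣ vl (rM r) := ⟨rP r * rQ r, by rw [← hgpq, mul_assoc]⟩
  have hPd : rP r ∣ vl (rM r) := ⟨rG r * rQ r, by rw [← hgpq]; ring⟩
  have hQd : rQ r ∣ vl (rM r) := ⟨rG r * rP r, by rw [← hgpq]; ring⟩
  have hne : rX r * rT r * rR r ≠ 0 := by positivity
  have h4K : zz p N ^ p.K * zz p N ^ (2 * p.K) ≤ zz p N ^ (4 * p.K) := by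
    rw [← pow_add]; exact hb.zpow_le (by omega)
  have tri : ∀ {m n : ℕ}, m ≠ 0 → n ≠ 0 → m ∣ rX r * rT r * rR r → n ∣ vl (rM r) →
      (sm p N (m * n) : ℝ) ≤ zz p N ^ (4 * p.K) := by
    intro m n hm0 hn0 hmd hnd
    rw [sm_mul hm0 hn0]
    push_cast
    exact (mul_le_mul (sm_le_of_dvd hmd hne hxtr) (hm hnd) (by positivity)
      (by positivity)).trans h4K
  have hGM : rG r ≤ vl (rM r) := Nat.le_of_dvd hv0 hGd
  have hPM : rP r ≤ vl (rM r) := Nat.le_of_dvd hv0 hPd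
  have hQM : rQ r ≤ vl (rM r) := Nat.le_of_dvd hv0 hQd
  -- the size of `D`
  have hMpos : (0 : ℝ) < (Md x : ℝ) := by
    have : 0 < Md x := by omega
    exact_mod_cast this
  have hPu : (Pd a x : ℝ) * (g1 a * m1 a * du a) = (dd x : ℝ) * m2 a := by
    rw [← hdR]; exact_mod_cast g1'
  have hg1 : (1 : ℝ) ≤ g1 a := by exact_mod_cast h0.1
  have hm1 : (1 : ℝ) ≤ m1 a := by exact_mod_cast h0.2.1
  have hm2' : (1 : ℝ) ≤ m2 a := by exact_mod_cast h0.2.2.2.2.1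
  have hm2 := le_es_of_dvd ha (m2_dvd a)
  have hgm : ((g1 a * m1 a : ℕ) : ℝ) ≤ zz p N ^ p.K := le_ds_of_dvd ha (Dvd.intro _ rfl)
  push_cast at hgm
  have hDP1 : 2 * (Md x : ℝ) < (rD r : ℝ) * Pd a x := by
    have h := (Int.cast_lt (R := ℝ)).2 hp1
    push_cast at h
    rwa [eM, eP] at h
  have hDP2 : (rD r : ℝ) * Pd a x ≤ 3 * (Md x : ℝ) := by
    have h := (Int.cast_le (R := ℝ)).2 hp2
    push_cast at h
    rwa [eM, eP] at h
  have hPR : (0 : ℝ) < (Pd a x : ℝ) := by rw [← eP]; exact_mod_cast hP0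
  have hDR : (0 : ℝ) < (rD r : ℝ) := by exact_mod_cast hD1
  have hdu1 := Y1_le_du ha
  have hdu2 := du_le_Y2 ha
  have hdu0 : (0 : ℝ) ≤ (du a : ℝ) := by positivity
  have key : (rD r : ℝ) * Pd a x * (g1 a * m1 a * du a) = (rD r : ℝ) * ((dd x : ℝ) * m2 a) := by
    rw [← hPu]; ring
  have hu1 : (du a : ℝ) ≤ g1 a * m1 a * du a := le_gmu hg1 hm1 hdu0
  have hDlo : Y1 p N / zz p N ^ (4 * p.K) ≤ (rD r : ℝ) := by
    rw [div_le_iff₀ (by positivity)]
    have e1 : 2 * (Md x : ℝ) * du a ≤ (rD r : ℝ) * (3 * (Md x : ℝ) * m2 a) := by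
      calc 2 * (Md x : ℝ) * du a ≤ (rD r : ℝ) * Pd a x * (g1 a * m1 a * du a) :=
            mul_le_mul hDP1.le hu1 hdu0 (by positivity)
        _ = (rD r : ℝ) * ((dd x : ℝ) * m2 a) := key
        _ ≤ (rD r : ℝ) * (3 * (Md x : ℝ) * m2 a) := by
            refine mul_le_mul_of_nonneg_left ?_ hDR.le
            rw [hMR]
            exact mul_le_mul_of_nonneg_right hd2 (by linarith)
    have e2 : (du a : ℝ) ≤ (rD r : ℝ) * (2 * m2 a) := by
      have e3 : 2 * (Md x : ℝ) * du a ≤ 2 * (Md x : ℝ) * ((rD r : ℝ) * (2 * m2 a)) := by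
        have e4 : 0 ≤ (rD r : ℝ) * ((Md x : ℝ) * m2 a) := by positivity
        calc _ ≤ _ := e1
          _ ≤ _ := by linarith
      exact le_of_mul_le_mul_left e3 (by positivity)
    have e5 : 2 * (m2 a : ℝ) ≤ zz p N ^ (4 * p.K) := by
      have h1 : zz p N ^ 1 ≤ zz p N ^ (3 * p.K) := hb.zpow_le (by have := hb.K1; omega)
      have h2 := hb.z2
      rw [pow_one] at h1
      have h3 : (zz p N : ℝ) ^ (4 * p.K) = zz p N ^ (3 * p.K) * zz p N ^ p.K := by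
        rw [← pow_add]; congr 1; ring
      rw [h3]
      exact mul_le_mul (by linarith) hm2 (by positivity) (by positivity)
    calc Y1 p N ≤ du a := hdu1
      _ ≤ (rD r : ℝ) * (2 * m2 a) := e2
      _ ≤ (rD r : ℝ) * zz p N ^ (4 * p.K) :=
          mul_le_mul_of_nonneg_left e5 hDR.le
  have hDhi : (rD r : ℝ) ≤ Y2 p N * zz p N ^ (4 * p.K) := by
    have hm : (mm x : ℝ) = (Md x : ℝ) := hMR.symm
    have e1 : (rD r : ℝ) * (Md x : ℝ) ≤ 3 * (Md x : ℝ) * (g1 a * m1 a * du a) := by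
      calc (rD r : ℝ) * (Md x : ℝ) ≤ (rD r : ℝ) * ((dd x : ℝ) * m2 a) := by
            refine mul_le_mul_of_nonneg_left ?_ hDR.le
            rw [hm] at hd1
            exact le_dm hd1 hm2' hMpos
        _ = (rD r : ℝ) * Pd a x * (g1 a * m1 a * du a) := key.symm
        _ ≤ 3 * (Md x : ℝ) * (g1 a * m1 a * du a) :=
            mul_le_mul_of_nonneg_right hDP2 (by positivity)
    have e2 : (rD r : ℝ) ≤ 3 * (g1 a * m1 a * du a) := by
      have e3 : (Md x : ℝ) * (rD r : ℝ) ≤ (Md x : ℝ) * (3 * (g1 a * m1 a * du a)) := by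
        calc _ = (rD r : ℝ) * (Md x : ℝ) := by ring
          _ ≤ _ := e1
          _ = _ := by ring
      exact le_of_mul_le_mul_left e3 hMpos
    have h8 : (3 : ℝ) ≤ zz p N ^ (3 * p.K) := by
      have h1 : zz p N ^ 3 ≤ zz p N ^ (3 * p.K) := hb.zpow_le (by have := hb.K1; omega)
      have h2 : (2 : ℝ) ^ 3 ≤ zz p N ^ 3 := pow_le_pow_left₀ (by norm_num) hb.z2 3
      linarith
    calc (rD r : ℝ) ≤ 3 * (g1 a * m1 a * du a) := e2
      _ ≤ zz p N ^ (3 * p.K) * (zz p N ^ p.K * Y2 p N) :=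
          mul_le_mul h8 (mul_le_mul hgm hdu2 hdu0 (by positivity)) (by positivity) (by positivity)
      _ = Y2 p N * zz p N ^ (4 * p.K) := by
          have : zz p N ^ (4 * p.K) = zz p N ^ (3 * p.K) * zz p N ^ p.K := by
            rw [← pow_add]; congr 1; ring
          rw [this]; ring
  have k1 : rM r < 10000 * (N + 1) ^ 2 := by nlinarith
  have k2 : rG r < 10000 * (N + 1) ^ 2 := lt_box hN hGM hMhi
  have k3 : rP r < 10000 * (N + 1) ^ 2 := lt_box hN hPM hMhi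
  have k4 : rQ r < 10000 * (N + 1) ^ 2 := lt_box hN hQM hMhi
  have k5 := hs.b1
  rw [← eD] at k5
  have k6 := hs.b2
  rw [← eX] at k6
  refine mem_RP k1 k2 k3 k4 k5 k6
    { isR := hR
      sml := ⟨?_, ?_, ?_, ?_⟩
      M_lo := hMlo
      M_hi := hMhi
      p1 := hp1
      p2 := hp2
      q1 := hq1
      q2 := hq2
      sqG := ?_
      sqX := ?_
      dq := ?_
      uv := ?_
      nsq := hsq
      D_lo := hDlo
      D_hi := hDhi
      smX := ?_
      smM := hsmM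
      smM2 := ?_
      smM3 := ?_
      smM4 := ?_
      omM := ?_
      omX := ?_ }
  · rw [eD]; exact hs.W
  · rw [eD2]; exact hs.W2
  · rw [eG, eX]; exact Nat.Coprime.mul_left g11'.2.2.2.2.1 hs.cX
  · rw [eM]; exact ty5
  · rw [eG]; exact g10'
  · rw [eX]; exact hs.sqX
  · intro l hl h1 h2
    by_contra hcc
    exact c2 ⟨l, hl, by omega, h1, h2⟩
  · refine ⟨du a, dv a, du_prime ha, dv_prime ha, hdu1, hdu2, Y3_le_dv ha, dv_le_Y4 ha, ?_⟩
    rw [eG, g7']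
    unfold dG; ring
  · rw [eX]; exact hs.smX
  · rw [← cr.xrq]
    have e : rX r * rR r * rQ r = (rX r * rR r) * rQ r := rfl
    rw [e]
    exact tri (by positivity) hQ0.ne' ⟨rT r, by ring⟩ hQd
  · rw [← cr.grt]
    have e : rG r * rR r * rT r = (rR r * rT r) * rG r := by ring
    rw [e]
    exact tri (by positivity) hG0.ne' ⟨rX r, by ring⟩ hGd
  · rw [← cr.xpt]
    have e : rX r * rP r * rT r = (rX r * rT r) * rP r := by ring
    rw [e]
    exact tri (by positivity) hP0.ne' ⟨rR r, by ring⟩ hPd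
  · rw [eM]; exact ty6
  · unfold evO at c4
    rw [not_lt] at c4
    exact c4

end Pool.Agent.Lib.MP391708.TG.H
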