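import Pool.Agent.Lib.MP_391708_nt.TG.ISpec
import Pool.Agent.Lib.MP_391708_nt.TG.BasF
import Pool.Agent.Lib.MP_391708_nt.Eqd.Div

/-!
# Group I: elementary lemmas on `sm`, `PP`, unimodular pairs
-/

set_option autoImplicit false

namespace Pool.Agent.Lib.MP391708.TG.I

variable [Pool.Agent.Lib.MP391708.TG.Aa]

open Finset
open Pool.Agent.Lib.MP391708.Eqd (V cross pairs)
open scoped Classical

variable {p : Prm} {N : ℕ}

lemma mem_PP {l : ℕ} : l ∈ PP p N ↔ (l : ℝ) < zz p N ∧ l.Prime ∧ spl l ∧ p.E < l := by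
  unfold PP
  rw [mem_filter, mem_range, Nat.lt_ceil]

lemma prime_of_mem_PP {l : ℕ} (h : l ∈ PP p N) : l.Prime := (mem_PP.1 h).2.1

lemma sm_pos (n : ℕ) : 0 < sm p N n :=
  prod_pos fun _ hl => pow_pos (prime_of_mem_PP hl).pos _

lemma sm_dvd {n : ℕ} (hn : n ≠ 0) : sm p N n ∣ n := by
  have h1 : sm p N n = ∏ l ∈ (PP p N).filter (fun l => l ∈ n.primeFactors),
      l ^ n.factorization l := by
    unfold sm
    rw [prod_filter]
    refine prod_congr rfl fun l _ => ?_
    split_ifs with h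
    · rfl
    · rw [← Nat.support_factorization, Finsupp.notMem_support_iff] at h
      rw [h, pow_zero]
  rw [h1]
  conv_rhs => rw [← Nat.prod_factorization_pow_eq_self hn]
  rw [Finsupp.prod, Nat.support_factorization]
  exact prod_dvd_prod_of_subset _ _ _ fun l hl => (mem_filter.1 hl).2

/-- the exponents of `sm n` -/
lemma factorization_sm {n l : ℕ} (hl : l ∈ PP p N) :
    (sm p N n).factorization l = n.factorization l := by
  unfold sm
  rw [Nat.factorization_prod fun q hq => pow_ne_zero _ (prime_of_mem_PP hq).ne_zero]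
  rw [Finsupp.finsetSum_apply]
  rw [sum_eq_single l]
  · rw [(prime_of_mem_PP hl).factorization_pow, Finsupp.single_eq_same]
  · intro q hq hne
    rw [(prime_of_mem_PP hq).factorization_pow, Finsupp.single_eq_of_ne hne.symm]
  · intro h; exact absurd hl h

/-- a prime dividing `sm n` is in `PP` -/
lemma mem_PP_of_dvd_sm {n l : ℕ} (hl : l.Prime) (h : l ∣ sm p N n) : l ∈ PP p N ∧ l ∣ n := by
  unfold sm at h
  obtain ⟨q, hq, hd⟩ := (hl.prime.dvd_finsetProd_iff _).1 h
  have h1 := hl.prime.dvd_of_dvd_pow hd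
  have h2 : l = q := (Nat.prime_dvd_prime_iff_eq hl (prime_of_mem_PP hq)).1 h1
  subst h2
  refine ⟨hq, ?_⟩
  by_contra hn
  rw [Nat.factorization_eq_zero_of_not_dvd hn, pow_zero] at hd
  exact hl.one_lt.ne' (Nat.dvd_one.1 hd)

lemma dvd_sm_iff {n l : ℕ} (hn : n ≠ 0) (hl : l ∈ PP p N) : l ∣ sm p N n ↔ l ∣ n := by
  constructor
  · intro h; exact h.trans (sm_dvd hn)
  · intro h
    have h1 : (sm p N n).factorization l ≠ 0 := by
      rw [factorization_sm hl]
      exact ((prime_of_mem_PP hl).factorization_pos_of_dvd hn h).ne'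
    exact Nat.dvd_of_factorization_pos h1

/-- `n / sm n` has no prime factor in `PP` -/
lemma not_dvd_div_sm {n l : ℕ} (hn : n ≠ 0) (hl : l ∈ PP p N) : ¬ l ∣ n / sm p N n := by
  intro h
  have h1 : sm p N n * (n / sm p N n) = n := Nat.mul_div_cancel' (sm_dvd hn)
  have h0 : n / sm p N n ≠ 0 := by
    intro h0; rw [h0, mul_zero] at h1; exact hn h1.symm
  have h2 : (sm p N n * (n / sm p N n)).factorization l = n.factorization l := by rw [h1]
  rw [Nat.factorization_mul (sm_pos n).ne' h0, Finsupp.add_apply, factorization_sm hl] at h2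
  have h3 := (prime_of_mem_PP hl).factorization_pos_of_dvd h0 h
  omega

/-- a PP-free divisor of `n` divides `n / sm n` -/
lemma dvd_div_sm {a n : ℕ} (hn : n ≠ 0) (ha : a ∣ n) (h : ∀ l ∈ PP p N, ¬ l ∣ a) :
    a ∣ n / sm p N n := by
  have h1 : Nat.Coprime a (sm p N n) := by
    refine Nat.coprime_of_dvd fun q hq h1 h2 => ?_
    exact h q (mem_PP_of_dvd_sm hq h2).1 h1
  have h2 : a ∣ sm p N n * (n / sm p N n) := by rwa [Nat.mul_div_cancel' (sm_dvd hn)]
  exact h1.dvd_of_dvd_mul_left h2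

lemma sm_sm (n : ℕ) : sm p N (sm p N n) = sm p N n := by
  conv_lhs => unfold sm
  conv_rhs => unfold sm
  refine prod_congr rfl fun l hl => ?_
  rw [show (∏ l ∈ PP p N, l ^ n.factorization l) = sm p N n from rfl, factorization_sm hl]

lemma sm_dvd_sm {a n : ℕ} (hn : n ≠ 0) (ha : a ∣ n) : sm p N a ∣ sm p N n := by
  unfold sm
  refine prod_dvd_prod_of_dvd _ _ fun l _ => pow_dvd_pow _ ?_
  exact (Nat.factorization_le_iff_dvd (by rintro rfl; exact hn (zero_dvd_iff.1 ha)) hn).2 ha l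

/-! ## Unimodular pairs -/

/-- existence of a form and a unimodular pair with given `M`, `d` -/
lemma exists_x' {k : ℕ} {L : Fin k → Frm} (hL : Cls L) {M d : ℕ} (hM : aa < M ^ 2) (hd0 : 0 < d)
    (hd : d ∣ vl M) :
    ∃ (i : Fin k) (x : VV), @TG.CC _ (L i) x ∧ @mm _ (L i) x = M ∧ @dd _ (L i) x = d := by
  have h0 : 0 < M := by
    rcases Nat.eq_zero_or_pos M with h | h
    · subst h; simp at hM
    · exact h
  have hv := vl_cast hM
  have hp : (0 : ℤ) < (M : ℤ) ^ 2 + az := by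
    rw [← hv]
    exact_mod_cast vl_pos hM
  have hdZ : (0 : ℤ) < (d : ℤ) := by exact_mod_cast hd0
  obtain ⟨i, x, h1, h2, h3, h4⟩ := hL M d (by exact_mod_cast h0) hp hdZ (natCast_dvd_vl.1 hd)
  let _ : Frm := L i
  refine ⟨i, x, ⟨h1, h2, ?_, ?_⟩, h3, h4⟩
  · rw [h4]; exact hdZ
  · have h5 := dd_mul_ee' h1
    rw [h3, h4] at h5
    exact pos_of_mul_pos_right (h5 ▸ hp) hdZ.le

/-- existence of a form and a unimodular pair with given `M`, `d` -/
lemma exists_x {k : ℕ} {L : Fin k → Frm} (hL : Cls L) {M d : ℕ} (hM : aa < M ^ 2) (hd0 : 0 < d)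
    (hd : d ∣ vl M) :
    ∃ (i : Fin k) (x : VV), cross x.1 x.2 = -1 ∧ @mm _ (L i) x = M ∧ @dd _ (L i) x = d := by
  obtain ⟨i, x, h1, h2, h3⟩ := exists_x' hL hM hd0 hd
  exact ⟨i, x, h1.1, h2, h3⟩

end Pool.Agent.Lib.MP391708.TG.I
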