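import Pool.Agent.Lib.MP_391708_nt.TG.SpecH
import Pool.Agent.Lib.MP_391708_nt.TG.Basic
import Pool.Agent.Lib.MP_391708_nt.TG1.A3An
import Pool.Agent.Lib.MP_391708_nt.TG.Cls
import Pool.Agent.Lib.MP_391708_nt.TG1.NGP
import Pool.Agent.Lib.MP_391708_nt.TA.LLX
import Pool.Agent.Lib.MP_391708_nt.T1.GoodL
import Pool.Agent.Lib.MP_391708_nt.Div

/-!
# T1b, group H, module HD: the relations with a prime dividing `D` and `Q`

For a datum `a`, `t = (D, X)` and a prime `l ≥ z`, `l ∣ D`, `l ∣ Q`, the number of `x` is estimated by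
`TG1.NG.CNT` (the a-form of `T1.NG.cnt`) with the moduli `ds u`, `es v l`, `X` at the points `(1, 0)`, `(0, 1)`,
`(m₂ D, -g₁ m₁ u)`, which are pairwise coprime.  The sum over `X`, `D`, `l` is `O(log N / z)`, the sum
over the data `O((log N)^8)`.
-/

set_option autoImplicit false
set_option linter.constructorNameAsVariable false

namespace Pool.Agent.Lib.MP391708.TG.HDm

variable [Pool.Agent.Lib.MP391708.TG.Aa] [Pool.Agent.Lib.MP391708.TG.Frm]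

open Finset Filter Topology
open Pool.Agent.Lib.MP391708.Eqd (V cross pairs)
open Pool.Agent.Lib.MP391708.TG.H
open scoped Classical

attribute [local irreducible] dbox

/-! ## Elementary facts -/

omit [Frm] in
lemma spl_of_dvd {l M : ℕ} (hl : l.Prime) (h2 : 2 * aa < l) (h : l ∣ vl M) : spl l :=
  Bs.spl_of_dvd_of_lt hl h2 h

omit [Frm] in
lemma mem_PP {p : Prm} {N l : ℕ} : l ∈ PP p N ↔ (l : ℝ) < zz p N ∧ l.Prime ∧ spl l ∧ p.E < l :=
  Bs.mem_PP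

/-- the basic facts about a pair in the critical window -/
lemma gam_facts {N : ℕ} {x : VV} (hx : x ∈ Gam N 1 3) :
    (CC x ∧ aa < Md x ^ 2) ∧ mm x = (Md x : ℤ) ∧ N < Md x ∧ Md x ≤ 2 * N ∧
      dd x = ((dd x).natAbs : ℤ) ∧ ee x = ((ee x).natAbs : ℤ) ∧
      Md x < (dd x).natAbs ∧ (dd x).natAbs ≤ 3 * Md x ∧
      (dd x).natAbs * (ee x).natAbs = vl (Md x) := by
  obtain ⟨hc, h1, h2, h3, h4⟩ := Bs.mem_Gam.1 hx
  have hm : mm x = (Md x : ℤ) := by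
    have : (0 : ℤ) ≤ mm x := by omega
    exact (Int.natAbs_of_nonneg this).symm
  have hd : dd x = ((dd x).natAbs : ℤ) := (Int.natAbs_of_nonneg (Bs.dd_nonneg hc)).symm
  have he : ee x = ((ee x).natAbs : ℤ) := (Int.natAbs_of_nonneg (Bs.ee_nonneg hc)).symm
  have hlt : aa < Md x ^ 2 := aa_lt_sq hc
  refine ⟨⟨hc, hlt⟩, hm, by omega, by omega, hd, he, ?_, ?_, ?_⟩
  · have h5 : ((mm x : ℤ) : ℝ) < ((dd x : ℤ) : ℝ) := by linarith
    have h6 : mm x < dd x := by exact_mod_cast h5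
    omega
  · have h5 : ((dd x : ℤ) : ℝ) ≤ ((3 * mm x : ℤ) : ℝ) := by push_cast; linarith
    have h6 : dd x ≤ 3 * mm x := by exact_mod_cast h5
    omega
  · have h6 := Bs.dd_mul_ee hc
    rw [hd, he, hm, ← vl_cast hlt] at h6
    exact_mod_cast h6

/-- a bounded number of pairs with the same `M` and `d` -/
lemma card_le_aut {C : ℕ} (hC : ∀ (S : Finset VV) (M d : ℤ), 0 < d →
    (∀ x ∈ S, cross x.1 x.2 = -1 ∧ TG.Cn x.1 ∧ mm x = M ∧ dd x = d) → S.card ≤ C) {N : ℕ}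
    (S : Finset VV)
    (hS : ∀ x ∈ S, x ∈ Gam N 1 3) :
    S.card ≤ C * (S.image (fun x => (Md x, (dd x).natAbs))).card := by
  refine Finset.card_le_mul_card_image S C fun b hb => ?_
  obtain ⟨y, hy, rfl⟩ := mem_image.1 hb
  obtain ⟨hc, hm, -, -, hd, he, hd1, -, hde⟩ := gam_facts (hS y hy)
  refine hC _ (Md y) (dd y) ?_ fun x hx => ?_
  · rw [hd]
    have : 0 < (dd y).natAbs := by omega
    exact_mod_cast this
  · rw [mem_filter] at hx
    obtain ⟨hxS, hxe⟩ := hx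
    obtain ⟨hc', hm', -, -, hd', -, -, -, -⟩ := gam_facts (hS x hxS)
    have e1 : Md x = Md y := congrArg Prod.fst hxe
    have e2 : (dd x).natAbs = (dd y).natAbs := congrArg Prod.snd hxe
    exact ⟨hc'.1.1, hc'.1.2.1, by rw [hm', e1], by rw [hd', e2, ← hd]⟩

/-! ## A relation with a prime dividing `D` and `Q` -/

/-- the conclusion of H1a -/
def H1 (p : Prm) (N : ℕ) (a : Dt) (x : VV) : Prop :=
  Pd a x * (g1 a * m1 a * du a) = (dd x).natAbs * m2 a ∧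
    Qd a x * (g2 a * m2 a * dv a) = (ee x).natAbs * m1 a ∧
    dG a * Pd a x * Qd a x = vl (Md x) ∧
    sm p N (dd x).natAbs = ds a ∧ sm p N (ee x).natAbs = es a ∧
    sm p N (vl (Md x)) = ds a * es a ∧ sm p N (dG a) = g1 a * g2 a ∧
    sm p N (Pd a x) = m2 a * n1 a ∧ sm p N (Qd a x) = m1 a * n2 a ∧ Squarefree (dG a) ∧
    Adm p N (Md x) (dG a) (Pd a x) (Qd a x) ∧
    ∀ t : ℤ × ℕ, ((m2 a * g1 a * m1 a * du a : ℕ) : ℤ) * F1 (rel a t x) =
        qf x (m2 a * t.1) (-((g1 a * m1 a * du a : ℕ) : ℤ)) ∧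
      ((m1 a * g2 a * m2 a * dv a : ℕ) : ℤ) * F2 (rel a t x) =
        qf x ((g2 a * m2 a * dv a : ℕ) : ℤ) (m1 a * D2 (rel a t x))

/-- the condition on `x`, for fixed `(a, D, X, l)` -/
def Cx (p : Prm) (N : ℕ) (a : Dt) (D X l : ℕ) (x : VV) : Prop :=
  x ∈ Gam N 1 3 ∧ fits p N a x ∧ ((D : ℤ), X) ∈ TS p N a x ∧ (X : ℤ) ∣ F1 (rel a ((D : ℤ), X) x) ∧
    l.Prime ∧ p.E < l ∧ l ∣ D ∧ l ∣ Qd a x

/-- facts that do not involve `x` -/
structure St (p : Prm) (N : ℕ) (a : Dt) (D X l : ℕ) : Prop where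
  D_pos : 0 < D
  D_lt : D < 3 * (g1 a * m1 a * du a)
  G_lt : dG a < X
  X_le : X ≤ 7 * dG a
  dvd : (D : ℤ) ∣ (X : ℤ) - dG a
  sqX : Squarefree X
  oneX : ∀ q : ℕ, q.Prime → q ∣ X → spl q
  copGX : Nat.Coprime (dG a) X
  copDG : Nat.Coprime D (dG a)
  copDX : Nat.Coprime D X
  l_prime : l.Prime
  l_dvd : l ∣ D
  l_one : spl l
  l_ge : zz p N ≤ (l : ℝ)
  copXs : Nat.Coprime X (ds a * es a)

omit [Frm] in
theorem pos_of_mem {p : Prm} {N : ℕ} {a : Dt} (ha : a ∈ DA p N) : 0 < g1 a ∧ 0 < m1 a ∧ 0 < n1 a ∧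
    0 < g2 a ∧ 0 < m2 a ∧ 0 < n2 a ∧ 0 < du a ∧ 0 < dv a := by
  unfold DA at ha
  rw [mem_filter] at ha
  obtain ⟨hm, hsq, -, -, -⟩ := ha
  have h0 : ds a * es a ≠ 0 := hsq.ne_zero
  simp only [ds, es, mul_ne_zero_iff] at h0
  simp only [mem_product, Uu, Vv, mem_filter] at hm
  have hu : (du a).Prime := hm.2.2.1.2.1
  have hv : (dv a).Prime := hm.2.2.2.2.1
  refine ⟨Nat.pos_of_ne_zero h0.1.1.1, Nat.pos_of_ne_zero h0.1.1.2, Nat.pos_of_ne_zero h0.1.2,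
    Nat.pos_of_ne_zero h0.2.1.1, Nat.pos_of_ne_zero h0.2.1.2, Nat.pos_of_ne_zero h0.2.2,
    hu.pos, hv.pos⟩

/-- the facts -/
theorem st_of {p : Prm} {N : ℕ} {a : Dt} {D X l : ℕ} {x : VV} (hE : 2 * aa ≤ p.E) (ha : a ∈ DA p N)
    (h1 : H1 p N a x) (h : Cx p N a D X l x) : St p N a D X l := by
  obtain ⟨hx, hfit, ht, hF, hl, hlE, hlD, hlQ⟩ := h
  obtain ⟨hc, hm, hM1, hM2, hd, he, hd1, hd2, hde⟩ := gam_facts hx
  obtain ⟨e1, e2, e3, -, -, -, -, -, -, -, -, -⟩ := h1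
  obtain ⟨pg1, pm1, pn1, pg2, pm2, pn2, pu, pv⟩ := pos_of_mem ha
  unfold TS S1 at ht
  rw [mem_filter] at ht
  obtain ⟨-, hDX, w1, w2, w3, w4, c1, c2, c3⟩ := ht
  obtain ⟨hD0, hdv, -, -, -, hsq, hone, hcop, hcop2⟩ := hDX
  dsimp only at hD0 hdv hsq hone hcop hcop2 w1 w2 w3 w4 c1 c2 c3
  set M := Md x with hMdef
  set G := dG a with hG
  set P := Pd a x with hP
  set Q := Qd a x with hQ
  have hM0 : 0 < M := by omega
  have hG0 : 0 < G := by
    rw [hG]; unfold dG; positivity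
  have hPQ : 0 < P * Q := by
    rcases Nat.eq_zero_or_pos (P * Q) with h | h
    · rw [mul_assoc, h, mul_zero] at e3
      have := Bs.vl_pos_all M
      omega
    · exact h
  have hP0 : 0 < P := Nat.pos_of_mul_pos_right hPQ
  have hQ0 : 0 < Q := Nat.pos_of_mul_pos_left hPQ
  -- D
  have hDpos : 0 < D := by
    have : ((D : ℤ)) ≠ 0 := hD0
    omega
  have hDlt : D < 3 * (g1 a * m1 a * du a) := by
    have w2' : D * P ≤ 3 * M := by exact_mod_cast w2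
    have h2 : D * ((dd x).natAbs * m2 a) ≤ 3 * M * (g1 a * m1 a * du a) := by
      rw [← e1]
      calc D * (P * (g1 a * m1 a * du a)) = D * P * (g1 a * m1 a * du a) := by ring
        _ ≤ _ := Nat.mul_le_mul_right _ w2'
    have h3 : D * (M * 1) < D * ((dd x).natAbs * m2 a) := by
      refine Nat.mul_lt_mul_of_pos_left ?_ hDpos
      exact lt_of_lt_of_le (Nat.mul_lt_mul_of_pos_right hd1 one_pos) (Nat.mul_le_mul_left _ pm2)
    have h4 : D * M < 3 * (g1 a * m1 a * du a) * M := by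
      calc D * M = D * (M * 1) := by ring
        _ < _ := h3
        _ ≤ _ := h2
        _ = _ := by ring
    exact Nat.lt_of_mul_lt_mul_right h4
  -- D2
  set E2 : ℤ := D2 (M, G, P, Q, ((D : ℤ), X)) with hE2
  have hE2' : (D : ℤ) * E2 = (X : ℤ) - G := by
    rw [hE2]
    simp only [D2, rX, rG, rD]
    exact Int.mul_ediv_cancel' hdv
  have hE2pos : 0 < E2 := by
    by_contra hneg
    have h5 : E2 * Q * M ≤ 0 := by
      have h6 : (0 : ℤ) ≤ (Q : ℤ) * M := by positivity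
      have h7 : E2 ≤ 0 := not_lt.1 hneg
      exact mul_assoc E2 _ _ ▸ mul_nonpos_of_nonpos_of_nonneg h7 h6
    have h8 : (0 : ℤ) < (M : ℤ) ^ 2 + az := by
      rw [← vl_cast hc.2]
      exact_mod_cast Bs.vl_pos_all M
    linarith
  have hDZ : (0 : ℤ) < D := by exact_mod_cast hDpos
  have hXG : (G : ℤ) < X := by
    have h7 : 0 < (D : ℤ) * E2 := mul_pos hDZ hE2pos
    linarith
  have hXle : (X : ℤ) ≤ 7 * G := by
    have h6 : (D : ℤ) * P * (E2 * Q * M) ≤ 3 * M * (2 * ((M : ℤ) ^ 2 + az)) := by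
      have h7 : (0 : ℤ) ≤ (D : ℤ) * P := by positivity
      have h8 : (0 : ℤ) ≤ 2 * ((M : ℤ) ^ 2 + az) := by
        rw [← vl_cast hc.2]
        positivity
      exact mul_le_mul w2 w4.le (by positivity) (by positivity)
    have h9 : (M : ℤ) ^ 2 + az = G * P * Q := by
      rw [← vl_cast hc.2, ← e3]
      push_cast
      rfl
    rw [h9] at h6
    have h10 : ((P * Q * M : ℕ) : ℤ) * ((D : ℤ) * E2) ≤ ((P * Q * M : ℕ) : ℤ) * (6 * G) := by
      push_cast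
      calc ((P : ℤ) * Q * M) * ((D : ℤ) * E2) = (D : ℤ) * P * (E2 * Q * M) := by ring
        _ ≤ _ := h6
        _ = _ := by ring
    have h11 : (0 : ℤ) < ((P * Q * M : ℕ) : ℤ) := by positivity
    have h12 := le_of_mul_le_mul_left h10 h11
    linarith
  have hcopDX : Nat.Coprime D X := by
    have h7 : IsCoprime (D : ℤ) (X : ℤ) := by
      have h8 : (X : ℤ) = G + D * E2 := by linarith
      rw [h8]
      exact (hcop2.add_mul_left_right _)
    exact Nat.isCoprime_iff_coprime.1 h7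
  have hlM : l ∣ vl M := by rw [← e3]; exact hlQ.mul_left _
  have hl4 : spl l := spl_of_dvd hl (by omega) hlM
  refine ⟨hDpos, hDlt, by exact_mod_cast hXG, by exact_mod_cast hXle, hdv, hsq, hone, hcop,
    Nat.isCoprime_iff_coprime.1 hcop2, hcopDX, hl, hlD, hl4, ?_, ?_⟩
  · by_contra hlz
    rw [not_le] at hlz
    exact c1 l (mem_PP.2 ⟨hlz, hl, hl4, hlE⟩) (by exact_mod_cast hlD) hlQ
  · refine Nat.Coprime.symm (Nat.Coprime.symm ?_)
    rw [Nat.coprime_iff_gcd_eq_one]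
    by_contra hg
    obtain ⟨q, hq, hqd⟩ := Nat.exists_prime_and_dvd hg
    have hqX := (Nat.dvd_gcd_iff.1 hqd).1
    have hqs := (Nat.dvd_gcd_iff.1 hqd).2
    have hqP : q ∈ PP p N := by
      unfold DA at ha
      exact (mem_filter.1 ha).2.2.1 q hq hqs
    refine c2 q hqP hqX ?_
    rw [← hde]
    obtain ⟨-, -, -, hf⟩ := hfit
    obtain ⟨f1, f2, -, -⟩ := hf q hqP
    rcases hq.dvd_mul.1 hqs with h | h
    · exact (Int.natCast_dvd.1 (f1.2 h)).mul_right _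
    · exact (Int.natCast_dvd.1 (f2.2 h)).mul_left _

/-! ## The moduli -/

def m3 (a : Dt) (X l : ℕ) : Fin 3 → ℕ := ![ds a * du a, es a * dv a * l, X]
def s3 (a : Dt) (D : ℕ) : Fin 3 → ℤ := ![1, 0, (m2 a : ℤ) * D]
def t3 (a : Dt) : Fin 3 → ℤ := ![0, 1, -((g1 a * m1 a * du a : ℕ) : ℤ)]

omit [Frm] in
/-- the static facts about a datum -/
theorem dat {p : Prm} {N : ℕ} (hz : 1 < zz p N) (hk : 1 ≤ p.k) (hr : 1 ≤ p.r) {a : Dt}
    (ha : a ∈ DA p N) :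
    Squarefree (ds a * es a) ∧ (∀ q : ℕ, q.Prime → q ∣ ds a * es a → q ∈ PP p N) ∧
      (ds a : ℝ) ≤ zz p N ^ p.K ∧ (es a : ℝ) ≤ zz p N ^ p.K ∧
      (du a).Prime ∧ spl (du a) ∧ zz p N ≤ (du a : ℝ) ∧ (du a : ℝ) ≤ Y2 p N ∧
      (dv a).Prime ∧ spl (dv a) ∧ zz p N ≤ (dv a : ℝ) ∧ Y3 p N ≤ (dv a : ℝ) ∧
      (dv a : ℝ) ≤ Y4 p N := by
  unfold DA at ha
  rw [mem_filter] at ha
  obtain ⟨hm, h1, h2, h3, h4⟩ := ha
  simp only [mem_product, Uu, Vv, mem_filter] at hm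
  obtain ⟨-, -, ⟨-, u1, u2, u3, u4⟩, ⟨-, v1, v2, v3, v4⟩⟩ := hm
  refine ⟨h1, h2, h3, h4, u1, u2, ?_, u4, v1, v2, ?_, v3, v4⟩
  · refine le_trans ?_ u3
    unfold Y1
    calc zz p N = zz p N ^ 1 := (pow_one _).symm
      _ ≤ _ := pow_le_pow_right₀ hz.le hk
  · refine le_trans ?_ v3
    unfold Y3
    calc zz p N = zz p N ^ 1 := (pow_one _).symm
      _ ≤ _ := pow_le_pow_right₀ hz.le (by nlinarith [Nat.mul_le_mul hr hk])

omit [Aa] [Frm] in
theorem dvd_of_sqf {n d : ℕ} (hn : Squarefree n) (h : ∀ q : ℕ, q.Prime → q ∣ n → q ∣ d) : n ∣ d := by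
  rw [← Nat.prod_primeFactors_of_squarefree hn]
  refine Finset.prod_primes_dvd d (fun l hl => ?_) (fun l hl => ?_)
  · exact (Nat.prime_of_mem_primeFactors hl).prime
  · exact h l (Nat.prime_of_mem_primeFactors hl) (Nat.dvd_of_mem_primeFactors hl)

omit [Frm] in
/-- a prime `≥ z` does not divide the sieving parts -/
theorem not_dvd_of_ge {p : Prm} {N : ℕ} {n q : ℕ} (h2 : ∀ q : ℕ, q.Prime → q ∣ n → q ∈ PP p N)
    (hq : q.Prime) (hqz : zz p N ≤ (q : ℝ)) : Nat.Coprime q n := by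
  rw [hq.coprime_iff_not_dvd]
  intro h
  have := (mem_PP.1 (h2 q hq h)).1
  linarith

omit [Frm] in
theorem Spl_of_spl {q : ℕ} (hq : q.Prime) (h : spl q) : TA.NG.Spl az q := by
  refine ⟨fun hd => ?_, Bs.exists_root hq h⟩
  have h2 : (q : ℤ) ∣ ((2 * aa : ℕ) : ℤ) := by
    have h3 : (q : ℤ) ∣ 2 * az := hd
    rw [az_eq, mul_neg, dvd_neg] at h3
    push_cast
    exact h3
  exact Bs.not_dvd_two_aa_of_spl hq h (by exact_mod_cast h2)

omit [Frm] in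
theorem pts {p : Prm} {N : ℕ} (hz : 1 < zz p N) (hk : 1 ≤ p.k) (hr : 1 ≤ p.r) {a : Dt}
    {D X l : ℕ} (ha : a ∈ DA p N) (h : St p N a D X l) :
    TA.NG.Pts az (m3 a X l) (s3 a D) (t3 a) 1 := by
  obtain ⟨h1, h2, -, -, u1, u2, u3, u4, v1, v2, v3, v4, -⟩ := dat hz hk hr ha
  have cuG : du a ∣ dG a := by unfold dG; exact ((Dvd.intro_left _ rfl).mul_right _)
  have cvG : dv a ∣ dG a := by unfold dG; exact Dvd.intro_left _ rfl
  have cg1G : g1 a ∣ dG a := by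
    unfold dG
    exact ((Dvd.intro _ rfl : g1 a ∣ g1 a * g2 a).mul_right _).mul_right _
  have cu : Nat.Coprime (du a) (ds a * es a) := not_dvd_of_ge h2 u1 u3
  have cv : Nat.Coprime (dv a) (ds a * es a) := not_dvd_of_ge h2 v1 v3
  have cl : Nat.Coprime l (ds a * es a) := not_dvd_of_ge h2 h.l_prime h.l_ge
  have cde : Nat.Coprime (ds a) (es a) := Nat.coprime_of_squarefree_mul h1
  have cuX : Nat.Coprime (du a) X := Nat.Coprime.coprime_dvd_left cuG h.copGX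
  have cvX : Nat.Coprime (dv a) X := Nat.Coprime.coprime_dvd_left cvG h.copGX
  have clX : Nat.Coprime l X := Nat.Coprime.coprime_dvd_left h.l_dvd h.copDX
  have clu : Nat.Coprime l (du a) :=
    Nat.Coprime.coprime_dvd_left h.l_dvd (Nat.Coprime.coprime_dvd_right cuG h.copDG)
  have clv : Nat.Coprime l (dv a) :=
    Nat.Coprime.coprime_dvd_left h.l_dvd (Nat.Coprime.coprime_dvd_right cvG h.copDG)
  have cXd : Nat.Coprime X (ds a) := Nat.Coprime.coprime_mul_right_right h.copXs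
  have cXe : Nat.Coprime X (es a) := Nat.Coprime.coprime_mul_left_right h.copXs
  have cud : Nat.Coprime (du a) (ds a) := Nat.Coprime.coprime_mul_right_right cu
  have cue : Nat.Coprime (du a) (es a) := Nat.Coprime.coprime_mul_left_right cu
  have cvd : Nat.Coprime (dv a) (ds a) := Nat.Coprime.coprime_mul_right_right cv
  have cve : Nat.Coprime (dv a) (es a) := Nat.Coprime.coprime_mul_left_right cv
  have cld : Nat.Coprime l (ds a) := Nat.Coprime.coprime_mul_right_right cl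
  have cle : Nat.Coprime l (es a) := Nat.Coprime.coprime_mul_left_right cl
  have cuv : Nat.Coprime (du a) (dv a) := by
    rw [Nat.coprime_primes u1 v1]
    intro h
    have h5 : Y2 p N < Y3 p N := by
      unfold Y2 Y3
      exact pow_lt_pow_right₀ hz (by nlinarith [Nat.mul_le_mul hr hk])
    rw [h] at u4
    linarith
  have c01 : Nat.Coprime (ds a * du a) (es a * dv a * l) :=
    Nat.Coprime.mul_left
      (Nat.Coprime.mul_right (Nat.Coprime.mul_right cde cvd.symm) cld.symm)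
      (Nat.Coprime.mul_right (Nat.Coprime.mul_right cue cuv) clu.symm)
  have c02 : Nat.Coprime (ds a * du a) X := Nat.Coprime.mul_left cXd.symm cuX
  have c12 : Nat.Coprime (es a * dv a * l) X :=
    Nat.Coprime.mul_left (Nat.Coprime.mul_left cXe.symm cvX) clX
  have hno : ∀ i j : Fin 3, i ≠ j → ∀ q : ℕ, q.Prime → q ∣ m3 a X l i → q ∣ m3 a X l j → False := by
    intro i j hij q hq hi hj
    have key : ∀ {x y : ℕ}, Nat.Coprime x y → q ∣ x → q ∣ y → False := by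
      intro x y hxy hx hy
      exact hq.one_lt.ne' (Nat.eq_one_of_dvd_coprimes hxy hx hy)
    fin_cases i <;> fin_cases j
    · exact hij rfl
    · exact key c01 hi hj
    · exact key c02 hi hj
    · exact key c01 hj hi
    · exact hij rfl
    · exact key c12 hi hj
    · exact key c02 hj hi
    · exact key c12 hj hi
    · exact hij rfl
  have hoes : ∀ q : ℕ, q.Prime → q ∣ ds a * es a → spl q := fun q hq hqd =>
    (mem_PP.1 (h2 q hq hqd)).2.2.1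
  refine ⟨fun i => ?_, fun i q hq hqi => Spl_of_spl hq ?_, fun i q hq hqi hst => ?_,
    fun q hq hqq => ?_, fun i j hij q hq hi hj _ => (hno i j hij q hq hi hj).elim⟩
  · fin_cases i
    · show Squarefree (ds a * du a)
      exact (Nat.squarefree_mul cud.symm).2 ⟨h1.of_mul_left, u1.squarefree⟩
    · show Squarefree (es a * dv a * l)
      exact (Nat.squarefree_mul (Nat.Coprime.mul_left cle.symm clv.symm)).2
        ⟨(Nat.squarefree_mul cve.symm).2 ⟨h1.of_mul_right, v1.squarefree⟩, h.l_prime.squarefree⟩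
    · exact h.sqX
  · fin_cases i
    · have hqi' : q ∣ ds a * du a := hqi
      rcases hq.dvd_mul.1 hqi' with h3 | h3
      · exact hoes q hq (h3.mul_right _)
      · rw [(Nat.prime_dvd_prime_iff_eq hq u1).1 h3]; exact u2
    · have hqi' : q ∣ es a * dv a * l := hqi
      rcases hq.dvd_mul.1 hqi' with h3 | h3
      · rcases hq.dvd_mul.1 h3 with h3 | h3
        · exact hoes q hq (h3.mul_left _)
        · rw [(Nat.prime_dvd_prime_iff_eq hq v1).1 h3]; exact v2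
      · rw [(Nat.prime_dvd_prime_iff_eq hq h.l_prime).1 h3]; exact h.l_one
    · exact h.oneX q hq hqi
  · fin_cases i
    · have h3 : (q : ℤ) ∣ 1 := hst.1
      have h4 := Int.natAbs_dvd_natAbs.2 h3
      simp only [Int.natAbs_natCast, Int.natAbs_one, Nat.dvd_one] at h4
      exact hq.one_lt.ne' h4
    · have h3 : (q : ℤ) ∣ 1 := hst.2
      have h4 := Int.natAbs_dvd_natAbs.2 h3
      simp only [Int.natAbs_natCast, Int.natAbs_one, Nat.dvd_one] at h4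
      exact hq.one_lt.ne' h4
    · have hqX : q ∣ X := hqi
      have h3 : (q : ℤ) ∣ (m2 a : ℤ) * D := hst.1
      have h4 : q ∣ m2 a * D := by exact_mod_cast h3
      rcases hq.dvd_mul.1 h4 with h5 | h5
      · have h6 : q ∣ es a := by
          unfold es
          exact (h5.mul_left _).mul_right _
        exact hq.one_lt.ne' (Nat.eq_one_of_dvd_coprimes cXe hqX h6)
      · exact hq.one_lt.ne' (Nat.eq_one_of_dvd_coprimes h.copDX h5 hqX)
  · exact hno 0 1 (by decide) q hq hqq.1 hqq.2.1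

/-- the conditions of `NG.cnt` -/
theorem conds {p : Prm} {N : ℕ} (hz : 1 < zz p N) (hk : 1 ≤ p.k) (hr : 1 ≤ p.r) {a : Dt}
    {D X l : ℕ} {x : VV} (ha : a ∈ DA p N) (h1 : H1 p N a x) (hs : St p N a D X l)
    (h : Cx p N a D X l x) : ∀ i : Fin 3, (m3 a X l i : ℤ) ∣
      T1.NG.qf (Md x : ℤ) ((dd x).natAbs : ℤ) (((vl (Md x)) / (dd x).natAbs : ℕ) : ℤ)
        (s3 a D i) (t3 a i) := by
  obtain ⟨q1, q2, -, -, u1, -, u3, -, v1, -, v3, -, -⟩ := dat hz hk hr ha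
  obtain ⟨hx, hfit, ht, hF, hl, hlE, hlD, hlQ⟩ := h
  obtain ⟨hc, hm, hM1, hM2, hd, he, hd1, hd2, hde⟩ := gam_facts hx
  obtain ⟨e1, e2, e3, -, -, -, -, -, -, -, -, e4⟩ := h1
  obtain ⟨hf1, hf2, hf3, hf4⟩ := hfit
  have hd0 : 0 < (dd x).natAbs := by omega
  have hW : (vl (Md x)) / (dd x).natAbs = (ee x).natAbs :=
    Nat.div_eq_of_eq_mul_right hd0 hde.symm
  have cu : Nat.Coprime (du a) (ds a * es a) := not_dvd_of_ge q2 u1 u3
  have cv : Nat.Coprime (dv a) (ds a * es a) := not_dvd_of_ge q2 v1 v3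
  have cl : Nat.Coprime l (ds a * es a) := not_dvd_of_ge q2 hs.l_prime hs.l_ge
  have clv : Nat.Coprime l (dv a) :=
    Nat.Coprime.coprime_dvd_left hs.l_dvd (Nat.Coprime.coprime_dvd_right
      (by unfold dG; exact Dvd.intro_left _ rfl) hs.copDG)
  rw [hW]
  intro i
  fin_cases i
  · show ((ds a * du a : ℕ) : ℤ) ∣ T1.NG.qf _ _ _ 1 0
    have e5 : T1.NG.qf (Md x : ℤ) ((dd x).natAbs : ℤ) ((ee x).natAbs : ℤ) 1 0 =
        ((dd x).natAbs : ℤ) := by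
      simp only [T1.NG.qf]; ring
    rw [e5]
    have h3 : ds a ∣ (dd x).natAbs := by
      refine dvd_of_sqf q1.of_mul_left fun q hq hqd => ?_
      exact Int.natCast_dvd.1 ((hf4 q (q2 q hq (hqd.mul_right _))).1.2 hqd)
    have h4 : du a ∣ (dd x).natAbs := Int.natCast_dvd.1 hf2
    exact_mod_cast Nat.Coprime.mul_dvd_of_dvd_of_dvd
      (Nat.Coprime.coprime_mul_right_right cu).symm h3 h4
  · show ((es a * dv a * l : ℕ) : ℤ) ∣ T1.NG.qf _ _ _ 0 1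
    have e5 : T1.NG.qf (Md x : ℤ) ((dd x).natAbs : ℤ) ((ee x).natAbs : ℤ) 0 1 =
        ((ee x).natAbs : ℤ) := by
      simp only [T1.NG.qf]; ring
    rw [e5]
    have h3 : es a ∣ (ee x).natAbs := by
      refine dvd_of_sqf q1.of_mul_right fun q hq hqd => ?_
      exact Int.natCast_dvd.1 ((hf4 q (q2 q hq (hqd.mul_left _))).2.1.2 hqd)
    have h4 : dv a ∣ (ee x).natAbs := Int.natCast_dvd.1 hf3
    have h5 : l ∣ (ee x).natAbs := by
      have h6 : l ∣ (ee x).natAbs * m1 a := by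
        rw [← e2]; exact hlQ.mul_right _
      have h7 : Nat.Coprime l (m1 a) := Nat.Coprime.coprime_dvd_right
        (by unfold ds; exact ((Dvd.intro_left _ rfl).mul_right _).mul_right _) cl
      exact h7.dvd_of_dvd_mul_right h6
    have c1 : Nat.Coprime (es a) (dv a) := (Nat.Coprime.coprime_mul_left_right cv).symm
    have c2 : Nat.Coprime (es a * dv a) l :=
      Nat.Coprime.mul_left (Nat.Coprime.coprime_mul_left_right cl).symm clv.symm
    exact_mod_cast Nat.Coprime.mul_dvd_of_dvd_of_dvd c2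
      (Nat.Coprime.mul_dvd_of_dvd_of_dvd c1 h3 h4) h5
  · show ((X : ℕ) : ℤ) ∣ T1.NG.qf _ _ _ ((m2 a : ℤ) * D) (-((g1 a * m1 a * du a : ℕ) : ℤ))
    have e6 := (e4 ((D : ℤ), X)).1
    have e5 : T1.NG.qf (Md x : ℤ) ((dd x).natAbs : ℤ) ((ee x).natAbs : ℤ) ((m2 a : ℤ) * D)
        (-((g1 a * m1 a * du a : ℕ) : ℤ)) = qf x ((m2 a : ℤ) * D)
          (-((g1 a * m1 a * du a : ℕ) : ℤ)) := by
      simp only [T1.NG.qf, qf]
      rw [← hd, ← he, ← hm]
    rw [e5, ← e6]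
    exact hF.mul_left _

/-- **the number of `x`** -/
theorem cnt_Cx (hE : TG1.NG.CNT) : ∃ K : ℝ, 0 < K ∧
    ∀ (p : Prm) (N : ℕ) (a : Dt) (D X l : ℕ),
    1 ≤ N → 1 < zz p N → 1 ≤ p.k → 1 ≤ p.r → a ∈ DA p N → St p N a D X l →
    (∀ x ∈ Gam N 1 3, fits p N a x → H1 p N a x) →
    (((Gam N 1 3).filter (fun x => Cx p N a D X l x)).card : ℝ) ≤
      K * N * (4 ^ (T1.NG.PS (m3 a X l)).card /
        (((ds a * du a : ℕ) : ℝ) * ((es a * dv a * l : ℕ) : ℝ) * (X : ℝ))) +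
      K * (Eqd.Loc.md (T1.NG.PS (m3 a X l)) : ℝ) ^ 12 * (N * (N : ℝ) ^ (-(1 / 20) : ℝ)) := by
  obtain ⟨K, hK, hcnt⟩ := hE 1 4 one_pos (by norm_num)
  obtain ⟨C, -, hC⟩ := specAUT
  refine ⟨3 * (C + 1) * K, by positivity, fun p N a D X l hN hz hk hr ha hs h1 => ?_⟩
  have hNR : (1 : ℝ) ≤ N := by exact_mod_cast hN
  set T : Finset VV := (Gam N 1 3).filter (fun x => Cx p N a D X l x) with hT
  have hTG : ∀ x ∈ T, x ∈ Gam N 1 3 := fun x hx => (mem_filter.1 hx).1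
  set S : Finset (ℕ × ℕ) := T.image (fun x => (Md x, (dd x).natAbs)) with hS
  have h4 := card_le_aut hC T hTG
  rw [← hS] at h4
  have hprop : ∀ y ∈ S, N < y.1 ∧ y.1 ≤ 2 * N ∧ y.1 < y.2 ∧ y.2 ≤ 3 * y.1 ∧ aa < y.1 ^ 2 ∧
      y.2 ∣ vl y.1 ∧
      ∀ i, (m3 a X l i : ℤ) ∣ T1.NG.qf y.1 y.2 (vl y.1 / y.2 : ℕ) (s3 a D i) (t3 a i) := by
    intro y hy
    obtain ⟨x, hx, rfl⟩ := mem_image.1 hy
    have hx' := (mem_filter.1 hx)
    obtain ⟨hc, hm, hM1, hM2, hd, he, hd1, hd2, hde⟩ := gam_facts hx'.1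
    exact ⟨hM1, hM2, hd1, hd2, hc.2, Dvd.intro _ hde,
      conds hz hk hr ha (h1 x hx'.1 hx'.2.2.1) hs hx'.2⟩
  have hpts := pts hz hk hr ha hs
  have hmul : ((m3 a X l 0 : ℕ) : ℝ) * (m3 a X l 1 : ℕ) * (m3 a X l 2 : ℕ) =
      ((ds a * du a : ℕ) : ℝ) * ((es a * dv a * l : ℕ) : ℝ) * (X : ℝ) := rfl
  -- one dyadic part
  have hpart : ∀ (j : ℕ) (S' : Finset (ℕ × ℕ)), 1 ≤ j → j ≤ 4 → S' ⊆ S →
      (∀ y ∈ S', j * N ≤ y.2 ∧ y.2 ≤ 2 * (j * N)) → (S'.card : ℝ) ≤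
      K * N * (4 ^ (T1.NG.PS (m3 a X l)).card /
        (((ds a * du a : ℕ) : ℝ) * ((es a * dv a * l : ℕ) : ℝ) * (X : ℝ))) +
      K * (Eqd.Loc.md (T1.NG.PS (m3 a X l)) : ℝ) ^ 12 * (N * (N : ℝ) ^ (-(1 / 20) : ℝ)) := by
    intro j S' hj1 hj4 hsub hS'
    have hj1' : (1 : ℝ) ≤ j := by exact_mod_cast hj1
    have hj4' : (j : ℝ) ≤ 4 := by exact_mod_cast hj4
    have hjN : (N : ℝ) ≤ j * N := le_mul_of_one_le_left (by linarith) hj1'
    have := hcnt N (j * N) hNR (by linarith) (mul_le_mul_of_nonneg_right hj4' (by linarith))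
      (m3 a X l) (s3 a D) (t3 a) 1 hpts one_pos S' (fun y hy => by
        obtain ⟨a1, a2, a3, a4, a0, a5, a6⟩ := hprop y (hsub hy)
        obtain ⟨b1, b2⟩ := hS' y hy
        refine ⟨?_, ?_, ?_, ?_, a0, a5, a6⟩
        · rw [one_mul]; exact_mod_cast a1
        · have : ((y.1 : ℕ) : ℝ) ≤ ((2 * N : ℕ) : ℝ) := by exact_mod_cast a2
          push_cast at this; linarith
        · exact_mod_cast b1
        · exact_mod_cast b2)
    rw [hmul] at this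
    refine this.trans ?_
    have h5 : ((j : ℝ) * (N : ℝ)) ^ (-(1 / 20) : ℝ) ≤ (N : ℝ) ^ (-(1 / 20) : ℝ) :=
      Real.rpow_le_rpow_of_nonpos (by linarith) hjN (by norm_num)
    have h6 : (0 : ℝ) ≤ K * (Eqd.Loc.md (T1.NG.PS (m3 a X l)) : ℝ) ^ 12 :=
      mul_nonneg hK.le (pow_nonneg (Nat.cast_nonneg _) 12)
    have h7 : (0 : ℝ) ≤ N := by linarith
    simp only [Nat.cast_one, mul_one]
    exact add_le_add le_rfl (mul_le_mul_of_nonneg_left (mul_le_mul_of_nonneg_left h5 h7) h6)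
  have hA := hpart 1 (S.filter (fun y => y.2 ≤ 2 * N)) le_rfl (by norm_num) (filter_subset _ _)
    (fun y hy => by
      obtain ⟨hyS, hy2⟩ := mem_filter.1 hy
      obtain ⟨a1, a2, a3, a4, a0, a5, a6⟩ := hprop y hyS
      omega)
  have hB := hpart 2 ((S.filter (fun y => ¬ y.2 ≤ 2 * N)).filter (fun y => y.2 ≤ 4 * N))
    (by norm_num) (by norm_num) ((filter_subset _ _).trans (filter_subset _ _))
    (fun y hy => by
      obtain ⟨hy', hy3⟩ := mem_filter.1 hy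
      obtain ⟨hyS, hy2⟩ := mem_filter.1 hy'
      omega)
  have hB' := hpart 4 ((S.filter (fun y => ¬ y.2 ≤ 2 * N)).filter (fun y => ¬ y.2 ≤ 4 * N))
    (by norm_num) (by norm_num) ((filter_subset _ _).trans (filter_subset _ _))
    (fun y hy => by
      obtain ⟨hy', hy3⟩ := mem_filter.1 hy
      obtain ⟨hyS, hy2⟩ := mem_filter.1 hy'
      obtain ⟨a1, a2, a3, a4, a0, a5, a6⟩ := hprop y hyS
      omega)
  have hsum : (S.card : ℝ) = ((S.filter (fun y => y.2 ≤ 2 * N)).card : ℝ) +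
      ((S.filter (fun y => ¬ y.2 ≤ 2 * N)).card : ℝ) := by
    exact_mod_cast (Finset.card_filter_add_card_filter_not (s := S) (fun y => y.2 ≤ 2 * N)).symm
  have hsum' : ((S.filter (fun y => ¬ y.2 ≤ 2 * N)).card : ℝ) =
      (((S.filter (fun y => ¬ y.2 ≤ 2 * N)).filter (fun y => y.2 ≤ 4 * N)).card : ℝ) +
      (((S.filter (fun y => ¬ y.2 ≤ 2 * N)).filter (fun y => ¬ y.2 ≤ 4 * N)).card : ℝ) := by
    exact_mod_cast (Finset.card_filter_add_card_filter_not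
      (s := S.filter (fun y => ¬ y.2 ≤ 2 * N)) (fun y => y.2 ≤ 4 * N)).symm
  have h4' : (T.card : ℝ) ≤ C * (S.card : ℝ) := by exact_mod_cast h4
  set tot : ℝ := K * N * (4 ^ (T1.NG.PS (m3 a X l)).card /
        (((ds a * du a : ℕ) : ℝ) * ((es a * dv a * l : ℕ) : ℝ) * (X : ℝ))) +
      K * (Eqd.Loc.md (T1.NG.PS (m3 a X l)) : ℝ) ^ 12 * (N * (N : ℝ) ^ (-(1 / 20) : ℝ)) with htot
  have htot0 : 0 ≤ tot := add_nonneg
    (mul_nonneg (mul_nonneg hK.le (by linarith)) (div_nonneg (pow_nonneg (by norm_num) _)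
      (mul_nonneg (mul_nonneg (Nat.cast_nonneg _) (Nat.cast_nonneg _)) (Nat.cast_nonneg _))))
    (mul_nonneg (mul_nonneg hK.le (pow_nonneg (Nat.cast_nonneg _) 12))
      (mul_nonneg (by linarith) (Real.rpow_nonneg (by linarith) _)))
  have hSc : (S.card : ℝ) ≤ 3 * tot := by linarith
  calc (T.card : ℝ) ≤ C * (S.card : ℝ) := h4'
    _ ≤ (C + 1) * (3 * tot) := by
        refine mul_le_mul (by linarith) hSc (Nat.cast_nonneg _)
          (add_nonneg (Nat.cast_nonneg _) zero_le_one)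
    _ = _ := by rw [htot]; ring

/-! ## Sums -/

/-- the harmonic sum -/
noncomputable def Hs (R : ℕ) : ℝ := ∑ n ∈ Icc 1 R, 1 / (n : ℝ)

omit [Aa] [Frm] in
lemma Hs_nonneg (R : ℕ) : 0 ≤ Hs R := Finset.sum_nonneg fun _ _ => by positivity

omit [Aa] [Frm] in
lemma Hs_le (R : ℕ) : Hs R ≤ 1 + Real.log R := by
  have h := harmonic_le_one_add_log R
  have e : ((harmonic R : ℚ) : ℝ) = Hs R := by
    unfold Hs
    rw [harmonic_eq_sum_Icc]
    push_cast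
    exact Finset.sum_congr rfl fun n _ => by rw [one_div]
  rwa [e] at h

/-- the box of the data -/
def IA (R : ℕ) : Finset Dt :=
  (Icc 1 R ×ˢ Icc 1 R ×ˢ Icc 1 R) ×ˢ (Icc 1 R ×ˢ Icc 1 R ×ˢ Icc 1 R) ×ˢ Icc 1 R ×ˢ Icc 1 R

omit [Aa] [Frm] in
lemma card_IA (R : ℕ) : (IA R).card = R ^ 8 := by
  unfold IA
  simp only [card_product, Nat.card_Icc, Nat.add_sub_cancel]
  ring

omit [Aa] [Frm] in
lemma sum_IA (R : ℕ) : ∑ a ∈ IA R, 1 / (((ds a * du a : ℕ) : ℝ) * ((es a * dv a : ℕ) : ℝ)) =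
    Hs R ^ 8 := by
  have e : ∀ a : Dt, 1 / (((ds a * du a : ℕ) : ℝ) * ((es a * dv a : ℕ) : ℝ)) =
      ((1 / (a.1.1 : ℝ)) * ((1 / (a.1.2.1 : ℝ)) * (1 / (a.1.2.2 : ℝ)))) *
        (((1 / (a.2.1.1 : ℝ)) * ((1 / (a.2.1.2.1 : ℝ)) * (1 / (a.2.1.2.2 : ℝ)))) *
          ((1 / (a.2.2.1 : ℝ)) * (1 / (a.2.2.2 : ℝ)))) := by
    intro a
    simp only [ds, es, du, dv, g1, m1, n1, g2, m2, n2]
    push_cast
    simp only [one_div, mul_inv]
    ring
  rw [Finset.sum_congr rfl fun a _ => e a]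
  unfold IA Hs
  simp only [Finset.sum_product, ← Finset.mul_sum, ← Finset.sum_mul]
  ring

omit [Aa] [Frm] in
/-- the sum over `X` -/
lemma sum_X (G D R : ℕ) (hD : 0 < D) (hG : 0 < G) :
    ∑ X ∈ (range (R + 1)).filter (fun X => G < X ∧ X ≤ 7 * G ∧ (D : ℤ) ∣ (X : ℤ) - G),
      1 / (X : ℝ) ≤ 6 / D := by
  have hGR : (0 : ℝ) < G := by exact_mod_cast hG
  have hDR : (0 : ℝ) < D := by exact_mod_cast hD
  have hcard : ((range (R + 1)).filter
      (fun X => G < X ∧ X ≤ 7 * G ∧ (D : ℤ) ∣ (X : ℤ) - G)).card ≤ 6 * G / D := by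
    have : ((range (R + 1)).filter (fun X => G < X ∧ X ≤ 7 * G ∧ (D : ℤ) ∣ (X : ℤ) - G)) ⊆
        (Icc 1 (6 * G / D)).image (fun j => G + D * j) := by
      intro X hX
      obtain ⟨-, h1, h2, h3⟩ := mem_filter.1 hX
      have h4 : D ∣ X - G := by
        have h5 : ((X - G : ℕ) : ℤ) = (X : ℤ) - G := by push_cast [h1.le]; ring
        rw [← h5] at h3
        exact_mod_cast h3
      obtain ⟨j, hj⟩ := h4
      refine mem_image.2 ⟨j, mem_Icc.2 ⟨?_, ?_⟩, ?_⟩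
      · rcases Nat.eq_zero_or_pos j with h0 | h0
        · rw [h0, mul_zero] at hj; omega
        · exact h0
      · rw [Nat.le_div_iff_mul_le hD, mul_comm, ← hj]
        omega
      · rw [← hj]; omega
    refine (card_le_card this).trans (card_image_le.trans ?_)
    simp
  calc _ ≤ ∑ X ∈ (range (R + 1)).filter (fun X => G < X ∧ X ≤ 7 * G ∧ (D : ℤ) ∣ (X : ℤ) - G),
        1 / (G : ℝ) := by
        refine Finset.sum_le_sum fun X hX => ?_
        obtain ⟨-, h1, -, -⟩ := mem_filter.1 hX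
        have : (G : ℝ) ≤ X := by exact_mod_cast h1.le
        exact one_div_le_one_div_of_le hGR this
    _ = ((range (R + 1)).filter
      (fun X => G < X ∧ X ≤ 7 * G ∧ (D : ℤ) ∣ (X : ℤ) - G)).card * (1 / (G : ℝ)) := by
        rw [sum_const, nsmul_eq_mul]
    _ ≤ (6 * G / D : ℝ) * (1 / (G : ℝ)) := by
        have h1 : (((range (R + 1)).filter
          (fun X => G < X ∧ X ≤ 7 * G ∧ (D : ℤ) ∣ (X : ℤ) - G)).card : ℝ) ≤
            ((6 * G / D : ℕ) : ℝ) := by exact_mod_cast hcard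
        have h2 : ((6 * G / D : ℕ) : ℝ) ≤ ((6 * G : ℕ) : ℝ) / D := Nat.cast_div_le
        push_cast at h2
        gcongr
        linarith
    _ = 6 / D := by field_simp

omit [Aa] [Frm] in
/-- the sum over `D` -/
lemma sum_D (l R : ℕ) (hl : 0 < l) :
    ∑ D ∈ (range (R + 1)).filter (fun D => 0 < D ∧ l ∣ D), 1 / (D : ℝ) ≤ 1 / l * Hs R := by
  have h : ((range (R + 1)).filter (fun D => 0 < D ∧ l ∣ D)) ⊆ (Icc 1 R).image (fun j => l * j) := by
    intro D hD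
    obtain ⟨h0, h1, j, hj⟩ := mem_filter.1 hD
    rw [mem_range] at h0
    refine mem_image.2 ⟨j, mem_Icc.2 ⟨?_, ?_⟩, hj.symm⟩
    · rcases Nat.eq_zero_or_pos j with h2 | h2
      · rw [h2, mul_zero] at hj; omega
      · exact h2
    · have : j ≤ l * j := Nat.le_mul_of_pos_left _ hl
      omega
  refine (Finset.sum_le_sum_of_subset_of_nonneg h fun _ _ _ => by positivity).trans ?_
  rw [Finset.sum_image (fun i _ j _ hij => Nat.eq_of_mul_eq_mul_left hl hij)]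
  unfold Hs
  rw [Finset.mul_sum]
  refine le_of_eq (Finset.sum_congr rfl fun j _ => ?_)
  push_cast
  rw [one_div_mul_one_div]

omit [Aa] [Frm] in
/-- the sum over `l` -/
lemma sum_l (z : ℝ) (hz : 2 ≤ z) (R : ℕ) :
    ∑ l ∈ (range (R + 1)).filter (fun l : ℕ => z ≤ (l : ℝ)), 1 / (l : ℝ) ^ 2 ≤ 2 / z := by
  set n := ⌈z⌉₊ with hn
  have h1 : 2 ≤ n := by
    have : (2 : ℝ) ≤ n := hz.trans (Nat.le_ceil z)
    exact_mod_cast this
  have hsub : (range (R + 1)).filter (fun l : ℕ => z ≤ (l : ℝ)) ⊆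
      (Ioc (n - 1) (n + R) : Finset ℕ) := by
    intro l hl
    obtain ⟨h2, h3⟩ := mem_filter.1 hl
    have h4 : n ≤ l := Nat.ceil_le.2 h3
    rw [mem_range] at h2
    rw [mem_Ioc]
    omega
  refine (Finset.sum_le_sum_of_subset_of_nonneg hsub fun _ _ _ => by positivity).trans ?_
  have h5 : ∑ l ∈ (Ioc (n - 1) (n + R) : Finset ℕ), 1 / (l : ℝ) ^ 2 ≤ 1 / ((n - 1 : ℕ) : ℝ) := by
    have := sum_Ioc_inv_sq_le_sub (α := ℝ) (k := n - 1) (n := n + R) (by omega) (by omega)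
    have h6 : (0 : ℝ) ≤ ((n + R : ℕ) : ℝ)⁻¹ := by positivity
    simp only [one_div]
    linarith
  refine h5.trans ?_
  have h7 : z ≤ n := Nat.le_ceil z
  have h8 : ((n - 1 : ℕ) : ℝ) = (n : ℝ) - 1 := by
    rw [Nat.cast_sub (by omega)]; simp
  rw [h8, div_le_div_iff₀ (by linarith) (by linarith)]
  linarith

/-! ## Sizes -/

omit [Aa] [Frm] in
lemma expo (K r k : ℕ) : 2 * K + r * k + 10 * r ^ 2 * k + 1 ≤
    1000 * (K + 1) * (r + 1) ^ 2 * (k + 1) := by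
  have h1 : r ^ 2 * k + r * k + 1 ≤ (r + 1) ^ 2 * (k + 1) := by
    have : (r + 1) ^ 2 * (k + 1) = r ^ 2 * k + r * k + 1 + (r * k + k + r ^ 2 + 2 * r) := by ring
    rw [this]
    exact Nat.le_add_right _ _
  set A := (r + 1) ^ 2 * (k + 1) with hA
  have h2 : K ≤ K * A := Nat.le_mul_of_pos_right _ (by omega)
  have h3 : 1000 * (K + 1) * (r + 1) ^ 2 * (k + 1) = 1000 * (K * A) + 1000 * A := by
    rw [hA]; ring
  rw [h3]
  have h4 : 0 ≤ r * k := Nat.zero_le _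
  have h5 : 0 ≤ r ^ 2 * k := Nat.zero_le _
  have h6 : 0 ≤ K * A := Nat.zero_le _
  have h7 : 0 ≤ A := Nat.zero_le _
  linarith

omit [Frm] in
/-- all data are small -/
theorem sizes {p : Prm} {N : ℕ} (hz : 7 ≤ zz p N) (hk : 1 ≤ p.k) (hr : 1 ≤ p.r) {a : Dt}
    {D X l : ℕ} (ha : a ∈ DA p N) (h : St p N a D X l) :
    (D : ℝ) ≤ ML p N ∧ (X : ℝ) ≤ ML p N ∧ (l : ℝ) ≤ ML p N ∧
      ((ds a * du a : ℕ) : ℝ) ≤ ML p N ∧ ((es a * dv a * l : ℕ) : ℝ) ≤ ML p N := by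
  have hz1 : 1 < zz p N := by linarith
  obtain ⟨-, -, b1, b2, u1, -, -, u4, v1, -, -, -, v5⟩ := dat hz1 hk hr ha
  obtain ⟨pg1, pm1, pn1, pg2, pm2, pn2, pu, pv⟩ := pos_of_mem ha
  set z := zz p N with hzd
  have hz0 : 0 < z := by linarith
  set e0 : ℕ := 2 * p.K + p.r * p.k + 10 * p.r ^ 2 * p.k + 1 with he0
  have hle : e0 ≤ 1000 * (p.K + 1) * (p.r + 1) ^ 2 * (p.k + 1) := expo p.K p.r p.k
  have hbig : ∀ n : ℕ, n ≤ e0 → z ^ n ≤ ML p N := by
    intro n hn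
    unfold ML
    exact pow_le_pow_right₀ hz1.le (hn.trans hle)
  have hg1m1 : g1 a * m1 a ≤ ds a := by unfold ds; exact Nat.le_mul_of_pos_right _ pn1
  have hg1 : g1 a ≤ ds a := (Nat.le_mul_of_pos_right _ pm1).trans hg1m1
  have hg2 : g2 a ≤ es a := by
    unfold es
    exact (Nat.le_mul_of_pos_right _ pm2).trans (Nat.le_mul_of_pos_right _ pn2)
  have c1 : ((ds a * du a : ℕ) : ℝ) ≤ z ^ (p.K + p.r * p.k) := by
    push_cast
    rw [pow_add]
    exact mul_le_mul b1 u4 (by positivity) (by positivity)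
  have c2 : ((g1 a * m1 a * du a : ℕ) : ℝ) ≤ z ^ (p.K + p.r * p.k) := by
    refine le_trans ?_ c1
    exact_mod_cast Nat.mul_le_mul_right _ hg1m1
  have c3 : (D : ℝ) ≤ z ^ (p.K + p.r * p.k + 1) := by
    have h1 : (D : ℝ) ≤ 3 * ((g1 a * m1 a * du a : ℕ) : ℝ) := by exact_mod_cast h.D_lt.le
    rw [pow_succ]
    have h2 : (0 : ℝ) ≤ ((g1 a * m1 a * du a : ℕ) : ℝ) := by positivity
    nlinarith [pow_pos hz0 (p.K + p.r * p.k)]
  have c4 : ((dG a : ℕ) : ℝ) ≤ z ^ (2 * p.K + p.r * p.k + 10 * p.r ^ 2 * p.k) := by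
    have h1 : dG a ≤ ds a * es a * du a * dv a := by
      unfold dG
      exact Nat.mul_le_mul_right _ (Nat.mul_le_mul_right _ (Nat.mul_le_mul hg1 hg2))
    have h2 : ((dG a : ℕ) : ℝ) ≤ (ds a : ℝ) * es a * du a * dv a := by exact_mod_cast h1
    have h3 : z ^ (2 * p.K + p.r * p.k + 10 * p.r ^ 2 * p.k) =
        z ^ p.K * z ^ p.K * z ^ (p.r * p.k) * z ^ (10 * p.r ^ 2 * p.k) := by
      rw [← pow_add, ← pow_add, ← pow_add]
      congr 1
      ring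
    rw [h3]
    unfold Y2 at u4
    unfold Y4 at v5
    have h4 : (ds a : ℝ) * es a ≤ z ^ p.K * z ^ p.K :=
      mul_le_mul b1 b2 (Nat.cast_nonneg _) (by positivity)
    have h5 : (ds a : ℝ) * es a * du a ≤ z ^ p.K * z ^ p.K * z ^ (p.r * p.k) :=
      mul_le_mul h4 u4 (Nat.cast_nonneg _) (by positivity)
    exact h2.trans (mul_le_mul h5 v5 (Nat.cast_nonneg _) (by positivity))
  have c5 : (X : ℝ) ≤ z ^ e0 := by
    have h1 : (X : ℝ) ≤ 7 * ((dG a : ℕ) : ℝ) := by exact_mod_cast h.X_le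
    rw [he0, pow_succ]
    nlinarith [pow_pos hz0 (2 * p.K + p.r * p.k + 10 * p.r ^ 2 * p.k)]
  have c6 : (l : ℝ) ≤ (D : ℝ) := by exact_mod_cast Nat.le_of_dvd h.D_pos h.l_dvd
  have c7 : ((es a * dv a * l : ℕ) : ℝ) ≤ z ^ e0 := by
    have h3 : z ^ e0 = z ^ p.K * z ^ (10 * p.r ^ 2 * p.k) * z ^ (p.K + p.r * p.k + 1) := by
      rw [← pow_add, ← pow_add]
      congr 1
      rw [he0]; ring
    rw [h3]
    push_cast
    unfold Y4 at v5
    exact mul_le_mul (mul_le_mul b2 v5 (Nat.cast_nonneg _) (by positivity)) (c6.trans c3)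
      (Nat.cast_nonneg _) (by positivity)
  have hq0 : 0 ≤ 10 * p.r ^ 2 * p.k := Nat.zero_le _
  have c3' := c3.trans (hbig _ (by rw [he0]; linarith))
  exact ⟨c3', c5.trans (hbig _ le_rfl), c6.trans c3',
    c1.trans (hbig _ (by rw [he0]; linarith)),
    c7.trans (hbig _ le_rfl)⟩

omit [Frm] in
/-- the data are in the box -/
theorem DA_sub {p : Prm} {N : ℕ} (hz : 7 ≤ zz p N) (hk : 1 ≤ p.k) (hr : 1 ≤ p.r) :
    DA p N ⊆ IA ⌈ML p N⌉₊ := by
  intro a ha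
  have hz1 : 1 < zz p N := by linarith
  obtain ⟨pg1, pm1, pn1, pg2, pm2, pn2, pu, pv⟩ := pos_of_mem ha
  obtain ⟨-, -, b1, b2, u1, -, -, u4, v1, -, -, -, v5⟩ := dat hz1 hk hr ha
  have ha' := ha
  unfold DA at ha'
  have hm := (mem_filter.1 ha').1
  simp only [mem_product, mem_range] at hm
  obtain ⟨⟨r1, r2, r3⟩, ⟨r4, r5, r6⟩, -, -⟩ := hm
  have hu : du a ≤ ⌈ML p N⌉₊ := by
    have : (du a : ℝ) ≤ ML p N := u4.trans (by
      unfold Y2 ML
      refine pow_le_pow_right₀ hz1.le (le_trans ?_ (expo p.K p.r p.k))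
      have hq0 : 0 ≤ 10 * p.r ^ 2 * p.k := Nat.zero_le _
      linarith)
    exact_mod_cast this.trans (Nat.le_ceil _)
  have hv : dv a ≤ ⌈ML p N⌉₊ := by
    have : (dv a : ℝ) ≤ ML p N := v5.trans (by
      unfold Y4 ML
      refine pow_le_pow_right₀ hz1.le (le_trans ?_ (expo p.K p.r p.k))
      have hq0 : 0 ≤ p.r * p.k := Nat.zero_le _
      linarith)
    exact_mod_cast this.trans (Nat.le_ceil _)
  simp only [IA, mem_product, mem_Icc]
  simp only [g1, m1, n1, g2, m2, n2, du, dv] at *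
  refine ⟨⟨⟨pg1, by omega⟩, ⟨pm1, by omega⟩, pn1, by omega⟩, ⟨⟨pg2, by omega⟩, ⟨pm2, by omega⟩,
    pn2, by omega⟩, ⟨pu, hu⟩, pv, hv⟩

/-! ## The weight -/

omit [Aa] [Frm] in
lemma W0_pos (p : Prm) : 0 < W0 p := by
  unfold W0
  exact pow_pos (primorial_pos _) _

omit [Frm] in
lemma tilt_le_one (p : Prm) (N : ℕ) (r : Rl) : tilt p N (1 / 6) (1 / 6) r ≤ 1 := by
  unfold tilt
  refine Finset.prod_le_one (fun l _ => ?_) (fun l _ => ?_)
  · split_ifs <;> norm_num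
  · split_ifs <;> norm_num

omit [Frm] in
lemma tilt_nonneg (p : Prm) (N : ℕ) (r : Rl) : 0 ≤ tilt p N (1 / 6) (1 / 6) r := by
  unfold tilt
  refine Finset.prod_nonneg fun l _ => ?_
  split_ifs <;> norm_num

omit [Frm] in
theorem cE_pos : 0 < cE := by
  unfold cE
  have := (TA.specLLX az az_ne Bs.nsq_chz).1
  linarith

omit [Frm] in
/-- a bound for the weight -/
theorem wt_le {p : Prm} {N : ℕ} (hSu : 1 ≤ Su p N) (hSv : 1 ≤ Sv p N) {r : Rl}
    (hrp : 1 / rp (rD r).natAbs ≤ Real.exp (1 * S0 p N))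
    (hX : (rX r : ℝ) ≤ 7 * rG r) (hG : 0 < rG r) :
    wt p N (1 / 6) r ≤ 7 / cE * (W0 p : ℝ) ^ 2 * Real.exp (7 / 2 * S0 p N) := by
  have hW : (0 : ℝ) < W0 p := by exact_mod_cast W0_pos p
  have hG' : (0 : ℝ) < rG r := by exact_mod_cast hG
  have hkp : 0 < kp p N (5 / 2) := by unfold kp; positivity
  have hcE := cE_pos
  have hk : cE * kp p N (5 / 2) ≤ k0 p N := by
    unfold k0
    have h2 : cE * kp p N (5 / 2) * 1 ≤ cE * kp p N (5 / 2) * Su p N :=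
      mul_le_mul_of_nonneg_left hSu (by positivity)
    have h3 : cE * kp p N (5 / 2) * 1 * 1 ≤ cE * kp p N (5 / 2) * Su p N * Sv p N := by
      refine mul_le_mul h2 hSv zero_le_one ?_
      have : 0 ≤ Su p N := by linarith
      positivity
    linarith
  have hk' : 1 / k0 p N ≤ 1 / cE * ((W0 p : ℝ) ^ 2 * Real.exp (5 / 2 * S0 p N)) := by
    refine (one_div_le_one_div_of_le (by positivity) hk).trans (le_of_eq ?_)
    unfold kp
    rw [Real.exp_neg]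
    have := Real.exp_pos (5 / 2 * S0 p N)
    field_simp
  have hXG : (rX r : ℝ) / rG r ≤ 7 := by
    rw [div_le_iff₀ hG']; exact hX
  have hrp0 : 0 < rp (rD r).natAbs := A3.rp_pos _
  have hk0 : 0 < k0 p N := lt_of_lt_of_le (by positivity) hk
  have e : wt p N (1 / 6) r = (1 / 3 : ℝ) ^ om p N (vl (rM r)) * (1 / k0 p N *
      ((rX r : ℝ) / rG r * (1 / rp (rD r).natAbs))) *
        ((1 / 6 : ℝ) ^ om p N (rX r) * tilt p N (1 / 6) (1 / 6) r) := by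
    unfold wt
    ring
  have t0 := tilt_nonneg p N r
  have t1 := tilt_le_one p N r
  have p1 : (1 / 3 : ℝ) ^ om p N (vl (rM r)) ≤ 1 := pow_le_one₀ (by norm_num) (by norm_num)
  have p2 : (1 / 6 : ℝ) ^ om p N (rX r) ≤ 1 := pow_le_one₀ (by norm_num) (by norm_num)
  rw [e]
  calc _ ≤ 1 * (1 / cE * ((W0 p : ℝ) ^ 2 * Real.exp (5 / 2 * S0 p N)) *
        (7 * Real.exp (1 * S0 p N))) * (1 * 1) := by
        gcongr
    _ = 7 / cE * (W0 p : ℝ) ^ 2 * (Real.exp (5 / 2 * S0 p N) * Real.exp (1 * S0 p N)) := by ring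
    _ = _ := by rw [← Real.exp_add]; congr 2; ring

/-! ## The box of the `(l, D, X)` -/

/-- the box for `(l, D, X)` -/
def BB (R : ℕ) : Finset (ℕ × ℕ × ℕ) := range (R + 1) ×ˢ range (R + 1) ×ˢ range (R + 1)

omit [Aa] [Frm] in
lemma card_BB (R : ℕ) : (BB R).card = (R + 1) ^ 3 := by
  unfold BB; simp only [card_product, card_range]; ring

/-- the conditions of the sum over `(l, D, X)` -/
def cB (z : ℝ) (G l D X : ℕ) : Prop :=
  (z ≤ (l : ℝ) ∧ 0 < D ∧ l ∣ D) ∧ (G < X ∧ X ≤ 7 * G ∧ (D : ℤ) ∣ (X : ℤ) - G)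

omit [Aa] [Frm] in
/-- the sum over `(l, D, X)` -/
lemma sum_BB (G R : ℕ) (hG : 0 < G) (z : ℝ) (hz : 2 ≤ z) :
    ∑ b ∈ BB R, (if cB z G b.1 b.2.1 b.2.2 then 1 / (b.1 : ℝ) * (1 / (b.2.2 : ℝ)) else 0) ≤
      12 * Hs R / z := by
  unfold BB
  simp only [Finset.sum_product]
  have h1 : ∀ l D : ℕ, ∑ X ∈ range (R + 1), (if cB z G l D X then
      1 / (l : ℝ) * (1 / (X : ℝ)) else 0) ≤
      if z ≤ (l : ℝ) ∧ 0 < D ∧ l ∣ D then 6 / (l : ℝ) * (1 / D) else 0 := by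
    intro l D
    split_ifs with hc
    · have e : ∑ X ∈ range (R + 1), (if cB z G l D X then 1 / (l : ℝ) * (1 / (X : ℝ)) else 0) =
          1 / (l : ℝ) * ∑ X ∈ (range (R + 1)).filter
            (fun X => G < X ∧ X ≤ 7 * G ∧ (D : ℤ) ∣ (X : ℤ) - G), 1 / (X : ℝ) := by
        rw [Finset.mul_sum, Finset.sum_filter]
        refine Finset.sum_congr rfl fun X _ => ?_
        by_cases h : G < X ∧ X ≤ 7 * G ∧ (D : ℤ) ∣ (X : ℤ) - G
        · rw [if_pos ⟨hc, h⟩, if_pos h]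
        · rw [if_neg (fun h' => h h'.2), if_neg h]
      rw [e]
      calc _ ≤ 1 / (l : ℝ) * (6 / D) :=
            mul_le_mul_of_nonneg_left (sum_X G D R hc.2.1 hG) (by positivity)
        _ = _ := by ring
    · refine le_of_eq (Finset.sum_eq_zero fun X _ => if_neg fun h => hc h.1)
  have h2 : ∀ l : ℕ, ∑ D ∈ range (R + 1), (if z ≤ (l : ℝ) ∧ 0 < D ∧ l ∣ D then
      6 / (l : ℝ) * (1 / D) else 0) ≤ if z ≤ (l : ℝ) then 6 * Hs R * (1 / (l : ℝ) ^ 2) else 0 := by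
    intro l
    split_ifs with hc
    · have hl : 0 < l := by
        have : (0 : ℝ) < l := by linarith
        exact_mod_cast this
      have e : ∑ D ∈ range (R + 1), (if z ≤ (l : ℝ) ∧ 0 < D ∧ l ∣ D then
          6 / (l : ℝ) * (1 / D) else 0) =
          6 / (l : ℝ) * ∑ D ∈ (range (R + 1)).filter (fun D => 0 < D ∧ l ∣ D), 1 / (D : ℝ) := by
        rw [Finset.mul_sum, Finset.sum_filter]
        refine Finset.sum_congr rfl fun X _ => ?_
        by_cases h : 0 < X ∧ l ∣ X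
        · rw [if_pos ⟨hc, h⟩, if_pos h]
        · rw [if_neg (fun h' => h h'.2), if_neg h]
      rw [e]
      calc _ ≤ 6 / (l : ℝ) * (1 / l * Hs R) :=
            mul_le_mul_of_nonneg_left (sum_D l R hl) (by positivity)
        _ = _ := by ring
    · refine le_of_eq (Finset.sum_eq_zero fun X _ => if_neg fun h => hc h.1)
  calc _ ≤ ∑ l ∈ range (R + 1), (if z ≤ (l : ℝ) then 6 * Hs R * (1 / (l : ℝ) ^ 2) else 0) :=
        Finset.sum_le_sum fun l _ => (Finset.sum_le_sum fun D _ => h1 l D).trans (h2 l)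
    _ = 6 * Hs R * ∑ l ∈ (range (R + 1)).filter (fun l : ℕ => z ≤ (l : ℝ)), 1 / (l : ℝ) ^ 2 := by
        rw [Finset.mul_sum, Finset.sum_filter]
    _ ≤ 6 * Hs R * (2 / z) :=
        mul_le_mul_of_nonneg_left (sum_l z hz R) (by have := Hs_nonneg R; positivity)
    _ = _ := by ring

/-! ## The sum over the relations over `x` -/

theorem exists_of_mem {p : Prm} {N : ℕ} {a : Dt} {t : ℤ × ℕ} {x : VV} (hx : x ∈ Gam N 1 3)
    (hfit : fits p N a x) (ht : t ∈ TS p N a x) (hev : evD p (rel a t x))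
    (hF : (t.2 : ℤ) ∣ F1 (rel a t x)) : ∃ D l : ℕ, (D : ℤ) = t.1 ∧ Cx p N a D t.2 l x := by
  obtain ⟨t1, X⟩ := t
  have ht' := ht
  unfold TS S1 at ht'
  rw [mem_filter] at ht'
  obtain ⟨-, -, w1, -⟩ := ht'
  dsimp only at w1
  have h0 : 0 < t1 := by
    by_contra h
    rw [not_lt] at h
    have h1 : t1 * (Pd a x : ℤ) ≤ 0 := mul_nonpos_of_nonpos_of_nonneg h (by positivity)
    have h2 : (0 : ℤ) ≤ Md x := by positivity
    linarith
  obtain ⟨D, rfl⟩ := Int.eq_ofNat_of_zero_le h0.le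
  obtain ⟨l, hl, hlE, hlD, hlQ⟩ := hev
  refine ⟨D, l, rfl, hx, hfit, ht, hF, hl, hlE, ?_, hlQ⟩
  have : (l : ℤ) ∣ (D : ℤ) := hlD
  exact_mod_cast this

/-- the inner sum -/
theorem inner_le {p : Prm} {N : ℕ} {Wm : ℝ} (hWm : 0 ≤ Wm) (hE : 2 * aa ≤ p.E) (hz : 7 ≤ zz p N)
    (hk : 1 ≤ p.k) (hr : 1 ≤ p.r) {a : Dt} {x : VV} (hx : x ∈ Gam N 1 3) (ha : a ∈ DA p N)
    (hfit : fits p N a x) (h1 : H1 p N a x)
    (hW : ∀ D X : ℕ, ((D : ℤ), X) ∈ TS p N a x → X ≤ 7 * dG a →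
      wt p N (1 / 6) (rel a ((D : ℤ), X) x) ≤ Wm) :
    ∑ t ∈ (TS p N a x).filter (fun t => evD p (rel a t x)),
        wt p N (1 / 6) (rel a t x) * iX (rel a t x) ≤
      Wm * (((BB ⌈ML p N⌉₊).filter (fun b => Cx p N a b.2.1 b.2.2 b.1 x)).card : ℝ) := by
  set F := (TS p N a x).filter (fun t => evD p (rel a t x)) with hFd
  have key : ∀ t ∈ F, (t.2 : ℤ) ∣ F1 (rel a t x) → ∃ D l : ℕ, (D : ℤ) = t.1 ∧
      Cx p N a D t.2 l x ∧ St p N a D t.2 l := by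
    intro t ht hd
    obtain ⟨h2, h3⟩ := mem_filter.1 ht
    obtain ⟨D, l, h4, h5⟩ := exists_of_mem hx hfit h2 h3 hd
    exact ⟨D, l, h4, h5, st_of hE ha h1 h5⟩
  have hterm : ∀ t ∈ F, wt p N (1 / 6) (rel a t x) * iX (rel a t x) ≤
      if (t.2 : ℤ) ∣ F1 (rel a t x) then Wm else 0 := by
    intro t ht
    unfold iX
    by_cases hd : (t.2 : ℤ) ∣ F1 (rel a t x)
    · have hd' : ((rX (rel a t x) : ℕ) : ℤ) ∣ F1 (rel a t x) := hd
      rw [if_pos hd', if_pos hd, mul_one]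
      obtain ⟨D, l, h4, h5, h6⟩ := key t ht hd
      have h7 : t = ((D : ℤ), t.2) := by rw [h4]
      have h8 := hW D t.2 (h7 ▸ (mem_filter.1 ht).1) h6.X_le
      rw [← h7] at h8
      exact h8
    · have hd' : ¬ ((rX (rel a t x) : ℕ) : ℤ) ∣ F1 (rel a t x) := hd
      rw [if_neg hd', if_neg hd, mul_zero]
  refine (Finset.sum_le_sum hterm).trans ?_
  rw [← Finset.sum_filter, sum_const, nsmul_eq_mul, mul_comm]
  refine mul_le_mul_of_nonneg_left ?_ hWm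
  have hsub : F.filter (fun t => (t.2 : ℤ) ∣ F1 (rel a t x)) ⊆
      ((BB ⌈ML p N⌉₊).filter (fun b => Cx p N a b.2.1 b.2.2 b.1 x)).image
        (fun b => ((b.2.1 : ℤ), b.2.2)) := by
    intro t ht
    obtain ⟨h2, h3⟩ := mem_filter.1 ht
    obtain ⟨D, l, h4, h5, h6⟩ := key t h2 h3
    obtain ⟨s1, s2, s3, -, -⟩ := sizes hz hk hr ha h6
    refine mem_image.2 ⟨(l, D, t.2), mem_filter.2 ⟨?_, h5⟩, by rw [h4]⟩
    unfold BB
    simp only [mem_product, mem_range]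
    have g : ∀ n : ℕ, (n : ℝ) ≤ ML p N → n < ⌈ML p N⌉₊ + 1 := fun n hn =>
      Nat.lt_succ_of_le (by exact_mod_cast hn.trans (Nat.le_ceil _))
    exact ⟨g _ s3, g _ s1, g _ s2⟩
  exact_mod_cast (card_le_card hsub).trans card_image_le

/-! ## The finite estimate -/

omit [Aa] [Frm] in
lemma four_pow_le (n : ℕ) (hn : n ≠ 0) : 4 ^ n.primeFactors.card ≤ n.divisors.card ^ 2 := by
  have h : 2 ^ n.primeFactors.card ≤ n.divisors.card := by
    rw [Nat.card_divisors hn]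
    calc 2 ^ n.primeFactors.card = ∏ _l ∈ n.primeFactors, 2 := by rw [prod_const]
      _ ≤ _ := Finset.prod_le_prod' fun l hl => by
        have h1 := Nat.mem_primeFactors.1 hl
        have := h1.1.factorization_pos_of_dvd hn h1.2.1
        omega
  calc 4 ^ n.primeFactors.card = (2 ^ n.primeFactors.card) ^ 2 := by
        rw [← pow_mul, mul_comm, pow_mul]
        norm_num
    _ ≤ _ := Nat.pow_le_pow_left h 2

omit [Aa] [Frm] in
theorem ML_pos {p : Prm} {N : ℕ} (hz : 0 < zz p N) : 0 < ML p N := by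
  unfold ML
  exact pow_pos hz _

/-- the number of `x` for one `(a, D, X, l)` -/
theorem card_b (hEq : TG1.NG.CNT) : ∃ K : ℝ, 0 < K ∧ ∀ (p : Prm) (N : ℕ) (Λ : ℝ), 0 ≤ Λ →
    2 * aa ≤ p.E → 1 ≤ N → 7 ≤ zz p N → 1 ≤ p.k → 1 ≤ p.r → ∀ (a : Dt), a ∈ DA p N →
    (∀ x ∈ Gam N 1 3, fits p N a x → H1 p N a x) →
    (∀ n : ℕ, 0 < n → (n : ℝ) ≤ ML p N ^ 3 → (4 : ℝ) ^ n.primeFactors.card ≤ Λ) →
    ∀ D X l : ℕ, (((Gam N 1 3).filter (fun x => Cx p N a D X l x)).card : ℝ) ≤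
      K * N * Λ * (1 / (((ds a * du a : ℕ) : ℝ) * ((es a * dv a : ℕ) : ℝ))) *
        (if cB (zz p N) (dG a) l D X then 1 / (l : ℝ) * (1 / (X : ℝ)) else 0) +
      K * (ML p N ^ 3) ^ 12 * (N * (N : ℝ) ^ (-(1 / 20) : ℝ)) := by
  obtain ⟨K, hK, hcnt⟩ := cnt_Cx hEq
  refine ⟨K, hK, fun p N Λ hΛ hE hN hz hk hr a ha h1 hL D X l => ?_⟩
  have hML : 0 < ML p N := ML_pos (by linarith)
  rcases Finset.eq_empty_or_nonempty ((Gam N 1 3).filter (fun x => Cx p N a D X l x)) with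
    he | ⟨x, hx⟩
  · rw [he, card_empty]
    split_ifs <;> · push_cast; positivity
  obtain ⟨hxG, hxC⟩ := mem_filter.1 hx
  have hs : St p N a D X l := st_of hE ha (h1 x hxG hxC.2.1) hxC
  have hcB : cB (zz p N) (dG a) l D X := ⟨⟨hs.l_ge, hs.D_pos, hs.l_dvd⟩, hs.G_lt, hs.X_le, hs.dvd⟩
  rw [if_pos hcB]
  obtain ⟨-, s2, -, s4, s5⟩ := sizes hz hk hr ha hs
  obtain ⟨pg1, pm1, pn1, pg2, pm2, pn2, pu, pv⟩ := pos_of_mem ha
  have pl : 0 < l := hs.l_prime.pos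
  have pX : 0 < X := lt_of_le_of_lt (Nat.zero_le _) hs.G_lt
  set n : ℕ := m3 a X l 0 * m3 a X l 1 * m3 a X l 2 with hn
  have hn' : n = ds a * du a * (es a * dv a * l) * X := rfl
  have hn0 : 0 < n := by
    rw [hn']; unfold ds es; positivity
  have hnle : (n : ℝ) ≤ ML p N ^ 3 := by
    rw [hn']
    push_cast at s4 s5 ⊢
    calc ((ds a : ℝ) * du a) * ((es a : ℝ) * dv a * l) * X ≤ ML p N * ML p N * ML p N :=
          mul_le_mul (mul_le_mul s4 s5 (mul_nonneg (mul_nonneg (Nat.cast_nonneg _)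
            (Nat.cast_nonneg _)) (Nat.cast_nonneg _)) hML.le) s2 (Nat.cast_nonneg _)
            (mul_nonneg hML.le hML.le)
      _ = _ := by ring
  have hPS : (4 : ℝ) ^ (T1.NG.PS (m3 a X l)).card ≤ Λ := hL n hn0 hnle
  have hmd : (Eqd.Loc.md (T1.NG.PS (m3 a X l)) : ℝ) ≤ ML p N ^ 3 := by
    refine le_trans ?_ hnle
    have e : Eqd.Loc.md (T1.NG.PS (m3 a X l)) = ∏ q ∈ n.primeFactors, q :=
      Finset.prod_coe_sort n.primeFactors (fun q => q)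
    rw [e]
    exact_mod_cast Nat.le_of_dvd hn0 (Nat.prod_primeFactors_dvd n)
  have hmain := hcnt p N a D X l hN (by linarith) hk hr ha hs h1
  refine hmain.trans ?_
  have hN0 : (0 : ℝ) < N := by exact_mod_cast hN
  have hds : (0 : ℝ) < ((ds a * du a : ℕ) : ℝ) := by
    have : 0 < ds a * du a := by unfold ds; positivity
    exact_mod_cast this
  have hes : (0 : ℝ) < ((es a * dv a : ℕ) : ℝ) := by
    have : 0 < es a * dv a := by unfold es; positivity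
    exact_mod_cast this
  have hl0 : (0 : ℝ) < l := by exact_mod_cast pl
  have hX0 : (0 : ℝ) < X := by exact_mod_cast pX
  have e1 : (((es a * dv a * l : ℕ) : ℝ)) = ((es a * dv a : ℕ) : ℝ) * l := by push_cast; ring
  have e2 : K * N * (4 ^ (T1.NG.PS (m3 a X l)).card /
        (((ds a * du a : ℕ) : ℝ) * ((es a * dv a * l : ℕ) : ℝ) * (X : ℝ))) =
      K * N * 4 ^ (T1.NG.PS (m3 a X l)).card *
        (1 / (((ds a * du a : ℕ) : ℝ) * ((es a * dv a : ℕ) : ℝ))) *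
        (1 / (l : ℝ) * (1 / (X : ℝ))) := by
    rw [e1]; field_simp
  rw [e2]
  have g1 : (0 : ℝ) ≤ 1 / (((ds a * du a : ℕ) : ℝ) * ((es a * dv a : ℕ) : ℝ)) :=
    one_div_nonneg.2 (mul_nonneg (Nat.cast_nonneg _) (Nat.cast_nonneg _))
  have g2 : (0 : ℝ) ≤ 1 / (l : ℝ) * (1 / (X : ℝ)) :=
    mul_nonneg (one_div_nonneg.2 hl0.le) (one_div_nonneg.2 hX0.le)
  refine add_le_add (mul_le_mul_of_nonneg_right (mul_le_mul_of_nonneg_right
    (mul_le_mul_of_nonneg_left hPS (mul_nonneg hK.le hN0.le)) g1) g2) ?_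
  refine mul_le_mul_of_nonneg_right (mul_le_mul_of_nonneg_left
    (pow_le_pow_left₀ (Nat.cast_nonneg _) hmd 12) hK.le) ?_
  exact mul_nonneg hN0.le (Real.rpow_nonneg hN0.le _)

/-- the finite estimate -/
theorem fin_bound (hEq : TG1.NG.CNT) : ∃ K : ℝ, 0 < K ∧ ∀ (p : Prm) (N : ℕ) (Wm Λ : ℝ),
    0 ≤ Wm → 0 ≤ Λ → 2 * aa ≤ p.E → 1 ≤ N → 7 ≤ zz p N → 1 ≤ p.k → 1 ≤ p.r →
    (∀ x ∈ Gam N 1 3, ∀ a ∈ DA p N, fits p N a x → H1 p N a x) →
    (∀ x ∈ Gam N 1 3, ∀ a ∈ DA p N, ∀ D X : ℕ, ((D : ℤ), X) ∈ TS p N a x → X ≤ 7 * dG a →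
      wt p N (1 / 6) (rel a ((D : ℤ), X) x) ≤ Wm) →
    (∀ n : ℕ, 0 < n → (n : ℝ) ≤ ML p N ^ 3 → (4 : ℝ) ^ n.primeFactors.card ≤ Λ) →
    ∑ x ∈ Gam N 1 3, Zx p N (1 / 6) (evD p) x ≤
      Wm * (12 * K * N * Λ * Hs ⌈ML p N⌉₊ ^ 9 / zz p N +
        (⌈ML p N⌉₊ : ℝ) ^ 8 * ((⌈ML p N⌉₊ : ℝ) + 1) ^ 3 *
          (K * (ML p N ^ 3) ^ 12 * (N * (N : ℝ) ^ (-(1 / 20) : ℝ)))) := by
  obtain ⟨K, hK, hcard⟩ := card_b hEq
  refine ⟨K, hK, fun p N Wm Λ hWm hΛ hE hN hz hk hr hH1 hW hL => ?_⟩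
  have hML : 0 < ML p N := ML_pos (by linarith)
  set R := ⌈ML p N⌉₊ with hR
  set err : ℝ := K * (ML p N ^ 3) ^ 12 * (N * (N : ℝ) ^ (-(1 / 20) : ℝ)) with herr
  have herr0 : 0 ≤ err := by rw [herr]; positivity
  have hH := Hs_nonneg R
  have hN0 : (0 : ℝ) < N := by exact_mod_cast hN
  have hz0 : 0 < zz p N := by linarith
  -- the sum over `x` of the sum over `a`
  have h1 : ∑ x ∈ Gam N 1 3, Zx p N (1 / 6) (evD p) x ≤
      ∑ x ∈ Gam N 1 3, ∑ a ∈ DA p N,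
        Wm * (((BB R).filter (fun b => Cx p N a b.2.1 b.2.2 b.1 x)).card : ℝ) := by
    refine Finset.sum_le_sum fun x hx => ?_
    have g1 : ∑ a ∈ (DA p N).filter (fun a => fits p N a x),
        ∑ t ∈ (TS p N a x).filter (fun t => evD p (rel a t x)),
          wt p N (1 / 6) (rel a t x) * iX (rel a t x) ≤
        ∑ a ∈ (DA p N).filter (fun a => fits p N a x),
          Wm * (((BB R).filter (fun b => Cx p N a b.2.1 b.2.2 b.1 x)).card : ℝ) := by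
      refine Finset.sum_le_sum fun a ha => ?_
      obtain ⟨ha', hfit⟩ := mem_filter.1 ha
      exact inner_le hWm hE hz hk hr hx ha' hfit (hH1 x hx a ha' hfit) (hW x hx a ha')
    exact g1.trans (Finset.sum_le_sum_of_subset_of_nonneg (filter_subset _ _)
      fun _ _ _ => mul_nonneg hWm (Nat.cast_nonneg _))
  have h2 : ∑ x ∈ Gam N 1 3, ∑ a ∈ DA p N,
        Wm * (((BB R).filter (fun b => Cx p N a b.2.1 b.2.2 b.1 x)).card : ℝ) =
      Wm * ∑ a ∈ DA p N, ∑ b ∈ BB R,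
        (((Gam N 1 3).filter (fun x => Cx p N a b.2.1 b.2.2 b.1 x)).card : ℝ) := by
    have g2 : ∀ a : Dt, ∑ x ∈ Gam N 1 3,
        (((BB R).filter (fun b => Cx p N a b.2.1 b.2.2 b.1 x)).card : ℝ) =
        ∑ b ∈ BB R, (((Gam N 1 3).filter (fun x => Cx p N a b.2.1 b.2.2 b.1 x)).card : ℝ) := by
      intro a
      have := Finset.sum_card_bipartiteAbove_eq_sum_card_bipartiteBelow (s := Gam N 1 3)
        (t := BB R) (fun x b => Cx p N a b.2.1 b.2.2 b.1 x)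
      simp only [Finset.bipartiteAbove, Finset.bipartiteBelow] at this
      exact_mod_cast this
    rw [Finset.sum_comm]
    simp only [← Finset.mul_sum, g2]
  have h3 : ∀ a ∈ DA p N, ∑ b ∈ BB R,
      (((Gam N 1 3).filter (fun x => Cx p N a b.2.1 b.2.2 b.1 x)).card : ℝ) ≤
      K * N * Λ * (12 * Hs R / zz p N) *
        (1 / (((ds a * du a : ℕ) : ℝ) * ((es a * dv a : ℕ) : ℝ))) + ((R : ℝ) + 1) ^ 3 * err := by
    intro a ha
    obtain ⟨pg1, pm1, pn1, pg2, pm2, pn2, pu, pv⟩ := pos_of_mem ha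
    have hG : 0 < dG a := by unfold dG; positivity
    have g3 := fun (b : ℕ × ℕ × ℕ) (_ : b ∈ BB R) => hcard p N Λ hΛ hE hN hz hk hr a ha
      (fun x hx => hH1 x hx a ha) hL b.2.1 b.2.2 b.1
    refine (Finset.sum_le_sum g3).trans ?_
    rw [Finset.sum_add_distrib, ← Finset.mul_sum, sum_const, nsmul_eq_mul, card_BB]
    have h4 := sum_BB (dG a) R hG (zz p N) (by linarith)
    have h5 : 0 ≤ K * N * Λ * (1 / (((ds a * du a : ℕ) : ℝ) * ((es a * dv a : ℕ) : ℝ))) :=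
      mul_nonneg (mul_nonneg (mul_nonneg hK.le hN0.le) hΛ)
        (one_div_nonneg.2 (mul_nonneg (Nat.cast_nonneg _) (Nat.cast_nonneg _)))
    have h6 := mul_le_mul_of_nonneg_left h4 h5
    have h7 : (((R + 1) ^ 3 : ℕ) : ℝ) = ((R : ℝ) + 1) ^ 3 := by push_cast; rfl
    rw [h7]
    linarith
  have hsub : DA p N ⊆ IA R := DA_sub hz hk hr
  set A1 : ℝ := K * N * Λ * (12 * Hs R / zz p N) with hA1
  set A2 : ℝ := ((R : ℝ) + 1) ^ 3 * err with hA2
  have hA1' : 0 ≤ A1 := mul_nonneg (mul_nonneg (mul_nonneg hK.le hN0.le) hΛ)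
    (div_nonneg (mul_nonneg (by norm_num) hH) hz0.le)
  have hA2' : 0 ≤ A2 := mul_nonneg (pow_nonneg (add_nonneg (Nat.cast_nonneg _) zero_le_one) 3) herr0
  have h4 : ∑ a ∈ DA p N, (A1 * (1 / (((ds a * du a : ℕ) : ℝ) * ((es a * dv a : ℕ) : ℝ))) + A2) ≤
      ∑ a ∈ IA R, (A1 * (1 / (((ds a * du a : ℕ) : ℝ) * ((es a * dv a : ℕ) : ℝ))) + A2) :=
    Finset.sum_le_sum_of_subset_of_nonneg hsub fun a _ _ => add_nonneg (mul_nonneg hA1'
      (one_div_nonneg.2 (mul_nonneg (Nat.cast_nonneg _) (Nat.cast_nonneg _)))) hA2'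
  have h5 : ∑ a ∈ IA R, (A1 * (1 / (((ds a * du a : ℕ) : ℝ) * ((es a * dv a : ℕ) : ℝ))) + A2) =
      A1 * Hs R ^ 8 + (R : ℝ) ^ 8 * A2 := by
    rw [Finset.sum_add_distrib, ← Finset.mul_sum, sum_IA, sum_const, nsmul_eq_mul, card_IA]
    push_cast
    rfl
  have h6 := (Finset.sum_le_sum h3).trans (h4.trans h5.le)
  have h7 : A1 * Hs R ^ 8 + (R : ℝ) ^ 8 * A2 =
      12 * K * N * Λ * Hs R ^ 9 / zz p N + (R : ℝ) ^ 8 * ((R : ℝ) + 1) ^ 3 * err := by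
    rw [hA1, hA2]
    ring
  rw [h2] at h1
  rw [h7] at h6
  exact h1.trans (mul_le_mul_of_nonneg_left h6 hWm)

/-! ## Asymptotics -/

omit [Aa] [Frm] in
lemma log_pow_le {A e : ℝ} (hA : 0 ≤ A) (he : 0 < e) :
    ∀ᶠ u : ℝ in atTop, A * Real.log u ^ 13 ≤ e * u ^ (1 / 2 : ℝ) := by
  have h := isLittleO_log_rpow_rpow_atTop (13 : ℝ) (show (0 : ℝ) < 1 / 2 by norm_num)
  have h2 := h.def (show 0 < e / (A + 1) by positivity)
  filter_upwards [h2, eventually_ge_atTop 1] with u hu h1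
  have hl : 0 ≤ Real.log u := Real.log_nonneg h1
  have h3 : ‖Real.log u ^ (13 : ℝ)‖ = Real.log u ^ 13 := by
    rw [Real.norm_of_nonneg (by positivity)]
    exact_mod_cast Real.rpow_natCast (Real.log u) 13
  have h4 : ‖u ^ (1 / 2 : ℝ)‖ = u ^ (1 / 2 : ℝ) := Real.norm_of_nonneg (by positivity)
  rw [h3, h4] at hu
  have h5 : 0 ≤ u ^ (1 / 2 : ℝ) := by positivity
  calc A * Real.log u ^ 13 ≤ (A + 1) * Real.log u ^ 13 := by
        have : 0 ≤ Real.log u ^ 13 := by positivity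
        nlinarith
    _ ≤ (A + 1) * (e / (A + 1) * u ^ (1 / 2 : ℝ)) :=
        mul_le_mul_of_nonneg_left hu (by positivity)
    _ = e * u ^ (1 / 2 : ℝ) := by field_simp

omit [Aa] [Frm] in
lemma neg_rpow_le (A : ℝ) {e : ℝ} (he : 0 < e) :
    ∀ᶠ N : ℕ in atTop, A * (N : ℝ) ^ (-(1 / 40) : ℝ) ≤ e := by
  have h : Tendsto (fun N : ℕ => A * (N : ℝ) ^ (-(1 / 40) : ℝ)) atTop (𝓝 (A * 0)) :=
    ((tendsto_rpow_neg_atTop (show (0 : ℝ) < 1 / 40 by norm_num)).comp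
      tendsto_natCast_atTop_atTop).const_mul A
  rw [mul_zero] at h
  filter_upwards [h.eventually (gt_mem_nhds he)] with N hN
  exact hN.le

omit [Aa] [Frm] in
lemma le_of_dbox {N D X : ℕ} (h : ((D : ℤ), X) ∈ dbox N) : D ≤ 10000 * (N + 1) ^ 2 := by
  unfold dbox at h
  generalize 10000 * (N + 1) ^ 2 = B at h ⊢
  rw [mem_product, mem_Ioo] at h
  have h1 : (D : ℤ) ≤ (B : ℤ) := h.1.2.le
  exact_mod_cast h1

omit [Aa] [Frm] in
/-- the bound for `4 ^ ω(n)` -/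
lemma four_le {B : ℕ} (hB : 1 ≤ B) : ∃ C : ℝ, 0 < C ∧ ∀ z : ℝ, 0 < z → ∀ n : ℕ, 0 < n →
    (n : ℝ) ≤ (z ^ B) ^ 3 → (4 : ℝ) ^ n.primeFactors.card ≤ C * z ^ (1 / 2 : ℝ) := by
  have hB' : (0 : ℝ) < B := by exact_mod_cast hB
  obtain ⟨C, hC, hdiv⟩ := Pool.Agent.Lib.MP_391708_nt.Div.card_divisors_le_rpow
    (1 / (12 * B)) (by positivity)
  refine ⟨C ^ 2, by positivity, fun z hz n hn hle => ?_⟩
  have hn' : (0 : ℝ) < n := by exact_mod_cast hn
  have h1 : (4 : ℝ) ^ n.primeFactors.card ≤ (n.divisors.card : ℝ) ^ 2 := by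
    exact_mod_cast four_pow_le n hn.ne'
  have h2 := hdiv n hn
  have h3 : (n : ℝ) ^ (1 / (12 * B) : ℝ) ≤ z ^ (1 / 4 : ℝ) := by
    calc (n : ℝ) ^ (1 / (12 * B) : ℝ) ≤ ((z ^ B) ^ 3) ^ (1 / (12 * B) : ℝ) :=
          Real.rpow_le_rpow hn'.le hle (by positivity)
      _ = z ^ (1 / 4 : ℝ) := by
          rw [← pow_mul, ← Real.rpow_natCast z (B * 3), ← Real.rpow_mul hz.le]
          congr 1
          push_cast
          field_simp
          norm_num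
  calc (4 : ℝ) ^ n.primeFactors.card ≤ (n.divisors.card : ℝ) ^ 2 := h1
    _ ≤ (C * z ^ (1 / 4 : ℝ)) ^ 2 := by
        refine pow_le_pow_left₀ (Nat.cast_nonneg _) (h2.trans ?_) 2
        exact mul_le_mul_of_nonneg_left h3 hC.le
    _ = C ^ 2 * (z ^ (1 / 4 : ℝ) * z ^ (1 / 4 : ℝ)) := by ring
    _ = _ := by rw [← Real.rpow_add hz]; norm_num

omit [Aa] [Frm] in
/-- `R = ⌈ML⌉` and the harmonic sum -/
lemma R_facts {z : ℝ} (hz : Real.exp 1 ≤ z) (B : ℕ) :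
    (⌈z ^ B⌉₊ : ℝ) ≤ 2 * z ^ B ∧ (⌈z ^ B⌉₊ : ℝ) + 1 ≤ 3 * z ^ B ∧
      Hs ⌈z ^ B⌉₊ ≤ (2 + B) * Real.log z := by
  have he : (1 : ℝ) < Real.exp 1 := by
    have := Real.add_one_lt_exp (show (1 : ℝ) ≠ 0 by norm_num)
    linarith
  have hz1 : 1 ≤ z := by linarith
  have hz0 : 0 < z := by linarith
  have hM1 : 1 ≤ z ^ B := one_le_pow₀ hz1
  have h1 : (⌈z ^ B⌉₊ : ℝ) ≤ z ^ B + 1 := (Nat.ceil_lt_add_one (by positivity)).le
  have hlog : 1 ≤ Real.log z := by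
    rw [Real.le_log_iff_exp_le hz0]; exact hz
  refine ⟨by linarith, by linarith, ?_⟩
  have hR : (1 : ℝ) ≤ (⌈z ^ B⌉₊ : ℝ) := hM1.trans (Nat.le_ceil _)
  have h2 : Real.log (⌈z ^ B⌉₊ : ℝ) ≤ Real.log 2 + B * Real.log z := by
    have h3 : Real.log (2 * z ^ B) = Real.log 2 + B * Real.log z := by
      rw [Real.log_mul (by norm_num) (by positivity), Real.log_pow]
    rw [← h3]
    exact Real.log_le_log (by linarith) (by linarith)
  have h4 := Hs_le ⌈z ^ B⌉₊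
  have h5 : Real.log 2 ≤ 1 := by
    have := Real.log_two_lt_d9
    linarith
  nlinarith [Nat.cast_nonneg (α := ℝ) B]

/-- **HD** -/
theorem specHD_of (hEq : TG1.NG.CNT) (h1a : SpecH1a) (hCNT : SpecCNT) (hTM : SpecTM) :
    SpecHD := by
  intro ε hε
  obtain ⟨K, hK, hfin⟩ := fin_bound hEq
  obtain ⟨-, c, hc, hcnt⟩ := hCNT
  refine ((((((T4.Good.large_E (2 * aa)).and (T4.Good.large_r fun _ _ => 1)).and
    (T4.Good.large_k fun _ _ _ => 1)).and T4.Good.zeta_pos).and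
    (T4.Good.zeta_le (fun _ K r k => 1 / (1920 * (1000 * (K + 1) * (r + 1) ^ 2 * (k + 1) : ℝ)))
      (fun _ K r k => by positivity))).and (h1a.and (hTM 1 0 one_pos))).mono ?_
  rintro p ⟨⟨⟨⟨⟨hE, hr⟩, hk⟩, hζ⟩, hζ'⟩, hH1, hT⟩
  set B : ℕ := 1000 * (p.K + 1) * (p.r + 1) ^ 2 * (p.k + 1) with hB
  have hB1 : 1 ≤ B := by rw [hB]; exact Nat.succ_le_of_lt (by positivity)
  have hB4 : 4 ≤ B := by
    rw [hB]
    have h1 : 1 ≤ (p.K + 1) * (p.r + 1) ^ 2 * (p.k + 1) := Nat.succ_le_of_lt (by positivity)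
    calc 4 ≤ 1000 * ((p.K + 1) * (p.r + 1) ^ 2 * (p.k + 1)) := by omega
      _ = _ := by ring
  have hBR : (0 : ℝ) < B := by exact_mod_cast hB1
  obtain ⟨CΛ, hCΛ, hfour⟩ := four_le hB1
  obtain ⟨C, hC, hexp⟩ := A3.exp_S0_le p hζ
  have hW0 : (0 : ℝ) < W0 p := by exact_mod_cast W0_pos p
  have hcE := cE_pos
  set A1 : ℝ := 7 / cE * (W0 p : ℝ) ^ 2 * C ^ 4 * (12 * K * CΛ * (2 + B) ^ 9) with hA1
  set A2 : ℝ := 7 / cE * (W0 p : ℝ) ^ 2 * C ^ 4 * (2 ^ 8 * 3 ^ 3 * K) with hA2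
  have hA1' : 0 ≤ A1 := by rw [hA1]; positivity
  have hA2' : 0 ≤ A2 := by rw [hA2]; positivity
  have hec : 0 < ε * c / 2 := by positivity
  filter_upwards [hH1, hT, hexp, hcnt, A3.one_div_rp_le_exp p hζ one_pos,
    (A3.tendsto_zz hζ).eventually (log_pow_le hA1' hec), neg_rpow_le A2 hec,
    (A3.tendsto_zz hζ).eventually_ge_atTop 7, eventually_ge_atTop 1] with N n1 n2 n3 n4 n5 n6 n7 n8 n9
  obtain ⟨su, sv, -, -⟩ := n2
  obtain ⟨e1, e2, -⟩ := n3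
  have hN1 : (1 : ℝ) ≤ N := by exact_mod_cast n9
  have hN0 : (0 : ℝ) < N := by linarith
  set z := zz p N with hz
  have hz0 : 0 < z := by linarith
  have hML : ML p N = z ^ B := rfl
  have hS0 : 0 ≤ S0 p N := by unfold S0; exact Finset.sum_nonneg fun _ _ => by positivity
  have hlog : 1 ≤ Real.log z := e2.le
  have hez : Real.exp 1 ≤ z := by
    rw [← Real.le_log_iff_exp_le hz0]; exact hlog
  obtain ⟨r1, r2, r3⟩ := R_facts hez B
  set Wm : ℝ := 7 / cE * (W0 p : ℝ) ^ 2 * (C * Real.log z) ^ 4 with hWm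
  have hWm0 : 0 ≤ Wm := by rw [hWm]; positivity
  have hW7 : 7 / cE * (W0 p : ℝ) ^ 2 * Real.exp (7 / 2 * S0 p N) ≤ Wm := by
    rw [hWm]
    refine mul_le_mul_of_nonneg_left ?_ (by positivity)
    calc Real.exp (7 / 2 * S0 p N) ≤ Real.exp ((4 : ℕ) * S0 p N) :=
          Real.exp_le_exp.2 (by push_cast; linarith)
      _ = Real.exp (S0 p N) ^ 4 := by rw [Real.exp_nat_mul]
      _ ≤ _ := pow_le_pow_left₀ (Real.exp_pos _).le e1 4
  have hmain := hfin p N Wm (CΛ * z ^ (1 / 2 : ℝ)) hWm0 (by positivity) hE n9 n8 hk hr n1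
    (fun x hx a ha D X ht hX => by
      obtain ⟨pg1, pm1, pn1, pg2, pm2, pn2, pu, pv⟩ := pos_of_mem ha
      have hG : 0 < dG a := by unfold dG; positivity
      refine (wt_le (r := rel a ((D : ℤ), X) x) (by simpa using su) (by simpa using sv) ?_ ?_
        hG).trans hW7
      · refine n5 _ ?_
        have ht' := ht
        unfold TS S1 at ht'
        have h2 := (mem_filter.1 ht').1
        have h6 : (rD (rel a ((D : ℤ), X) x)).natAbs = D := rfl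
        rw [h6]
        exact le_of_dbox h2
      · exact_mod_cast hX)
    (fun n hn hle => hfour z hz0 n hn (by rw [← hML]; exact hle))
  rw [hML] at hmain
  refine hmain.trans ?_
  -- the main term
  have hHs := Hs_nonneg ⌈z ^ B⌉₊
  have m1 : Wm * (12 * K * N * (CΛ * z ^ (1 / 2 : ℝ)) * Hs ⌈z ^ B⌉₊ ^ 9 / z) ≤ ε * c / 2 * N := by
    have h1 : Hs ⌈z ^ B⌉₊ ^ 9 ≤ ((2 + B) * Real.log z) ^ 9 := pow_le_pow_left₀ hHs r3 9
    have h2 : z = z ^ (1 / 2 : ℝ) * z ^ (1 / 2 : ℝ) := by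
      rw [← Real.rpow_add hz0]; norm_num
    have hs : 0 < z ^ (1 / 2 : ℝ) := by positivity
    calc _ ≤ Wm * (12 * K * N * (CΛ * z ^ (1 / 2 : ℝ)) * ((2 + B) * Real.log z) ^ 9 / z) := by
          gcongr
      _ = A1 * Real.log z ^ 13 / z ^ (1 / 2 : ℝ) * N := by
          rw [hWm, hA1]
          have h3 : z ^ (1 / 2 : ℝ) / z = 1 / z ^ (1 / 2 : ℝ) := by
            rw [div_eq_div_iff hz0.ne' hs.ne']
            linarith
          calc _ = 7 / cE * (W0 p : ℝ) ^ 2 * C ^ 4 * (12 * K * CΛ * (2 + B) ^ 9) * Real.log z ^ 13 *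
                (z ^ (1 / 2 : ℝ) / z) * N := by ring
            _ = _ := by rw [h3]; ring
      _ ≤ ε * c / 2 * N := by
          refine mul_le_mul_of_nonneg_right ?_ hN0.le
          rw [div_le_iff₀ hs]
          exact n6
  -- the error term
  have hM : (z ^ B) ^ 48 ≤ (N : ℝ) ^ (1 / 40 : ℝ) := by
    have h1 : (z ^ B) ^ 48 = (N : ℝ) ^ (p.ζ * ((B * 48 : ℕ) : ℝ)) := by
      rw [← pow_mul, Real.rpow_mul hN0.le, Real.rpow_natCast]
      rfl
    rw [h1]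
    refine Real.rpow_le_rpow_of_exponent_le hN1 ?_
    have h2 : p.ζ ≤ 1 / (1920 * (B : ℝ)) := by
      rw [hB]; push_cast; exact hζ'
    calc p.ζ * ((B * 48 : ℕ) : ℝ) ≤ 1 / (1920 * (B : ℝ)) * ((B * 48 : ℕ) : ℝ) :=
          mul_le_mul_of_nonneg_right h2 (Nat.cast_nonneg _)
      _ = 1 / 40 := by push_cast; field_simp; norm_num
  have m2 : Wm * ((⌈z ^ B⌉₊ : ℝ) ^ 8 * ((⌈z ^ B⌉₊ : ℝ) + 1) ^ 3 *
      (K * ((z ^ B) ^ 3) ^ 12 * (N * (N : ℝ) ^ (-(1 / 20) : ℝ)))) ≤ ε * c / 2 * N := by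
    have hlz : Real.log z ≤ z := (Real.log_le_sub_one_of_pos hz0).trans (by linarith)
    have h0 : Real.log z ^ 4 ≤ z ^ B := by
      calc Real.log z ^ 4 ≤ z ^ 4 := pow_le_pow_left₀ (by linarith) hlz 4
        _ ≤ z ^ B := pow_le_pow_right₀ (by linarith) hB4
    have hR0 : (0 : ℝ) ≤ (⌈z ^ B⌉₊ : ℝ) := Nat.cast_nonneg _
    have hNN : (N : ℝ) ^ (1 / 40 : ℝ) * (N : ℝ) ^ (-(1 / 20) : ℝ) = (N : ℝ) ^ (-(1 / 40) : ℝ) := by
      rw [← Real.rpow_add hN0]; norm_num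
    calc _ ≤ 7 / cE * (W0 p : ℝ) ^ 2 * (C ^ 4 * z ^ B) * ((2 * z ^ B) ^ 8 * (3 * z ^ B) ^ 3 *
          (K * ((z ^ B) ^ 3) ^ 12 * (N * (N : ℝ) ^ (-(1 / 20) : ℝ)))) := by
          rw [hWm, mul_pow]
          gcongr
      _ = A2 * ((z ^ B) ^ 48 * (N : ℝ) ^ (-(1 / 20) : ℝ)) * N := by rw [hA2]; ring
      _ ≤ A2 * ((N : ℝ) ^ (1 / 40 : ℝ) * (N : ℝ) ^ (-(1 / 20) : ℝ)) * N := by gcongr
      _ ≤ ε * c / 2 * N := by
          rw [hNN]
          exact mul_le_mul_of_nonneg_right n7 hN0.le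
  calc _ = Wm * (12 * K * N * (CΛ * z ^ (1 / 2 : ℝ)) * Hs ⌈z ^ B⌉₊ ^ 9 / z) +
        Wm * ((⌈z ^ B⌉₊ : ℝ) ^ 8 * ((⌈z ^ B⌉₊ : ℝ) + 1) ^ 3 *
          (K * ((z ^ B) ^ 3) ^ 12 * (N * (N : ℝ) ^ (-(1 / 20) : ℝ)))) := by ring
    _ ≤ ε * c / 2 * N + ε * c / 2 * N := add_le_add m1 m2
    _ = ε * (c * N) := by ring
    _ ≤ _ := mul_le_mul_of_nonneg_left n4 hε.le

end Pool.Agent.Lib.MP391708.TG.HDm

namespace Pool.Agent.Lib.MP391708.TG.H

variable [Pool.Agent.Lib.MP391708.TG.Aa] [Pool.Agent.Lib.MP391708.TG.Frm]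

/-- **HD** from the number of pairs `(M, V)` (`TG1.NG.CNT`), H1a, CNT and TM -/
theorem specHD (hEq : TG1.NG.CNT) (h1a : SpecH1a) (hCNT : SpecCNT)
    (hTM : SpecTM) : SpecHD :=
  HDm.specHD_of hEq h1a hCNT hTM

end Pool.Agent.Lib.MP391708.TG.H
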