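import Pool.Agent.Lib.MP_391708_nt.TG.SpecH
import Pool.Agent.Lib.MP_391708_nt.TG.HBas
import Pool.Agent.Lib.MP_391708_nt.T1.GoodL
import Pool.Agent.Lib.MP_391708_nt.TA.LLX

/-!
# Group H, module HP: the pointwise size of `Zh`, from `SpecPHI`, `SpecPHU`, `SpecH1a`, `SpecH1c`
-/

set_option autoImplicit false
set_option linter.constructorNameAsVariable false

namespace Pool.Agent.Lib.MP391708.TG.H.HPM

variable [Pool.Agent.Lib.MP391708.TG.Aa] [Pool.Agent.Lib.MP391708.TG.Frm]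

open Finset Filter Topology
open Pool.Agent.Lib.MP391708.Eqd (V cross pairs)
open scoped Classical

attribute [local irreducible] dbox rbox

variable {p : Prm} {N : ℕ}

/-- the data over `x` -/
noncomputable def fs (p : Prm) (N : ℕ) (x : VV) : Finset Dt :=
  (DA p N).filter (fun a => fits p N a x)

/-- the inner sum, without the normalizing factor -/
noncomputable def inn (p : Prm) (N : ℕ) (y : ℝ) (Ev : Rl → Prop) (a : Dt) (x : VV) : ℝ :=
  ∑ t ∈ (TS p N a x).filter (fun t => Ev (rel a t x)),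
    (t.2 : ℝ) / dG a * vh p N y y y (rel a t x)

theorem Zh_eq (y : ℝ) (Ev : Rl → Prop) (x : VV) :
    Zh p N y Ev x = ((1 / 3 : ℝ) ^ om p N (vl (Md x)) / k0 p N) *
      ∑ a ∈ fs p N x, inn p N y Ev a x := by
  unfold Zh inn fs
  rw [mul_sum]
  refine sum_congr rfl fun a _ => ?_
  rw [mul_sum]
  refine sum_congr rfl fun t _ => ?_
  unfold wt iH vh
  simp only [rel, rM, rX, rG, rD]
  ring

/-! ## Positivity -/

theorem abs_ch_le (l : ℕ) : |ch l| ≤ 1 := TA.ch_abs_le _ _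

theorem cE_pos : 0 < cE := by
  have h := (TA.specLLX az az_ne nsq_az).1
  unfold cE
  linarith

theorem rp_nonneg (D : ℕ) : 0 ≤ rp D := by
  unfold rp
  refine prod_nonneg fun l hl => ?_
  have h1 : 1 ≤ (l : ℝ) := by exact_mod_cast (Nat.prime_of_mem_primeFactors hl).one_le
  have h2 : ch l / l ≤ 1 := by
    rw [div_le_one (by linarith)]
    exact ((le_abs_self _).trans (abs_ch_le l)).trans h1
  linarith

theorem dn_nonneg (n : ℕ) : 0 ≤ dn n := by unfold dn; positivity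

theorem tilt_nonneg {b c : ℝ} (hb : 0 ≤ b) (hc : 0 ≤ c) (r : Rl) : 0 ≤ tilt p N b c r := by
  unfold tilt
  refine prod_nonneg fun l _ => mul_nonneg ?_ ?_ <;> split_ifs <;> first | assumption | exact zero_le_one

theorem vh_nonneg {y : ℝ} (hy : 0 ≤ y) (r : Rl) : 0 ≤ vh p N y y y r := by
  unfold vh
  refine mul_nonneg (mul_nonneg (mul_nonneg (mul_nonneg ?_ (pow_nonneg hy _)) (dn_nonneg _)) ?_)
    (tilt_nonneg hy hy r)
  · exact div_nonneg zero_le_one (rp_nonneg _)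
  · split_ifs
    · exact zero_le_one
    · exact le_rfl

theorem Su_nonneg : 0 ≤ Su p N := by unfold Su; exact sum_nonneg fun _ _ => by positivity

theorem Sv_nonneg : 0 ≤ Sv p N := by unfold Sv; exact sum_nonneg fun _ _ => by positivity

theorem Tu_nonneg (x : VV) : 0 ≤ Tu p N x := by
  unfold Tu
  refine div_nonneg (sum_nonneg fun _ _ => ?_) Su_nonneg
  split_ifs <;> norm_num

theorem Tv_nonneg (x : VV) : 0 ≤ Tv p N x := by
  unfold Tv
  refine div_nonneg (sum_nonneg fun _ _ => ?_) Sv_nonneg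
  split_ifs <;> norm_num

theorem W0_pos (p : Prm) : 0 < W0 p := by
  unfold W0
  exact pow_pos (primorial_pos _) _

theorem kp_pos (τ : ℝ) : 0 < kp p N τ := by
  unfold kp
  have := W0_pos p
  positivity

theorem pf_nonneg {C : ℝ} (hC : 0 ≤ C) (x : VV) : 0 ≤ pf p N C x := by
  unfold pf
  exact prod_nonneg fun _ _ => by positivity

theorem pf_mono {C C' : ℝ} (hC : 0 ≤ C) (h : C ≤ C') (x : VV) : pf p N C x ≤ pf p N C' x := by
  unfold pf
  refine prod_le_prod (fun _ _ => by positivity) fun l _ => ?_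
  have : C / (l : ℝ) ≤ C' / l := div_le_div_of_nonneg_right h (Nat.cast_nonneg _)
  linarith

/-! ## The general upper bound -/

theorem Zh_le {y B : ℝ} {Ev : Rl → Prop} {x : VV} (hB : 0 ≤ B)
    (h : ∀ a ∈ fs p N x, inn p N y Ev a x ≤ B * (cE * kp p N (5 / 2)))
    (hc : (1 / 3 : ℝ) ^ om p N (vl (Md x)) * (fs p N x).card ≤
      Tu p N x * Su p N * (Tv p N x * Sv p N)) :
    Zh p N y Ev x ≤ B * (Tu p N x * Tv p N x) := by
  have hT := mul_nonneg (Tu_nonneg (p := p) (N := N) x) (Tv_nonneg (p := p) (N := N) x)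
  rw [Zh_eq]
  by_cases hS : Su p N * Sv p N = 0
  · have hk : k0 p N = 0 := by
      unfold k0
      rw [mul_assoc, hS, mul_zero]
    rw [hk, div_zero, zero_mul]
    exact mul_nonneg hB hT
  have hS' : 0 < Su p N * Sv p N :=
    lt_of_le_of_ne (mul_nonneg Su_nonneg Sv_nonneg) (Ne.symm hS)
  have hk1 : 0 < cE * kp p N (5 / 2) := mul_pos cE_pos (kp_pos (p := p) (N := N) (5 / 2))
  have hk : k0 p N = cE * kp p N (5 / 2) * (Su p N * Sv p N) := by
    unfold k0
    ring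
  have hk0 : 0 < k0 p N := by
    rw [hk]
    positivity
  have h1 : ∑ a ∈ fs p N x, inn p N y Ev a x ≤
      (fs p N x).card * (B * (cE * kp p N (5 / 2))) := by
    have := sum_le_card_nsmul (fs p N x) (fun a => inn p N y Ev a x) _ h
    rwa [nsmul_eq_mul] at this
  calc (1 / 3 : ℝ) ^ om p N (vl (Md x)) / k0 p N * ∑ a ∈ fs p N x, inn p N y Ev a x
      ≤ (1 / 3 : ℝ) ^ om p N (vl (Md x)) / k0 p N *
          ((fs p N x).card * (B * (cE * kp p N (5 / 2)))) :=
        mul_le_mul_of_nonneg_left h1 (div_nonneg (by positivity) hk0.le)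
    _ = B * (((1 / 3 : ℝ) ^ om p N (vl (Md x)) * (fs p N x).card) / (Su p N * Sv p N)) := by
        rw [hk]
        generalize cE * kp p N (5 / 2) = q at hk1
        generalize Su p N * Sv p N = s at hS'
        have hq : q ≠ 0 := hk1.ne'
        have hs : s ≠ 0 := hS'.ne'
        field_simp
    _ ≤ B * (Tu p N x * Tv p N x) := by
        refine mul_le_mul_of_nonneg_left ?_ hB
        rw [div_le_iff₀ hS']
        calc _ ≤ _ := hc
          _ = _ := by ring

/-! ## `S1 ⊆ S2` -/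

theorem S1_sub (hb : Bas p N) {M G P Q : ℕ} (hA : Adm p N M G P Q) {t : ℤ × ℕ}
    (ht : t ∈ S1 p N M G P Q) : t ∈ S2 p N M G P Q := by
  unfold S1 at ht
  unfold S2
  rw [mem_filter] at ht ⊢
  obtain ⟨h0, hDX, h1, h2, h3, h4, h5, -, h7⟩ := ht
  obtain ⟨haM, hGPQ, hM, -⟩ := hA
  have hN := hb.N1
  have hM0 : 0 < (M : ℤ) := by
    have : 0 < M := by omega
    exact_mod_cast this
  have haa : 0 < aa := Aa.ha
  have hne : G * P * Q ≠ 0 := by rw [hGPQ]; exact (vl_pos haM).ne' 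
  have hG0 : 0 < (G : ℤ) := by
    have : 0 < G := Nat.pos_of_ne_zero (by rintro rfl; simp at hne)
    exact_mod_cast this
  have hP0 : 0 < (P : ℤ) := by
    have : 0 < P := Nat.pos_of_ne_zero (by rintro rfl; simp at hne)
    exact_mod_cast this
  have hQ0 : 0 < (Q : ℤ) := by
    have : 0 < Q := Nat.pos_of_ne_zero (by rintro rfl; simp at hne)
    exact_mod_cast this
  have hz : ((G : ℤ) * P * Q) = (M : ℤ) ^ 2 + az := by
    have h0' := vl_cast haM
    rw [← hGPQ] at h0'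
    exact_mod_cast h0' 
  set D := t.1 with hD
  set E := D2 (M, G, P, Q, t) with hE
  have hDE : D * E = (t.2 : ℤ) - G := by
    rw [hE]
    exact Int.mul_ediv_cancel' hDX.2.1
  have hD0 : 0 < D := by
    by_contra hcon
    have : D * P ≤ 0 := mul_nonpos_of_nonpos_of_nonneg (not_lt.1 hcon) hP0.le
    linarith
  have hE0 : 0 < E := by
    by_contra hcon
    have h : E * Q ≤ 0 := mul_nonpos_of_nonpos_of_nonneg (not_lt.1 hcon) hQ0.le
    have : E * Q * M ≤ 0 := mul_nonpos_of_nonpos_of_nonneg h hM0.le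
    nlinarith [sq_nonneg (M : ℤ)]
  have hc : 0 < (P : ℤ) * Q * M := by positivity
  have e1 : (D * P) * (E * Q * M) = ((t.2 : ℤ) - G) * (P * Q * M) := by rw [← hDE]; ring
  have hEQ0 : 0 ≤ E * Q * M := by positivity
  have hX1 : (t.2 : ℤ) - G ≤ 6 * G := by
    have h : ((t.2 : ℤ) - G) * (P * Q * M) ≤ (6 * G) * (P * Q * M) := by
      rw [← e1]
      calc (D * P) * (E * Q * M) ≤ (3 * M) * (E * Q * M) := mul_le_mul_of_nonneg_right h2 hEQ0
        _ ≤ (3 * M) * (2 * ((M : ℤ) ^ 2 + az)) := mul_le_mul_of_nonneg_left h4.le (by positivity)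
        _ = (6 * G) * (P * Q * M) := by rw [← hz]; ring
    exact le_of_mul_le_mul_right h hc
  have hX2 : 2 * (G : ℤ) ≤ (t.2 : ℤ) - G := by
    have h : (2 * (G : ℤ)) * (P * Q * M) ≤ ((t.2 : ℤ) - G) * (P * Q * M) := by
      rw [← e1]
      calc (2 * (G : ℤ)) * (P * Q * M) = (2 * M) * ((M : ℤ) ^ 2 + az) := by rw [← hz]; ring
        _ ≤ (2 * M) * (E * Q * M) := mul_le_mul_of_nonneg_left h3 (by positivity)
        _ ≤ (D * P) * (E * Q * M) := mul_le_mul_of_nonneg_right h1.le hEQ0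
    exact le_of_mul_le_mul_right h hc
  have h7' := h7.trans (hb.zpow_le (m := p.K) (n := 4 * p.K) (by omega))
  refine ⟨h0, ?_⟩
  refine ⟨hDX, ?_⟩
  refine ⟨?_, ?_, ?_, ?_, ?_, h5, h7'⟩
  · rw [abs_of_pos hD0]
    linarith
  · rw [abs_of_pos hD0]
    linarith
  · rw [abs_of_pos hE0]
    nlinarith [sq_nonneg (M : ℤ)]
  · have : (t.2 : ℤ) ≤ 100 * G := by linarith
    exact_mod_cast this
  · have : (G : ℤ) ≤ 100 * t.2 := by linarith
    exact_mod_cast this

/-- the inner sum is at most 100 times a sum over `S2` -/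
theorem inn_le (hb : Bas p N) {y : ℝ} (hy : 0 ≤ y) {Ev : Rl → Prop} {a : Dt} {x : VV}
    (hA : Adm p N (Md x) (dG a) (Pd a x) (Qd a x)) {s : Finset (ℤ × ℕ)}
    (hs : ∀ t ∈ S2 p N (Md x) (dG a) (Pd a x) (Qd a x), Ev (rel a t x) → t ∈ s) :
    inn p N y Ev a x ≤ 100 * ∑ t ∈ s,
      vh p N y y y (Md x, dG a, Pd a x, Qd a x, t) := by
  have hG : 0 < (dG a : ℝ) := by
    have haa : 0 < aa := Aa.ha
    have hne : dG a * Pd a x * Qd a x ≠ 0 := by rw [hA.2.1]; exact (vl_pos hA.1).ne' 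
    have : 0 < dG a := Nat.pos_of_ne_zero (by intro h; rw [h] at hne; simp at hne)
    exact_mod_cast this
  unfold inn
  rw [mul_sum]
  calc ∑ t ∈ (TS p N a x).filter (fun t => Ev (rel a t x)),
        (t.2 : ℝ) / dG a * vh p N y y y (rel a t x)
      ≤ ∑ t ∈ (TS p N a x).filter (fun t => Ev (rel a t x)),
        100 * vh p N y y y (Md x, dG a, Pd a x, Qd a x, t) := by
        refine sum_le_sum fun t ht => mul_le_mul_of_nonneg_right ?_ (vh_nonneg hy _)
        have h1 := S1_sub hb hA (mem_filter.1 ht).1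
        unfold S2 at h1
        rw [mem_filter] at h1
        obtain ⟨-, -, -, -, -, h2, -⟩ := h1
        rw [div_le_iff₀ hG]
        exact_mod_cast h2
    _ ≤ _ := by
        refine sum_le_sum_of_subset_of_nonneg ?_ fun t _ _ =>
          mul_nonneg (by norm_num) (vh_nonneg hy _)
        intro t ht
        rw [mem_filter] at ht
        exact hs t (S1_sub hb hA ht.1) ht.2

theorem kp_split (y : ℝ) : kp p N (3 - y - y - y) =
    Real.exp (-((1 / 2 - 3 * y) * S0 p N)) * kp p N (5 / 2) := by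
  unfold kp
  rw [mul_div_assoc', ← Real.exp_add]
  congr 2
  ring

theorem kpU_le {C c y D : ℝ} (hC : 0 ≤ C) (hc : 0 ≤ c) (hD : 100 * C ≤ D)
    (hD' : 100 * C ≤ D * cE) (x : VV) :
    100 * (kpU p N (Md x) (3 - y - y - y) C * c) ≤
      (D * c * Real.exp (-((1 / 2 - 3 * y) * S0 p N)) * pf p N D x) *
        (cE * kp p N (5 / 2)) := by
  unfold kpU
  rw [kp_split]
  have hk := kp_pos (p := p) (N := N) (5 / 2)
  have he := Real.exp_pos (-((1 / 2 - 3 * y) * S0 p N))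
  have hE := cE_pos
  have h1 : (∏ l ∈ (PP p N).filter (fun l => l ∣ vl (Md x)), (1 + C / (l : ℝ))) ≤
      pf p N D x := pf_mono (p := p) (N := N) hC (by linarith) x
  have h0 : 0 ≤ ∏ l ∈ (PP p N).filter (fun l => l ∣ vl (Md x)), (1 + C / (l : ℝ)) :=
    prod_nonneg fun _ _ => by positivity
  have h2 := pf_nonneg (p := p) (N := N) (C := D) (by linarith) x
  calc _ = (100 * C) * (c * Real.exp (-((1 / 2 - 3 * y) * S0 p N)) *
        (∏ l ∈ (PP p N).filter (fun l => l ∣ vl (Md x)), (1 + C / (l : ℝ))) *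
          kp p N (5 / 2)) := by ring
    _ ≤ (D * cE) * (c * Real.exp (-((1 / 2 - 3 * y) * S0 p N)) * pf p N D x *
          kp p N (5 / 2)) := by
      refine mul_le_mul hD' ?_ (by positivity) (by linarith)
      refine mul_le_mul_of_nonneg_right ?_ hk.le
      exact mul_le_mul_of_nonneg_left h1 (by positivity)
    _ = _ := by ring

/-- the constant of parts 2 and 3 -/
theorem exists_D {C : ℝ} (hC : 0 < C) : ∃ D : ℝ, 0 < D ∧ 100 * C ≤ D ∧ 100 * C ≤ D * cE := by
  have hE := cE_pos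
  refine ⟨100 * C + 100 * C / cE, by positivity, by linarith [div_pos (by linarith : 0 < 100 * C) hE],
    ?_⟩
  have : (100 * C + 100 * C / cE) * cE = 100 * C * cE + 100 * C := by
    field_simp
  rw [this]
  nlinarith [mul_pos (by linarith : 0 < 100 * C) hE]

/-! ## The three parts -/

theorem part1 (hPHI : SpecPHI) (hH1a : SpecH1a) (hH1c : SpecH1c) :
    ∀ ε : ℝ, 0 < ε → ∃ δ : ℝ, 0 < δ ∧ ∀ e₁ : ℝ, Good (fun p => ∀ᶠ N : ℕ in atTop,
      ∀ x ∈ Gam N 1 3, typ p N δ e₁ x →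
        |Zh p N (1 / 6) ev0 x - Tu p N x * Tv p N x| ≤ ε * (Tu p N x * Tv p N x)) := by
  intro ε hε
  have hcE := cE_pos
  obtain ⟨δ, hδ, hG⟩ := hPHI (ε * cE) (mul_pos hε hcE)
  refine ⟨δ, hδ, fun e₁ => (hG.and (hH1a.and (hH1c δ e₁))).mono ?_⟩
  rintro p ⟨h1, h2, h3⟩
  filter_upwards [h1, h2, h3] with N hN1 hN2 hN3 x hx htyp
  have hc := (hN3 x hx).2 htyp
  change (1 / 3 : ℝ) ^ om p N (vl (Md x)) * (fs p N x).card = _ at hc
  rw [Zh_eq]
  by_cases hS : Su p N * Sv p N = 0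
  · have hk : k0 p N = 0 := by
      unfold k0
      rw [mul_assoc, hS, mul_zero]
    have hT : Tu p N x * Tv p N x = 0 := by
      rcases mul_eq_zero.1 hS with h | h
      · unfold Tu
        rw [h, div_zero, zero_mul]
      · unfold Tv
        rw [h, div_zero, mul_zero]
    rw [hk, div_zero, zero_mul, hT]
    simp
  have hS' : 0 < Su p N * Sv p N :=
    lt_of_le_of_ne (mul_nonneg Su_nonneg Sv_nonneg) (Ne.symm hS)
  have hk1 := kp_pos (p := p) (N := N) (5 / 2)
  have hk : k0 p N = cE * kp p N (5 / 2) * (Su p N * Sv p N) := by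
    unfold k0
    ring
  have hk0 : 0 < k0 p N := by
    rw [hk]
    positivity
  have hTT : (1 / 3 : ℝ) ^ om p N (vl (Md x)) * (fs p N x).card =
      (Tu p N x * Tv p N x) * (Su p N * Sv p N) := by
    rw [hc]
    ring
  -- the inner sums
  have hin : ∀ a ∈ fs p N x, |inn p N (1 / 6) ev0 a x - cE * kp p N (5 / 2)| ≤
      ε * cE * kp p N (5 / 2) := by
    intro a ha
    unfold fs at ha
    rw [mem_filter] at ha
    have hA := (hN2 x hx a ha.1 ha.2).2.2.2.2.2.2.2.2.2.2.1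
    have h := hN1 _ _ _ _ hA htyp.2.2.1
    have e : inn p N (1 / 6) ev0 a x = ∑ t ∈ S1 p N (Md x) (dG a) (Pd a x) (Qd a x),
        (t.2 : ℝ) / dG a * vh p N (1 / 6) (1 / 6) (1 / 6)
          (Md x, dG a, Pd a x, Qd a x, t) := by
      unfold inn TS rel ev0
      rw [filter_true]
    rw [e]
    exact h
  have hsum : |∑ a ∈ fs p N x, inn p N (1 / 6) ev0 a x -
      (fs p N x).card * (cE * kp p N (5 / 2))| ≤
      (fs p N x).card * (ε * cE * kp p N (5 / 2)) := by
    have e : ∑ a ∈ fs p N x, inn p N (1 / 6) ev0 a x -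
        (fs p N x).card * (cE * kp p N (5 / 2)) =
        ∑ a ∈ fs p N x, (inn p N (1 / 6) ev0 a x - cE * kp p N (5 / 2)) := by
      rw [sum_sub_distrib, sum_const, nsmul_eq_mul]
    rw [e]
    refine (abs_sum_le_sum_abs _ _).trans ?_
    have := sum_le_card_nsmul (fs p N x) _ _ hin
    rwa [nsmul_eq_mul] at this
  have e1 : (1 / 3 : ℝ) ^ om p N (vl (Md x)) / k0 p N *
      ∑ a ∈ fs p N x, inn p N (1 / 6) ev0 a x - Tu p N x * Tv p N x =
      (1 / 3 : ℝ) ^ om p N (vl (Md x)) / k0 p N * (∑ a ∈ fs p N x, inn p N (1 / 6) ev0 a x -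
      (fs p N x).card * (cE * kp p N (5 / 2))) := by
    have e2 : (1 / 3 : ℝ) ^ om p N (vl (Md x)) / k0 p N *
        ((fs p N x).card * (cE * kp p N (5 / 2))) = Tu p N x * Tv p N x := by
      have e3 : (1 / 3 : ℝ) ^ om p N (vl (Md x)) / k0 p N *
          ((fs p N x).card * (cE * kp p N (5 / 2))) =
          ((1 / 3 : ℝ) ^ om p N (vl (Md x)) * (fs p N x).card) *
            (cE * kp p N (5 / 2)) / k0 p N := by ring
      rw [e3, hTT, div_eq_iff hk0.ne', hk]
      ring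
    rw [mul_sub, e2]
  rw [e1, abs_mul, abs_of_nonneg (div_nonneg (by positivity) hk0.le)]
  calc _ ≤ (1 / 3 : ℝ) ^ om p N (vl (Md x)) / k0 p N *
        ((fs p N x).card * (ε * cE * kp p N (5 / 2))) :=
        mul_le_mul_of_nonneg_left hsum (div_nonneg (by positivity) hk0.le)
    _ = ε * ((Tu p N x * Tv p N x) * (Su p N * Sv p N) * (cE * kp p N (5 / 2)) / k0 p N) := by
        rw [← hTT]
        ring
    _ ≤ ε * (Tu p N x * Tv p N x) := by
        refine mul_le_mul_of_nonneg_left ?_ hε.le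
        rw [div_le_iff₀ hk0, hk]
        exact le_of_eq (by ring)

theorem part2 (hPHU : SpecPHU) (hH1a : SpecH1a) (hH1c : SpecH1c) :
    ∀ y : ℝ, 0 < y → y ≤ 1 → ∃ C : ℝ, 0 < C ∧ Good (fun p => ∀ᶠ N : ℕ in atTop,
      ∀ x ∈ Gam N 1 3, Zh p N y ev0 x ≤
        C * Real.exp (-((1 / 2 - 3 * y) * S0 p N)) * (Tu p N x * Tv p N x) * pf p N C x) := by
  intro y hy hy1
  obtain ⟨C, hC, hG⟩ := hPHU y y y hy hy1 hy hy1 hy hy1
  obtain ⟨D, hD0, hD, hD'⟩ := exists_D hC
  refine ⟨D, hD0, (hG.and (hH1a.and ((hH1c 0 0).and good_bas))).mono ?_⟩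
  rintro p ⟨h1, h2, h3, h4⟩
  filter_upwards [h1, h2, h3, h4] with N hN1 hN2 hN3 hb x hx
  have hpf := pf_nonneg (p := p) (N := N) (C := D) hD0.le x
  have h := Zh_le (p := p) (N := N) (y := y) (Ev := ev0) (x := x)
    (B := D * 1 * Real.exp (-((1 / 2 - 3 * y) * S0 p N)) * pf p N D x)
    (by positivity) (fun a ha => ?_) (hN3 x hx).1
  · refine h.trans (le_of_eq ?_)
    ring
  · unfold fs at ha
    rw [mem_filter] at ha
    have hA := (hN2 x hx a ha.1 ha.2).2.2.2.2.2.2.2.2.2.2.1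
    have h5 := (hN1 _ _ _ _ hA).1
    have h6 := inn_le (p := p) (N := N) (Ev := ev0) hb hy.le hA (fun t ht _ => ht)
    refine h6.trans ((mul_le_mul_of_nonneg_left h5 (by norm_num)).trans ?_)
    have h7 := kpU_le (p := p) (N := N) (C := C) (c := 1) (y := y) hC.le zero_le_one hD hD' x
    rwa [mul_one] at h7

theorem part3 (hPHU : SpecPHU) (hH1a : SpecH1a) (hH1c : SpecH1c) :
    ∃ C : ℝ, 0 < C ∧ Good (fun p => ∀ᶠ N : ℕ in atTop, ∀ x ∈ Gam N 1 3, ∀ q ∈ PP p N,
      Zh p N (1 / 6) (evB q) x ≤ C / (q : ℝ) ^ 2 * (Tu p N x * Tv p N x) * pf p N C x ∧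
      Zh p N (1 / 6) (evL q) x ≤ C / (q : ℝ) * (Tu p N x * Tv p N x) * pf p N C x ∧
      Zh p N (1 / 6) (evM q) x ≤ (if q ∣ vl (Md x) then
        C / (q : ℝ) * (Tu p N x * Tv p N x) * pf p N C x else 0) ∧
      Zh p N (1 / 6) (evN q) x ≤ (if q ∣ vl (Md x) then
        C * (Tu p N x * Tv p N x) * pf p N C x else 0)) := by
  obtain ⟨C, hC, hG⟩ := hPHU (1 / 6) (1 / 6) (1 / 6) (by norm_num) (by norm_num) (by norm_num)
    (by norm_num) (by norm_num) (by norm_num)
  obtain ⟨D, hD0, hD, hD'⟩ := exists_D hC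
  refine ⟨D, hD0, (hG.and (hH1a.and ((hH1c 0 0).and good_bas))).mono ?_⟩
  rintro p ⟨h1, h2, h3, h4⟩
  filter_upwards [h1, h2, h3, h4] with N hN1 hN2 hN3 hb x hx q hq
  have hpf := pf_nonneg (p := p) (N := N) (C := D) hD0.le x
  have hTT := mul_nonneg (Tu_nonneg (p := p) (N := N) x) (Tv_nonneg (p := p) (N := N) x)
  have hq0 : 0 < (q : ℝ) := by exact_mod_cast (prime_of_mem_PP hq).pos
  have h16 : (0 : ℝ) ≤ 1 / 6 := by norm_num
  -- the general scheme
  have key : ∀ (Ev : Rl → Prop) (c : ℝ), 0 ≤ c →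
      (∀ a ∈ DA p N, fits p N a x → ∃ s : Finset (ℤ × ℕ),
        (∀ t ∈ S2 p N (Md x) (dG a) (Pd a x) (Qd a x), Ev (rel a t x) → t ∈ s) ∧
        ∑ t ∈ s, vh p N (1 / 6) (1 / 6) (1 / 6) (Md x, dG a, Pd a x, Qd a x, t) ≤
          kpU p N (Md x) (3 - 1 / 6 - 1 / 6 - 1 / 6) C * c) →
      Zh p N (1 / 6) Ev x ≤ D * c * (Tu p N x * Tv p N x) * pf p N D x := by
    intro Ev c hc hEv
    have h := Zh_le (p := p) (N := N) (y := 1 / 6) (Ev := Ev) (x := x)
      (B := D * c * Real.exp (-((1 / 2 - 3 * (1 / 6)) * S0 p N)) * pf p N D x)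
      (by positivity) (fun a ha => ?_) (hN3 x hx).1
    · refine h.trans (le_of_eq ?_)
      rw [show -((1 / 2 - 3 * (1 / 6 : ℝ)) * S0 p N) = 0 by ring, Real.exp_zero]
      ring
    · unfold fs at ha
      rw [mem_filter] at ha
      have hA := (hN2 x hx a ha.1 ha.2).2.2.2.2.2.2.2.2.2.2.1
      obtain ⟨s, hs, h5⟩ := hEv a ha.1 ha.2
      exact (inn_le hb h16 hA hs).trans ((mul_le_mul_of_nonneg_left h5 (by norm_num)).trans
        (kpU_le hC.le hc hD hD' x))
  have hadm : ∀ a ∈ DA p N, fits p N a x → Adm p N (Md x) (dG a) (Pd a x) (Qd a x) :=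
    fun a ha hf => (hN2 x hx a ha hf).2.2.2.2.2.2.2.2.2.2.1
  have hB : Zh p N (1 / 6) (evB q) x ≤
      D * (1 / (q : ℝ) ^ 2) * (Tu p N x * Tv p N x) * pf p N D x := by
    refine key _ _ (by positivity) fun a ha hf => ?_
    have h := ((hN1 _ _ _ _ (hadm a ha hf)).2 q hq).1
    refine ⟨_, ?_, h.trans (le_of_eq (div_eq_mul_one_div _ _))⟩
    exact fun t ht hE => mem_filter.2 ⟨ht, hE⟩
  have hL : Zh p N (1 / 6) (evL q) x ≤
      D * (1 / (q : ℝ)) * (Tu p N x * Tv p N x) * pf p N D x := by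
    refine key _ _ (by positivity) fun a ha hf => ?_
    have h := ((hN1 _ _ _ _ (hadm a ha hf)).2 q hq).2
    refine ⟨_, ?_, h.trans (le_of_eq (div_eq_mul_one_div _ _))⟩
    exact fun t ht hE => mem_filter.2 ⟨ht, hE⟩
  -- monotonicity in the event, and the empty event
  have hzero : ∀ Ev : Rl → Prop, (∀ a t, ¬ Ev (rel a t x)) → Zh p N (1 / 6) Ev x = 0 := by
    intro Ev hEv
    rw [Zh_eq]
    have : ∑ a ∈ fs p N x, inn p N (1 / 6) Ev a x = 0 := by
      refine sum_eq_zero fun a _ => ?_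
      unfold inn
      rw [filter_false_of_mem fun t _ => hEv a t, sum_empty]
    rw [this, mul_zero]
  refine ⟨?_, ?_, ?_, ?_⟩
  · refine hB.trans (le_of_eq ?_)
    ring
  · refine hL.trans (le_of_eq ?_)
    ring
  · split_ifs with hqM
    · have h : Zh p N (1 / 6) (evM q) x ≤
          D * (1 / (q : ℝ)) * (Tu p N x * Tv p N x) * pf p N D x := by
        refine key _ _ (by positivity) fun a ha hf => ?_
        have h := ((hN1 _ _ _ _ (hadm a ha hf)).2 q hq).2
        refine ⟨_, ?_, h.trans (le_of_eq (div_eq_mul_one_div _ _))⟩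
        exact fun t ht hE => mem_filter.2 ⟨ht, hE.2⟩
      refine h.trans (le_of_eq ?_)
      ring
    · exact (hzero _ fun a t h => hqM h.1).le
  · split_ifs with hqM
    · have h : Zh p N (1 / 6) (evN q) x ≤
          D * 1 * (Tu p N x * Tv p N x) * pf p N D x := by
        refine key _ _ zero_le_one fun a ha hf => ⟨_, fun t ht _ => ht, ?_⟩
        rw [mul_one]
        exact (hN1 _ _ _ _ (hadm a ha hf)).1
      refine h.trans (le_of_eq ?_)
      ring
    · exact (hzero _ fun a t h => hqM h).le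

theorem specHP (hPHI : SpecPHI) (hPHU : SpecPHU) (hH1a : SpecH1a) (hH1c : SpecH1c) : SpecHP :=
  ⟨part1 hPHI hH1a hH1c, part2 hPHU hH1a hH1c, part3 hPHU hH1a hH1c⟩

end Pool.Agent.Lib.MP391708.TG.H.HPM

namespace Pool.Agent.Lib.MP391708.TG.H

variable [Pool.Agent.Lib.MP391708.TG.Aa] [Pool.Agent.Lib.MP391708.TG.Frm]

theorem specHP (hPHI : SpecPHI) (hPHU : SpecPHU) (hH1a : SpecH1a) (hH1c : SpecH1c) : SpecHP :=
  HPM.specHP hPHI hPHU hH1a hH1c

end Pool.Agent.Lib.MP391708.TG.H
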