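import Pool.Agent.Lib.MP_391708_nt.TG.HSb
import Pool.Agent.Lib.MP_391708_nt.TG.HSd

/-!
# T1, group H: the second moment (`SpecHS`)
-/

set_option autoImplicit false

namespace Pool.Agent.Lib.MP391708.TG.H

variable [Pool.Agent.Lib.MP391708.TG.Aa] [Pool.Agent.Lib.MP391708.TG.Frm]

/-- **HS** -/
theorem specHS (hAUT : SpecAUT) (h1 : SpecH1a) (h2 : SpecH2) (h3 : SpecH3) (hC : SpecCMP)
    (hCNT : SpecCNT) (hNG : SpecNG) (hA2 : SpecA2) (hA3 : SpecA3) (hHW : SpecHW) : SpecHS :=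
  specHS_of hAUT hCNT hNG hA2 hA3 hHW (specHSg h1 h2 h3 hC)

end Pool.Agent.Lib.MP391708.TG.H
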