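import Pool.Agent.Lib.MP_391708_nt.T4.Spec
import Pool.Agent.Lib.MP_391708_nt.TA.Chi

/-!
# Theorem T1b: positive proportion of both signs of `g (|n² + a|)`, `a < 0`, `-a` not a square:
definitions (port of `TF/Defs.lean`)

CHANGES against TF: `aa = |a| : ℕ`, `az = a = -aa : ℤ`, `vl M = |M² + a| : ℕ`;
`(aa : ℤ) ⟶ az`, `M ^ 2 + aa` in `ℕ` `⟶ vl M`.  The form `F = A s² + 2 B s t + C t²` of determinant
`a` is indefinite, and comes with an automorphism and the half-open cone `Cn` between `(1, 0)` and its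
image, on whose closure `F > 0`;
`Gam` has the conditions `Cn x.1 ∧ 0 < dd x ∧ 0 < ee x`; `IsR` and `Adm` have the condition
`aa < M ^ 2`, so `(vl M : ℤ) = M ^ 2 + az` (`vl_cast`) for all relations and all pairs of `Gam`.
-/

set_option autoImplicit false

namespace Pool.Agent.Lib.MP391708.TG

open Finset Filter Topology
open Pool.Agent.Lib.MP391708.Eqd (V cross pairs)
open scoped Classical

export Pool.Agent.Lib.MP391708.T4 (Prm Good zz Y1 Y2 Y3 Y4 ML W0 ep tame wn dn VV cg cls Per mean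
  Loc prim Rl rM rG rP rQ rD rX D2 F1 F2 rT rR M4 M2 M3 role4 role2 role3 rbox Wts lam dbox w2 w3 w4)

noncomputable section

/-! ## The determinant and the form -/

/-- `-a ≥ 1` squarefree, not `1` -/
class Aa where
  a : ℕ
  ha : 0 < a
  sqf : Squarefree a
  nsq : TA.Nsq (-(a : ℤ))

/-- the absolute value of the determinant -/
def aa [Aa] : ℕ := Aa.a

/-- the determinant -/
def az [Aa] : ℤ := -((Aa.a : ℕ) : ℤ)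

/-- the value `|M² + a|` -/
def vl [Aa] (M : ℕ) : ℕ := ((M : ℤ) ^ 2 + az).natAbs

/-- an indefinite form `F = A s² + 2 B s t + C t²` of determinant `a < 0` (content allowed), `A > 0`,
with a proper automorphism `μ = (P, Q; R, S)` (as in `SR.Au`); the image `(P, R)` of `(1, 0)` is above
`(1, 0)` in the same component of `F > 0` -/
class Frm [Aa] where
  A : ℤ
  B : ℤ
  C : ℤ
  hA : 0 < A
  det : A * C - B ^ 2 = az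
  P : ℤ
  Q : ℤ
  R : ℤ
  S : ℤ
  mdet : P * S - Q * R = 1
  inv : ∀ v w : V, A * ((P * v.1 + Q * v.2) * (P * w.1 + Q * w.2)) +
    B * ((P * v.1 + Q * v.2) * (R * w.1 + S * w.2) + (R * v.1 + S * v.2) * (P * w.1 + Q * w.2)) +
    C * ((R * v.1 + S * v.2) * (R * w.1 + S * w.2)) =
    A * (v.1 * w.1) + B * (v.1 * w.2 + v.2 * w.1) + C * (v.2 * w.2)
  rpos : 0 < R
  bpos : 0 < A * P + B * R

/-- the image of `(1, 0)` -/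
def ce [Aa] [Frm] : V := (Frm.P, Frm.R)

/-- the half-open cone between `(1, 0)` and `ce`; a fundamental domain of one component of `F > 0` if
`μ` generates the automorphisms up to sign -/
def Cn [Aa] [Frm] (v : V) : Prop := 0 ≤ v.2 ∧ 0 < cross v ce

/-- the form -/
def nsq [Aa] [Frm] (v : V) : ℤ := Frm.A * v.1 ^ 2 + 2 * Frm.B * v.1 * v.2 + Frm.C * v.2 ^ 2

/-- its bilinear form -/
def dot [Aa] [Frm] (v w : V) : ℤ :=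
  Frm.A * (v.1 * w.1) + Frm.B * (v.1 * w.2 + v.2 * w.1) + Frm.C * (v.2 * w.2)

/-- the split primes: `χ(l) = 1`, `χ = χ_{-4a}` -/
def spl [Aa] (l : ℕ) : Prop := TA.chz az l = 1

/-- the character `χ_{-4a}` -/
def ch [Aa] (l : ℕ) : ℝ := TA.ch az l

/-- `∏_{l ∣ D} (1 - χ(l)/l)` -/
def rp [Aa] (D : ℕ) : ℝ := ∏ l ∈ D.primeFactors, (1 - ch l / l)

/-- the constant `2 L(1, χ)` (`π / 2` for `a = 1`) -/
def cE [Aa] : ℝ := 2 * TA.LL az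

/-! ## Sieving primes -/

/-- the sieving primes: `χ(l) = 1`, `E < l < z` -/
def PP [Aa] (p : Prm) (N : ℕ) : Finset ℕ :=
  (range ⌈zz p N⌉₊).filter (fun l => l.Prime ∧ spl l ∧ p.E < l)

/-- the part of `n` composed of sieving primes -/
def sm [Aa] (p : Prm) (N : ℕ) (n : ℕ) : ℕ := ∏ l ∈ PP p N, l ^ n.factorization l

/-- the number of sieving primes dividing `n` -/
def om [Aa] (p : Prm) (N : ℕ) (n : ℕ) : ℕ := ((PP p N).filter (fun l => l ∣ n)).card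

/-- `e ^ S0 ≍ log z` -/
def S0 [Aa] (p : Prm) (N : ℕ) : ℝ := ∑ l ∈ PP p N, 2 / (l : ℝ)

/-! ## Unimodular pairs of vectors `x = (v, w)`, `cross v w = -1` -/

/-- `M = B_F(v, w)` -/
def mm [Aa] [Frm] (x : VV) : ℤ := dot x.1 x.2
/-- `d = F(v)` -/
def dd [Aa] [Frm] (x : VV) : ℤ := nsq x.1
/-- `e = F(w)` -/
def ee [Aa] [Frm] (x : VV) : ℤ := nsq x.2

/-- `F(s v + t w)`; for `x` unimodular a quadratic form of determinant `a` -/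
def qf [Aa] [Frm] (x : VV) (s t : ℤ) : ℤ := dd x * s ^ 2 + 2 * mm x * s * t + ee x * t ^ 2

/-- a factor for boxes: all `x` with `cross = -1`, `Cn x.1`, `0 ≤ mm x ≤ 2 N`, `0 < dd x`, `0 < ee x`
are in `pairs 1 (bF (N + 1)²)` -/
def bF [Aa] [Frm] : ℕ :=
  100 * (Frm.A.natAbs + Frm.B.natAbs + Frm.C.natAbs + aa + (Frm.P.natAbs + Frm.R.natAbs + 1) + 1) ^ 2

/-- unimodular, `v` in the cone, `d, e > 0` -/
def CC [Aa] [Frm] (x : VV) : Prop := cross x.1 x.2 = -1 ∧ Cn x.1 ∧ 0 < dd x ∧ 0 < ee x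

/-- the unimodular pairs with `v` in the cone, `d, e > 0`, `N < M ≤ 2N`, `α M < d ≤ β M` -/
def Gam [Aa] [Frm] (N : ℕ) (α β : ℝ) : Finset VV :=
  (pairs 1 (bF * (N + 1) ^ 2)).filter (fun x => (Cn x.1 ∧ 0 < dd x ∧ 0 < ee x) ∧ (N : ℤ) < mm x ∧ mm x ≤ 2 * N ∧
    α * (mm x : ℝ) < (dd x : ℝ) ∧ (dd x : ℝ) ≤ β * (mm x : ℝ))

/-- squarefree, all prime factors `≥ z`, split -/
def Rgh [Aa] (p : Prm) (N : ℕ) (H : ℕ) : Prop :=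
  Squarefree H ∧ ∀ l : ℕ, l.Prime → l ∣ H → zz p N ≤ (l : ℝ) ∧ spl l

/-! ## Relations -/

/-- the relation -/
def IsR [Aa] (r : Rl) : Prop :=
  aa < rM r ^ 2 ∧ 0 < rG r ∧ 0 < rP r ∧ 0 < rQ r ∧ rD r ≠ 0 ∧ 0 < rX r ∧ rG r * rP r * rQ r = vl (rM r) ∧
    rD r ∣ (rX r : ℤ) - rG r ∧ (rX r : ℤ) ∣ F1 r ∧ Nat.Coprime (rG r) (rX r)

/-- conditions at the primes `≤ E` -/
def small [Aa] (p : Prm) (r : Rl) : Prop :=
  (W0 p : ℤ) ∣ rD r ∧ (W0 p : ℤ) ∣ D2 r ∧ Nat.Coprime (rG r * rX r) (W0 p) ∧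
    tame p (vl (rM r))

/-- the general set of relations -/
def RG [Aa] (p : Prm) (N : ℕ) : Finset Rl := (rbox (10000 * (N + 1) ^ 2)).filter (fun r =>
  IsR r ∧ small p r ∧ N ≤ 2 * rM r ∧ rM r ≤ 8 * N ∧
  (rM r : ℤ) ≤ 3 * (|rD r| * rP r) ∧ |rD r| * rP r ≤ 10 * rM r ∧
  |D2 r| * rQ r * rM r ≤ 10 * ((rM r : ℤ) ^ 2 + az) ∧
  rX r ≤ 100 * rG r ∧ rG r ≤ 100 * rX r ∧
  Squarefree (rG r) ∧ Squarefree (rX r) ∧ IsCoprime (rD r) (rG r : ℤ) ∧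
  (∀ l : ℕ, l.Prime → (l : ℤ) ∣ rD r → l ∣ rQ r → l ≤ p.E) ∧
  (∀ l ∈ PP p N, ¬ l ^ 2 ∣ vl (rM r)) ∧
  (sm p N (vl (rM r)) : ℝ) ≤ zz p N ^ (4 * p.K) ∧ (sm p N (rX r) : ℝ) ≤ zz p N ^ (4 * p.K) ∧
  Y1 p N / zz p N ^ (4 * p.K) ≤ (|rD r| : ℝ) ∧ (|rD r| : ℝ) ≤ Y2 p N * zz p N ^ (4 * p.K) ∧
  Y1 p N * Y3 p N ≤ 10 * (rG r : ℝ) ∧
  (rG r : ℝ) ≤ 10 * (Y2 p N * Y4 p N * zz p N ^ (4 * p.K)))

/-- the relations at `M` in the critical window, with all conditions -/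
def RP [Aa] (p : Prm) (e₁ : ℝ) (N : ℕ) : Finset Rl := (rbox (10000 * (N + 1) ^ 2)).filter (fun r =>
  IsR r ∧ small p r ∧ N < rM r ∧ rM r ≤ 2 * N ∧
  2 * (rM r : ℤ) < rD r * rP r ∧ rD r * rP r ≤ 3 * (rM r : ℤ) ∧
  (rM r : ℤ) ^ 2 + az ≤ D2 r * rQ r * rM r ∧ D2 r * rQ r * rM r < 2 * ((rM r : ℤ) ^ 2 + az) ∧
  Squarefree (rG r) ∧ Squarefree (rX r) ∧ IsCoprime (rD r) (rG r : ℤ) ∧
  (∀ l : ℕ, l.Prime → (l : ℤ) ∣ rD r → l ∣ rQ r → l ≤ p.E) ∧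
  (∃ u v : ℕ, u.Prime ∧ v.Prime ∧ Y1 p N ≤ (u : ℝ) ∧ (u : ℝ) ≤ Y2 p N ∧ Y3 p N ≤ (v : ℝ) ∧
    (v : ℝ) ≤ Y4 p N ∧ rG r = sm p N (rG r) * u * v) ∧
  (∀ l ∈ PP p N, ¬ l ^ 2 ∣ rG r * rP r * rQ r * rX r * rT r * rR r) ∧
  Y1 p N / zz p N ^ (4 * p.K) ≤ (rD r : ℝ) ∧ (rD r : ℝ) ≤ Y2 p N * zz p N ^ (4 * p.K) ∧
  (sm p N (rX r) : ℝ) ≤ zz p N ^ p.K ∧
  (sm p N (vl (rM r)) : ℝ) ≤ zz p N ^ (2 * p.K) ∧
  (sm p N (vl (M2 r).natAbs) : ℝ) ≤ zz p N ^ (4 * p.K) ∧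
  (sm p N (vl (M3 r).natAbs) : ℝ) ≤ zz p N ^ (4 * p.K) ∧
  (sm p N (vl (M4 r).natAbs) : ℝ) ≤ zz p N ^ (4 * p.K) ∧
  (2 - e₁) * S0 p N ≤ (om p N (vl (rM r)) : ℝ) ∧
  (1 / 2 - e₁) * S0 p N ≤ (om p N (rX r) + om p N (rT r) + om p N (rR r) : ℝ))

/-- the tilt at the linear forms, over the sieving primes not dividing `(M² + a) X` -/
def tilt [Aa] (p : Prm) (N : ℕ) (bT bR : ℝ) (r : Rl) : ℝ :=
  ∏ l ∈ (PP p N).filter (fun l => ¬ l ∣ (vl (rM r)) * rX r),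
    (if (l : ℤ) ∣ F1 r then bT else 1) * (if (l : ℤ) ∣ F2 r then bR else 1)

/-- the general weight -/
def UW [Aa] (p : Prm) (N : ℕ) (c : Wts) (r : Rl) : ℝ :=
  Real.exp (c.tau * S0 p N) / rp (rD r).natAbs * c.cG ^ om p N (rG r) * c.cP ^ om p N (rP r) *
    c.cQ ^ om p N (rQ r) * c.al ^ om p N (rX r) * tilt p N c.bT c.bR r

/-- the weight in the critical window, up to a bounded factor -/
def WC [Aa] (p : Prm) (N : ℕ) (r : Rl) : ℝ :=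
  Real.exp (5 / 2 * S0 p N) / rp (rD r).natAbs * (1 / 3 : ℝ) ^ om p N (vl (rM r)) *
    (1 / 6 : ℝ) ^ (om p N (rX r) + om p N (rT r) + om p N (rR r))

/-- the weight of `(D, X)` with `X ∣ F₁` replaced by its probability at the primes `≥ z` -/
def vh [Aa] (p : Prm) (N : ℕ) (al bT bR : ℝ) (r : Rl) : ℝ :=
  1 / rp (rD r).natAbs * al ^ om p N (rX r) * dn (rX r / sm p N (rX r)) *
    (if (sm p N (rX r) : ℤ) ∣ F1 r then 1 else 0) * tilt p N bT bR r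

/-- the number of critical divisors -/
def nu [Aa] (M : ℕ) : ℕ := ((vl M).divisors.filter (fun d => M < d ∧ d ≤ 3 * M)).card

/-! ## The sums over `(D, X)` -/

/-- the sizes of `(M, G, P, Q)` -/
def Adm [Aa] (p : Prm) (N M G P Q : ℕ) : Prop :=
  aa < M ^ 2 ∧ G * P * Q = vl M ∧ N ≤ 2 * M ∧ M ≤ 8 * N ∧ Nat.Coprime G (W0 p) ∧ tame p (vl M) ∧
  (P : ℝ) * Y1 p N ≤ 10 * M * zz p N ^ (4 * p.K) ∧
  (M : ℝ) ≤ 10 * P * (Y2 p N * zz p N ^ (4 * p.K)) ∧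
  Y1 p N * Y3 p N ≤ 10 * (G : ℝ) ∧ (G : ℝ) ≤ 10 * (Y2 p N * Y4 p N * zz p N ^ (4 * p.K))

/-- common conditions on `(D, X)` -/
def DX [Aa] (p : Prm) (M G P Q : ℕ) (t : ℤ × ℕ) : Prop :=
  t.1 ≠ 0 ∧ t.1 ∣ (t.2 : ℤ) - G ∧ (W0 p : ℤ) ∣ t.1 ∧ (W0 p : ℤ) ∣ D2 (M, G, P, Q, t) ∧
  Nat.Coprime t.2 (W0 p) ∧ Squarefree t.2 ∧ (∀ l : ℕ, l.Prime → l ∣ t.2 → spl l) ∧
  Nat.Coprime G t.2 ∧ IsCoprime t.1 (G : ℤ)

/-- role 1: the `(D, X)` in the critical window -/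
def S1 [Aa] (p : Prm) (N M G P Q : ℕ) : Finset (ℤ × ℕ) := (dbox N).filter (fun t =>
  DX p M G P Q t ∧ 2 * (M : ℤ) < t.1 * P ∧ t.1 * P ≤ 3 * (M : ℤ) ∧
  (M : ℤ) ^ 2 + az ≤ D2 (M, G, P, Q, t) * Q * M ∧
  D2 (M, G, P, Q, t) * Q * M < 2 * ((M : ℤ) ^ 2 + az) ∧
  (∀ l ∈ PP p N, (l : ℤ) ∣ t.1 → ¬ l ∣ Q) ∧ (∀ l ∈ PP p N, l ∣ t.2 → ¬ l ∣ vl M) ∧
  (sm p N t.2 : ℝ) ≤ zz p N ^ p.K)

/-- general: the `(D, X)` in a wide window -/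
def S2 [Aa] (p : Prm) (N M G P Q : ℕ) : Finset (ℤ × ℕ) := (dbox N).filter (fun t =>
  DX p M G P Q t ∧ (M : ℤ) ≤ 3 * (|t.1| * P) ∧ |t.1| * P ≤ 10 * (M : ℤ) ∧
  |D2 (M, G, P, Q, t)| * Q * M ≤ 10 * ((M : ℤ) ^ 2 + az) ∧
  t.2 ≤ 100 * G ∧ G ≤ 100 * t.2 ∧ (∀ l ∈ PP p N, (l : ℤ) ∣ t.1 → ¬ l ∣ Q) ∧
  (sm p N t.2 : ℝ) ≤ zz p N ^ (4 * p.K))

/-- the expected size `e^{-τ S0} / W₀²` -/
def kp [Aa] (p : Prm) (N : ℕ) (τ : ℝ) : ℝ := Real.exp (-(τ * S0 p N)) / (W0 p : ℝ) ^ 2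

/-- the right side of PHU -/
def kpU [Aa] (p : Prm) (N M : ℕ) (τ C : ℝ) : ℝ :=
  C * kp p N τ * ∏ l ∈ (PP p N).filter (fun l => l ∣ vl M), (1 + C / l)

/-- the nongeneric pairs of relations with `P / P'` small -/
def NGp [Aa] (p : Prm) (N : ℕ) : Finset (Rl × Rl) := (RG p N ×ˢ RG p N).filter (fun t =>
  rM t.1 = rM t.2 ∧ t.1 ≠ t.2 ∧ ep p (rP t.1) = ep p (rP t.2) ∧
  (∃ n n' : ℕ, 0 < n ∧ 0 < n' ∧ (n : ℝ) ≤ Y2 p N * zz p N ^ (4 * p.K) ∧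
    (n' : ℝ) ≤ Y2 p N * zz p N ^ (4 * p.K) ∧ rP t.1 * n = rP t.2 * n') ∧
  ∃ l : ℕ, l.Prime ∧ zz p N ≤ (l : ℝ) ∧
    ((l ∣ rX t.1 ∧ l ∣ rX t.2 * rG t.2) ∨ (l ∣ rX t.2 ∧ l ∣ rX t.1 * rG t.1)))

/-! ## The determinant: `az`, `vl` -/

section det

variable [Aa]

lemma az_eq : az = -(aa : ℤ) := rfl

lemma az_neg : az < 0 := by
  have : (0 : ℤ) < (aa : ℤ) := by exact_mod_cast Aa.ha
  rw [az_eq]
  linarith

lemma az_ne : az ≠ 0 := az_neg.ne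

lemma az_natAbs : az.natAbs = aa := by rw [az_eq, Int.natAbs_neg, Int.natAbs_natCast]

lemma abs_az : |az| = (aa : ℤ) := by rw [az_eq, abs_neg, Nat.abs_cast]

lemma nsq_az : TA.Nsq az := Aa.nsq

/-- `|M² + a| = M² + a` for `M² > -a` -/
lemma vl_cast {M : ℕ} (h : aa < M ^ 2) : ((vl M : ℕ) : ℤ) = (M : ℤ) ^ 2 + az := by
  unfold vl
  rw [Int.natCast_natAbs, abs_of_pos]
  rw [az_eq]
  have : (aa : ℤ) < (M : ℤ) ^ 2 := by exact_mod_cast h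
  linarith

lemma vl_castR {M : ℕ} (h : aa < M ^ 2) : ((vl M : ℕ) : ℝ) = (M : ℝ) ^ 2 + (az : ℝ) := by
  have := vl_cast h
  exact_mod_cast this

lemma vl_castR' {M : ℕ} (h : aa < M ^ 2) : ((vl M : ℕ) : ℝ) = (M : ℝ) ^ 2 - (aa : ℝ) := by
  rw [vl_castR h, az_eq]
  push_cast
  ring

/-- `vl M + aa = M ^ 2` -/
lemma vl_add {M : ℕ} (h : aa < M ^ 2) : vl M + aa = M ^ 2 := by
  have h1 := vl_cast h
  have h2 := az_eq
  have : ((vl M + aa : ℕ) : ℤ) = ((M ^ 2 : ℕ) : ℤ) := by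
    push_cast
    rw [h1, h2]
    ring
  exact_mod_cast this

lemma vl_pos {M : ℕ} (h : aa < M ^ 2) : 0 < vl M := by
  have := vl_add h
  omega

lemma vl_lt {M : ℕ} (h : aa < M ^ 2) : vl M < M ^ 2 := by
  have := vl_add h
  have : 0 < aa := Aa.ha
  omega

lemma vl_le {M : ℕ} (h : aa < M ^ 2) : vl M ≤ M ^ 2 := (vl_lt h).le

/-- `|M² + a| ≤ M² + |a|` for every `M` -/
lemma vl_le_add (M : ℕ) : vl M ≤ M ^ 2 + aa := by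
  unfold vl
  refine (Int.natAbs_add_le _ _).trans ?_
  rw [az_natAbs, Int.natAbs_pow, Int.natAbs_natCast]

/-- divisibility of `vl M`, every `M` -/
lemma natCast_dvd_vl {d M : ℕ} : d ∣ vl M ↔ (d : ℤ) ∣ (M : ℤ) ^ 2 + az := by
  unfold vl
  rw [← Int.natCast_dvd]

lemma vl_natAbs (z : ℤ) : vl z.natAbs = (z ^ 2 + az).natAbs := by
  unfold vl
  rw [Int.natCast_natAbs, sq_abs]

lemma vl_toNat {z : ℤ} (hz : 0 ≤ z) : vl z.toNat = (z ^ 2 + az).natAbs := by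
  unfold vl
  rw [Int.toNat_of_nonneg hz]

end det

end

end Pool.Agent.Lib.MP391708.TG
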