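import Pool.Agent.Lib.MP_391708_nt.TG.SpecH
import Pool.Agent.Lib.MP_391708_nt.TG.Basic
import Pool.Agent.Lib.MP_391708_nt.TG1.FuS
import Pool.Agent.Lib.MP_391708_nt.TA.LLX
import Pool.Agent.Lib.MP_391708_nt.T1.GoodL

/-!
# Group H: the weight on `RP` (`SpecHW`)

`X ≤ 7 G`, `tilt = y ^ (om T + om R)` (a sieving prime divides at most one of the six numbers),
`Su, Sv ≥ 1`.
-/

set_option autoImplicit false

namespace Pool.Agent.Lib.MP391708.TG.H

variable [Pool.Agent.Lib.MP391708.TG.Aa]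

open Finset Filter Topology
open Pool.Agent.Lib.MP391708.Eqd (V cross pairs)
open scoped Classical

noncomputable section

namespace HWx

theorem mem_Uu {p : Prm} {N u : ℕ} : u ∈ Uu p N ↔ Y1 p N ≤ u ∧ (u : ℝ) ≤ Y2 p N ∧
    u.Prime ∧ spl u := by
  unfold Uu
  rw [mem_filter, mem_range]
  constructor
  · rintro ⟨-, h1, h2, h3, h4⟩
    exact ⟨h3, h4, h1, h2⟩
  · rintro ⟨h3, h4, h1, h2⟩
    exact ⟨Nat.lt_succ_of_le (Nat.le_floor h4), h1, h2, h3, h4⟩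

theorem mem_Vv {p : Prm} {N v : ℕ} : v ∈ Vv p N ↔ Y3 p N ≤ v ∧ (v : ℝ) ≤ Y4 p N ∧
    v.Prime ∧ spl v := by
  unfold Vv
  rw [mem_filter, mem_range]
  constructor
  · rintro ⟨-, h1, h2, h3, h4⟩
    exact ⟨h3, h4, h1, h2⟩
  · rintro ⟨h3, h4, h1, h2⟩
    exact ⟨Nat.lt_succ_of_le (Nat.le_floor h4), h1, h2, h3, h4⟩

/-! ## Lower bounds for `Su`, `Sv` -/

theorem S_lower {C : ℝ} (hC0 : 0 < C) (hC : ∀ z a b : ℝ, 3 ≤ z → 1 ≤ a → a ≤ b →
    |TG1.S1 (z ^ a) (z ^ b) - Real.log (b / a)| ≤ C) {z : ℝ} (hz : 3 ≤ z) {a r : ℕ} (ha : 1 ≤ a)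
    {L : ℝ} (hL : 0 ≤ L) (hr : Real.exp (C + L) ≤ r) : L ≤ TG1.S1 (z ^ a) (z ^ (r * a)) := by
  have hr1 : (1 : ℝ) ≤ r := (Real.one_le_exp (by positivity)).trans hr
  have ha1 : (1 : ℝ) ≤ a := by exact_mod_cast ha
  have hab : (a : ℝ) ≤ ((r * a : ℕ) : ℝ) := by push_cast; nlinarith
  have h := hC z a ((r * a : ℕ) : ℝ) hz ha1 hab
  rw [Real.rpow_natCast, Real.rpow_natCast] at h
  have e : ((r * a : ℕ) : ℝ) / (a : ℝ) = r := by
    push_cast
    field_simp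
  rw [e] at h
  have h2 : C + L ≤ Real.log r := by
    rw [Real.le_log_iff_exp_le (by linarith)]
    exact hr
  have h3 := (abs_le.1 h).1
  linarith

/-- `Su` and `Sv` are large -/
theorem good_SuSv (L : ℝ) (hL : 0 ≤ L) :
    Good (fun p => ∀ᶠ N : ℕ in atTop, L ≤ Su p N ∧ L ≤ Sv p N) := by
  obtain ⟨C, hC0, hC⟩ := TG1.S1_pow
  refine ⟨0, fun E _ => ⟨0, fun K _ => ⟨⌈Real.exp (C + L)⌉₊ + 1, fun r hr => ⟨1, fun k hk =>
    ⟨1, one_pos, fun ζ hζ _ => ?_⟩⟩⟩⟩⟩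
  have h1 : Tendsto (fun N : ℕ => (N : ℝ) ^ ζ) atTop atTop :=
    (tendsto_rpow_atTop hζ).comp tendsto_natCast_atTop_atTop
  have hr' : Real.exp (C + L) ≤ r := by
    refine (Nat.le_ceil _).trans ?_
    exact_mod_cast (Nat.le_succ _).trans hr
  have hr1 : 1 ≤ r := le_trans (Nat.le_add_left 1 _) hr
  filter_upwards [h1.eventually_ge_atTop 3] with N hN
  have hz : (3 : ℝ) ≤ zz ⟨E, K, r, k, ζ⟩ N := hN
  have hz0 : (0 : ℝ) < zz ⟨E, K, r, k, ζ⟩ N := by linarith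
  constructor
  · have h2 := S_lower hC0 hC hz (a := k) (r := r) hk hL hr'
    refine h2.trans ?_
    unfold TG1.S1 Su
    refine sum_le_sum_of_subset_of_nonneg (fun l hl => ?_) fun _ _ _ => by positivity
    obtain ⟨h3, h4, h5, h6⟩ := (TG1.mem_P1 (by positivity)).1 hl
    exact mem_Uu.2 ⟨h3.le, h4, h5, h6⟩
  · have h2 := S_lower hC0 hC hz (a := 10 * r * k) (r := r)
      (Nat.mul_pos (Nat.mul_pos (by norm_num) hr1) hk) hL hr'
    refine h2.trans ?_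
    have e : r * (10 * r * k) = 10 * r ^ 2 * k := by ring
    rw [e]
    unfold TG1.S1 Sv
    refine sum_le_sum_of_subset_of_nonneg (fun l hl => ?_) fun _ _ _ => by positivity
    obtain ⟨h3, h4, h5, h6⟩ := (TG1.mem_P1 (by positivity)).1 hl
    exact mem_Vv.2 ⟨h3.le, h4, h5, h6⟩

/-! ## Relations -/

section
variable {r : Rl}

theorem D_mul_D2 (h : IsR r) : rD r * D2 r = (rX r : ℤ) - rG r :=
  Int.mul_ediv_cancel' h.2.2.2.2.2.2.2.1

theorem isCoprime_D_X (h : IsR r) (hc : IsCoprime (rD r) (rG r : ℤ)) :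
    IsCoprime (rD r) (rX r : ℤ) := by
  have h1 := hc.add_mul_left_right (D2 r)
  rw [D_mul_D2 h] at h1
  rwa [add_sub_cancel] at h1

theorem X_dvd_F2 (h : IsR r) (hc : IsCoprime (rD r) (rG r : ℤ)) : (rX r : ℤ) ∣ F2 r := by
  have hDD := D_mul_D2 h
  obtain ⟨k, hk⟩ := h.2.2.2.2.2.2.2.2.1
  have e : rD r ^ 2 * F2 r = rX r * (rG r * k + (rQ r * rX r - 2 * rQ r * rG r +
      2 * rM r * rD r)) := by
    have e1 : rD r ^ 2 * F2 r = rQ r * (rD r * D2 r) ^ 2 + 2 * rM r * rD r * (rD r * D2 r) +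
        rG r * rP r * rD r ^ 2 := by
      unfold F2
      ring
    have e2 : (rX r : ℤ) * k = rP r * rD r ^ 2 - 2 * rM r * rD r + rG r * rQ r := by
      rw [← hk]
      rfl
    rw [e1, hDD]
    linear_combination (-(rG r : ℤ)) * e2
  have h2 : IsCoprime (rX r : ℤ) (rD r ^ 2) := ((isCoprime_D_X h hc).pow_left).symm
  exact h2.dvd_of_dvd_mul_left (e ▸ dvd_mul_right _ _)

theorem F1_eq (h : IsR r) : F1 r = rX r * (F1 r / rX r) :=
  (Int.mul_ediv_cancel' h.2.2.2.2.2.2.2.2.1).symm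

theorem F2_eq (h : IsR r) (hc : IsCoprime (rD r) (rG r : ℤ)) : F2 r = rX r * (F2 r / rX r) :=
  (Int.mul_ediv_cancel' (X_dvd_F2 h hc)).symm

omit [Pool.Agent.Lib.MP391708.TG.Aa] in
theorem dvd_mul_iff {l X : ℕ} {q : ℤ} (hl : l.Prime) (hX : ¬ l ∣ X) :
    (l : ℤ) ∣ (X : ℤ) * q ↔ l ∣ q.natAbs := by
  constructor
  · intro h
    rcases (Nat.prime_iff_prime_int.1 hl).dvd_or_dvd h with h1 | h1
    · exact absurd (Int.natCast_dvd_natCast.1 h1) hX
    · exact Int.natCast_dvd.1 h1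
  · intro h
    exact Dvd.dvd.mul_left (Int.natCast_dvd.2 h) _

theorem dvd_F1_iff (h : IsR r) {l : ℕ} (hl : l.Prime) (hX : ¬ l ∣ rX r) :
    (l : ℤ) ∣ F1 r ↔ l ∣ rT r := by
  rw [F1_eq h]
  exact dvd_mul_iff hl hX

theorem dvd_F2_iff (h : IsR r) (hc : IsCoprime (rD r) (rG r : ℤ)) {l : ℕ} (hl : l.Prime)
    (hX : ¬ l ∣ rX r) : (l : ℤ) ∣ F2 r ↔ l ∣ rR r := by
  rw [F2_eq h hc]
  exact dvd_mul_iff hl hX

theorem pow_om (p : Prm) (N n : ℕ) (y : ℝ) :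
    y ^ om p N n = ∏ l ∈ PP p N, if l ∣ n then y else 1 := by
  unfold om
  rw [← prod_filter, prod_const]

theorem tilt_eq {p : Prm} {N : ℕ} (h : IsR r) (hc : IsCoprime (rD r) (rG r : ℤ))
    (hsq : ∀ l ∈ PP p N, ¬ l ^ 2 ∣ rG r * rP r * rQ r * rX r * rT r * rR r) (y : ℝ) :
    tilt p N y y r = y ^ (om p N (rT r) + om p N (rR r)) := by
  rw [pow_add, pow_om, pow_om, ← prod_mul_distrib]
  unfold tilt
  rw [prod_filter]
  refine prod_congr rfl fun l hl => ?_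
  have hp := Bs.prime_of_mem_PP hl
  by_cases hd : l ∣ (vl (rM r)) * rX r
  · rw [if_neg (not_not.2 hd)]
    have hM := h.2.2.2.2.2.2.1
    rw [← hM] at hd
    have hT : ¬ l ∣ rT r := by
      intro hT
      refine hsq l hl ?_
      rw [sq]
      exact (mul_dvd_mul hd hT).mul_right _
    have hR : ¬ l ∣ rR r := by
      intro hR
      refine hsq l hl ?_
      rw [sq]
      have := mul_dvd_mul hd hR
      refine this.trans ⟨rT r, by ring⟩
    rw [if_neg hT, if_neg hR, one_mul]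
  · rw [if_pos hd]
    have hX : ¬ l ∣ rX r := fun hx => hd (hx.mul_left _)
    simp only [dvd_F1_iff h hp hX, dvd_F2_iff h hc hp hX]

/-- `X ≤ 7 G` in the critical window -/
theorem X_le (h : IsR r) (h1 : rD r * rP r ≤ 3 * (rM r : ℤ)) (h0 : 0 < rD r) (hM : 0 < rM r)
    (h2 : D2 r * rQ r * rM r < 2 * ((rM r : ℤ) ^ 2 + az)) : rX r ≤ 7 * rG r := by
  have hDD := D_mul_D2 h
  obtain ⟨haM, hG, hP, hQ, hD, hX, hGPQ, -, -, -⟩ := h
  have hG' : (0 : ℤ) < rG r := by exact_mod_cast hG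
  have hP' : (0 : ℤ) < rP r := by exact_mod_cast hP
  have hQ' : (0 : ℤ) < rQ r := by exact_mod_cast hQ
  have hM' : (0 : ℤ) < rM r := by exact_mod_cast hM
  have hG2 : (rG r : ℤ) * rP r * rQ r = (rM r : ℤ) ^ 2 + az := by
    rw [← vl_cast haM]
    exact_mod_cast hGPQ
  by_contra hcon
  have hcon' : 7 * (rG r : ℤ) < rX r := by
    have : 7 * rG r < rX r := not_le.1 hcon
    exact_mod_cast this
  have h3 : 6 * (rG r : ℤ) < rD r * D2 r := by rw [hDD]; linarith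
  have h4 : 0 < D2 r := by
    by_contra h5
    have : rD r * D2 r ≤ 0 := mul_nonpos_of_nonneg_of_nonpos h0.le (not_lt.1 h5)
    linarith
  have h5 : (rD r * rP r) * (D2 r * rQ r * rM r) ≤ (3 * (rM r : ℤ)) *
      (2 * ((rM r : ℤ) ^ 2 + az)) := by
    refine mul_le_mul h1 h2.le (by positivity) (by positivity)
  have h6 : (rD r * D2 r) * (rP r * rQ r * rM r) ≤ 6 * rG r * (rP r * rQ r * rM r) := by
    have e1 : (rD r * D2 r) * (rP r * rQ r * rM r) =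
        (rD r * rP r) * (D2 r * rQ r * rM r) := by ring
    have e2 : 6 * (rG r : ℤ) * (rP r * rQ r * rM r) = (3 * (rM r : ℤ)) *
        (2 * ((rM r : ℤ) ^ 2 + az)) := by rw [← hG2]; ring
    rw [e1, e2]
    exact h5
  have h7 : (0 : ℤ) < rP r * rQ r * rM r := by positivity
  have h8 := le_of_mul_le_mul_right h6 h7
  linarith

end

theorem cE_pos : 0 < cE := by
  unfold cE
  have := (TA.specLLX az az_ne Bs.nsq_chz).1
  linarith

/-- `1 / k0` in the critical normalization -/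
theorem inv_k0_le {p : Prm} {N : ℕ} (hu : 1 ≤ Su p N) (hv : 1 ≤ Sv p N) :
    1 / k0 p N ≤ (W0 p : ℝ) ^ 2 / cE * Real.exp (5 / 2 * S0 p N) := by
  have hSS : 1 ≤ Su p N * Sv p N := by nlinarith
  have hc := cE_pos
  unfold k0 kp
  have hW : 0 ≤ (W0 p : ℝ) ^ 2 := by positivity
  rcases hW.eq_or_lt with hW | hW
  · rw [← hW]
    simp
  rw [Real.exp_neg]
  have hE := Real.exp_pos (5 / 2 * S0 p N)
  have e : 1 / (cE * ((Real.exp (5 / 2 * S0 p N))⁻¹ / (W0 p : ℝ) ^ 2) * Su p N *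
      Sv p N) = ((W0 p : ℝ) ^ 2 / cE * Real.exp (5 / 2 * S0 p N)) /
      (Su p N * Sv p N) := by
    have h1 : Su p N ≠ 0 := by linarith
    have h2 : Sv p N ≠ 0 := by linarith
    field_simp
  rw [e]
  have h4 : 0 ≤ (W0 p : ℝ) ^ 2 / cE * Real.exp (5 / 2 * S0 p N) := by positivity
  rw [div_le_iff₀ (by linarith)]
  exact le_mul_of_one_le_right h4 hSS

omit [Pool.Agent.Lib.MP391708.TG.Aa] in
theorem hw_alg {k X rp A B T W E : ℝ} (hk : 1 / k ≤ W * E) (hW : 0 ≤ W) (hE : 0 < E)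
    (hX0 : 0 ≤ X) (hX : X ≤ 7) (hrp : 0 < rp) (hA : 0 ≤ A) (hB : 0 ≤ B) (hT : 0 ≤ T) :
    A / k * X / rp * B * T ≤ (7 * W + 1) * (E / rp * A * (B * T)) := by
  have h6 : 0 ≤ A * B * T / rp := by positivity
  calc A / k * X / rp * B * T = (1 / k) * X * (A * B * T / rp) := by ring
    _ ≤ W * E * 7 * (A * B * T / rp) := by
        refine mul_le_mul_of_nonneg_right ?_ h6
        exact mul_le_mul hk hX hX0 (by positivity)
    _ ≤ (7 * W + 1) * E * (A * B * T / rp) := by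
        refine mul_le_mul_of_nonneg_right ?_ h6
        nlinarith
    _ = (7 * W + 1) * (E / rp * A * (B * T)) := by ring

omit [Pool.Agent.Lib.MP391708.TG.Aa] in
theorem D_pos_aux {D : ℤ} {P M : ℕ} (hM : 0 < M) (hw1 : 2 * (M : ℤ) < D * P) : 0 < D := by
  by_contra h0
  have hP : (0 : ℤ) ≤ P := Int.natCast_nonneg _
  have h1 : D * P ≤ 0 := mul_nonpos_of_nonpos_of_nonneg (not_lt.1 h0) hP
  have h2 : (0 : ℤ) < M := by exact_mod_cast hM
  linarith

end HWx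

open HWx

set_option linter.constructorNameAsVariable false in
/-- **HW** -/
theorem specHW : SpecHW := by
  intro e₁ _
  refine T4.Good.mono (good_SuSv 1 zero_le_one) fun p hp => ⟨7 * ((W0 p : ℝ) ^ 2 / cE) + 1,
    by have := cE_pos; positivity, ?_⟩
  filter_upwards [hp] with N hS r hr
  unfold RP at hr
  rw [mem_filter] at hr
  obtain ⟨-, hR, -, hN, hr⟩ := hr
  obtain ⟨-, hw1, hw2, -, hr⟩ := hr
  obtain ⟨hw4, -, -, hc, hr⟩ := hr
  obtain ⟨-, -, hsq, -⟩ := hr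
  have hG : (0 : ℝ) < rG r := by exact_mod_cast hR.2.1
  have hM : 0 < rM r := by omega
  have hD : 0 < rD r := D_pos_aux hM hw1
  have hX : (rX r : ℝ) / rG r ≤ 7 := by
    rw [div_le_iff₀ hG]
    exact_mod_cast X_le hR hw2 hD hM hw4
  unfold wt WC
  have hA : (0 : ℝ) ≤ (1 / 3) ^ om p N (vl (rM r)) := by positivity
  have hB : (0 : ℝ) ≤ (1 / 6) ^ om p N (rX r) := by positivity
  have hT : (0 : ℝ) ≤ (1 / 6) ^ (om p N (rT r) + om p N (rR r)) := by positivity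
  rw [tilt_eq hR hc hsq, add_assoc, pow_add (1 / 6 : ℝ) (om p N (rX r))]
  have hcE := cE_pos
  exact hw_alg (inv_k0_le hS.1 hS.2) (by positivity) (Real.exp_pos _) (by positivity) hX
    (Bs.rp_pos _) hA hB hT

end

end Pool.Agent.Lib.MP391708.TG.H
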