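import Pool.Agent.Lib.MP_391708_nt.TG.ISpec
import Pool.Agent.Lib.MP_391708_nt.TG.Basic

/-!
# I2: `(M² + a) / sm (M² + a)` has a bounded number of divisors
-/

set_option autoImplicit false

namespace Pool.Agent.Lib.MP391708.TG.I

variable [Pool.Agent.Lib.MP391708.TG.Aa]

open Finset Filter Topology
open Pool.Agent.Lib.MP391708.Eqd (V cross pairs)
open scoped Classical

namespace I2

/-- the exponent of `q ∈ PP` in `sm n` -/
theorem fact_sm (p : Prm) (N n : ℕ) {q : ℕ} (hq : q ∈ PP p N) :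
    n.factorization q ≤ (sm p N n).factorization q := by
  have hqp : q.Prime := (mem_filter.1 hq).2.1
  have h0 : sm p N n ≠ 0 := by
    unfold sm
    exact prod_ne_zero_iff.2 fun l hl => pow_ne_zero _ (mem_filter.1 hl).2.1.ne_zero
  exact (hqp.pow_dvd_iff_le_factorization h0).1
    (Finset.dvd_prod_of_mem (fun l => l ^ n.factorization l) hq)

theorem sm_dvd (p : Prm) (N : ℕ) {n : ℕ} (hn : n ≠ 0) : sm p N n ∣ n := by
  have h1 : sm p N n ∣ ∏ l ∈ PP p N ∪ n.primeFactors, l ^ n.factorization l :=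
    Finset.prod_dvd_prod_of_subset _ _ _ subset_union_left
  have h2 : ∏ l ∈ PP p N ∪ n.primeFactors, l ^ n.factorization l = n := by
    conv_rhs => rw [← Nat.prod_factorization_pow_eq_self hn]
    rw [Finsupp.prod, Nat.support_factorization]
    refine (prod_subset subset_union_right fun l _ hl => ?_).symm
    rw [Nat.factorization_eq_zero_of_not_dvd, pow_zero]
    intro hd
    by_cases hlp : l.Prime
    · exact hl (Nat.mem_primeFactors.2 ⟨hlp, hd, hn⟩)
    · rename_i h
      rcases mem_union.1 h with h | h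
      · exact hlp (mem_filter.1 h).2.1
      · exact hl h
  rwa [h2] at h1

/-- a prime factor of `n / sm n` is not a sieving prime -/
theorem not_mem_PP (p : Prm) (N : ℕ) {n q : ℕ} (hn : n ≠ 0) (hq : q.Prime)
    (hd : q ∣ n / sm p N n) : q ∉ PP p N := by
  intro hmem
  have hs := sm_dvd p N hn
  have h1 := Nat.factorization_div hs
  have h2 : (n / sm p N n).factorization q = 0 := by
    rw [h1]
    have := fact_sm p N n hmem
    simp only [Finsupp.coe_tsub, Pi.sub_apply]
    omega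
  have h3 : n / sm p N n ≠ 0 := (Nat.div_pos (Nat.le_of_dvd (Nat.pos_of_ne_zero hn) hs)
    (Nat.pos_of_ne_zero fun h => by rw [h, zero_dvd_iff] at hs; exact hn hs)).ne'
  have h4 := hq.factorization_pos_of_dvd h3 hd
  omega

/-- the divisors of `n / sm n`, `n = M² + a` tame -/
theorem card_le (p : Prm) (N M B : ℕ) (hE : 2 * aa ≤ p.E) (ht : tame p (vl M))
    (hz : 1 ≤ zz p N) (hB : ∀ j : ℕ, zz p N ^ j ≤ ((vl M : ℕ) : ℝ) → j ≤ B) :
    ((vl M) / sm p N (vl M)).divisors.card ≤ (p.E + 1) ^ (p.E + 1) * 2 ^ B := by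
  set n := vl M with hn_def
  have hn : n ≠ 0 := (Bs.vl_pos_all M).ne'
  have hs := sm_dvd p N hn
  set m := n / sm p N n with hm_def
  have hm : m ≠ 0 := (Nat.div_pos (Nat.le_of_dvd (Nat.pos_of_ne_zero hn) hs)
    (Nat.pos_of_ne_zero fun h => by rw [h, zero_dvd_iff] at hs; exact hn hs)).ne'
  have hmn : m ∣ n := Nat.div_dvd_of_dvd hs
  rw [Nat.card_divisors hm]
  rw [← prod_filter_mul_prod_filter_not m.primeFactors (fun l => l ≤ p.E)]
  refine Nat.mul_le_mul ?_ ?_
  · have h1 : ∀ l ∈ m.primeFactors.filter (fun l => l ≤ p.E), m.factorization l + 1 ≤ p.E + 1 := by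
      intro l hl
      obtain ⟨hl1, hl2⟩ := mem_filter.1 hl
      have hlp := Nat.prime_of_mem_primeFactors hl1
      by_contra hcon
      push Not at hcon
      have : l ^ p.E ∣ m := (hlp.pow_dvd_iff_le_factorization hm).2 (by omega)
      exact ht l hlp hl2 (this.trans hmn)
    refine (prod_le_pow_card _ _ _ h1).trans ?_
    refine Nat.pow_le_pow_right (by omega) ?_
    have : m.primeFactors.filter (fun l => l ≤ p.E) ⊆ range (p.E + 1) := by
      intro l hl
      have := (mem_filter.1 hl).2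
      exact mem_range.2 (by omega)
    simpa using card_le_card this
  · set T := m.primeFactors.filter (fun l => ¬ l ≤ p.E) with hT
    have h1 : ∏ l ∈ T, (m.factorization l + 1) ≤ ∏ l ∈ T, 2 ^ m.factorization l := by
      refine prod_le_prod' fun l _ => ?_
      exact Nat.lt_two_pow_self
    refine h1.trans ?_
    rw [prod_pow_eq_pow_sum]
    refine Nat.pow_le_pow_right (by norm_num) ?_
    apply hB
    have h2 : ∀ l ∈ T, zz p N ≤ (l : ℝ) := by
      intro l hl
      obtain ⟨hl1, hl2⟩ := mem_filter.1 hl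
      have hlp := Nat.prime_of_mem_primeFactors hl1
      have hld := Nat.dvd_of_mem_primeFactors hl1
      have hnot := not_mem_PP p N hn hlp hld
      by_contra hcon
      push Not at hcon
      apply hnot
      exact Bs.mem_PP.2 ⟨hcon, hlp, Bs.spl_of_dvd_of_E hE hlp (by omega) (hld.trans hmn), by omega⟩
    calc zz p N ^ (∑ l ∈ T, m.factorization l) = ∏ l ∈ T, zz p N ^ m.factorization l := by
          rw [prod_pow_eq_pow_sum]
      _ ≤ ∏ l ∈ T, (l : ℝ) ^ m.factorization l := by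
          refine prod_le_prod (fun l _ => pow_nonneg (by linarith) _) fun l hl => ?_
          exact pow_le_pow_left₀ (by linarith) (h2 l hl) _
      _ = ((∏ l ∈ T, l ^ m.factorization l : ℕ) : ℝ) := by push_cast; rfl
      _ ≤ ((vl M : ℕ) : ℝ) := by
          refine Nat.cast_le.2 ?_
          have h3 : ∏ l ∈ T, l ^ m.factorization l ∣ ∏ l ∈ m.primeFactors, l ^ m.factorization l :=
            Finset.prod_dvd_prod_of_subset _ _ _ (filter_subset _ _)
          have h4 : ∏ l ∈ m.primeFactors, l ^ m.factorization l = m :=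
            Nat.prod_factorization_pow_eq_self hm
          rw [h4] at h3
          exact Nat.le_of_dvd (Nat.pos_of_ne_zero hn) (h3.trans hmn)

end I2

open I2

theorem specI2 : SpecI2 := by
  refine ⟨2 * aa, fun E hE => ⟨0, fun K _ => ⟨0, fun r _ => ⟨0, fun k _ => ⟨1, one_pos, ?_⟩⟩⟩⟩⟩
  intro ζ hζ _
  refine ⟨(E + 1) ^ (E + 1) * 2 ^ ⌊3 / ζ⌋₊, ?_⟩
  filter_upwards [eventually_ge_atTop (64 + aa)] with N hN M hM ht
  have ha1 : (1 : ℝ) ≤ (aa : ℝ) := Bs.aa_one_le_real
  have hN1 : (64 : ℝ) + aa ≤ N := by exact_mod_cast hN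
  refine card_le ⟨E, K, r, k, ζ⟩ N M ⌊3 / ζ⌋₊ hE ht ?_ ?_
  · exact Real.one_le_rpow (by linarith) hζ.le
  · intro j hj
    refine Nat.le_floor ?_
    rw [le_div_iff₀ hζ]
    have h1 : ((vl M : ℕ) : ℝ) ≤ (N : ℝ) ^ (3 : ℝ) := by
      have hvl : ((vl M : ℕ) : ℝ) ≤ ((M ^ 2 + aa : ℕ) : ℝ) := Nat.cast_le.2 (vl_le_add M)
      refine hvl.trans ?_
      have hM' : (M : ℝ) ≤ 8 * N := by exact_mod_cast hM
      have : (N : ℝ) ^ (3 : ℝ) = (N : ℝ) ^ 3 := by norm_cast
      rw [this]
      push_cast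
      have hM0 : (0 : ℝ) ≤ M := Nat.cast_nonneg M
      have h5 : (M : ℝ) ^ 2 ≤ 64 * (N : ℝ) ^ 2 := by
        nlinarith [mul_le_mul hM' hM' hM0 (by positivity : (0 : ℝ) ≤ 8 * N)]
      have h6 : (1 : ℝ) ≤ (N : ℝ) ^ 2 := one_le_pow₀ (by linarith)
      have h7 : (64 + (aa : ℝ)) * (N : ℝ) ^ 2 ≤ N * (N : ℝ) ^ 2 :=
        mul_le_mul_of_nonneg_right hN1 (sq_nonneg (N : ℝ))
      have h8 : (aa : ℝ) ≤ aa * (N : ℝ) ^ 2 := le_mul_of_one_le_right (by linarith) h6
      nlinarith
    have h2 : zz ⟨E, K, r, k, ζ⟩ N ^ j = (N : ℝ) ^ (ζ * j) := by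
      unfold zz
      rw [Real.rpow_mul (by linarith), Real.rpow_natCast]
    rw [h2] at hj
    have h3 := (Real.rpow_le_rpow_left_iff (by linarith : (1 : ℝ) < N)).1 (hj.trans h1)
    linarith

end Pool.Agent.Lib.MP391708.TG.I
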