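import Pool.Agent.Lib.MP_391708_nt.TG.ISpec

/-!
# T1, group I, module I3: second moment of `∏ (1 + C/l)` over `l ∣ M² + a`, `M ≤ 8N`
-/

set_option autoImplicit false

namespace Pool.Agent.Lib.MP391708.TG.I

variable [Pool.Agent.Lib.MP391708.TG.Aa]

open Finset Filter Topology

noncomputable section

namespace I3

/-- numbers of a class modulo `q` with `l ∣ M² + a` for all `l ∈ S` -/
def cnt (n q a : ℕ) (S : Finset ℕ) : Finset ℕ :=
  (range n).filter (fun M => M ≡ a [MOD q] ∧ ∀ l ∈ S, l ∣ vl M)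

theorem card_cnt (n : ℕ) (S : Finset ℕ) : ∀ (q a : ℕ), 0 < q → (∀ l ∈ S, l.Prime) →
    (∀ l ∈ S, Nat.Coprime q l) →
    ((cnt n q a S).card : ℝ) ≤ 2 ^ S.card * ((n : ℝ) / (q * ∏ l ∈ S, (l : ℝ)) + 1) := by
  induction S using Finset.induction_on with
  | empty =>
    intro q a hq _ _
    have h1 : (cnt n q a ∅).card = n.count (· ≡ a [MOD q]) := by
      rw [Nat.count_eq_card_filter_range, cnt]
      congr 1
      ext M
      simp
    have h2 : (cnt n q a ∅).card ≤ n / q + 1 := by
      rw [h1, Nat.count_modEq_card _ hq]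
      split_ifs <;> omega
    have h3 : ((n / q : ℕ) : ℝ) ≤ (n : ℝ) / q := Nat.cast_div_le
    have h4 : ((cnt n q a ∅).card : ℝ) ≤ ((n / q + 1 : ℕ) : ℝ) := by exact_mod_cast h2
    push_cast at h4
    simp only [card_empty, pow_zero, prod_empty, mul_one, one_mul]
    linarith
  | insert l S hl ih =>
    intro q a hq hP hco
    have hlP : l.Prime := hP l (mem_insert_self _ _)
    have hPS : ∀ k ∈ S, k.Prime := fun k hk => hP k (mem_insert_of_mem hk)
    have hql : Nat.Coprime q l := hco l (mem_insert_self _ _)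
    have hql0 : 0 < q * l := Nat.mul_pos hq hlP.pos
    have hcoS : ∀ k ∈ S, Nat.Coprime (q * l) k := by
      intro k hk
      refine Nat.Coprime.mul_left (hco k (mem_insert_of_mem hk)) ?_
      rw [Nat.coprime_primes hlP (hPS k hk)]
      rintro rfl
      exact hl hk
    rcases (cnt n q a (insert l S)).eq_empty_or_nonempty with he | ⟨M₀, hM₀⟩
    · rw [he, card_empty]
      have h0 : (0 : ℝ) ≤ ∏ k ∈ insert l S, (k : ℝ) := prod_nonneg fun _ _ => Nat.cast_nonneg _
      push_cast
      positivity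
    · have hM₀l : l ∣ vl M₀ := by
        have := (mem_filter.1 hM₀).2.2
        exact this l (mem_insert_self _ _)
      obtain ⟨a₁, ha₁q, ha₁l⟩ := Nat.chineseRemainder hql a M₀
      obtain ⟨a₂, ha₂q, ha₂l⟩ := Nat.chineseRemainder hql a (l - M₀ % l)
      have hsub : cnt n q a (insert l S) ⊆ cnt n (q * l) a₁ S ∪ cnt n (q * l) a₂ S := by
        intro M hM
        obtain ⟨hMn, hMa, hMS⟩ := mem_filter.1 hM
        have hMl : l ∣ vl M := hMS l (mem_insert_self _ _)
        have hd : (l : ℤ) ∣ ((M : ℤ) - M₀) * ((M : ℤ) + M₀) := by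
          have h1 : (l : ℤ) ∣ (M : ℤ) ^ 2 + az := natCast_dvd_vl.1 hMl
          have h2 : (l : ℤ) ∣ (M₀ : ℤ) ^ 2 + az := natCast_dvd_vl.1 hM₀l
          have h3 := dvd_sub h1 h2
          have h4 : ((M : ℤ) - M₀) * ((M : ℤ) + M₀) = (M : ℤ) ^ 2 + az - ((M₀ : ℤ) ^ 2 + az) := by ring
          rw [h4]
          exact h3
        have hpr : Prime (l : ℤ) := Nat.prime_iff_prime_int.1 hlP
        rw [mem_union]
        rcases hpr.dvd_or_dvd hd with h | h
        · left
          refine mem_filter.2 ⟨hMn, ?_, fun k hk => hMS k (mem_insert_of_mem hk)⟩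
          rw [← Nat.modEq_and_modEq_iff_modEq_mul hql]
          refine ⟨hMa.trans ha₁q.symm, ?_⟩
          have h5 : M ≡ M₀ [MOD l] := by
            rw [← Int.natCast_modEq_iff]
            exact (Int.modEq_iff_dvd.2 (by
              have : (M₀ : ℤ) - M = -((M : ℤ) - M₀) := by ring
              rw [this]
              exact (dvd_neg).2 h))
          exact h5.trans ha₁l.symm
        · right
          refine mem_filter.2 ⟨hMn, ?_, fun k hk => hMS k (mem_insert_of_mem hk)⟩
          rw [← Nat.modEq_and_modEq_iff_modEq_mul hql]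
          refine ⟨hMa.trans ha₂q.symm, ?_⟩
          have h5 : M ≡ l - M₀ % l [MOD l] := by
            rw [← Int.natCast_modEq_iff]
            refine Int.modEq_iff_dvd.2 ?_
            have h6 : M₀ % l ≤ l := (Nat.mod_lt _ hlP.pos).le
            rw [Nat.cast_sub h6]
            have h7 : ((M₀ % l : ℕ) : ℤ) = M₀ - l * (M₀ / l : ℕ) := by
              have := Nat.mod_add_div M₀ l
              have h8 : ((M₀ % l : ℕ) : ℤ) + l * (M₀ / l : ℕ) = M₀ := by exact_mod_cast this
              linarith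
            rw [h7]
            have h9 : (l : ℤ) - (M₀ - l * (M₀ / l : ℕ)) - M = l * (1 + (M₀ / l : ℕ)) - (M + M₀) := by
              ring
            rw [h9]
            exact dvd_sub (dvd_mul_right _ _) h
          exact h5.trans ha₂l.symm
      have h1 := ih (q * l) a₁ hql0 hPS hcoS
      have h2 := ih (q * l) a₂ hql0 hPS hcoS
      have h3 : ((cnt n q a (insert l S)).card : ℝ) ≤
          ((cnt n (q * l) a₁ S).card : ℝ) + (cnt n (q * l) a₂ S).card := by
        exact_mod_cast (card_le_card hsub).trans (card_union_le _ _)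
      refine h3.trans ((add_le_add h1 h2).trans (le_of_eq ?_))
      rw [card_insert_of_notMem hl, prod_insert hl, pow_succ]
      push_cast
      rw [mul_assoc (q : ℝ)]
      ring

theorem sum_le (n : ℕ) (S : Finset ℕ) (hS : ∀ l ∈ S, l.Prime) (C : ℝ) (hC : 0 ≤ C) :
    ∑ M ∈ range n, ∏ l ∈ S.filter (fun l => l ∣ vl M), (1 + C / (l : ℝ)) ≤
      n * ∏ l ∈ S, (1 + 2 * C / (l : ℝ) ^ 2) + ∏ l ∈ S, (1 + 2 * C / (l : ℝ)) := by
  have h1 : ∀ M : ℕ, ∏ l ∈ S.filter (fun l => l ∣ vl M), (1 + C / (l : ℝ)) =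
      ∑ T ∈ S.powerset, (if ∀ l ∈ T, l ∣ vl M then 1 else 0) * ∏ l ∈ T, C / (l : ℝ) := by
    intro M
    rw [prod_one_add, ← sum_filter_add_sum_filter_not S.powerset (fun T => ∀ l ∈ T, l ∣ vl M)]
    rw [sum_eq_zero (s := S.powerset.filter (fun T => ¬ ∀ l ∈ T, l ∣ vl M)) (fun T hT => by
      rw [if_neg (mem_filter.1 hT).2, zero_mul]), add_zero]
    have h2 : (S.filter (fun l => l ∣ vl M)).powerset =
        S.powerset.filter (fun T => ∀ l ∈ T, l ∣ vl M) := by
      ext T
      simp only [mem_powerset, mem_filter, subset_iff]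
      constructor
      · intro h
        exact ⟨fun l hl => (h hl).1, fun l hl => (h hl).2⟩
      · intro h l hl
        exact ⟨h.1 hl, h.2 l hl⟩
    rw [h2]
    refine sum_congr rfl fun T hT => ?_
    rw [if_pos (mem_filter.1 hT).2, one_mul]
  simp only [h1]
  rw [sum_comm]
  have h3 : ∀ T ∈ S.powerset, ∑ M ∈ range n, (if ∀ l ∈ T, l ∣ vl M then (1 : ℝ) else 0) *
      ∏ l ∈ T, C / (l : ℝ) ≤ n * ∏ l ∈ T, 2 * C / (l : ℝ) ^ 2 + ∏ l ∈ T, 2 * C / (l : ℝ) := by
    intro T hT
    rw [mem_powerset] at hT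
    have hTP : ∀ l ∈ T, l.Prime := fun l hl => hS l (hT hl)
    rw [← sum_mul]
    have h4 : ∑ M ∈ range n, (if ∀ l ∈ T, l ∣ vl M then (1 : ℝ) else 0) =
        ((cnt n 1 0 T).card : ℝ) := by
      rw [sum_boole, cnt]
      congr 2
      ext M
      simp [Nat.modEq_one]
    rw [h4]
    have h5 := card_cnt n T 1 0 one_pos hTP (fun l _ => Nat.coprime_one_left l)
    have h6 : 0 ≤ ∏ l ∈ T, C / (l : ℝ) := prod_nonneg fun l _ => by positivity
    refine (mul_le_mul_of_nonneg_right h5 h6).trans (le_of_eq ?_)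
    have h7 : ∏ l ∈ T, 2 * C / (l : ℝ) ^ 2 =
        2 ^ T.card * (∏ l ∈ T, C / (l : ℝ)) / ∏ l ∈ T, (l : ℝ) := by
      rw [← prod_const, ← prod_mul_distrib, ← prod_div_distrib]
      refine prod_congr rfl fun l hl => ?_
      have := (hTP l hl).pos
      field_simp
    have h8 : ∏ l ∈ T, 2 * C / (l : ℝ) = 2 ^ T.card * ∏ l ∈ T, C / (l : ℝ) := by
      rw [← prod_const, ← prod_mul_distrib]
      refine prod_congr rfl fun l hl => ?_
      ring
    rw [h7, h8]
    push_cast
    ring
  refine (sum_le_sum h3).trans (le_of_eq ?_)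
  rw [sum_add_distrib, ← mul_sum, prod_one_add, prod_one_add]

end I3

open scoped Classical in
open I3 in
theorem specI3 : SpecI3 := by
  intro C₁ hC₁
  obtain ⟨C', hC'⟩ : ∃ C' : ℝ, C' = 2 * C₁ + C₁ ^ 2 := ⟨_, rfl⟩
  have hC'0 : 0 < C' := by rw [hC']; positivity
  refine ⟨0, fun E _ => ⟨0, fun K _ => ⟨0, fun r _ => ⟨0, fun k _ => ⟨1 / (2 * C'), by positivity,
    fun ζ hζ0 hζ => ?_⟩⟩⟩⟩⟩
  refine ⟨9 * Real.exp (4 * C') + Real.exp (2 * C' * (1 + Real.log 2)), by positivity, ?_⟩
  filter_upwards [eventually_ge_atTop 1] with N hN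
  have hNr : (1 : ℝ) ≤ N := by exact_mod_cast hN
  set p : Prm := ⟨E, K, r, k, ζ⟩ with hp
  have hz1 : 1 ≤ zz p N := Real.one_le_rpow hNr hζ0.le
  have hPP : ∀ l ∈ PP p N, l.Prime := fun l hl => (mem_filter.1 hl).2.1
  have hstep : ∀ M : ℕ, (∏ l ∈ (PP p N).filter (fun l => l ∣ vl M), (1 + C₁ / (l : ℝ))) ^ 2 ≤
      ∏ l ∈ (PP p N).filter (fun l => l ∣ vl M), (1 + C' / (l : ℝ)) := by
    intro M
    rw [← prod_pow]
    refine prod_le_prod (fun l _ => by positivity) (fun l hl => ?_)
    have hl1 : (1 : ℝ) ≤ l := by exact_mod_cast (hPP l (mem_filter.1 hl).1).one_lt.le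
    have h1 : (1 + C₁ / (l : ℝ)) ^ 2 = 1 + 2 * C₁ / l + C₁ ^ 2 / l * (1 / l) := by
      field_simp
      ring
    have h2 : C₁ ^ 2 / l * (1 / (l : ℝ)) ≤ C₁ ^ 2 / l := by
      apply mul_le_of_le_one_right (by positivity)
      rw [div_le_one (by linarith)]
      exact hl1
    rw [h1, hC']
    have h3 : (2 * C₁ + C₁ ^ 2) / (l : ℝ) = 2 * C₁ / l + C₁ ^ 2 / l := by ring
    rw [h3]
    linarith
  refine (sum_le_sum fun M _ => hstep M).trans ?_
  refine (sum_le (8 * N + 1) (PP p N) hPP C' hC'0.le).trans ?_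
  -- the first product
  have hA : ∏ l ∈ PP p N, (1 + 2 * C' / (l : ℝ) ^ 2) ≤ Real.exp (4 * C') := by
    have h1 : ∏ l ∈ PP p N, (1 + 2 * C' / (l : ℝ) ^ 2) ≤
        ∏ l ∈ PP p N, Real.exp (2 * C' / (l : ℝ) ^ 2) := by
      refine prod_le_prod (fun l _ => by positivity) (fun l _ => ?_)
      linarith [Real.add_one_le_exp (2 * C' / (l : ℝ) ^ 2)]
    refine h1.trans ?_
    rw [← Real.exp_sum]
    apply Real.exp_le_exp.2
    have h2 : ∑ l ∈ PP p N, 1 / (l : ℝ) ^ 2 ≤ 2 := by
      have h3 : ∀ n : ℕ, ∑ l ∈ (range (n + 2)).filter (fun l => 1 ≤ l), 1 / (l : ℝ) ^ 2 ≤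
          2 - 1 / ((n : ℝ) + 1) := by
        intro n
        induction n with
        | zero =>
          have : (range (0 + 2)).filter (fun l => 1 ≤ l) = {1} := by
            ext l
            simp
            omega
          rw [this]
          norm_num
        | succ n ih =>
          rw [show n + 1 + 2 = (n + 2) + 1 from rfl, range_add_one, filter_insert,
            if_pos (by omega), sum_insert (by simp)]
          have h4 : 1 / (((n + 2 : ℕ) : ℝ)) ^ 2 ≤
              1 / ((n : ℝ) + 1) - 1 / (((n + 1 : ℕ) : ℝ) + 1) := by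
            push_cast
            rw [div_sub_div _ _ (by positivity) (by positivity), div_le_div_iff₀ (by positivity)
              (by positivity)]
            nlinarith [(Nat.cast_nonneg n : (0:ℝ) ≤ n)]
          linarith
      refine le_trans ?_ ((h3 ⌈zz p N⌉₊).trans (by
        have : (0 : ℝ) ≤ 1 / ((⌈zz p N⌉₊ : ℝ) + 1) := by positivity
        linarith))
      refine sum_le_sum_of_subset_of_nonneg (fun l hl => ?_) (fun _ _ _ => by positivity)
      have h5 := mem_filter.1 hl
      refine mem_filter.2 ⟨mem_range.2 ?_, h5.2.1.one_lt.le⟩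
      have := mem_range.1 h5.1
      omega
    calc ∑ l ∈ PP p N, 2 * C' / (l : ℝ) ^ 2 = 2 * C' * ∑ l ∈ PP p N, 1 / (l : ℝ) ^ 2 := by
          rw [mul_sum]
          exact sum_congr rfl fun l _ => by ring
      _ ≤ 2 * C' * 2 := mul_le_mul_of_nonneg_left h2 (by positivity)
      _ = 4 * C' := by ring
  -- the second product
  have hB : ∏ l ∈ PP p N, (1 + 2 * C' / (l : ℝ)) ≤ Real.exp (2 * C' * (1 + Real.log 2)) * N := by
    have h1 : ∏ l ∈ PP p N, (1 + 2 * C' / (l : ℝ)) ≤
        ∏ l ∈ PP p N, Real.exp (2 * C' / (l : ℝ)) := by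
      refine prod_le_prod (fun l _ => by positivity) (fun l _ => ?_)
      linarith [Real.add_one_le_exp (2 * C' / (l : ℝ))]
    refine h1.trans ?_
    rw [← Real.exp_sum]
    have h2 : ∑ l ∈ PP p N, 1 / (l : ℝ) ≤ 1 + Real.log ⌈zz p N⌉₊ := by
      refine le_trans ?_ (harmonic_le_one_add_log ⌈zz p N⌉₊)
      rw [harmonic]
      push_cast
      calc ∑ l ∈ PP p N, 1 / (l : ℝ) ≤
            ∑ l ∈ (range ⌈zz p N⌉₊).image (fun i : ℕ => i + 1), 1 / (l : ℝ) := by
            refine sum_le_sum_of_subset_of_nonneg (fun l hl => ?_) (fun _ _ _ => by positivity)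
            have h5 := mem_filter.1 hl
            refine mem_image.2 ⟨l - 1, mem_range.2 ?_, ?_⟩
            · have := mem_range.1 h5.1
              omega
            · have := h5.2.1.one_lt
              omega
        _ = ∑ i ∈ range ⌈zz p N⌉₊, ((i : ℝ) + 1)⁻¹ := by
            rw [sum_image (fun a _ b _ h => by omega)]
            refine sum_congr rfl fun i _ => ?_
            push_cast
            rw [one_div]
    have h3 : Real.log ⌈zz p N⌉₊ ≤ Real.log 2 + Real.log (zz p N) := by
      rw [← Real.log_mul (by norm_num) (by linarith)]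
      apply Real.log_le_log
      · have : 0 < ⌈zz p N⌉₊ := Nat.ceil_pos.2 (by linarith)
        exact_mod_cast this
      · have := (Nat.ceil_lt_add_one (by linarith : 0 ≤ zz p N)).le
        linarith
    have h4 : Real.log (zz p N) = ζ * Real.log N := Real.log_rpow (by linarith) _
    have hlogN : 0 ≤ Real.log N := Real.log_nonneg hNr
    have h5 : 2 * C' * (ζ * Real.log N) ≤ Real.log N := by
      have h6 : 2 * C' * ζ ≤ 1 := by
        rw [le_div_iff₀ (by positivity)] at hζ
        linarith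
      calc 2 * C' * (ζ * Real.log N) = (2 * C' * ζ) * Real.log N := by ring
        _ ≤ 1 * Real.log N := mul_le_mul_of_nonneg_right h6 hlogN
        _ = Real.log N := one_mul _
    calc Real.exp (∑ l ∈ PP p N, 2 * C' / (l : ℝ))
        ≤ Real.exp (2 * C' * (1 + Real.log 2) + Real.log N) := by
          apply Real.exp_le_exp.2
          calc ∑ l ∈ PP p N, 2 * C' / (l : ℝ) = 2 * C' * ∑ l ∈ PP p N, 1 / (l : ℝ) := by
                rw [mul_sum]
                exact sum_congr rfl fun l _ => by ring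
            _ ≤ 2 * C' * (1 + (Real.log 2 + ζ * Real.log N)) := by
                apply mul_le_mul_of_nonneg_left _ (by positivity)
                rw [← h4]
                linarith
            _ = 2 * C' * (1 + Real.log 2) + 2 * C' * (ζ * Real.log N) := by ring
            _ ≤ _ := by linarith
      _ = Real.exp (2 * C' * (1 + Real.log 2)) * N := by
          rw [Real.exp_add, Real.exp_log (by linarith)]
  calc ((8 * N + 1 : ℕ) : ℝ) * ∏ l ∈ PP p N, (1 + 2 * C' / (l : ℝ) ^ 2) +
        ∏ l ∈ PP p N, (1 + 2 * C' / (l : ℝ))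
      ≤ (9 * N) * Real.exp (4 * C') + Real.exp (2 * C' * (1 + Real.log 2)) * N := by
        refine add_le_add ?_ hB
        apply mul_le_mul _ hA (prod_nonneg fun l _ => by positivity) (by positivity)
        push_cast
        linarith
    _ = (9 * Real.exp (4 * C') + Real.exp (2 * C' * (1 + Real.log 2))) * N := by ring

end

end Pool.Agent.Lib.MP391708.TG.I
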