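import Pool.Agent.Lib.MP_391708_nt.TG.ISpec
import Pool.Agent.Lib.MP_391708_nt.T1.GoodL

/-!
# Group I, module I4a: the windows
-/

set_option autoImplicit false

namespace Pool.Agent.Lib.MP391708.TG.I

variable [Pool.Agent.Lib.MP391708.TG.Aa] [Pool.Agent.Lib.MP391708.TG.Frm]

open Finset Filter Topology
open Pool.Agent.Lib.MP391708.Eqd (V cross pairs)
open Pool.Agent.Lib.MP391708.T4
open scoped Classical

noncomputable section

namespace I4aMod

omit [Pool.Agent.Lib.MP391708.TG.Aa] [Pool.Agent.Lib.MP391708.TG.Frm] in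
lemma aux {η : ℝ} {A B : ℤ} (h0 : 0 < η) (h1 : η * A < 1) (hA : 0 ≤ A) (hB : 0 < B) :
    (1 - η) * (A : ℝ) < B ↔ A ≤ B := by
  have hA' : (0 : ℝ) ≤ A := by exact_mod_cast hA
  have hB' : (0 : ℝ) < B := by exact_mod_cast hB
  constructor
  · intro h
    by_contra hc
    have h2 : B + 1 ≤ A := by omega
    have h3 : (B : ℝ) + 1 ≤ A := by exact_mod_cast h2
    nlinarith
  · intro h
    have h3 : (A : ℝ) ≤ B := by exact_mod_cast h
    rcases eq_or_lt_of_le hA' with h4 | h4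
    · rw [← h4, mul_zero]; exact hB'
    · nlinarith [mul_pos h0 h4]

end I4aMod

attribute [local irreducible] RG S2 DS CS Gam dtbox dbox rbox in
theorem specI4a : SpecI4a := by
  refine Good.of_all fun p => ?_
  filter_upwards [eventually_ge_atTop 1000000] with N hN t ht x hM hM8 hd
  have hN' : (1000000 : ℝ) ≤ N := by exact_mod_cast hN
  unfold DS at ht
  rw [mem_filter] at ht
  obtain ⟨hbox, hG, hK, hD, hX, -⟩ := ht
  unfold dtbox at hbox
  rw [mem_product, mem_product, mem_product, mem_range, mem_range, mem_range] at hbox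
  have hGlt : tG t < 10000 * (N + 1) ^ 2 := hbox.1
  have hXlt : tX t < 10000 * (N + 1) ^ 2 := hbox.2.2.2
  have hE : |tE t| ≤ 10000 * ((N : ℤ) + 1) ^ 2 := by
    have h1 : |tE t| ≤ |(tX t : ℤ) - tG t| := by
      rw [tE]
      exact Int.abs_ediv_le_abs _ _
    refine h1.trans ?_
    have h2 : (tG t : ℤ) < 10000 * ((N : ℤ) + 1) ^ 2 := by exact_mod_cast hGlt
    have h3 : (tX t : ℤ) < 10000 * ((N : ℤ) + 1) ^ 2 := by exact_mod_cast hXlt
    rw [abs_le]
    constructor <;> omega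
  have hDpos : 0 < |tD t| := abs_pos.mpr hD
  have hDr : (0 : ℝ) < |(tD t : ℝ)| := by exact_mod_cast hDpos
  have hKr : (0 : ℝ) < tK t := by exact_mod_cast hK
  have hGr : (0 : ℝ) < tG t := by exact_mod_cast hG
  have hMr : (0 : ℝ) < mm x := by exact_mod_cast hM
  have hM8r : (mm x : ℝ) ≤ 8 * N := by exact_mod_cast hM8
  have hdr : (0 : ℝ) < dd x := by exact_mod_cast hd
  have hEr : |(tE t : ℝ)| ≤ 10000 * ((N : ℝ) + 1) ^ 2 := by exact_mod_cast hE
  have hE0 : (0 : ℝ) ≤ |(tE t : ℝ)| := abs_nonneg _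
  set η : ℝ := 1 / (N : ℝ) ^ 4 with hη
  have hη0 : 0 < η := by positivity
  have hη1 : η ≤ 1 := by
    rw [hη, div_le_one (by positivity)]
    exact one_le_pow₀ (by linarith)
  -- the three inequalities
  have hup : (dd x : ℝ) ≤ wu t * mm x ↔ |tD t| * (tK t * dd x) ≤ 10 * mm x := by
    rw [wu, div_mul_eq_mul_div, le_div_iff₀ (by positivity)]
    have : (dd x : ℝ) * (|(tD t : ℝ)| * tK t) = ((|tD t| * (tK t * dd x) : ℤ) : ℝ) := by
      push_cast; ring
    rw [this]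
    have h2 : (10 : ℝ) * mm x = ((10 * mm x : ℤ) : ℝ) := by push_cast; ring
    rw [h2, Int.cast_le]
  have hl1 : (1 - η) * (1 / (3 * |(tD t : ℝ)| * tK t)) * mm x < dd x ↔
      mm x ≤ 3 * (|tD t| * (tK t * dd x)) := by
    have h1 : (1 - η) * (1 / (3 * |(tD t : ℝ)| * tK t)) * mm x =
        ((1 - η) * mm x) / (3 * |(tD t : ℝ)| * tK t) := by ring
    rw [h1, div_lt_iff₀ (by positivity)]
    have h2 : (dd x : ℝ) * (3 * |(tD t : ℝ)| * tK t) = ((3 * (|tD t| * (tK t * dd x)) : ℤ) : ℝ) := by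
      push_cast; ring
    rw [h2]
    refine I4aMod.aux hη0 ?_ hM.le (by positivity)
    rw [hη, one_div_mul_eq_div, div_lt_one (by positivity)]
    calc (mm x : ℝ) ≤ 8 * N := hM8r
      _ < (N : ℝ) ^ 4 := by nlinarith [pow_le_pow_left₀ (by norm_num) hN' 3]
  have hl2 : (1 - η) * (|(tE t : ℝ)| / (10 * tG t * tK t)) * mm x < dd x ↔
      |tE t| * mm x ≤ 10 * (tG t * (tK t * dd x)) := by
    have h1 : (1 - η) * (|(tE t : ℝ)| / (10 * tG t * tK t)) * mm x =
        ((1 - η) * ((|tE t| * mm x : ℤ) : ℝ)) / (10 * tG t * tK t) := by push_cast; ring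
    rw [h1, div_lt_iff₀ (by positivity)]
    have h2 : (dd x : ℝ) * (10 * tG t * tK t) = ((10 * (tG t * (tK t * dd x)) : ℤ) : ℝ) := by
      push_cast; ring
    rw [h2]
    refine I4aMod.aux hη0 ?_ (by positivity) (by positivity)
    push_cast
    rw [hη, one_div_mul_eq_div, div_lt_one (by positivity)]
    calc |(tE t : ℝ)| * (mm x : ℝ) ≤ (10000 * ((N : ℝ) + 1) ^ 2) * (8 * N) :=
          mul_le_mul hEr hM8r hMr.le (by positivity)
      _ ≤ (10000 * (2 * (N : ℝ)) ^ 2) * (8 * N) := by gcongr; linarith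
      _ = 320000 * (N : ℝ) ^ 3 := by ring
      _ < (N : ℝ) * (N : ℝ) ^ 3 := by
        have : (0 : ℝ) < (N : ℝ) ^ 3 := by positivity
        nlinarith
      _ = (N : ℝ) ^ 4 := by ring
  rw [win, hup, wl]
  have hmax : (1 - η) * max (1 / (3 * |(tD t : ℝ)| * tK t)) (|(tE t : ℝ)| / (10 * tG t * tK t)) *
      (mm x : ℝ) < dd x ↔ (1 - η) * (1 / (3 * |(tD t : ℝ)| * tK t)) * mm x < dd x ∧
        (1 - η) * (|(tE t : ℝ)| / (10 * tG t * tK t)) * mm x < dd x := by
    rw [mul_max_of_nonneg _ _ (by linarith), max_mul_of_nonneg _ _ hMr.le, max_lt_iff]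
  rw [hmax, hl1, hl2]
  exact ⟨fun h => ⟨h.1.1, h.2, h.1.2⟩, fun h => ⟨⟨h.1, h.2.2⟩, h.2.1⟩⟩

end

end Pool.Agent.Lib.MP391708.TG.I
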