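import Pool.Agent.Lib.MP_391708_nt.TG.ISpec
import Pool.Agent.Lib.MP_391708_nt.TG.Basic

/-!
# Group I, module I4b: the weight is a product of local factors
-/

set_option autoImplicit false

namespace Pool.Agent.Lib.MP391708.TG.I

open Finset Filter Topology
open Pool.Agent.Lib.MP391708.Eqd (V cross pairs)
open scoped Classical

attribute [local irreducible] RG S2 DS CS Gam dtbox dbox rbox

namespace I4bM

section
variable [Pool.Agent.Lib.MP391708.TG.Aa] {p : Prm} {N : ℕ}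

theorem mem_PP {l : ℕ} : l ∈ PP p N ↔ (l : ℝ) < zz p N ∧ l.Prime ∧ spl l ∧ p.E < l := by
  unfold PP
  rw [mem_filter, mem_range, Nat.lt_ceil]

theorem prime_of_mem_PP {l : ℕ} (h : l ∈ PP p N) : l.Prime := (mem_PP.1 h).2.1

theorem sm_pos (p : Prm) (N n : ℕ) : 0 < sm p N n := by
  unfold sm
  exact prod_pos fun l hl => pow_pos (prime_of_mem_PP hl).pos _

theorem sm_mul {a b : ℕ} (ha : a ≠ 0) (hb : b ≠ 0) :
    sm p N (a * b) = sm p N a * sm p N b := by
  unfold sm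
  rw [← prod_mul_distrib]
  refine prod_congr rfl fun l _ => ?_
  rw [Nat.factorization_mul ha hb, Finsupp.add_apply, pow_add]

theorem sm_self {n : ℕ} (hn : n ≠ 0) (h : ∀ l : ℕ, l.Prime → l ∣ n → l ∈ PP p N) :
    sm p N n = n := by
  unfold sm
  have h1 : n.primeFactors ⊆ PP p N := fun l hl =>
    h l (Nat.prime_of_mem_primeFactors hl) (Nat.dvd_of_mem_primeFactors hl)
  rw [← prod_subset h1 (f := fun l => l ^ n.factorization l)]
  · exact Nat.prod_factorization_pow_eq_self hn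
  · intro l _ hl
    rw [← Nat.support_factorization, Finsupp.mem_support_iff, not_not] at hl
    rw [hl, pow_zero]

theorem sm_dvd {n : ℕ} (hn : n ≠ 0) : sm p N n ∣ n := by
  conv_rhs => rw [← Nat.prod_factorization_pow_eq_self hn]
  unfold sm
  rw [Finsupp.prod, Nat.support_factorization]
  have h1 : ∏ l ∈ PP p N, l ^ n.factorization l =
      ∏ l ∈ (PP p N).filter (fun l => l ∈ n.primeFactors), l ^ n.factorization l := by
    rw [prod_filter]
    refine prod_congr rfl fun l _ => ?_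
    split_ifs with h
    · rfl
    · rw [← Nat.support_factorization, Finsupp.mem_support_iff, not_not] at h
      rw [h, pow_zero]
  rw [h1]
  exact prod_dvd_prod_of_subset _ _ _ fun l hl => (mem_filter.1 hl).2

end

variable [Pool.Agent.Lib.MP391708.TG.Aa]

section
variable [Pool.Agent.Lib.MP391708.TG.Frm]

theorem dd_mul_ee {x : VV} (h : cross x.1 x.2 = -1) : dd x * ee x = mm x ^ 2 + az :=
  Bs.dd_mul_ee' h

end

theorem pow_om (p : Prm) (N : ℕ) (a : ℝ) (n : ℕ) :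
    a ^ om p N n = ∏ l ∈ PP p N, if l ∣ n then a else 1 := by
  unfold om
  rw [← Finset.prod_const, Finset.prod_filter]

theorem mem_DS {p : Prm} {N : ℕ} {t : Dt} : t ∈ DS p N ↔ t ∈ dtbox (10000 * (N + 1) ^ 2) ∧
    (0 < tG t ∧ 0 < tK t ∧ tD t ≠ 0 ∧ 0 < tX t ∧ tD t ∣ (tX t : ℤ) - tG t ∧
  Nat.Coprime (tG t) (tX t) ∧ (W0 p : ℤ) ∣ tD t ∧ (W0 p : ℤ) ∣ tE t ∧
  Nat.Coprime (tG t * tX t) (W0 p) ∧ tX t ≤ 100 * tG t ∧ tG t ≤ 100 * tX t ∧
  Squarefree (tG t) ∧ Squarefree (tX t) ∧ IsCoprime (tD t) (tG t : ℤ) ∧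
  (∀ l : ℕ, l.Prime → l ∣ tX t → spl l) ∧ Squarefree (tK t) ∧ sm p N (tK t) = tK t ∧
  Nat.Coprime (tK t) (tG t) ∧ (tK t : ℝ) ≤ zz p N ^ (4 * p.K) ∧
  (sm p N (tX t) : ℝ) ≤ zz p N ^ (4 * p.K) ∧
  Y1 p N / zz p N ^ (4 * p.K) ≤ (|tD t| : ℝ) ∧ (|tD t| : ℝ) ≤ Y2 p N * zz p N ^ (4 * p.K) ∧
  Y1 p N * Y3 p N ≤ 10 * (tG t : ℝ) ∧
  (tG t : ℝ) ≤ 10 * (Y2 p N * Y4 p N * zz p N ^ (4 * p.K))) := by
  unfold DS
  rw [mem_filter]

variable [Pool.Agent.Lib.MP391708.TG.Frm]

/-- the basic facts about a unimodular `x` with `0 < mm x`, `0 < dd x`, `0 < ee x`, in natural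
numbers -/
theorem nat_eq {x : VV} (hx : cross x.1 x.2 = -1) (hM : 0 < mm x) (h2 : 0 < dd x) (h3 : 0 < ee x) :
    (((mm x).toNat : ℕ) : ℤ) = mm x ∧ (((dd x).toNat : ℕ) : ℤ) = dd x ∧
      (((ee x).toNat : ℕ) : ℤ) = ee x ∧ vl (mm x).toNat = (dd x).toNat * (ee x).toNat ∧
      0 < (dd x).toNat ∧ 0 < (ee x).toNat := by
  have h1 := dd_mul_ee hx
  have e1 : (((mm x).toNat : ℕ) : ℤ) = mm x := Int.toNat_of_nonneg hM.le
  have e2 : (((dd x).toNat : ℕ) : ℤ) = dd x := Int.toNat_of_nonneg h2.le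
  have e3 : (((ee x).toNat : ℕ) : ℤ) = ee x := Int.toNat_of_nonneg h3.le
  refine ⟨e1, e2, e3, ?_, by omega, by omega⟩
  rw [vl_toNat hM.le, ← h1]
  have h4 : ((dd x * ee x).natAbs : ℤ) = (((dd x).toNat * (ee x).toNat : ℕ) : ℤ) := by
    rw [Int.natCast_natAbs, abs_of_pos (mul_pos h2 h3), Nat.cast_mul, e2, e3]
  exact_mod_cast h4

/-- `κ F₁ = qf x (κ D) (-1)`, `κ G F₂ = qf x (κ G) D₂` -/
theorem F_eq {x : VV} (hx : cross x.1 x.2 = -1) (hM : 0 < mm x) (h2 : 0 < dd x) (h3 : 0 < ee x)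
    {t : Dt} (hC : ((tK t * tG t : ℕ) : ℤ) ∣ ee x) :
    tK t * tG t * ((ee x).toNat / (tK t * tG t)) = (ee x).toNat ∧
    (tK t : ℤ) * F1 (rel x t) = qf x (tK t * tD t) (-1) ∧
    ((tK t * tG t : ℕ) : ℤ) * F2 (rel x t) = qf x (tK t * tG t) (tE t) := by
  obtain ⟨e1, e2, e3, -, -, -⟩ := nat_eq hx hM h2 h3
  have h1 : tK t * tG t ∣ (ee x).toNat := by
    rw [← e3] at hC
    exact_mod_cast hC
  have h2 : tK t * tG t * ((ee x).toNat / (tK t * tG t)) = (ee x).toNat := Nat.mul_div_cancel' h1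
  have h3 : (tK t : ℤ) * tG t * (((ee x).toNat / (tK t * tG t) : ℕ) : ℤ) = ee x := by
    rw [← e3]
    exact_mod_cast h2
  refine ⟨h2, ?_, ?_⟩
  · show (tK t : ℤ) * (((tK t * (dd x).toNat : ℕ) : ℤ) * tD t ^ 2 -
      2 * (((mm x).toNat : ℕ) : ℤ) * tD t +
        (tG t : ℤ) * (((ee x).toNat / (tK t * tG t) : ℕ) : ℤ)) = _
    rw [Nat.cast_mul, e1, e2]
    unfold qf
    linear_combination h3
  · show ((tK t * tG t : ℕ) : ℤ) * ((((ee x).toNat / (tK t * tG t) : ℕ) : ℤ) * tE t ^ 2 +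
      2 * (((mm x).toNat : ℕ) : ℤ) * tE t + (tG t : ℤ) * ((tK t * (dd x).toNat : ℕ) : ℤ)) = _
    rw [Nat.cast_mul, Nat.cast_mul, e1, e2]
    unfold qf
    linear_combination (tE t) ^ 2 * h3

omit [Aa] [Frm] in
theorem dvd_mul_iff {l : ℕ} (hl : l.Prime) {a : ℕ} (ha : ¬ l ∣ a) {b : ℤ} :
    (l : ℤ) ∣ b ↔ (l : ℤ) ∣ (a : ℤ) * b := by
  constructor
  · intro h
    exact h.mul_left _
  · intro h
    rcases (Int.Prime.dvd_mul' hl h) with h1 | h1
    · exact absurd (by exact_mod_cast h1) ha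
    · exact h1

end I4bM

variable [Pool.Agent.Lib.MP391708.TG.Aa] [Pool.Agent.Lib.MP391708.TG.Frm]

open I4bM in
theorem specI4b : SpecI4b := by
  intro p N c t x ht hx hdp hep hM hC hQ
  obtain ⟨e1, e2, e3, e4, hd0, he0⟩ := nat_eq hx hM hdp hep
  obtain ⟨-, hG0, hK0, hD0, hX0, -, -, -, -, -, -, -, hGs, hXs, -, -, hKs, hKsm, hKG, -⟩ := mem_DS.1 ht
  obtain ⟨hC1, hC2, -, -⟩ := hC
  obtain ⟨hQe, hF1, hF2⟩ := F_eq hx hM hdp hep hC1
  set d := (dd x).toNat with hd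
  set e := (ee x).toNat with he
  set m := (mm x).toNat with hm
  set Qn := e / (tK t * tG t) with hQn
  have hrP : rP (rel x t) = tK t * d := rfl
  have hrQ : rQ (rel x t) = Qn := rfl
  have hrM : rM (rel x t) = m := rfl
  have hrX : rX (rel x t) = tX t := rfl
  have hnd : ∀ l ∈ PP p N, ¬ l ∣ d := by
    intro l hl h
    apply (hQ l hl).1
    rw [← e2]
    exact_mod_cast h
  have hKd : ∀ l ∈ PP p N, (l ∣ tK t * d ↔ l ∣ tK t) := by
    intro l hl
    constructor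
    · intro h
      rcases (prime_of_mem_PP hl).dvd_mul.1 h with h1 | h1
      · exact h1
      · exact absurd h1 (hnd l hl)
    · intro h
      exact h.mul_right _
  refine ⟨?_, ?_⟩
  · unfold PH tilt
    rw [pow_om, pow_om, pow_om, pow_om, Finset.prod_filter, ← Finset.prod_mul_distrib,
      ← Finset.prod_mul_distrib, ← Finset.prod_mul_distrib, ← Finset.prod_mul_distrib, hrP, hrQ, hrM,
      hrX]
    refine Finset.prod_congr rfl fun l hl => ?_
    have hlp : l.Prime := prime_of_mem_PP hl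
    have hlZ : Prime (l : ℤ) := Nat.prime_iff_prime_int.1 hlp
    obtain ⟨hq1, hq2⟩ := hQ l hl
    have hm1 : l ∣ (vl m) * tX t ↔ l ∣ e ∨ l ∣ tX t := by
      rw [hlp.dvd_mul, e4, hlp.dvd_mul]
      have h0 := hnd l hl
      exact ⟨fun h => h.imp_left fun h => h.resolve_left h0, fun h => h.imp_left Or.inr⟩
    have hle : (l : ℤ) ∣ ee x ↔ l ∣ e := by
      rw [← e3]
      exact_mod_cast Iff.rfl
    -- no `l` divides both `κ G` and `Q`
    have hsq : l ∣ tK t * tG t → ¬ l ∣ Qn := by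
      intro h1 h2
      apply hC2 l hl h1
      have h3 : l ^ 2 ∣ vl m := by
        rw [e4, ← hQe, pow_two]
        exact (Nat.mul_dvd_mul h1 h2).mul_left _
      have h4 : ((l ^ 2 : ℕ) : ℤ) ∣ (m : ℤ) ^ 2 + az := natCast_dvd_vl.1 h3
      rw [Nat.cast_pow, e1] at h4
      exact h4
    unfold ph
    rw [if_neg hq1]
    by_cases hlK : l ∣ tK t
    · have hlG : ¬ l ∣ tG t := fun h => hlp.one_lt.ne' (Nat.dvd_one.1 (hKG ▸ Nat.dvd_gcd hlK h))
      have hlQ : ¬ l ∣ Qn := hsq (hlK.mul_right _)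
      have hl_e : l ∣ e := by
        rw [← hQe, mul_assoc]
        exact hlK.mul_right _
      rw [if_neg hlG, if_pos ((hKd l hl).2 hlK), if_neg hlQ, if_pos hlK,
        if_neg (not_not.2 (hm1.2 (Or.inl hl_e)))]
      by_cases hlX : l ∣ tX t
      · rw [if_pos hlX, if_pos hlX]
        ring
      · rw [if_neg hlX, if_neg hlX, if_pos (Or.inl hlK)]
        ring
    · by_cases hlG : l ∣ tG t
      · have hlQ : ¬ l ∣ Qn := hsq (hlG.mul_left _)
        have hl_e : l ∣ e := by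
          rw [← hQe]
          exact (hlG.mul_left _).mul_right _
        rw [if_pos hlG, if_neg (fun h => hlK ((hKd l hl).1 h)), if_neg hlQ, if_neg hlK, if_pos hlG,
          if_neg (not_not.2 (hm1.2 (Or.inl hl_e)))]
        by_cases hlX : l ∣ tX t
        · rw [if_pos hlX, if_pos hlX]
          ring
        · rw [if_neg hlX, if_neg hlX, if_pos (Or.inr (Or.inl hlG))]
          ring
      · have hKG' : ¬ l ∣ tK t * tG t := by
          rw [hlp.dvd_mul]
          exact fun h => h.elim hlK hlG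
        have hlQ : l ∣ Qn ↔ l ∣ e := by
          rw [← hQe, hlp.dvd_mul]
          exact ⟨Or.inr, fun h => h.resolve_left hKG'⟩
        rw [if_neg hlG, if_neg (fun h => hlK ((hKd l hl).1 h)), if_neg hlK, if_neg hlG]
        by_cases hl_e : l ∣ e
        · have hlD : ¬ (l : ℤ) ∣ tD t := by
            intro h
            rcases hq2 h with h1 | h1
            · exact hKG' h1
            · exact h1 (hle.2 hl_e)
          rw [if_pos (hlQ.2 hl_e), if_pos (hle.2 hl_e), if_neg hlD,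
            if_neg (not_not.2 (hm1.2 (Or.inl hl_e)))]
          by_cases hlX : l ∣ tX t
          · rw [if_pos hlX, if_pos hlX]
            ring
          · rw [if_neg hlX, if_neg hlX, if_pos (Or.inr (Or.inr (hle.2 hl_e)))]
            ring
        · rw [if_neg (fun h => hl_e (hlQ.1 h)), if_neg (fun h => hl_e (hle.1 h))]
          by_cases hlX : l ∣ tX t
          · rw [if_pos hlX, if_pos hlX, if_neg (not_not.2 (hm1.2 (Or.inr hlX)))]
            ring
          · rw [if_neg hlX, if_neg hlX, if_pos (fun h => (hm1.1 h).elim hl_e hlX),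
              if_neg (show ¬ (l ∣ tK t ∨ l ∣ tG t ∨ (l : ℤ) ∣ ee x) from
                fun h => h.elim hlK (fun h => h.elim hlG (fun h => hl_e (hle.1 h))))]
            have i1 : (l : ℤ) ∣ F1 (rel x t) ↔ (l : ℤ) ∣ qf x (tK t * tD t) (-1) := by
              rw [← hF1]
              exact dvd_mul_iff hlp hlK
            have i2 : (l : ℤ) ∣ F2 (rel x t) ↔ (l : ℤ) ∣ qf x (tK t * tG t) (tE t) := by
              rw [← hF2]
              exact dvd_mul_iff hlp hKG'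
            simp only [i1, i2]
            ring
  · rw [hrP]
    unfold om
    congr 1
    ext l
    rw [mem_filter, mem_filter]
    constructor
    · rintro ⟨h1, h2⟩
      exact ⟨h1, (hKd l h1).1 h2⟩
    · rintro ⟨h1, h2⟩
      exact ⟨h1, (hKd l h1).2 h2⟩

end Pool.Agent.Lib.MP391708.TG.I
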