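import Pool.Agent.Lib.MP_391708_nt.TG.ISpec
import Pool.Agent.Lib.MP_391708_nt.TG.BasF
import Pool.Agent.Lib.MP_391708_nt.TG1.SlLoc

/-!
# I6a: the pair weight is a product of local functions
-/

set_option autoImplicit false

namespace Pool.Agent.Lib.MP391708.TG.I

variable [Pool.Agent.Lib.MP391708.TG.Aa] [Pool.Agent.Lib.MP391708.TG.Frm]

open Finset Filter Topology
open Pool.Agent.Lib.MP391708.Eqd (V cross pairs res)
open scoped Classical

noncomputable section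

namespace I6aM

/-! ### periodicity -/

omit [Pool.Agent.Lib.MP391708.TG.Aa] [Pool.Agent.Lib.MP391708.TG.Frm] in
lemma dvd_congr {q : ℕ} {A B : ℤ} (h : (A : ZMod q) = (B : ZMod q)) :
    (q : ℤ) ∣ A ↔ (q : ℤ) ∣ B := by
  rw [← ZMod.intCast_zmod_eq_zero_iff_dvd, ← ZMod.intCast_zmod_eq_zero_iff_dvd, h]

omit [Pool.Agent.Lib.MP391708.TG.Aa] [Pool.Agent.Lib.MP391708.TG.Frm] in
lemma cg_mono {m q : ℕ} (h : m ∣ q) {x y : VV} (hxy : cg q x y) : cg m x y := by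
  have h' : (m : ℤ) ∣ q := Int.natCast_dvd_natCast.2 h
  exact ⟨h'.trans hxy.1, h'.trans hxy.2.1, h'.trans hxy.2.2.1, h'.trans hxy.2.2.2⟩

omit [Pool.Agent.Lib.MP391708.TG.Aa] [Pool.Agent.Lib.MP391708.TG.Frm] in
lemma cg_cast {q : ℕ} {x y : VV} (h : cg q x y) : (x.1.1 : ZMod q) = y.1.1 ∧
    (x.1.2 : ZMod q) = y.1.2 ∧ (x.2.1 : ZMod q) = y.2.1 ∧ (x.2.2 : ZMod q) = y.2.2 := by
  have h1 := T4.cg_iff.1 h
  simp only [res, Prod.mk.injEq] at h1
  exact ⟨h1.1.1, h1.1.2, h1.2.1, h1.2.2⟩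

lemma dd_cast {q : ℕ} {x y : VV} (h : cg q x y) : ((dd x : ℤ) : ZMod q) = (dd y : ℤ) := by
  obtain ⟨h1, h2, h3, h4⟩ := cg_cast h
  simp only [dd, nsq]
  push_cast
  rw [h1, h2]

lemma ee_cast {q : ℕ} {x y : VV} (h : cg q x y) : ((ee x : ℤ) : ZMod q) = (ee y : ℤ) := by
  obtain ⟨h1, h2, h3, h4⟩ := cg_cast h
  simp only [ee, nsq]
  push_cast
  rw [h3, h4]

lemma mm_cast {q : ℕ} {x y : VV} (h : cg q x y) : ((mm x : ℤ) : ZMod q) = (mm y : ℤ) := by
  obtain ⟨h1, h2, h3, h4⟩ := cg_cast h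
  simp only [mm, dot]
  push_cast
  rw [h1, h2, h3, h4]

lemma qf_cast {q : ℕ} {x y : VV} (h : cg q x y) (s t : ℤ) :
    ((qf x s t : ℤ) : ZMod q) = (qf y s t : ℤ) := by
  simp only [qf]
  push_cast
  rw [dd_cast h, ee_cast h, mm_cast h]

lemma dd_dvd {q : ℕ} {x y : VV} (h : cg q x y) : (q : ℤ) ∣ dd x ↔ (q : ℤ) ∣ dd y :=
  dvd_congr (dd_cast h)

lemma ee_dvd {q : ℕ} {x y : VV} (h : cg q x y) : (q : ℤ) ∣ ee x ↔ (q : ℤ) ∣ ee y :=
  dvd_congr (ee_cast h)

lemma qf_dvd {q : ℕ} {x y : VV} (h : cg q x y) (s t : ℤ) :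
    (q : ℤ) ∣ qf x s t ↔ (q : ℤ) ∣ qf y s t := dvd_congr (qf_cast h s t)

lemma mm_dvd {q : ℕ} {x y : VV} (h : cg q x y) :
    (q : ℤ) ∣ mm x ^ 2 + az ↔ (q : ℤ) ∣ mm y ^ 2 + az := by
  apply dvd_congr
  push_cast
  rw [mm_cast h]

/-! ### the local factors -/

lemma ph_per (c : Wts) (t : Dt) (l : ℕ) : Per l (ph c t l) := by
  intro x y h
  unfold ph
  simp only [dd_dvd h, ee_dvd h, qf_dvd h]

omit [Pool.Agent.Lib.MP391708.TG.Aa] [Pool.Agent.Lib.MP391708.TG.Frm] in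
lemma ok_le {c : Wts} (h : c.ok) : c.cP ≤ 1 ∧ c.cG ≤ 1 ∧ c.cQ ≤ 1 := by
  obtain ⟨h1, h2, h3, h4, -⟩ := h
  exact ⟨by linarith, by linarith, by linarith⟩

lemma ph_mem {c : Wts} (h : c.ok) (t : Dt) (l : ℕ) (x : VV) : 0 ≤ ph c t l x ∧ ph c t l x ≤ 1 := by
  obtain ⟨hP, hG, hQ⟩ := ok_le h
  obtain ⟨h1, h2, h3, -, h5, h6, h7, h8, h9, h10⟩ := h
  have key : ∀ a b : ℝ, (0 ≤ a ∧ a ≤ 1) → (0 ≤ b ∧ b ≤ 1) → 0 ≤ a * b ∧ a * b ≤ 1 :=
    fun a b ha hb => ⟨mul_nonneg ha.1 hb.1, mul_le_one₀ ha.2 hb.1 hb.2⟩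
  unfold ph
  split_ifs <;> first
    | exact ⟨le_rfl, zero_le_one⟩
    | (refine key _ _ ?_ (key _ _ ?_ ?_) <;> constructor <;> linarith)
    | (refine key _ _ ?_ ?_ <;> constructor <;> linarith)

/-- away from the data the local factor is `1` unless one of four divisibilities holds -/
lemma ph_one {c : Wts} {t : Dt} {l : ℕ} (hK : ¬ l ∣ tK t) (hG : ¬ l ∣ tG t) (hX : ¬ l ∣ tX t)
    {x : VV} (h1 : ¬ (l : ℤ) ∣ dd x) (h2 : ¬ (l : ℤ) ∣ ee x)
    (h3 : ¬ (l : ℤ) ∣ qf x (tK t * tD t) (-1)) (h4 : ¬ (l : ℤ) ∣ qf x (tK t * tG t) (tE t)) :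
    ph c t l x = 1 := by
  unfold ph
  simp only [h1, h2, h3, h4, hK, hG, hX, if_false, or_false, mul_one]

lemma ind_eq (l : ℕ) (s t : ℤ) (x : VV) :
    TG1.ind l s t x = if (l : ℤ) ∣ qf x s t then 1 else 0 := by
  unfold TG1.ind
  exact if_congr Iff.rfl rfl rfl

lemma qf_dd (x : VV) : qf x 1 0 = dd x := by simp only [qf]; ring
lemma qf_ee (x : VV) : qf x 0 1 = ee x := by simp only [qf]; ring

omit [Pool.Agent.Lib.MP391708.TG.Aa] [Pool.Agent.Lib.MP391708.TG.Frm] in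
lemma mn_add (q : ℕ) [NeZero q] (F G : VV → ℝ) :
    T1.mn q (fun x => F x + G x) = T1.mn q F + T1.mn q G := by
  rw [T1.mn_def, T1.mn_def, T1.mn_def, Finset.sum_add_distrib, add_div]

lemma mean_pair {c : Wts} (hc : c.ok) {t t' : Dt} {l : ℕ} (hl : l.Prime) (h4 : spl l)
    (hK : ¬ l ∣ tK t) (hG : ¬ l ∣ tG t) (hX : ¬ l ∣ tX t)
    (hK' : ¬ l ∣ tK t') (hG' : ¬ l ∣ tG t') (hX' : ¬ l ∣ tX t') :
    mean l (fun x => 1 - ph c t l x * ph c t' l x) ≤ 12 / (l : ℝ) := by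
  have : Fact l.Prime := ⟨hl⟩
  have : NeZero l := ⟨hl.ne_zero⟩
  have hl0 : (0 : ℝ) < l := by exact_mod_cast hl.pos
  rw [T4.mean_eq hl.pos]
  have hone : ¬ (l : ℤ) ∣ 1 := by
    intro h
    have := Int.eq_one_of_dvd_one (Int.natCast_nonneg l) h
    exact hl.one_lt.ne' (by exact_mod_cast this)
  have hneg : ¬ (l : ℤ) ∣ -1 := by rwa [dvd_neg]
  have hKG : ¬ (l : ℤ) ∣ (tK t * tG t : ℤ) := by
    intro h
    rcases (Nat.prime_iff_prime_int.1 hl).dvd_or_dvd h with h | h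
    · exact hK (Int.natCast_dvd_natCast.1 h)
    · exact hG (Int.natCast_dvd_natCast.1 h)
  have hKG' : ¬ (l : ℤ) ∣ (tK t' * tG t' : ℤ) := by
    intro h
    rcases (Nat.prime_iff_prime_int.1 hl).dvd_or_dvd h with h | h
    · exact hK' (Int.natCast_dvd_natCast.1 h)
    · exact hG' (Int.natCast_dvd_natCast.1 h)
  have key : ∀ s r : ℤ, ¬ ((l : ℤ) ∣ s ∧ (l : ℤ) ∣ r) → T1.mn l (TG1.ind l s r) ≤ 2 / l := by
    intro s r h
    rw [TG1.mn_ind_eq h4 h]
    exact div_le_div_of_nonneg_left (by norm_num) hl0 (by linarith)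
  calc T1.mn l (fun x => 1 - ph c t l x * ph c t' l x) ≤
      T1.mn l (fun x => TG1.ind l 1 0 x + (TG1.ind l 0 1 x + (TG1.ind l (tK t * tD t) (-1) x +
        (TG1.ind l (tK t * tG t) (tE t) x + (TG1.ind l (tK t' * tD t') (-1) x +
          TG1.ind l (tK t' * tG t') (tE t') x))))) := by
        apply T1.mn_mono
        intro x
        have h0 := ph_mem hc t l x
        have h0' := ph_mem hc t' l x
        have hnn := mul_nonneg h0.1 h0'.1
        have hi : ∀ s r : ℤ, 0 ≤ TG1.ind l s r x := fun s r => TG1.ind_nonneg l s r x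
        have hone' : ∀ s r : ℤ, (l : ℤ) ∣ qf x s r → TG1.ind l s r x = 1 := fun s r h => by
          rw [ind_eq, if_pos h]
        have i1 := hi 1 0
        have i2 := hi 0 1
        have i3 := hi (tK t * tD t) (-1)
        have i4 := hi (tK t * tG t) (tE t)
        have i5 := hi (tK t' * tD t') (-1)
        have i6 := hi (tK t' * tG t') (tE t')
        by_cases c1 : (l : ℤ) ∣ dd x
        · have := hone' 1 0 (by rwa [qf_dd])
          linarith
        by_cases c2 : (l : ℤ) ∣ ee x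
        · have := hone' 0 1 (by rwa [qf_ee])
          linarith
        by_cases c3 : (l : ℤ) ∣ qf x (tK t * tD t) (-1)
        · have := hone' _ _ c3
          linarith
        by_cases c4 : (l : ℤ) ∣ qf x (tK t * tG t) (tE t)
        · have := hone' _ _ c4
          linarith
        by_cases c5 : (l : ℤ) ∣ qf x (tK t' * tD t') (-1)
        · have := hone' _ _ c5
          linarith
        by_cases c6 : (l : ℤ) ∣ qf x (tK t' * tG t') (tE t')
        · have := hone' _ _ c6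
          linarith
        rw [ph_one hK hG hX c1 c2 c3 c4, ph_one hK' hG' hX' c1 c2 c5 c6]
        linarith
    _ ≤ 12 / (l : ℝ) := by
        rw [mn_add, mn_add, mn_add, mn_add, mn_add]
        have k1 := key 1 0 (fun h => hone h.1)
        have k2 := key 0 1 (fun h => hone h.2)
        have k3 := key (tK t * tD t) (-1) (fun h => hneg h.2)
        have k4 := key (tK t * tG t) (tE t) (fun h => hKG h.1)
        have k5 := key (tK t' * tD t') (-1) (fun h => hneg h.2)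
        have k6 := key (tK t' * tG t') (tE t') (fun h => hKG' h.1)
        have k7 : (12 : ℝ) / l = 2 / l + (2 / l + (2 / l + (2 / l + (2 / l + 2 / l)))) := by
          field_simp; norm_num
        rw [k7]
        linarith

/-! ### the periodic part -/

omit [Pool.Agent.Lib.MP391708.TG.Aa] [Pool.Agent.Lib.MP391708.TG.Frm] in
lemma W0_dvd {p : Prm} {l : ℕ} (hl : l.Prime) (hE : l ≤ p.E) : l ^ p.E ∣ W0 p := by
  unfold W0 primorial
  exact pow_dvd_pow_of_dvd (Finset.dvd_prod_of_mem (fun i => i)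
    (Finset.mem_filter.2 ⟨Finset.mem_range.2 (Nat.lt_succ_of_le hE), hl⟩)) _

lemma CC_congr {p : Prm} {N : ℕ} {t : Dt} {x y : VV} (h : cg (mt p N t) x y) :
    CC p N t x ↔ CC p N t y := by
  unfold CC
  have h1 : tK t * tG t ∣ mt p N t := by
    unfold mt
    exact ((Dvd.intro_left _ (by ring : (tK t * tG t) * (tK t * tG t) = (tK t * tG t) ^ 2)).trans
      (Dvd.intro_left _ rfl)).trans (Dvd.intro _ rfl)
  have h2 : tK t * sm p N (tX t) ∣ mt p N t := by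
    unfold mt
    refine mul_dvd_mul ?_ dvd_rfl
    exact ((Dvd.intro _ rfl : tK t ∣ tK t * tG t).trans (Dvd.intro_left _
      (by ring : (tK t * tG t) * (tK t * tG t) = (tK t * tG t) ^ 2))).trans (Dvd.intro_left _ rfl)
  have h3 : ∀ l : ℕ, l ∣ tK t * tG t → l ^ 2 ∣ mt p N t := by
    intro l hl
    unfold mt
    exact ((pow_dvd_pow_of_dvd hl 2).trans (Dvd.intro_left _ rfl)).trans (Dvd.intro _ rfl)
  have h4 : ∀ l : ℕ, l.Prime → l ≤ p.E → l ^ p.E ∣ mt p N t := by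
    intro l hl hE
    unfold mt
    exact ((W0_dvd hl hE).trans (Dvd.intro _ rfl)).trans (Dvd.intro _ rfl)
  refine and_congr (ee_dvd (cg_mono h1 h)) (and_congr ?_ (and_congr ?_ ?_))
  · refine forall_congr' fun l => forall_congr' fun _ => forall_congr' fun hl => not_congr ?_
    have := mm_dvd (cg_mono (h3 l hl) h)
    push_cast at this
    exact this
  · exact qf_dvd (cg_mono h2 h) _ _
  · refine forall_congr' fun l => forall_congr' fun hl => forall_congr' fun hE => not_congr ?_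
    have := mm_dvd (cg_mono (h4 l hl hE) h)
    push_cast at this
    exact this

/-- the periodic factor -/
def FF (p : Prm) (N : ℕ) (c : Wts) (t t' : Dt) (x : VV) : ℝ :=
  ((if CC p N t x then 1 else 0) * (if CC p N t' x then 1 else 0)) *
    ∏ l ∈ (PP p N).filter (fun l => l ∣ mt p N t * mt p N t'), ph c t l x * ph c t' l x

lemma FF_per (p : Prm) (N : ℕ) (c : Wts) (t t' : Dt) :
    Per (mt p N t * mt p N t') (FF p N c t t') := by
  intro x y h
  unfold FF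
  rw [if_congr (CC_congr (cg_mono (Dvd.intro _ rfl) h)) rfl rfl,
    if_congr (CC_congr (cg_mono (Dvd.intro_left _ rfl) h)) rfl rfl]
  congr 1
  refine Finset.prod_congr rfl fun l hl => ?_
  have hd := (Finset.mem_filter.1 hl).2
  rw [ph_per c t l x y (cg_mono hd h), ph_per c t' l x y (cg_mono hd h)]

lemma FF_mem {p : Prm} {N : ℕ} {c : Wts} (hc : c.ok) (t t' : Dt) (x : VV) :
    0 ≤ FF p N c t t' x ∧ FF p N c t t' x ≤ 1 := by
  have h1 : ∀ P : Prop, (0 : ℝ) ≤ (if P then 1 else 0) ∧ (if P then (1 : ℝ) else 0) ≤ 1 := by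
    intro P
    split_ifs
    · exact ⟨zero_le_one, le_rfl⟩
    · exact ⟨le_rfl, zero_le_one⟩
  have h2 : 0 ≤ ∏ l ∈ (PP p N).filter (fun l => l ∣ mt p N t * mt p N t'),
      ph c t l x * ph c t' l x ∧
      ∏ l ∈ (PP p N).filter (fun l => l ∣ mt p N t * mt p N t'), ph c t l x * ph c t' l x ≤ 1 := by
    have h3 : ∀ l, 0 ≤ ph c t l x * ph c t' l x ∧ ph c t l x * ph c t' l x ≤ 1 := fun l =>
      ⟨mul_nonneg (ph_mem hc t l x).1 (ph_mem hc t' l x).1,
        mul_le_one₀ (ph_mem hc t l x).2 (ph_mem hc t' l x).1 (ph_mem hc t' l x).2⟩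
    exact ⟨Finset.prod_nonneg fun l _ => (h3 l).1,
      Finset.prod_le_one (fun l _ => (h3 l).1) fun l _ => (h3 l).2⟩
  unfold FF
  have h4 := h1 (CC p N t x)
  have h5 := h1 (CC p N t' x)
  exact ⟨mul_nonneg (mul_nonneg h4.1 h5.1) h2.1,
    mul_le_one₀ (mul_le_one₀ h4.2 h5.1 h5.2) h2.1 h2.2⟩

omit [Pool.Agent.Lib.MP391708.TG.Frm] in
lemma mem_PP' {p : Prm} {N l : ℕ} (h : l ∈ PP p N) : l.Prime ∧ spl l := by
  obtain ⟨-, h1, h2, -⟩ := Finset.mem_filter.1 h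
  exact ⟨h1, h2⟩

omit [Pool.Agent.Lib.MP391708.TG.Frm] in
lemma not_dvd {p : Prm} {N : ℕ} {t : Dt} {l : ℕ} (hX : tX t ≠ 0) (hl : l ∈ PP p N)
    (h : ¬ l ∣ mt p N t) : ¬ l ∣ tK t ∧ ¬ l ∣ tG t ∧ ¬ l ∣ tX t := by
  have h1 : (tK t * tG t) ^ 2 ∣ mt p N t := by
    unfold mt
    exact (Dvd.intro_left _ rfl).trans (Dvd.intro _ rfl)
  have h2 : sm p N (tX t) ∣ mt p N t := Dvd.intro_left _ rfl
  refine ⟨fun hd => h ?_, fun hd => h ?_, fun hd => h ?_⟩
  · exact ((hd.trans (Dvd.intro _ rfl)).trans (dvd_pow_self _ two_ne_zero)).trans h1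
  · exact ((hd.trans (Dvd.intro_left _ rfl)).trans (dvd_pow_self _ two_ne_zero)).trans h1
  · refine Dvd.dvd.trans ?_ h2
    unfold sm
    refine Dvd.dvd.trans ?_ (Finset.dvd_prod_of_mem _ hl)
    exact dvd_pow_self _ ((mem_PP' hl).1.factorization_pos_of_dvd hX hd).ne'

attribute [local irreducible] dtbox in
omit [Pool.Agent.Lib.MP391708.TG.Frm] in
lemma DS_X {p : Prm} {N : ℕ} {t : Dt} (ht : t ∈ DS p N) : tX t ≠ 0 := by
  unfold DS at ht
  rw [Finset.mem_filter] at ht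
  exact (ht.2.2.2.2.1).ne'

/-- the pair weight is a product of local functions, for all parameters -/
theorem core (p : Prm) (N : ℕ) {c : Wts} (hc : c.ok) {t t' : Dt} (hX : tX t ≠ 0)
    (hX' : tX t' ≠ 0) : ∃ (F : VV → ℝ) (f : ℕ → VV → ℝ), Loc (PP p N) 12
      (mt p N t * mt p N t') (fun x => ww p N c t x * ww p N c t' x) F f := by
  refine ⟨FF p N c t t', fun l x => ph c t l x * ph c t' l x, ?_⟩
  refine ⟨?_, FF_per p N c t t', fun x => (FF_mem hc t t' x).1, fun x => (FF_mem hc t t' x).2,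
    ?_, ?_, ?_, ?_⟩
  · intro x _
    unfold FF ww PH
    rw [mul_assoc, Finset.prod_filter_mul_prod_filter_not, Finset.prod_mul_distrib]
    by_cases h1 : CC p N t x <;> by_cases h2 : CC p N t' x <;> simp [h1, h2]
  · intro l _ _ x y h
    show ph c t l x * ph c t' l x = ph c t l y * ph c t' l y
    rw [ph_per c t l x y h, ph_per c t' l x y h]
  · intro l _ _ x
    exact mul_nonneg (ph_mem hc t l x).1 (ph_mem hc t' l x).1
  · intro l _ _ x
    exact mul_le_one₀ (ph_mem hc t l x).2 (ph_mem hc t' l x).1 (ph_mem hc t' l x).2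
  · intro l hl hm
    obtain ⟨hlp, hl4⟩ := mem_PP' hl
    obtain ⟨a1, a2, a3⟩ := not_dvd hX hl (fun h => hm (h.mul_right _))
    obtain ⟨b1, b2, b3⟩ := not_dvd hX' hl (fun h => hm (h.mul_left _))
    exact mean_pair hc hlp hl4 a1 a2 a3 b1 b2 b3

omit [Pool.Agent.Lib.MP391708.TG.Aa] [Pool.Agent.Lib.MP391708.TG.Frm] in
lemma Good_all {φ : Prm → Prop} (h : ∀ p, φ p) : Good φ :=
  ⟨0, fun _ _ => ⟨0, fun _ _ => ⟨0, fun _ _ => ⟨0, fun _ _ => ⟨1, one_pos, fun _ _ _ => h _⟩⟩⟩⟩⟩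

end I6aM

attribute [local irreducible] DS dtbox

/-- **I6a** -/
theorem specI6a : SpecI6a := by
  intro c hc
  apply I6aM.Good_all
  intro p
  apply Filter.Eventually.of_forall
  intro N t ht t' ht'
  exact I6aM.core p N hc (I6aM.DS_X ht) (I6aM.DS_X ht')

end

end Pool.Agent.Lib.MP391708.TG.I
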