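import Pool.Agent.Lib.MP_391708_nt.TG.ISm
import Pool.Agent.Lib.MP_391708_nt.TG.Basic

/-!
# Group I, module I7: the sum over the colours
-/

set_option autoImplicit false

namespace Pool.Agent.Lib.MP391708.TG.I

variable [Pool.Agent.Lib.MP391708.TG.Aa] [Pool.Agent.Lib.MP391708.TG.Frm]

open Finset
open Pool.Agent.Lib.MP391708.Eqd (V cross pairs)
open scoped Classical

namespace I7

variable {p : Prm} {N : ℕ}

omit [Pool.Agent.Lib.MP391708.TG.Frm] in
lemma sm_of_squarefree {n : ℕ} (hn : Squarefree n) :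
    sm p N n = ∏ l ∈ (PP p N).filter (fun l => l ∣ n), l := by
  unfold sm
  rw [prod_filter]
  refine prod_congr rfl fun l hl => ?_
  have hp := prime_of_mem_PP hl
  split_ifs with h
  · have h1 := hp.factorization_pos_of_dvd hn.ne_zero h
    have h2 := hn.natFactorization_le_one l
    have h3 : n.factorization l = 1 := by omega
    rw [h3, pow_one]
  · rw [Nat.factorization_eq_zero_of_not_dvd h, pow_zero]

omit [Pool.Agent.Lib.MP391708.TG.Aa] [Pool.Agent.Lib.MP391708.TG.Frm] in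
/-- the sum over pairs of disjoint subsets -/
lemma sum_colours (E : Finset ℕ) (a b c : ℝ) :
    ∑ t ∈ E.powerset.sigma (fun A => (E \ A).powerset),
      a ^ t.1.card * b ^ t.2.card * c ^ ((E \ t.1) \ t.2).card = (a + b + c) ^ E.card := by
  rw [sum_sigma]
  have h1 : ∀ A ∈ E.powerset, ∑ B ∈ (E \ A).powerset,
      a ^ A.card * b ^ B.card * c ^ ((E \ A) \ B).card =
        a ^ A.card * (b + c) ^ (E.card - A.card) := by
    intro A hA
    rw [← card_sdiff_of_subset (mem_powerset.1 hA), ← sum_pow_mul_eq_add_pow, mul_sum]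
    refine sum_congr rfl fun B hB => ?_
    rw [card_sdiff_of_subset (mem_powerset.1 hB)]
    ring
  rw [sum_congr rfl h1, sum_pow_mul_eq_add_pow, add_assoc]

end I7

open I7 in
theorem specI7 : SpecI7 := by
  intro p N c x hc hx hM hdd
  obtain ⟨hG, hP, hQ, hsum, -⟩ := hc
  set M := (mm x).toNat with hMdef
  have hM' : (M : ℤ) = mm x := Int.toNat_of_nonneg hM.le
  rcases le_or_gt (ee x) 0 with hee | hee
  · have h1 : CS p N x = ∅ := by
      unfold CS
      rw [Int.toNat_of_nonpos hee]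
      simp
    rw [h1, sum_empty]
    positivity
  set e := (ee x).toNat with hedef
  have he' : (e : ℤ) = ee x := Int.toNat_of_nonneg hee.le
  have he0 : e ≠ 0 := by omega
  set n := vl M with hn
  have hn0 : n ≠ 0 := (Bs.vl_pos_all M).ne'
  have hen : e ∣ n := by
    rw [hn, natCast_dvd_vl, he', hM', ← dd_mul_ee' hx]
    exact dvd_mul_left _ _
  have hsq : ∀ l : ℕ, l ^ 2 ∣ n → (l : ℤ) ^ 2 ∣ mm x ^ 2 + az := by
    intro l hl
    rw [hn, natCast_dvd_vl, hM'] at hl
    exact_mod_cast hl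
  set E := (PP p N).filter (fun l => l ∣ e) with hE
  set fA : ℕ → Finset ℕ := fun s => (PP p N).filter (fun l => l ∣ s) with hfA
  set T := (n / sm p N n).divisors ×ˢ (E.powerset.sigma fun A => (E \ A).powerset) with hT
  set φ : ℕ × ℕ → ℕ × (Σ _ : Finset ℕ, Finset ℕ) :=
    fun s => (s.2 / sm p N s.2, ⟨fA s.1, fA s.2⟩) with hφ
  set w : ℕ × (Σ _ : Finset ℕ, Finset ℕ) → ℝ := fun t =>
    c.cP ^ t.2.1.card * c.cG ^ t.2.2.card * c.cQ ^ ((E \ t.2.1) \ t.2.2).card with hw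
  have hw0 : ∀ t, 0 ≤ w t := fun t => by
    simp only [hw]
    positivity
  have hn1 : n / sm p N n ≠ 0 :=
    (Nat.div_pos (Nat.le_of_dvd (Nat.pos_of_ne_zero hn0) (sm_dvd hn0)) (sm_pos n)).ne'
  -- unpack the membership
  have hCS : ∀ s ∈ CS p N x, s.1 ∣ e ∧ s.2 ∣ e ∧ Squarefree s.1 ∧ sm p N s.1 = s.1 ∧
      Squarefree s.2 ∧ s.1 * s.2 ∣ e ∧
      ∀ l ∈ PP p N, l ∣ s.1 * s.2 → ¬ l ^ 2 ∣ n := by
    intro s hs
    unfold CS at hs
    rw [mem_filter, mem_product, Nat.mem_divisors, Nat.mem_divisors] at hs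
    obtain ⟨⟨⟨h1, -⟩, h2, -⟩, h3, h4, h5, h6, h7⟩ := hs
    exact ⟨h1, h2, h3, h4, h5, h6, fun l hl h8 h9 => h7 l hl h8 (hsq l h9)⟩
  have hmaps : ∀ s ∈ CS p N x, φ s ∈ T := by
    intro s hs
    obtain ⟨h1, h2, h3, h4, h5, h6, h7⟩ := hCS s hs
    rw [hT, mem_product, Nat.mem_divisors, mem_sigma, mem_powerset, mem_powerset]
    refine ⟨⟨?_, hn1⟩, ?_, ?_⟩
    · refine dvd_div_sm hn0 ?_ fun l hl => not_dvd_div_sm h5.ne_zero hl
      exact (Nat.div_dvd_of_dvd (sm_dvd h5.ne_zero)).trans (h2.trans hen)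
    · intro l hl
      rw [mem_filter] at hl ⊢
      exact ⟨hl.1, hl.2.trans h1⟩
    · intro l hl
      have hl' := mem_filter.1 hl
      rw [mem_sdiff, hE, mem_filter]
      refine ⟨⟨hl'.1, hl'.2.trans h2⟩, fun hl1 => ?_⟩
      have hl1' := mem_filter.1 hl1
      refine h7 l hl'.1 (hl'.2.trans (dvd_mul_left _ _)) ?_
      rw [sq]
      exact (mul_dvd_mul hl1'.2 hl'.2).trans (h6.trans hen)
  have hinj : Set.InjOn φ (CS p N x : Set (ℕ × ℕ)) := by
    intro s hs s' hs' h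
    obtain ⟨-, -, h3, h4, h5, -, -⟩ := hCS s hs
    obtain ⟨-, -, h3', h4', h5', -, -⟩ := hCS s' hs'
    have e1 : s.2 / sm p N s.2 = s'.2 / sm p N s'.2 := congrArg Prod.fst h
    have e2 : (⟨fA s.1, fA s.2⟩ : Σ _ : Finset ℕ, Finset ℕ) = ⟨fA s'.1, fA s'.2⟩ :=
      congrArg Prod.snd h
    have e3 : fA s.1 = fA s'.1 := congrArg Sigma.fst e2
    have e4 : fA s.2 = fA s'.2 := by
      have h6 := (Sigma.mk.inj e2).2
      exact eq_of_heq h6
    have g1 : s.1 = s'.1 := by
      rw [← h4, ← h4', sm_of_squarefree h3, sm_of_squarefree h3']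
      exact congrArg (fun S : Finset ℕ => ∏ l ∈ S, l) e3
    have g2 : sm p N s.2 = sm p N s'.2 := by
      rw [sm_of_squarefree h5, sm_of_squarefree h5']
      exact congrArg (fun S : Finset ℕ => ∏ l ∈ S, l) e4
    have g3 : s.2 = s'.2 := by
      rw [← Nat.mul_div_cancel' (sm_dvd (p := p) (N := N) h5.ne_zero), e1, g2,
        Nat.mul_div_cancel' (sm_dvd h5'.ne_zero)]
    exact Prod.ext g1 g3
  have hval : ∀ s ∈ CS p N x, c.cP ^ om p N s.1 * c.cG ^ om p N s.2 *
      c.cQ ^ om p N (e / (s.1 * s.2)) = w (φ s) := by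
    intro s hs
    obtain ⟨h1, h2, h3, h4, h5, h6, h7⟩ := hCS s hs
    have hE' : (PP p N).filter (fun l => l ∣ e / (s.1 * s.2)) = (E \ fA s.1) \ fA s.2 := by
      obtain ⟨k, hk⟩ := h6
      have hs0 : s.1 * s.2 ≠ 0 := mul_ne_zero h3.ne_zero h5.ne_zero
      have hk' : e / (s.1 * s.2) = k := by
        rw [hk, Nat.mul_div_cancel_left _ (Nat.pos_of_ne_zero hs0)]
      rw [hk']
      ext l
      simp only [hE, hfA, mem_sdiff, mem_filter]
      constructor
      · rintro ⟨hl, hlk⟩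
        have hnot : ¬ l ∣ s.1 * s.2 := by
          intro h8
          refine h7 l hl h8 ?_
          rw [sq]
          refine (mul_dvd_mul h8 hlk).trans ?_
          rw [← hk]
          exact hen
        refine ⟨⟨⟨hl, ?_⟩, fun h8 => hnot (h8.2.trans (dvd_mul_right _ _))⟩,
          fun h8 => hnot (h8.2.trans (dvd_mul_left _ _))⟩
        rw [hk]
        exact hlk.trans (dvd_mul_left _ _)
      · rintro ⟨⟨⟨hl, hle⟩, hl1⟩, hl2⟩
        refine ⟨hl, ?_⟩
        have hp := prime_of_mem_PP hl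
        rw [hk] at hle
        rcases (hp.dvd_mul).1 hle with h8 | h8
        · rcases (hp.dvd_mul).1 h8 with h9 | h9
          · exact absurd ⟨hl, h9⟩ hl1
          · exact absurd ⟨hl, h9⟩ hl2
        · exact h8
    have ho : om p N (e / (s.1 * s.2)) = ((E \ fA s.1) \ fA s.2).card := by
      rw [← hE']
      rfl
    rw [ho]
    rfl
  calc ∑ s ∈ CS p N x, c.cP ^ om p N s.1 * c.cG ^ om p N s.2 *
        c.cQ ^ om p N (e / (s.1 * s.2)) = ∑ s ∈ CS p N x, w (φ s) := sum_congr rfl hval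
    _ = ∑ t ∈ (CS p N x).image φ, w t := (sum_image hinj).symm
    _ ≤ ∑ t ∈ T, w t := sum_le_sum_of_subset_of_nonneg
        (fun t ht => by
          obtain ⟨s, hs, rfl⟩ := mem_image.1 ht
          exact hmaps s hs) fun t _ _ => hw0 t
    _ = ∑ _g ∈ (n / sm p N n).divisors, (c.cP + c.cG + c.cQ) ^ E.card := by
        rw [hT, sum_product]
        refine sum_congr rfl fun g _ => ?_
        rw [← sum_colours]
    _ = _ := by
        have h1 : c.cP + c.cG + c.cQ = 1 := by linarith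
        rw [h1, one_pow, sum_const, nsmul_eq_mul, mul_one]

end Pool.Agent.Lib.MP391708.TG.I
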