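import Pool.Agent.Lib.MP_391708_nt.TG1.A12
import Pool.Agent.Lib.MP_391708_nt.TG.Kasm

/-!
# The relation of the signs, for every sign function
-/

set_option autoImplicit false
set_option linter.constructorNameAsVariable false

namespace Pool.Agent.Lib.MP391708.TG

variable [Aa]

open Finset Filter Topology
open scoped Classical

attribute [local irreducible] RP

theorem specA1g {g : ℕ → ℤ} (hg : IsSign g) : SpecA1g g := by
  have hmul : ∀ {m n : ℕ}, 0 < m → 0 < n → g (m * n) = g m * g n := fun hm hn => hg.2 _ _ hm hn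
  have hsq : ∀ {n : ℕ}, 0 < n → g n * g n = 1 := by
    intro n hn
    rcases hg.1 n hn with h | h <;> rw [h] <;> norm_num
  intro e₁
  refine A12.good_of fun p _ => ?_
  filter_upwards [eventually_ge_atTop (8 * aa)] with N hN r hr
  have h := inRP hr
  have c := h.crit hN
  have hG := h.isR.G1
  have hP := h.isR.P1
  have hQ := h.isR.Q1
  have hX := h.isR.X1
  have hT := c.T_pos
  have hR := c.R_pos
  rw [← h.isR.gpq, ← c.xrq, ← c.grt, ← c.xpt]
  rw [hmul (Nat.mul_pos hG hP) hQ, hmul hG hP, hmul (Nat.mul_pos hX hR) hQ, hmul hX hR,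
    hmul (Nat.mul_pos hG hR) hT, hmul hG hR, hmul (Nat.mul_pos hX hP) hT, hmul hX hP]
  have e : g (rG r) * g (rP r) * g (rQ r) * (g (rX r) * g (rR r) * g (rQ r)) *
      (g (rG r) * g (rR r) * g (rT r)) * (g (rX r) * g (rP r) * g (rT r)) =
      (g (rG r) * g (rG r)) * (g (rP r) * g (rP r)) * (g (rQ r) * g (rQ r)) *
      (g (rX r) * g (rX r)) * (g (rR r) * g (rR r)) * (g (rT r) * g (rT r)) := by
    ring
  rw [e, hsq hG, hsq hP, hsq hQ, hsq hX, hsq hR, hsq hT]
  norm_num

end Pool.Agent.Lib.MP391708.TG
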