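import Pool.Agent.Lib.MP_391708_nt.TG.Spec

/-!
# T1, group F, part B: typical pairs
-/

set_option autoImplicit false

namespace Pool.Agent.Lib.MP391708.TG

variable [Pool.Agent.Lib.MP391708.TG.Aa] [Pool.Agent.Lib.MP391708.TG.Frm]

open Finset Filter Topology
open Pool.Agent.Lib.MP391708.Eqd (V cross pairs)
open scoped Classical

noncomputable section

/-- typical pairs -/
def typ (p : Prm) (N : ℕ) (δ e₁ : ℝ) (x : VV) : Prop :=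
  (sm p N (dd x).natAbs : ℝ) ≤ zz p N ^ p.K ∧ (sm p N (ee x).natAbs : ℝ) ≤ zz p N ^ p.K ∧
  ∑ l ∈ (PP p N).filter (fun l => l ∣ vl (mm x).natAbs), 1 / (l : ℝ) ≤ δ ∧
  (∀ l ∈ PP p N, ¬ l ^ 2 ∣ vl (mm x).natAbs) ∧
  tame p (vl (mm x).natAbs) ∧
  (2 - e₁) * S0 p N ≤ (om p N (vl (mm x).natAbs) : ℝ)

/-- **TYP**: all but a small proportion of the pairs in the critical window are typical.

Proof. For `x ∈ Gam N 1 3` put `n = M² + a = d e`.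
(T2) `∑_x ∑_{l ∈ PP, l ∣ n} 1/l ≤ ∑_{l ∈ PP} (4/l + o(1)) #Γ / l ≤ (8/E) #Γ` (EQ with `m = l`,
`mean l [l ∣ n] ≤ 4/l`), Markov.
(T3) `#{x : l² ∣ n} ≤ (6/l² + o(1)) #Γ` (EQ with `m = l²`), sum over `l > E`.
(T4) `#{x : l^E ∣ n} ≤ (2(E+1)/l^E + o(1)) #Γ`, sum over `l ≤ E`.
(T1) `log sm d ≤ ∑_{l ∈ PP, l ∣ n} log l` if no `l²`, `l ∈ PP`, divides `n`; mean at most
`∑_{l ∈ PP} (4/l) log l ≤ 8 log z`, Markov with `K log z`.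
(T5) `∑_x (1-η)^{om n} ≤ 2 #Γ ∏_{l ∈ PP} (1 - η (4/l - 6/l²))` by FL, `≤ C e^{-2 η S0} #Γ`, and
`(1-η)^{(2-e₁) S0} ≥ e^{-(η+η²)(2-e₁) S0}`; `η = e₁/4`: `(η+η²)(2-e₁) - 2η ≤ -e₁²/8 < 0`. -/
def SpecTyp : Prop :=
  ∀ ε δ e₁ : ℝ, 0 < ε → 0 < δ → 0 < e₁ → Good (fun p => ∀ᶠ N : ℕ in atTop,
    (((Gam N 1 3).filter (fun x => ¬ typ p N δ e₁ x)).card : ℝ) ≤ ε * ((Gam N 1 3).card : ℝ))

/-- **PQ**: one sieving prime.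
Proof: EQ with `m = q`, `mean q [q ∣ M² + a] ≤ 4/q` (`LocD.mn_dot_le`). -/
def SpecPQ : Prop :=
  ∃ C : ℝ, 0 < C ∧ Good (fun p => ∀ᶠ N : ℕ in atTop, ∀ q ∈ PP p N,
    (((Gam N 1 3).filter (fun x => q ∣ vl (mm x).natAbs)).card : ℝ) ≤
      C / q * ((Gam N 1 3).card : ℝ))

end

end Pool.Agent.Lib.MP391708.TG
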