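import Pool.Agent.Lib.MP_391708_nt.TG.BrI
import Pool.Agent.Lib.MP_391708_nt.TG1.EquidT

/-!
# T1b: the interface statements of the groups C and D, for every form
-/

set_option autoImplicit false

namespace Pool.Agent.Lib.MP391708.TG

variable [Pool.Agent.Lib.MP391708.TG.Aa] [Pool.Agent.Lib.MP391708.TG.Frm]

theorem eq_holds : SpecEQ := specEQ TG1.equid

theorem fl_holds : SpecFL := specFL TG1.equid

theorem cmp_holds : SpecCMP := specCMP' TG1.equid

end Pool.Agent.Lib.MP391708.TG
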