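import Pool.Agent.Lib.MP_391708_nt.TA.Eqf

/-!
# Equidistribution of unimodular pairs with `v` in a sharp half plane, forms of any signature

The text of `TA/EqfB`, `TA/EqfC`, `TA/Eqf` with the additional condition `0 < v.2`: the strips
`(n H, (n + 1) H]` are aligned with `v.2 = 0`.
-/

set_option autoImplicit false

namespace Pool.Agent.Lib.MP391708.TG.Eqc

open Finset Filter Topology
open Pool.Agent.Lib.MP391708.Eqd Pool.Agent.Lib.MP391708.T1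
open Pool.Agent.Lib.MP391708.T1.Equ (ea ra_nonneg ra_le_one bx card_bx one_le_ea RC rr res_iff
  cross_of_mem neg neg_neg' cross_neg neg_mem_pairs card_n0 er params er_sum log_AA abel HH NN AA
  exists_rr rr_neg res_mem_sl sl_card_pos)
open Pool.Agent.Lib.MP391708.TA Pool.Agent.Lib.MP391708.TA.Eqf
open scoped Classical

variable {A B C : ℤ} {L X S : ℝ} {T₁ T₂ : ℝ → ℝ → ℝ}

/-- the pairs with `x.1.2` in `U` -/
noncomputable def cu (U : ℤ → Prop) (A B C : ℤ) (M : ℕ) (T₁ T₂ : ℝ → ℝ → ℝ) (q : ℕ) (r : RC q) :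
    Finset (V × V) :=
  (cl A B C M T₁ T₂ q r).filter (fun x => U x.1.2)

lemma mem_cu {U : ℤ → Prop} {M q : ℕ} {r : RC q} {x : V × V} : x ∈ cu U A B C M T₁ T₂ q r ↔
    (x ∈ pairs 1 M ∧ RegF A B C T₁ T₂ x ∧ res q x = r) ∧ U x.1.2 := by
  unfold cu
  rw [mem_filter, mem_cl]

/-- the main term for one `a` -/
noncomputable def gw (W : ℤ → Prop) (A B C : ℤ) (T₁ T₂ : ℝ → ℝ → ℝ) (H n0 : ℕ) (a : ℝ) : ℝ :=
  ∑ n ∈ (Ico (-(n0 : ℤ)) n0).filter W, PF A B C T₁ T₂ a ((n : ℝ) * H) * H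

lemma perU (hbox : SpecBoxQ) (hL : 1 ≤ L) (hS : 1 ≤ S) (hX : S ^ 2 ≤ L * X)
    (hA : |(A : ℝ)| ≤ L) (hB : |(B : ℝ)| ≤ L) (hC : |(C : ℝ)| ≤ L)
    (hT : BdF A B C L X S T₁ T₂) {M : ℕ}
    (hM : ∀ x : V × V, cross x.1 x.2 = -1 → RegF A B C T₁ T₂ x → x ∈ pairs 1 M)
    {U W : ℤ → Prop}
    (a q H n0 : ℕ) (hUW : ∀ c : ℤ, U c ↔ W ((c - 1) / (H : ℤ)))
    (ha : 0 < a) (hq : 0 < q) (hH : 0 < H) (hH2 : 16 * L ^ 3 * H ≤ S)
    (hn0 : L * S < n0 * H) (b0 c0 k0 : ℤ)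
    (h : (q : ℤ) ∣ b0 * c0 - (1 + a * k0)) {R L₁ : ℝ} (hR : 170 * L ^ 7 * X * H / S ^ 3 ≤ R)
    (hL₁ : L ≤ L₁) :
    |(((cu U A B C M T₁ T₂ q (rr q a c0 b0 k0)).filter (fun x => x.1.1 = (a : ℤ))).card : ℝ) -
      gw W A B C T₁ T₂ H n0 a * (ra a q / (q : ℝ) ^ 2)| ≤
      2 * n0 * (2 * R * H + 6 * ea a q * (1 + L₁ ^ 2 * X / S ^ 2 + 2 * R + H / a)) := by
  have hHZ : (0 : ℤ) < H := by exact_mod_cast hH
  have hL0 : 0 < L := by linarith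
  have hS0 : 0 < S := by linarith
  have hX0 : 0 ≤ X := by
    have : 0 ≤ L * X := le_trans (by positivity) hX
    exact nonneg_of_mul_nonneg_right this hL0
  have hR0 : 0 ≤ R := le_trans (by positivity) hR
  have hmaps : ∀ x ∈ (cu U A B C M T₁ T₂ q (rr q a c0 b0 k0)).filter (fun x => x.1.1 = (a : ℤ)),
      (x.1.2 - 1) / (H : ℤ) ∈ (Ico (-(n0 : ℤ)) n0).filter W := by
    intro x hx
    rw [mem_filter, cu, mem_filter, mem_cl] at hx
    obtain ⟨⟨⟨h1, h2, h3⟩, hU⟩, h4⟩ := hx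
    obtain ⟨-, h5, -⟩ := hT.supp _ _ (supp_of_reg h2)
    have h6 : |(x.1.2 : ℝ)| < ((n0 * H : ℤ) : ℝ) := by push_cast; linarith
    have h7 : |x.1.2| < n0 * H := by
      have : ((|x.1.2| : ℤ) : ℝ) < ((n0 * H : ℤ) : ℝ) := by push_cast at h6 ⊢; exact h6
      exact_mod_cast this
    rw [abs_lt] at h7
    rw [mem_filter, mem_Ico]
    refine ⟨⟨?_, ?_⟩, (hUW _).1 hU⟩
    · rw [Int.le_ediv_iff_mul_le hHZ]; linarith [h7.1]
    · rw [Int.ediv_lt_iff_lt_mul hHZ]; linarith [h7.2]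
  rw [card_eq_sum_card_fiberwise hmaps]
  have hfib : ∀ n ∈ (Ico (-(n0 : ℤ)) n0).filter W,
      (((cu U A B C M T₁ T₂ q (rr q a c0 b0 k0)).filter (fun x => x.1.1 = (a : ℤ))).filter
        (fun x => (x.1.2 - 1) / (H : ℤ) = n)) =
        pc A B C M T₁ T₂ q (rr q a c0 b0 k0) a (n * H) ((n + 1) * H) := by
    intro n hn
    have hWn := (mem_filter.1 hn).2
    ext x
    rw [mem_filter, mem_filter, pc, mem_filter, cu, mem_filter]
    have : ((x.1.2 - 1) / (H : ℤ) = n) ↔ (n * H < x.1.2 ∧ x.1.2 ≤ (n + 1) * H) := by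
      rw [Int.ediv_eq_iff_of_pos hHZ]
      constructor
      · rintro ⟨h1, h2⟩
        constructor <;> nlinarith
      · rintro ⟨h1, h2⟩
        constructor <;> nlinarith
    constructor
    · rintro ⟨⟨⟨h1, -⟩, h3⟩, h4⟩
      exact ⟨h1, h3, this.1 h4⟩
    · rintro ⟨h1, h3, h4⟩
      have h5 := this.2 h4
      exact ⟨⟨⟨h1, (hUW _).2 (by rw [h5]; exact hWn)⟩, h3⟩, h5⟩
  rw [sum_congr rfl (fun n hn => by rw [hfib n hn])]
  push_cast
  unfold gw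
  rw [sum_mul, ← sum_sub_distrib]
  refine (abs_sum_le_sum_abs _ _).trans ?_
  have hE := one_le_ea ha hq
  have hbig : 0 ≤ L₁ ^ 2 * X / S ^ 2 := by positivity
  have ha0 : (0 : ℝ) < a := by exact_mod_cast ha
  have hterm : 0 ≤ 2 * R * H + 6 * ea a q * (1 + L₁ ^ 2 * X / S ^ 2 + 2 * R + H / a) := by
    have : 0 ≤ ea a q := by linarith
    positivity
  calc _ ≤ ∑ n ∈ (Ico (-(n0 : ℤ)) n0).filter W,
        (2 * R * H + 6 * ea a q * (1 + L₁ ^ 2 * X / S ^ 2 + 2 * R + H / a)) := by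
        apply sum_le_sum
        intro n _
        exact piece hbox hL hS hX hA hB hC hT hM a q H ha hq hH hH2 b0 c0 k0 h n hR hL₁
    _ ≤ ∑ n ∈ Ico (-(n0 : ℤ)) n0,
        (2 * R * H + 6 * ea a q * (1 + L₁ ^ 2 * X / S ^ 2 + 2 * R + H / a)) :=
        sum_le_sum_of_subset_of_nonneg (filter_subset _ _) fun _ _ _ => hterm
    _ = _ := by
        rw [sum_const, nsmul_eq_mul, card_n0]

lemma gw_nonneg {W : ℤ → Prop} (hL : 1 ≤ L) (hS : 1 ≤ S) (hT : BdF A B C L X S T₁ T₂) {H n0 : ℕ}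
    (a : ℝ) : 0 ≤ gw W A B C T₁ T₂ H n0 a := by
  unfold gw
  apply sum_nonneg
  intro n _
  exact mul_nonneg (PF_nonneg hL hS hT _ _) (Nat.cast_nonneg _)

lemma gw_le {W : ℤ → Prop} (hL : 1 ≤ L) (hS : 1 ≤ S) (hX : 0 ≤ X) (hT : BdF A B C L X S T₁ T₂)
    {H n0 : ℕ} (a : ℝ) : gw W A B C T₁ T₂ H n0 a ≤ 2 * n0 * (L ^ 2 * X / S ^ 2 * H) := by
  refine le_trans ?_ (gf_le hL hS hX hT (H := H) (n0 := n0) a)
  unfold gw gf
  exact sum_le_sum_of_subset_of_nonneg (filter_subset _ _) fun n _ _ =>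
    mul_nonneg (PF_nonneg hL hS hT _ _) (Nat.cast_nonneg _)

lemma gw_lip {W : ℤ → Prop} (hL : 1 ≤ L) (hS : 16 * L ^ 3 ≤ S) (hX : 0 ≤ X) (hA : |(A : ℝ)| ≤ L)
    (hB : |(B : ℝ)| ≤ L) (hC : |(C : ℝ)| ≤ L) (hT : BdF A B C L X S T₁ T₂) {H n0 : ℕ} (a : ℝ) :
    |gw W A B C T₁ T₂ H n0 (a + 1) - gw W A B C T₁ T₂ H n0 a| ≤
      2 * n0 * (20 * L ^ 5 * X / S ^ 3 * H) := by
  have hS0 : 0 < S := by
    have : 1 ≤ L ^ 3 := one_le_pow₀ hL
    linarith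
  unfold gw
  rw [← sum_sub_distrib]
  refine (abs_sum_le_sum_abs _ _).trans ?_
  calc _ ≤ ∑ n ∈ (Ico (-(n0 : ℤ)) n0).filter W, 20 * L ^ 5 * X / S ^ 3 * H := by
        apply sum_le_sum
        intro n _
        rw [← sub_mul, abs_mul, abs_of_nonneg (Nat.cast_nonneg H : (0 : ℝ) ≤ H)]
        apply mul_le_mul_of_nonneg_right _ (Nat.cast_nonneg _)
        exact PF_lip hL hS hX hA hB hC hT a _
    _ ≤ ∑ n ∈ Ico (-(n0 : ℤ)) n0, 20 * L ^ 5 * X / S ^ 3 * H :=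
        sum_le_sum_of_subset_of_nonneg (filter_subset _ _) fun _ _ _ => by positivity
    _ = _ := by rw [sum_const, nsmul_eq_mul, card_n0]

/-- the part with positive first coordinate -/
lemma pos_partU (hbox : SpecBoxQ) (hL : 1 ≤ L) (hS : 1 ≤ S) (hX : S ^ 2 ≤ L * X)
    (hA : |(A : ℝ)| ≤ L) (hB : |(B : ℝ)| ≤ L) (hC : |(C : ℝ)| ≤ L)
    (hT : BdF A B C L X S T₁ T₂) {M : ℕ}
    (hM : ∀ x : V × V, cross x.1 x.2 = -1 → RegF A B C T₁ T₂ x → x ∈ pairs 1 M)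
    {U W : ℤ → Prop}
    (q H n0 N : ℕ) (hUW : ∀ c : ℤ, U c ↔ W ((c - 1) / (H : ℤ)))
    (hq : 0 < q) (hH : 0 < H) (hH2 : 16 * L ^ 3 * H ≤ S)
    (hn0 : L * S < n0 * H) (hN : L * S < N + 1) (a0 c0 b0 k0 : ℤ)
    (h : (q : ℤ) ∣ b0 * c0 - (1 + a0 * k0)) {R L₁ : ℝ} (hR : 170 * L ^ 7 * X * H / S ^ 3 ≤ R)
    (hL₁ : L ≤ L₁) :
    |(((cu U A B C M T₁ T₂ q (rr q a0 c0 b0 k0)).filter (fun x => 0 < x.1.1)).card : ℝ) -
      (∑ a ∈ (Icc 1 N).filter (fun a : ℕ => (q : ℤ) ∣ (a : ℤ) - a0),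
        ra a q * gw W A B C T₁ T₂ H n0 a) / (q : ℝ) ^ 2| ≤
      ∑ a ∈ Icc 1 N, er q H n0 L₁ X S R a := by
  have hL0 : 0 < L := by linarith
  have hS0 : 0 < S := by linarith
  have hX0 : 0 ≤ X := by
    have : 0 ≤ L * X := le_trans (by positivity) hX
    exact nonneg_of_mul_nonneg_right this hL0
  have hR0 : 0 ≤ R := le_trans (by positivity) hR
  have hmaps : ∀ x ∈ (cu U A B C M T₁ T₂ q (rr q a0 c0 b0 k0)).filter (fun x => 0 < x.1.1),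
      x.1.1.toNat ∈ Icc 1 N := by
    intro x hx
    rw [mem_filter, cu, mem_filter, mem_cl] at hx
    obtain ⟨⟨⟨h1, h2, h3⟩, -⟩, h4⟩ := hx
    obtain ⟨h5, -⟩ := hT.supp _ _ (supp_of_reg h2)
    rw [mem_Icc]
    refine ⟨by omega, ?_⟩
    have h6 : (x.1.1 : ℝ) < ((N + 1 : ℤ) : ℝ) := by
      push_cast
      linarith [le_abs_self (x.1.1 : ℝ)]
    have h7 : x.1.1 < (N + 1 : ℤ) := by exact_mod_cast h6
    omega
  rw [card_eq_sum_card_fiberwise hmaps, sum_filter, sum_div]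
  push_cast
  rw [← sum_sub_distrib]
  refine (abs_sum_le_sum_abs _ _).trans ?_
  apply sum_le_sum
  intro a ha
  rw [mem_Icc] at ha
  have ha0 : 0 < a := ha.1
  have hfib : ((cu U A B C M T₁ T₂ q (rr q a0 c0 b0 k0)).filter (fun x => 0 < x.1.1)).filter
      (fun x => x.1.1.toNat = a) =
      (cu U A B C M T₁ T₂ q (rr q a0 c0 b0 k0)).filter (fun x => x.1.1 = (a : ℤ)) := by
    ext x
    rw [mem_filter, mem_filter, mem_filter, and_assoc]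
    have : (0 < x.1.1 ∧ x.1.1.toNat = a) ↔ x.1.1 = (a : ℤ) := by omega
    rw [this]
  rw [hfib]
  by_cases hd : (q : ℤ) ∣ (a : ℤ) - a0
  · rw [if_pos hd]
    have hrr : rr q a0 c0 b0 k0 = rr q a c0 b0 k0 := by
      unfold rr
      have : ((a0 : ℤ) : ZMod q) = ((a : ℤ) : ZMod q) := by
        rw [ZMod.intCast_eq_intCast_iff_dvd_sub]; exact hd
      rw [this]
    rw [hrr]
    have h' : (q : ℤ) ∣ b0 * c0 - (1 + a * k0) := by
      have : b0 * c0 - (1 + a * k0) = (b0 * c0 - (1 + a0 * k0)) - (a - a0) * k0 := by ring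
      rw [this]
      exact dvd_sub h (hd.mul_right k0)
    have := perU hbox hL hS hX hA hB hC hT hM a q H n0 hUW ha0 hq hH hH2 hn0 b0 c0 k0 h' hR hL₁
    have e : ra a q * gw W A B C T₁ T₂ H n0 a / (q : ℝ) ^ 2 =
        gw W A B C T₁ T₂ H n0 a * (ra a q / (q : ℝ) ^ 2) := by
      ring
    rw [e]
    exact this
  · rw [if_neg hd]
    have hemp : (cu U A B C M T₁ T₂ q (rr q a0 c0 b0 k0)).filter (fun x => x.1.1 = (a : ℤ)) = ∅ := by
      apply Finset.eq_empty_of_forall_notMem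
      intro x hx
      rw [mem_filter, cu, mem_filter, mem_cl] at hx
      apply hd
      have h1 := hx.1.1.2.2
      unfold res rr at h1
      simp only [Prod.mk.injEq, hx.2] at h1
      have h2 := h1.1.1
      rw [eq_comm, ZMod.intCast_eq_intCast_iff_dvd_sub] at h2
      exact h2
    rw [hemp]
    simp only [card_empty, Nat.cast_zero, zero_div, sub_zero, abs_zero]
    unfold er
    have := one_le_ea ha0 hq
    have : 0 ≤ ea a q := by linarith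
    positivity

/-- the main term, for all classes -/
noncomputable def mw (W : ℤ → Prop) (A B C : ℤ) (T₁ T₂ : ℝ → ℝ → ℝ) (L₁ y : ℝ) : ℝ :=
  ∑ a ∈ Icc 1 (AA L₁ y), gw W A B C T₁ T₂ (HH y) (NN L₁ y) a

lemma pos_mainU (hbox : SpecBoxQ) (hmean : SpecMeanQ) (hpwr : SpecPwr) : ∃ K : ℝ, 0 < K ∧
    ∀ U W : ℤ → Prop, (∀ H : ℕ, 0 < H → ∀ c : ℤ, U c ↔ W ((c - 1) / (H : ℤ))) →
    ∀ L : ℝ, 1 ≤ L → ∀ A B C : ℤ, |(A : ℝ)| ≤ L → |(B : ℝ)| ≤ L → |(C : ℝ)| ≤ L →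
    ∀ y X : ℝ, 12 * (16 * L ^ 3) ^ 2 ≤ y → y ^ 10 ≤ L * X → ∀ T₁ T₂ : ℝ → ℝ → ℝ,
    BdF A B C L X (y ^ 5) T₁ T₂ → ∀ M : ℕ,
    (∀ x : V × V, cross x.1 x.2 = -1 → RegF A B C T₁ T₂ x → x ∈ pairs 1 M) →
    ∀ q : ℕ, 0 < q → ∀ a0 c0 b0 k0 : ℤ, (q : ℤ) ∣ b0 * c0 - (1 + a0 * k0) →
    |(((cu U A B C M T₁ T₂ q (rr q a0 c0 b0 k0)).filter (fun x => 0 < x.1.1)).card : ℝ) -
      zq q / (q : ℝ) ^ 3 * mw W A B C T₁ T₂ (16 * L ^ 3) y| ≤
      K * (16 * L ^ 3) ^ 8 * (q : ℝ) ^ 4 * X / y := by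
  obtain ⟨K, hK, hE⟩ := er_sum hpwr
  refine ⟨K + 1120, by positivity, ?_⟩
  intro U W hUW L hL A B C hA hB hC y X hy hX T₁ T₂ hT M hM q hq a0 c0 b0 k0 h
  set L₁ := 16 * L ^ 3 with hL₁
  have hL3 : 1 ≤ L ^ 3 := one_le_pow₀ hL
  have hL₁1 : 1 ≤ L₁ := by rw [hL₁]; linarith
  have hLL : L ≤ L₁ := by
    have : L ≤ L ^ 3 := by
      calc L = L ^ 1 := (pow_one L).symm
        _ ≤ L ^ 3 := pow_le_pow_right₀ hL (by norm_num)
    rw [hL₁]; linarith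
  obtain ⟨p1, p2, p3, p4, p5, p6, p7, p8, p9⟩ := params hL₁1 hy
  have hL0 : 0 < L := by linarith
  have hL₁0 : 0 < L₁ := by linarith
  have hy1 : 1 ≤ y := by nlinarith [one_le_pow₀ hL₁1 (n := 2)]
  have hy0 : 0 < y := by linarith
  have hy5 : 1 ≤ y ^ 5 := one_le_pow₀ hy1
  have hX0 : 0 ≤ X := by
    have : 0 ≤ L * X := le_trans (by positivity) hX
    exact nonneg_of_mul_nonneg_right this hL0
  have hq1 : (1 : ℝ) ≤ q := by exact_mod_cast hq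
  have hq4 : (1 : ℝ) ≤ (q : ℝ) ^ 4 := one_le_pow₀ hq1
  have hy10 : (y ^ 5) ^ 2 = y ^ 10 := by ring
  have hX' : (y ^ 5) ^ 2 ≤ L * X := by rw [hy10]; exact hX
  have hX'' : y ^ 10 ≤ L₁ * X := hX.trans (mul_le_mul_of_nonneg_right hLL hX0)
  have hH2 : 16 * L ^ 3 * (HH y : ℝ) ≤ y ^ 5 := by
    refine le_trans ?_ p2
    rw [← hL₁]
    have : L₁ ≤ 6 * L₁ ^ 2 := by nlinarith
    exact mul_le_mul_of_nonneg_right this (Nat.cast_nonneg _)
  have hS16 : 16 * L ^ 3 ≤ y ^ 5 := by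
    have h1 : (1 : ℝ) ≤ HH y := by exact_mod_cast p1
    have h2 : 16 * L ^ 3 * 1 ≤ 16 * L ^ 3 * (HH y : ℝ) :=
      mul_le_mul_of_nonneg_left h1 (by positivity)
    linarith
  have hLS : L * y ^ 5 ≤ L₁ * y ^ 5 := mul_le_mul_of_nonneg_right hLL (by positivity)
  have hR : 170 * L ^ 7 * X * (HH y : ℝ) / (y ^ 5) ^ 3 ≤
      80 * L₁ ^ 5 * X * (HH y : ℝ) / (y ^ 5) ^ 3 := by
    have e1 : 170 * L ^ 7 ≤ 80 * L₁ ^ 5 := by
      have e2 : L ^ 7 ≤ L ^ 15 := pow_le_pow_right₀ hL (by norm_num)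
      have e3 : L₁ ^ 5 = 1048576 * L ^ 15 := by rw [hL₁]; ring
      have e4 : 0 ≤ L ^ 15 := by positivity
      rw [e3]; linarith
    gcongr
  have h1 := pos_partU hbox hL hy5 hX' hA hB hC hT hM (U := U) (W := W) q (HH y) (NN L₁ y)
    (AA L₁ y) (hUW (HH y) p1) hq p1 hH2 (by linarith) (by linarith) a0 c0 b0 k0 h hR hLL
  have h2 := hE L₁ hL₁1 y X hy hX'' q hq
  have hg : |gw W A B C T₁ T₂ (HH y) (NN L₁ y) (AA L₁ y)| ≤ 4 * L₁ ^ 3 * X / y ^ 5 := by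
    rw [abs_of_nonneg (gw_nonneg hL hy5 hT _)]
    refine (gw_le hL hy5 hX0 hT _).trans ?_
    calc 2 * (NN L₁ y : ℝ) * (L ^ 2 * X / (y ^ 5) ^ 2 * HH y) =
        2 * (NN L₁ y * HH y) * (L ^ 2 * X / y ^ 10) := by ring
      _ ≤ 2 * (2 * L₁ * y ^ 5) * (L₁ ^ 2 * X / y ^ 10) := by gcongr
      _ = _ := by field_simp; ring
  have hD : ∀ a : ℕ, 1 ≤ a → a < AA L₁ y →
      |gw W A B C T₁ T₂ (HH y) (NN L₁ y) ((a + 1 : ℕ) : ℝ) -
        gw W A B C T₁ T₂ (HH y) (NN L₁ y) a| ≤ 36 * L₁ ^ 5 * X / y ^ 10 := by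
    intro a ha1 ha2
    have := gw_lip (W := W) hL hS16 hX0 hA hB hC hT (H := HH y) (n0 := NN L₁ y) (a : ℝ)
    push_cast
    refine this.trans ?_
    have e5 : 80 * L₁ * L ^ 5 ≤ 36 * L₁ ^ 5 := by
      have e3 : L₁ ^ 4 = 65536 * L ^ 12 := by rw [hL₁]; ring
      have e4 : L ^ 5 ≤ L ^ 12 := pow_le_pow_right₀ hL (by norm_num)
      have e7 : 0 ≤ L ^ 12 := by positivity
      have e6 : 80 * L ^ 5 ≤ 36 * L₁ ^ 4 := by rw [e3]; linarith
      calc 80 * L₁ * L ^ 5 = L₁ * (80 * L ^ 5) := by ring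
        _ ≤ L₁ * (36 * L₁ ^ 4) := mul_le_mul_of_nonneg_left e6 hL₁0.le
        _ = _ := by ring
    calc 2 * (NN L₁ y : ℝ) * (20 * L ^ 5 * X / (y ^ 5) ^ 3 * HH y) =
        2 * (NN L₁ y * HH y) * (20 * L ^ 5 * X / (y ^ 5) ^ 3) := by ring
      _ ≤ 2 * (2 * L₁ * y ^ 5) * (20 * L ^ 5 * X / (y ^ 5) ^ 3) := by gcongr
      _ = (80 * L₁ * L ^ 5) * X / y ^ 10 := by field_simp; ring
      _ ≤ _ := by gcongr
  have h3 := abel hmean hq a0 (AA L₁ y) p8 (fun a => gw W A B C T₁ T₂ (HH y) (NN L₁ y) a)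
    (by positivity) hg hD
  have h4 : 4 * (1 + Real.log (AA L₁ y)) *
      (4 * L₁ ^ 3 * X / y ^ 5 + AA L₁ y * (36 * L₁ ^ 5 * X / y ^ 10)) ≤
        1120 * L₁ ^ 7 * X / y := by
    have e1 : 4 * L₁ ^ 3 * X / y ^ 5 + AA L₁ y * (36 * L₁ ^ 5 * X / y ^ 10) ≤
        40 * L₁ ^ 6 * X / y ^ 5 := by
      calc 4 * L₁ ^ 3 * X / y ^ 5 + AA L₁ y * (36 * L₁ ^ 5 * X / y ^ 10) ≤
          4 * L₁ ^ 6 * X / y ^ 5 + (L₁ * y ^ 5) * (36 * L₁ ^ 5 * X / y ^ 10) := by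
            have k : L₁ ^ 3 ≤ L₁ ^ 6 := pow_le_pow_right₀ hL₁1 (by norm_num)
            gcongr
        _ = _ := by field_simp; ring
    have e2 := log_AA hL₁1 hy
    have e3 : 0 ≤ Real.log (AA L₁ y) := Real.log_nonneg (by exact_mod_cast p8)
    calc 4 * (1 + Real.log (AA L₁ y)) *
        (4 * L₁ ^ 3 * X / y ^ 5 + AA L₁ y * (36 * L₁ ^ 5 * X / y ^ 10)) ≤
        4 * (7 * L₁ * y) * (40 * L₁ ^ 6 * X / y ^ 5) := by gcongr
      _ = 1120 * L₁ ^ 7 * X / y ^ 4 := by field_simp; ring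
      _ ≤ 1120 * L₁ ^ 7 * X / y := by
          apply div_le_div_of_nonneg_left (by positivity) hy0
          calc y = y ^ 1 := (pow_one y).symm
            _ ≤ y ^ 4 := pow_le_pow_right₀ hy1 (by norm_num)
  have h5 : |(∑ a ∈ (Icc 1 (AA L₁ y)).filter (fun a : ℕ => (q : ℤ) ∣ (a : ℤ) - a0),
        ra a q * gw W A B C T₁ T₂ (HH y) (NN L₁ y) a) / (q : ℝ) ^ 2 -
      zq q / (q : ℝ) ^ 3 * mw W A B C T₁ T₂ L₁ y| ≤ 1120 * L₁ ^ 7 * X / y := by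
    have e : (∑ a ∈ (Icc 1 (AA L₁ y)).filter (fun a : ℕ => (q : ℤ) ∣ (a : ℤ) - a0),
        ra a q * gw W A B C T₁ T₂ (HH y) (NN L₁ y) a) / (q : ℝ) ^ 2 -
      zq q / (q : ℝ) ^ 3 * mw W A B C T₁ T₂ L₁ y =
      (∑ a ∈ (Icc 1 (AA L₁ y)).filter (fun a : ℕ => (q : ℤ) ∣ (a : ℤ) - a0),
        ra a q * gw W A B C T₁ T₂ (HH y) (NN L₁ y) a - zq q / q * mw W A B C T₁ T₂ L₁ y) /
          (q : ℝ) ^ 2 := by
      field_simp
    rw [e, abs_div, abs_of_pos (by positivity : (0 : ℝ) < (q : ℝ) ^ 2)]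
    have h6 := h3.trans h4
    refine (div_le_self (abs_nonneg _) (one_le_pow₀ hq1)).trans ?_
    exact h6
  calc _ ≤ |(((cu U A B C M T₁ T₂ q (rr q a0 c0 b0 k0)).filter (fun x => 0 < x.1.1)).card : ℝ) -
      (∑ a ∈ (Icc 1 (AA L₁ y)).filter (fun a : ℕ => (q : ℤ) ∣ (a : ℤ) - a0),
        ra a q * gw W A B C T₁ T₂ (HH y) (NN L₁ y) a) / (q : ℝ) ^ 2| +
      |(∑ a ∈ (Icc 1 (AA L₁ y)).filter (fun a : ℕ => (q : ℤ) ∣ (a : ℤ) - a0),
        ra a q * gw W A B C T₁ T₂ (HH y) (NN L₁ y) a) / (q : ℝ) ^ 2 -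
      zq q / (q : ℝ) ^ 3 * mw W A B C T₁ T₂ L₁ y| := abs_sub_le _ _ _
    _ ≤ K * L₁ ^ 8 * (q : ℝ) ^ 4 * X / y + 1120 * L₁ ^ 7 * X / y := add_le_add (h1.trans h2) h5
    _ ≤ _ := by
      have k : L₁ ^ 7 ≤ L₁ ^ 8 := pow_le_pow_right₀ hL₁1 (by norm_num)
      have e1 : 1120 * L₁ ^ 7 * X / y ≤ 1120 * L₁ ^ 8 * (q : ℝ) ^ 4 * X / y := by
        have e3 : 1120 * L₁ ^ 7 ≤ 1120 * L₁ ^ 8 * (q : ℝ) ^ 4 := by
          calc 1120 * L₁ ^ 7 ≤ 1120 * L₁ ^ 8 * 1 := by linarith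
            _ ≤ _ := by gcongr
        exact div_le_div_of_nonneg_right (mul_le_mul_of_nonneg_right e3 hX0) hy0.le
      have e2 : (K + 1120) * L₁ ^ 8 * (q : ℝ) ^ 4 * X / y =
          K * L₁ ^ 8 * (q : ℝ) ^ 4 * X / y + 1120 * L₁ ^ 8 * (q : ℝ) ^ 4 * X / y := by ring
      rw [e2]
      linarith

/-- the reflection; `v.2 > 0` becomes `v.2 ≤ 0`, as `v.2 = 0` does not occur -/
lemma neg_partU {M q : ℕ} {r : RC q} (hL : 1 ≤ L) (hS : L ^ 2 < S ^ 2) (hA : |(A : ℝ)| ≤ L)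
    (hT : BdF A B C L X S T₁ T₂) :
    ((cu (fun c => 0 < c) A B C M T₁ T₂ q r).filter (fun x => x.1.1 < 0)).card =
      ((cu (fun c => c ≤ 0) A B C M (rf T₁) (rf T₂) q (-r)).filter (fun x => 0 < x.1.1)).card := by
  have hres : ∀ x : V × V, res q (neg x) = - res q x := by
    intro x
    unfold res neg
    simp
  apply card_bij (fun x _ => neg x)
  · intro x hx
    rw [mem_filter, mem_cu] at hx ⊢
    obtain ⟨⟨⟨h1, h2, h3⟩, h5⟩, h4⟩ := hx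
    refine ⟨⟨⟨neg_mem_pairs h1, (reg_neg x).mpr h2, by rw [hres, h3]⟩, ?_⟩, ?_⟩
    · simp only [neg]; omega
    · simp only [neg]; omega
  · intro x _ y _ hxy
    rw [← neg_neg' x, ← neg_neg' y, hxy]
  · intro y hy
    rw [mem_filter, mem_cu] at hy
    obtain ⟨⟨⟨h1, h2, h3⟩, h5⟩, h4⟩ := hy
    have hreg : RegF A B C T₁ T₂ (neg y) := by
      rw [← reg_neg, neg_neg']; exact h2
    have hne : y.1.2 ≠ 0 := by
      intro h0
      have hc := cross_of_mem h1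
      simp only [cross, h0, zero_mul, sub_zero] at hc
      have h6 : y.1.1 ^ 2 = 1 := by
        have h7 : y.1.1 * -y.2.2 = 1 := by linarith
        rcases Int.eq_one_or_neg_one_of_mul_eq_one h7 with h | h <;> rw [h] <;> norm_num
      obtain ⟨-, -, g3, -, -⟩ := (bd_rf hT).supp _ _ (supp_of_reg h2)
      have e : qr A B C y.1.1 y.1.2 = A := by
        have h6' : (y.1.1 : ℝ) ^ 2 = 1 := by exact_mod_cast h6
        rw [h0]; unfold qr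
        rw [h6']; push_cast; ring
      rw [e, div_le_iff₀ (by linarith)] at g3
      have : (A : ℝ) ≤ L := (le_abs_self _).trans hA
      nlinarith
    refine ⟨neg y, ?_, neg_neg' y⟩
    rw [mem_filter, mem_cu]
    refine ⟨⟨⟨neg_mem_pairs h1, hreg, by rw [hres, h3, neg_neg]⟩, ?_⟩, ?_⟩
    · simp only [neg]; omega
    · simp only [neg]; omega

lemma card_splitU {M q : ℕ} {r : RC q} (hL : 1 ≤ L) (hS : L ^ 2 < S ^ 2) (hA : |(A : ℝ)| ≤ L)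
    (hC : |(C : ℝ)| ≤ L) (hT : BdF A B C L X S T₁ T₂) :
    (cu (fun c => 0 < c) A B C M T₁ T₂ q r).card =
      ((cu (fun c => 0 < c) A B C M T₁ T₂ q r).filter (fun x => 0 < x.1.1)).card +
      ((cu (fun c => c ≤ 0) A B C M (rf T₁) (rf T₂) q (-r)).filter (fun x => 0 < x.1.1)).card := by
  have h0 := zero_part (M := M) (q := q) (r := r) hL hS hC hT
  rw [← neg_partU hL hS hA hT, ← card_union_of_disjoint]
  · congr 1
    ext x
    rw [mem_union, mem_filter, mem_filter]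
    constructor
    · intro hx
      rcases lt_trichotomy x.1.1 0 with h | h | h
      · exact Or.inr ⟨hx, h⟩
      · exfalso
        have : x ∈ (cl A B C M T₁ T₂ q r).filter (fun x => x.1.1 = 0) :=
          mem_filter.mpr ⟨mem_cl.2 (mem_cu.1 hx).1, h⟩
        rw [h0] at this
        exact absurd this (Finset.notMem_empty x)
      · exact Or.inl ⟨hx, h⟩
    · rintro (h | h)
      · exact h.1
      · exact h.1
  · rw [disjoint_filter]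
    intro x _ h1 h2
    omega

lemma hUW_pos (H : ℕ) (hH : 0 < H) (c : ℤ) :
    (fun c : ℤ => 0 < c) c ↔ (fun n : ℤ => 0 ≤ n) ((c - 1) / (H : ℤ)) := by
  have hHZ : (0 : ℤ) < H := by exact_mod_cast hH
  simp only
  rw [Int.le_ediv_iff_mul_le hHZ]
  omega

lemma hUW_neg (H : ℕ) (hH : 0 < H) (c : ℤ) :
    (fun c : ℤ => c ≤ 0) c ↔ (fun n : ℤ => n < 0) ((c - 1) / (H : ℤ)) := by
  have hHZ : (0 : ℤ) < H := by exact_mod_cast hH
  simp only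
  rw [Int.ediv_lt_iff_lt_mul hHZ]
  omega

/-- the number of pairs in a class: the main term does not depend on the class -/
lemma class_countU (hbox : SpecBoxQ) (hmean : SpecMeanQ) (hpwr : SpecPwr) : ∃ K : ℝ, 0 < K ∧
    ∀ L : ℝ, 1 ≤ L → ∀ A B C : ℤ, |(A : ℝ)| ≤ L → |(B : ℝ)| ≤ L → |(C : ℝ)| ≤ L →
    ∀ y X : ℝ, 12 * (16 * L ^ 3) ^ 2 ≤ y → y ^ 10 ≤ L * X → ∀ T₁ T₂ : ℝ → ℝ → ℝ,
    BdF A B C L X (y ^ 5) T₁ T₂ → ∀ M : ℕ, 4 * L ^ 5 * (X + 1) ≤ M →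
    ∀ (q : ℕ) [NeZero q], ∀ r ∈ sl q,
    |((cu (fun c => 0 < c) A B C M T₁ T₂ q r).card : ℝ) - zq q / (q : ℝ) ^ 3 *
      (mw (fun n => 0 ≤ n) A B C T₁ T₂ (16 * L ^ 3) y +
        mw (fun n => n < 0) A B C (rf T₁) (rf T₂) (16 * L ^ 3) y)| ≤
      K * (16 * L ^ 3) ^ 8 * (q : ℝ) ^ 4 * X / y := by
  obtain ⟨K, hK, h⟩ := pos_mainU hbox hmean hpwr
  refine ⟨2 * K, by positivity, ?_⟩
  intro L hL A B C hA hB hC y X hy hX T₁ T₂ hT M hM q hq0 r hr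
  have hq : 0 < q := Nat.pos_of_ne_zero hq0.out
  obtain ⟨a0, c0, b0, k0, rfl, hdv⟩ := exists_rr hr
  have hL3 : 1 ≤ L ^ 3 := one_le_pow₀ hL
  have hL32 : 1 ≤ (L ^ 3) ^ 2 := one_le_pow₀ hL3
  have hy1 : 1 ≤ y := by nlinarith
  have hy5 : 1 ≤ y ^ 5 := one_le_pow₀ hy1
  have hyy : y ≤ y ^ 5 := by
    calc y = y ^ 1 := (pow_one y).symm
      _ ≤ y ^ 5 := pow_le_pow_right₀ hy1 (by norm_num)
  have hSL : L ^ 2 < (y ^ 5) ^ 2 := by
    have e1 : L < y ^ 5 := by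
      have e2 : L ≤ L ^ 3 := by
        calc L = L ^ 1 := (pow_one L).symm
          _ ≤ L ^ 3 := pow_le_pow_right₀ hL (by norm_num)
      nlinarith
    exact pow_lt_pow_left₀ e1 (by linarith) (by norm_num)
  have hX' : (y ^ 5) ^ 2 ≤ L * X := by
    calc (y ^ 5) ^ 2 = y ^ 10 := by ring
      _ ≤ _ := hX
  have h1 := h (fun c => 0 < c) (fun n => 0 ≤ n) hUW_pos L hL A B C hA hB hC y X hy hX T₁ T₂ hT M
    (fun x hc hr => reg_mem hL hy5 hX' hA hB hC hT hM x hc hr) q hq a0 c0 b0 k0 hdv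
  have h2 := h (fun c => c ≤ 0) (fun n => n < 0) hUW_neg L hL A B C hA hB hC y X hy hX
    (rf T₁) (rf T₂) (bd_rf hT) M
    (fun x hc hr => reg_mem hL hy5 hX' hA hB hC (bd_rf hT) hM x hc hr) q hq
    (-a0) (-c0) (-b0) (-k0) (by
    have : -b0 * -c0 - (1 + -a0 * -k0) = b0 * c0 - (1 + a0 * k0) := by ring
    rw [this]; exact hdv)
  rw [← rr_neg] at h2
  rw [card_splitU hL hSL hA hC hT]
  push_cast
  rw [abs_le] at h1 h2 ⊢
  have e' : 2 * K * (16 * L ^ 3) ^ 8 * (q : ℝ) ^ 4 * X / y =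
      K * (16 * L ^ 3) ^ 8 * (q : ℝ) ^ 4 * X / y + K * (16 * L ^ 3) ^ 8 * (q : ℝ) ^ 4 * X / y := by
    ring
  rw [e', mul_add]
  constructor
  · linarith [h1.1, h2.1]
  · linarith [h1.2, h2.2]

/-- all pairs in the region with `0 < v.2` -/
noncomputable def RU (A B C : ℤ) (M : ℕ) (T₁ T₂ : ℝ → ℝ → ℝ) : Finset (V × V) :=
  (pairs 1 M).filter (fun x => RegF A B C T₁ T₂ x ∧ 0 < x.1.2)

lemma total_eqU {M q : ℕ} [NeZero q] : (RU A B C M T₁ T₂).card =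
    ∑ r ∈ sl q, (cu (fun c => 0 < c) A B C M T₁ T₂ q r).card := by
  have hmaps : ∀ x ∈ RU A B C M T₁ T₂, res q x ∈ sl q := by
    intro x hx
    unfold RU at hx
    rw [mem_filter] at hx
    exact res_mem_sl hx.1
  rw [card_eq_sum_card_fiberwise hmaps]
  apply sum_congr rfl
  intro r _
  congr 1
  ext x
  rw [mem_filter, mem_cu, RU, mem_filter]
  tauto

/-- **EQUID for a binary quadratic form**, general regions in the half plane `0 < v.2`. -/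
theorem equidU : ∃ K : ℝ, 0 < K ∧ ∀ L : ℝ, 1 ≤ L → ∀ A B C : ℤ, |(A : ℝ)| ≤ L → |(B : ℝ)| ≤ L →
    |(C : ℝ)| ≤ L → ∀ X S : ℝ, 1 ≤ S → S ^ 2 ≤ L * X → ∀ T₁ T₂ : ℝ → ℝ → ℝ,
    BdF A B C L X S T₁ T₂ → ∀ M : ℕ, 4 * L ^ 5 * (X + 1) ≤ M → ∀ (q : ℕ) [NeZero q], ∀ r ∈ sl q,
      |(((RU A B C M T₁ T₂).filter (fun x => res q x = r)).card : ℝ) -
        ((RU A B C M T₁ T₂).card : ℝ) / ((sl q).card : ℝ)| ≤
        K * L ^ 80 * (q : ℝ) ^ 4 * X * S ^ (-(1 / 5) : ℝ) := by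
  obtain ⟨K, hK, hcc⟩ := class_countU specBoxQ specMeanQ specPwr
  refine ⟨2 * K * 16 ^ 8 + 9 * (12 * 256) ^ 11, by positivity, ?_⟩
  intro L hL A B C hA hB hC X S hS hX T₁ T₂ hT M hM q hq0 r hr
  have hq : 0 < q := Nat.pos_of_ne_zero hq0.out
  have hq1 : (1 : ℝ) ≤ q := by exact_mod_cast hq
  have hL0 : 0 < L := by linarith
  have hS0 : 0 < S := by linarith
  have hX0 : 0 ≤ X := by
    have : 0 ≤ L * X := le_trans (by positivity) hX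
    exact nonneg_of_mul_nonneg_right this hL0
  set y := S ^ (1 / 5 : ℝ) with hy
  have hy5 : y ^ 5 = S := by
    rw [hy, ← Real.rpow_natCast, ← Real.rpow_mul hS0.le]
    norm_num
  have hy10 : y ^ 10 = S ^ 2 := by
    rw [← hy5]; ring
  have hy1 : 1 ≤ y := Real.one_le_rpow hS (by norm_num)
  have hy0 : 0 < y := by linarith
  have hpw : S ^ (-(1 / 5) : ℝ) = 1 / y := by
    have e : 1 / y = S ^ (-(1 / 5) : ℝ) := by
      rw [hy, Real.rpow_neg hS0.le, one_div]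
    exact e.symm
  rw [hpw]
  have hcl : (RU A B C M T₁ T₂).filter (fun x => res q x = r) =
      cu (fun c => 0 < c) A B C M T₁ T₂ q r := by
    ext x
    rw [mem_filter, mem_cu, RU, mem_filter]
    tauto
  have hsl := sl_card_pos q
  have hslR : (1 : ℝ) ≤ ((sl q).card : ℝ) := by exact_mod_cast hsl
  have htot := total_eqU (A := A) (B := B) (C := C) (T₁ := T₁) (T₂ := T₂) (M := M) (q := q)
  have hq4 : (1 : ℝ) ≤ (q : ℝ) ^ 4 := one_le_pow₀ hq1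
  rw [hcl]
  rcases lt_or_ge y (12 * (16 * L ^ 3) ^ 2) with hsm | hbig
  · -- small `S`
    have ht : ((RU A B C M T₁ T₂).card : ℝ) ≤ 9 * L ^ 3 * X * S ^ 2 := by
      refine le_trans ?_ (Eqf.triv hL hS hX0 hT M)
      have : (RU A B C M T₁ T₂).card ≤ ((pairs 1 M).filter (RegF A B C T₁ T₂)).card := by
        apply card_le_card
        intro x hx
        unfold RU at hx
        rw [mem_filter] at hx ⊢
        exact ⟨hx.1, hx.2.1⟩
      exact_mod_cast this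
    set t := ((RU A B C M T₁ T₂).card : ℝ) with htdef
    have ht0 : 0 ≤ t := Nat.cast_nonneg _
    have h1 : ((cu (fun c => 0 < c) A B C M T₁ T₂ q r).card : ℝ) ≤ t := by
      rw [htdef, ← hcl]
      exact_mod_cast card_filter_le _ _
    have h2 : t / ((sl q).card : ℝ) ≤ t := div_le_self ht0 hslR
    have h3 : 0 ≤ t / ((sl q).card : ℝ) := by positivity
    have h4 : |((cu (fun c => 0 < c) A B C M T₁ T₂ q r).card : ℝ) - t / ((sl q).card : ℝ)| ≤ t := by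
      rw [abs_le]
      have : (0 : ℝ) ≤ ((cu (fun c => 0 < c) A B C M T₁ T₂ q r).card : ℝ) := Nat.cast_nonneg _
      constructor <;> linarith
    refine h4.trans (ht.trans ?_)
    have hm : 12 * (16 * L ^ 3) ^ 2 = (12 * 256) * L ^ 6 := by ring
    rw [hm] at hsm
    have h5 : S ^ 2 ≤ ((12 * 256) * L ^ 6) ^ 10 := by
      rw [← hy10]
      exact pow_le_pow_left₀ hy0.le hsm.le 10
    have h6 : 1 ≤ ((12 * 256) * L ^ 6) * (1 / y) := by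
      rw [mul_one_div, one_le_div hy0]
      exact hsm.le
    have h69 : L ^ 69 ≤ L ^ 80 := pow_le_pow_right₀ hL (by norm_num)
    calc 9 * L ^ 3 * X * S ^ 2 ≤ 9 * L ^ 3 * X * ((12 * 256) * L ^ 6) ^ 10 := by gcongr
      _ = 9 * (12 * 256) ^ 10 * L ^ 63 * X * 1 := by ring
      _ ≤ 9 * (12 * 256) ^ 10 * L ^ 63 * X * (((12 * 256) * L ^ 6) * (1 / y)) := by gcongr
      _ = 9 * (12 * 256) ^ 11 * L ^ 69 * 1 * X * (1 / y) := by ring
      _ ≤ (2 * K * 16 ^ 8 + 9 * (12 * 256) ^ 11) * L ^ 80 * (q : ℝ) ^ 4 * X * (1 / y) := by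
          gcongr
          have : 0 ≤ 2 * K * 16 ^ 8 := by positivity
          linarith
  · -- large `S`
    have hT' : BdF A B C L X (y ^ 5) T₁ T₂ := by rw [hy5]; exact hT
    have hX' : y ^ 10 ≤ L * X := by rw [hy10]; exact hX
    have hall := hcc L hL A B C hA hB hC y X hbig hX' T₁ T₂ hT' M hM q
    set E := K * (16 * L ^ 3) ^ 8 * (q : ℝ) ^ 4 * X / y with hE
    set m := zq q / (q : ℝ) ^ 3 * (mw (fun n => 0 ≤ n) A B C T₁ T₂ (16 * L ^ 3) y +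
      mw (fun n => n < 0) A B C (Eqf.rf T₁) (Eqf.rf T₂) (16 * L ^ 3) y) with hm
    have h1 := hall r hr
    have h2 : |((RU A B C M T₁ T₂).card : ℝ) - (sl q).card * m| ≤ (sl q).card * E := by
      rw [htot]
      push_cast
      have e : ∑ r ∈ sl q, ((cu (fun c => 0 < c) A B C M T₁ T₂ q r).card : ℝ) - (sl q).card * m =
          ∑ r ∈ sl q, (((cu (fun c => 0 < c) A B C M T₁ T₂ q r).card : ℝ) - m) := by
        rw [sum_sub_distrib, sum_const, nsmul_eq_mul]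
      rw [e]
      refine (abs_sum_le_sum_abs _ _).trans ?_
      calc _ ≤ ∑ r ∈ sl q, E := sum_le_sum fun r hr => hall r hr
        _ = _ := by rw [sum_const, nsmul_eq_mul]
    have h3 : |((RU A B C M T₁ T₂).card : ℝ) / ((sl q).card : ℝ) - m| ≤ E := by
      have e : ((RU A B C M T₁ T₂).card : ℝ) / ((sl q).card : ℝ) - m =
          (((RU A B C M T₁ T₂).card : ℝ) - (sl q).card * m) / ((sl q).card : ℝ) := by
        field_simp
      rw [e, abs_div, abs_of_pos (by linarith : (0 : ℝ) < ((sl q).card : ℝ)),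
        div_le_iff₀ (by linarith)]
      linarith
    have h4 : |((cu (fun c => 0 < c) A B C M T₁ T₂ q r).card : ℝ) -
        ((RU A B C M T₁ T₂).card : ℝ) / ((sl q).card : ℝ)| ≤ 2 * E := by
      rw [abs_le] at h1 h3 ⊢
      constructor <;> linarith [h1.1, h1.2, h3.1, h3.2]
    refine h4.trans ?_
    have hE' : 2 * E = (2 * K * 16 ^ 8) * L ^ 24 * (q : ℝ) ^ 4 * X * (1 / y) := by rw [hE]; ring
    rw [hE']
    have h24 : L ^ 24 ≤ L ^ 80 := pow_le_pow_right₀ hL (by norm_num)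
    gcongr
    have : (0 : ℝ) ≤ 9 * (12 * 256) ^ 11 := by positivity
    linarith

end Pool.Agent.Lib.MP391708.TG.Eqc
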