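import Pool.Agent.Lib.MP_391708_nt.TG.EqcA
import Pool.Agent.Lib.MP_391708_nt.TA.EqfQ

/-!
# Equidistribution of unimodular pairs with `v` in a fundamental cone, indefinite forms

`μ = (p, q; r, s)` is a proper automorphism of `(A, B, C)`, the cone is `0 ≤ v.2`, `0 < cross v e`,
`e = (p, r)`.  The slanted ray is removed with a Lipschitz taper beyond it and the automorphism:
`1_cone = 1[above (1, 0)] h - 1[above e] h`.
-/

set_option autoImplicit false

namespace Pool.Agent.Lib.MP391708.TG.Eqc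

open Finset Filter Topology
open Pool.Agent.Lib.MP391708.Eqd Pool.Agent.Lib.MP391708.T1
open Pool.Agent.Lib.MP391708.T1.Equ (RC cross_of_mem res_mem_sl sl_card_pos)
open Pool.Agent.Lib.MP391708.TA Pool.Agent.Lib.MP391708.TA.Eqf
open scoped Classical

/-! ## The taper -/

/-- the taper -/
noncomputable def hh (κ S : ℝ) (l₁ l₂ : ℝ → ℝ → ℝ) (a c : ℝ) : ℝ :=
  max 0 (1 - max 0 (max (l₁ a c) (l₂ a c)) / (κ * S))

section taper

variable {κ S N : ℝ} {l₁ l₂ : ℝ → ℝ → ℝ}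

lemma hh_nonneg (a c : ℝ) : 0 ≤ hh κ S l₁ l₂ a c := le_max_left _ _

lemma hh_le_one (hκ : 0 < κ) (hS : 0 < S) (a c : ℝ) : hh κ S l₁ l₂ a c ≤ 1 := by
  unfold hh
  apply max_le (by norm_num)
  have : 0 ≤ max 0 (max (l₁ a c) (l₂ a c)) / (κ * S) := by
    have := le_max_left 0 (max (l₁ a c) (l₂ a c))
    positivity
  linarith

lemma hh_eq_one {a c : ℝ} (h1 : l₁ a c ≤ 0) (h2 : l₂ a c ≤ 0) : hh κ S l₁ l₂ a c = 1 := by
  unfold hh
  rw [max_eq_left (max_le h1 h2), zero_div, sub_zero, max_eq_right (by norm_num)]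

lemma lt_of_hh_pos (hκ : 0 < κ) (hS : 0 < S) {a c : ℝ} (h : 0 < hh κ S l₁ l₂ a c) :
    l₁ a c < κ * S ∧ l₂ a c < κ * S := by
  unfold hh at h
  have hk : 0 < κ * S := mul_pos hκ hS
  have h1 : 0 < 1 - max 0 (max (l₁ a c) (l₂ a c)) / (κ * S) := by
    rcases lt_max_iff.1 h with h | h
    · exact absurd h (lt_irrefl _)
    · exact h
  have h2 : max 0 (max (l₁ a c) (l₂ a c)) < κ * S := by
    have : max 0 (max (l₁ a c) (l₂ a c)) / (κ * S) < 1 := by linarith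
    rwa [div_lt_one hk] at this
  have h3 := lt_of_le_of_lt (le_max_right _ _) h2
  exact ⟨lt_of_le_of_lt (le_max_left _ _) h3, lt_of_le_of_lt (le_max_right _ _) h3⟩

lemma hh_lip (hκ : 0 < κ) (hS : 0 < S) {a c a' c' : ℝ} {δ : ℝ}
    (h1 : |l₁ a' c' - l₁ a c| ≤ δ) (h2 : |l₂ a' c' - l₂ a c| ≤ δ) :
    |hh κ S l₁ l₂ a' c' - hh κ S l₁ l₂ a c| ≤ δ / (κ * S) := by
  have hk : 0 < κ * S := mul_pos hκ hS
  unfold hh
  have e1 := abs_max_sub_max_le_max 0 (1 - max 0 (max (l₁ a' c') (l₂ a' c')) / (κ * S)) 0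
    (1 - max 0 (max (l₁ a c) (l₂ a c)) / (κ * S))
  have e2 := abs_max_sub_max_le_max 0 (max (l₁ a' c') (l₂ a' c')) 0 (max (l₁ a c) (l₂ a c))
  have e3 := abs_max_sub_max_le_max (l₁ a' c') (l₂ a' c') (l₁ a c) (l₂ a c)
  have hδ : 0 ≤ δ := le_trans (abs_nonneg _) h1
  have e4 : |max (l₁ a' c') (l₂ a' c') - max (l₁ a c) (l₂ a c)| ≤ δ := e3.trans (max_le h1 h2)
  have e5 : |max 0 (max (l₁ a' c') (l₂ a' c')) - max 0 (max (l₁ a c) (l₂ a c))| ≤ δ := by
    refine e2.trans (max_le ?_ e4)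
    rw [sub_self, abs_zero]; exact hδ
  refine e1.trans (max_le ?_ ?_)
  · rw [sub_self, abs_zero]; positivity
  · have e6 : (1 - max 0 (max (l₁ a' c') (l₂ a' c')) / (κ * S)) -
        (1 - max 0 (max (l₁ a c) (l₂ a c)) / (κ * S)) =
        -((max 0 (max (l₁ a' c') (l₂ a' c')) - max 0 (max (l₁ a c) (l₂ a c))) / (κ * S)) := by
      ring
    rw [e6, abs_neg, abs_div, abs_of_pos hk]
    exact div_le_div_of_nonneg_right e5 hk.le

end taper

/-- the lower bound of the region -/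
noncomputable def U1 (A B C : ℤ) (T₁ : ℝ → ℝ) (a c : ℝ) : ℝ := T₁ (qr A B C a c)

/-- the tapered upper bound of the region -/
noncomputable def U2 (A B C : ℤ) (T₁ T₂ : ℝ → ℝ) (κ S : ℝ) (l₁ l₂ : ℝ → ℝ → ℝ) (a c : ℝ) : ℝ :=
  T₁ (qr A B C a c) + max 0 (T₂ (qr A B C a c) - T₁ (qr A B C a c)) * hh κ S l₁ l₂ a c

lemma U_lt {A B C : ℤ} {T₁ T₂ : ℝ → ℝ} {κ S : ℝ} {l₁ l₂ : ℝ → ℝ → ℝ} {a c : ℝ}
    (h : U1 A B C T₁ a c < U2 A B C T₁ T₂ κ S l₁ l₂ a c) :
    T₁ (qr A B C a c) < T₂ (qr A B C a c) ∧ 0 < hh κ S l₁ l₂ a c := by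
  unfold U1 U2 at h
  have h1 : 0 < max 0 (T₂ (qr A B C a c) - T₁ (qr A B C a c)) * hh κ S l₁ l₂ a c := by linarith
  have h2 := hh_nonneg (κ := κ) (S := S) (l₁ := l₁) (l₂ := l₂) a c
  have h3 : 0 < hh κ S l₁ l₂ a c := by
    rcases eq_or_lt_of_le h2 with h | h
    · rw [← h, mul_zero] at h1; exact absurd h1 (lt_irrefl _)
    · exact h
  have h4 : 0 < max 0 (T₂ (qr A B C a c) - T₁ (qr A B C a c)) := (mul_pos_iff_of_pos_right h3).1 h1
  refine ⟨?_, h3⟩
  rcases lt_max_iff.1 h4 with h | h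
  · exact absurd h (lt_irrefl _)
  · linarith

/-- the tapered region is admissible -/
lemma bdH {A B C : ℤ} {N L L₂ X S κ : ℝ} (hN : 1 ≤ N) (hL : 1 ≤ L) (hX : 0 < X) (hS : 0 < S)
    (hκ : 0 < κ) (hAN : |(A : ℝ)| ≤ N) (hBN : |(B : ℝ)| ≤ N) (hCN : |(C : ℝ)| ≤ N)
    {T₁ T₂ : ℝ → ℝ} (hB : Bd L X (S ^ 2) T₁ T₂) {l₁ l₂ : ℝ → ℝ → ℝ}
    (hl₁ : ∀ a c a' c' : ℝ, |l₁ a' c' - l₁ a c| ≤ N * (|a' - a| + |c' - c|))
    (hl₂ : ∀ a c a' c' : ℝ, |l₂ a' c' - l₂ a c| ≤ N * (|a' - a| + |c' - c|))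
    (hsup : ∀ a c : ℝ, 0 < qr A B C a c → qr A B C a c ≤ L * S ^ 2 → l₁ a c < κ * S →
      l₂ a c < κ * S → |a| ≤ N * L * S ∧ |c| ≤ N * L * S)
    (hL₂ : 48 * N ^ 2 * L ^ 2 + L * N / κ ≤ L₂) :
    BdF A B C L₂ X S (U1 A B C T₁) (U2 A B C T₁ T₂ κ S l₁ l₂) := by
  have hL0 : 0 < L := by linarith
  have hN0 : 0 < N := by linarith
  have hX' : 0 ≤ L * (X / S ^ 2) := by positivity
  have hLN : 0 < L * N / κ := by positivity
  have hN2 : N ≤ N ^ 2 := by nlinarith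
  have hL2 : L ≤ L ^ 2 := by nlinarith
  have hNL : N * L ≤ N ^ 2 * L ^ 2 := mul_le_mul hN2 hL2 hL0.le (by positivity)
  have hNL1 : 1 ≤ N * L := one_le_mul_of_one_le_of_one_le hN hL
  have hLN2 : L ≤ N * L := by nlinarith
  have hL₂L : L ≤ L₂ := by nlinarith
  have hL₂0 : 0 < L₂ := by linarith
  -- the support
  have sup : ∀ a c : ℝ, U1 A B C T₁ a c < U2 A B C T₁ T₂ κ S l₁ l₂ a c →
      |a| ≤ N * L * S ∧ |c| ≤ N * L * S ∧ S ^ 2 / L ≤ qr A B C a c ∧
        0 ≤ T₁ (qr A B C a c) ∧ T₁ (qr A B C a c) < T₂ (qr A B C a c) ∧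
          T₂ (qr A B C a c) ≤ L * X := by
    intro a c h
    obtain ⟨h1, h2⟩ := U_lt h
    obtain ⟨g1, g2, g3, g4⟩ := hB.supp _ h1
    obtain ⟨h3, h4⟩ := lt_of_hh_pos hκ hS h2
    have hq : 0 < qr A B C a c := lt_of_lt_of_le (by positivity) g1
    obtain ⟨s1, s2⟩ := hsup a c hq g2 h3 h4
    exact ⟨s1, s2, g1, g3, h1, g4⟩
  have lipq : ∀ a c a' c' : ℝ, |a| ≤ N * L * S → |c| ≤ N * L * S → |a' - a| ≤ S → |c' - c| ≤ S →
      L * (X / S ^ 2) * |qr A B C a' c' - qr A B C a c| ≤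
        16 * N ^ 2 * L ^ 2 * (X / S) * (|a' - a| + |c' - c|) := by
    intro a c a' c' g1 g2 h1 h2
    refine (mul_le_mul_of_nonneg_left (lip_of_Bd hN hL hS hAN hBN hCN g1 g2 h1 h2) hX').trans ?_
    apply le_of_eq
    field_simp
  refine ⟨?_, ?_, ?_⟩
  · intro a c a' c' hs h1 h2
    obtain ⟨g1, g2, -⟩ := sup a c hs
    unfold U1
    refine (hB.lip₁ (qr A B C a' c') (qr A B C a c)).trans ((lipq a c a' c' g1 g2 h1 h2).trans ?_)
    have : 16 * N ^ 2 * L ^ 2 ≤ L₂ := by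
      have : 0 ≤ N ^ 2 * L ^ 2 := by positivity
      nlinarith
    gcongr
  · intro a c a' c' hs h1 h2
    obtain ⟨g1, g2, g3, g4, g5, g6⟩ := sup a c hs
    have hd : 0 ≤ |a' - a| + |c' - c| := by positivity
    set δ := |a' - a| + |c' - c| with hδ
    have i1 := (hB.lip₁ (qr A B C a' c') (qr A B C a c)).trans (lipq a c a' c' g1 g2 h1 h2)
    have i2 := (hB.lip₂ (qr A B C a' c') (qr A B C a c)).trans (lipq a c a' c' g1 g2 h1 h2)
    have i3 := hh_lip (κ := κ) (S := S) hκ hS (hl₁ a c a' c') (hl₂ a c a' c')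
    have i4 := hh_nonneg (κ := κ) (S := S) (l₁ := l₁) (l₂ := l₂) a' c'
    have i5 := hh_le_one (κ := κ) (S := S) (l₁ := l₁) (l₂ := l₂) hκ hS a' c'
    unfold U2
    set t₁ := T₁ (qr A B C a c)
    set t₂ := T₂ (qr A B C a c)
    set t₁' := T₁ (qr A B C a' c')
    set t₂' := T₂ (qr A B C a' c')
    set h := hh κ S l₁ l₂ a c
    set h' := hh κ S l₁ l₂ a' c'
    rw [← hδ] at i1 i2 i3
    have j1 : |max 0 (t₂' - t₁') - max 0 (t₂ - t₁)| ≤ 32 * N ^ 2 * L ^ 2 * (X / S) * δ := by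
      have k1 := abs_max_sub_max_le_max 0 (t₂' - t₁') 0 (t₂ - t₁)
      refine k1.trans (max_le ?_ ?_)
      · rw [sub_self, abs_zero]; positivity
      · have k2 : (t₂' - t₁') - (t₂ - t₁) = (t₂' - t₂) - (t₁' - t₁) := by ring
        rw [k2]
        have := abs_sub (t₂' - t₂) (t₁' - t₁)
        linarith
    have j2 : |max 0 (t₂ - t₁)| ≤ L * X := by
      rw [abs_of_nonneg (le_max_left _ _)]
      exact max_le (by positivity) (by linarith)
    have e : (t₁' + max 0 (t₂' - t₁') * h') - (t₁ + max 0 (t₂ - t₁) * h) =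
        (t₁' - t₁) + (max 0 (t₂' - t₁') - max 0 (t₂ - t₁)) * h' +
          max 0 (t₂ - t₁) * (h' - h) := by ring
    rw [e]
    have j3 : |(max 0 (t₂' - t₁') - max 0 (t₂ - t₁)) * h'| ≤
        32 * N ^ 2 * L ^ 2 * (X / S) * δ := by
      rw [abs_mul, abs_of_nonneg i4]
      calc _ ≤ (32 * N ^ 2 * L ^ 2 * (X / S) * δ) * 1 :=
            mul_le_mul j1 i5 i4 (by positivity)
        _ = _ := mul_one _
    have j4 : |max 0 (t₂ - t₁) * (h' - h)| ≤ (L * X) * (N * δ / (κ * S)) := by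
      rw [abs_mul]
      exact mul_le_mul j2 i3 (abs_nonneg _) (by positivity)
    have j5 : (L * X) * (N * δ / (κ * S)) = L * N / κ * (X / S) * δ := by
      field_simp
    rw [j5] at j4
    refine (abs_add_le _ _).trans ?_
    have j6 := abs_add_le (t₁' - t₁) ((max 0 (t₂' - t₁') - max 0 (t₂ - t₁)) * h')
    have j7 : (48 * N ^ 2 * L ^ 2 + L * N / κ) * (X / S) * δ ≤ L₂ * (X / S) * δ := by gcongr
    linarith
  · intro a c hs
    obtain ⟨g1, g2, g3, g4, g5, g6⟩ := sup a c hs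
    have e1 : N * L ≤ L₂ := by
      have : 0 ≤ N ^ 2 * L ^ 2 := by positivity
      nlinarith
    have e2 : N * L * S ≤ L₂ * S := mul_le_mul_of_nonneg_right e1 hS.le
    refine ⟨g1.trans e2, g2.trans e2, ?_, g4, ?_⟩
    · refine le_trans ?_ g3
      exact div_le_div_of_nonneg_left (by positivity) hL0 hL₂L
    · have i4 := hh_nonneg (κ := κ) (S := S) (l₁ := l₁) (l₂ := l₂) a c
      have i5 := hh_le_one (κ := κ) (S := S) (l₁ := l₁) (l₂ := l₂) hκ hS a c
      unfold U2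
      rw [max_eq_right (by linarith)]
      have : (T₂ (qr A B C a c) - T₁ (qr A B C a c)) * hh κ S l₁ l₂ a c ≤
          (T₂ (qr A B C a c) - T₁ (qr A B C a c)) * 1 :=
        mul_le_mul_of_nonneg_left i5 (by linarith)
      have h5 : L * X ≤ L₂ * X := mul_le_mul_of_nonneg_right hL₂L hX.le
      linarith

/-! ## The automorphism and the cone -/

/-- a proper automorphism of `(A, B, C)`, `A > 0`; `(p, r)` is above `(1, 0)` in the same component -/
structure Aut (A B C p q r s : ℤ) : Prop where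
  hA : 0 < A
  det : p * s - q * r = 1
  e1 : A * p ^ 2 + 2 * B * p * r + C * r ^ 2 = A
  e2 : A * p * q + B * (p * s + q * r) + C * r * s = B
  e3 : A * q ^ 2 + 2 * B * q * s + C * s ^ 2 = C
  hr : 0 < r
  hb : 0 < A * p + B * r

section cone

variable {A B C p q r s : ℤ}

lemma qr_cone (h : Aut A B C p q r s) (a c : ℝ) : (r : ℝ) ^ 2 * qr A B C a c =
    A * (a * r - c * p) ^ 2 + 2 * (A * p + B * r) * ((a * r - c * p) * c) + A * c ^ 2 := by
  have e1 : (A : ℝ) * p ^ 2 + 2 * B * p * r + C * r ^ 2 = A := by exact_mod_cast h.e1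
  unfold qr
  linear_combination c ^ 2 * e1

/-- the support of the taper is bounded -/
lemma sup1 (h : Aut A B C p q r s) {N L S κ : ℝ} (hL : 1 ≤ L) (hS : 0 < S) (hκ1 : κ ≤ 1)
    (hN : (1 + |(p : ℝ)|) * ((r : ℝ) ^ 2 + 2 * (A * p + B * r)) ≤ N) (a c : ℝ)
    (h2 : qr A B C a c ≤ L * S ^ 2) (h3 : -c < κ * S)
    (h4 : c * p - a * r < κ * S) : |a| ≤ N * L * S ∧ |c| ≤ N * L * S := by
  have hr : (1 : ℝ) ≤ r := by exact_mod_cast h.hr
  have hA : (1 : ℝ) ≤ A := by exact_mod_cast h.hA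
  have hb : (0 : ℝ) < A * p + B * r := by exact_mod_cast h.hb
  set b : ℝ := A * p + B * r with hbdef
  have hr2 : 1 ≤ (r : ℝ) ^ 2 := one_le_pow₀ hr
  have hL0 : 0 < L := by linarith
  have hkS : κ * S ≤ S := by nlinarith
  obtain ⟨u, hu⟩ : ∃ u : ℝ, u = a * r - c * p := ⟨_, rfl⟩
  have hid := qr_cone h a c
  rw [← hu, ← hbdef] at hid
  have h5 : A * u ^ 2 + 2 * b * (u * c) + A * c ^ 2 ≤ (r : ℝ) ^ 2 * L * S ^ 2 := by
    rw [← hid]
    have := mul_le_mul_of_nonneg_left h2 (by positivity : (0 : ℝ) ≤ (r : ℝ) ^ 2)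
    linarith
  have hu1 : -S < u := by rw [hu]; linarith
  have hc1 : -S < c := by linarith
  obtain ⟨P, hP⟩ : ∃ P : ℝ, P = ((r : ℝ) ^ 2 + 2 * b) * L := ⟨_, rfl⟩
  have hP1 : 1 ≤ P := by rw [hP]; nlinarith
  have hPS : S ≤ P * S := by nlinarith
  have key : ∀ x y : ℝ, -S < x → -S < y → A * x ^ 2 + 2 * b * (x * y) + A * y ^ 2 ≤
      (r : ℝ) ^ 2 * L * S ^ 2 → |x| ≤ P * S := by
    intro x y hx hy hxy
    rw [abs_le]
    constructor
    · linarith
    · by_contra hcon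
      push Not at hcon
      have hxS : S < x := by linarith
      have hx0 : 0 < x := by linarith
      have i1 : x ^ 2 ≤ A * x ^ 2 := by nlinarith [sq_nonneg x]
      have i2 : 0 ≤ A * y ^ 2 := by positivity
      have i3 : -(2 * b * (x * S)) ≤ 2 * b * (x * y) := by
        have : -(x * S) ≤ x * y := by nlinarith
        nlinarith
      have i4 : x ^ 2 ≤ (r : ℝ) ^ 2 * L * S ^ 2 + 2 * b * (x * S) := by linarith
      have i5 : (r : ℝ) ^ 2 * L * S ^ 2 ≤ (r : ℝ) ^ 2 * L * (x * S) := by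
        apply mul_le_mul_of_nonneg_left _ (by positivity)
        nlinarith
      have i6 : 2 * b * (x * S) ≤ 2 * b * L * (x * S) := by
        have : 2 * b ≤ 2 * b * L := by nlinarith
        exact mul_le_mul_of_nonneg_right this (by positivity)
      have i7 : x * x ≤ P * S * x := by
        have : P * S * x = (r : ℝ) ^ 2 * L * (x * S) + 2 * b * L * (x * S) := by rw [hP]; ring
        rw [this]
        nlinarith
      have i8 : x ≤ P * S := le_of_mul_le_mul_right i7 hx0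
      linarith
  have ku : |u| ≤ P * S := key u c hu1 hc1 h5
  have kc : |c| ≤ P * S := key c u hc1 hu1 (by linarith [h5, mul_comm u c])
  have hp0 : 0 ≤ |(p : ℝ)| := abs_nonneg _
  have hPN : (1 + |(p : ℝ)|) * (P * S) ≤ N * L * S := by
    have : (1 + |(p : ℝ)|) * (P * S) = (1 + |(p : ℝ)|) * ((r : ℝ) ^ 2 + 2 * b) * L * S := by
      rw [hP]; ring
    rw [this]
    have h1 : (1 + |(p : ℝ)|) * ((r : ℝ) ^ 2 + 2 * b) * L ≤ N * L :=
      mul_le_mul_of_nonneg_right hN hL0.le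
    exact mul_le_mul_of_nonneg_right h1 hS.le
  have hPS0 : 0 ≤ P * S := by positivity
  constructor
  · have e : a * r = u + c * p := by rw [hu]; ring
    have h6 : |a| * r ≤ (1 + |(p : ℝ)|) * (P * S) := by
      have : |a| * r = |a * r| := by rw [abs_mul, abs_of_pos (by linarith : (0 : ℝ) < r)]
      rw [this, e]
      refine (abs_add_le _ _).trans ?_
      rw [abs_mul]
      nlinarith [mul_le_mul_of_nonneg_right kc hp0]
    have h7 : |a| ≤ |a| * r := by nlinarith [abs_nonneg a]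
    linarith
  · have : P * S ≤ (1 + |(p : ℝ)|) * (P * S) := by nlinarith
    linarith

/-- beyond the ray `e` the second coordinate is positive -/
lemma beyond (h : Aut A B C p q r s) {L S κ : ℝ} (hL : 1 ≤ L) (hS : 0 < S) (hκ : 0 < κ)
    (hκ1 : κ ≤ 1) (hκ2 : κ * (2 * (A + (A * p + B * r)) * L) < 1) {a c : ℝ}
    (h1 : S ^ 2 / L ≤ qr A B C a c) (h3 : -c < κ * S) (h4 : c * p - a * r < κ * S)
    (h5 : a * r - c * p ≤ 0) : 0 < c := by
  have hr : (1 : ℝ) ≤ r := by exact_mod_cast h.hr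
  have hA : (1 : ℝ) ≤ A := by exact_mod_cast h.hA
  have hb : (0 : ℝ) < A * p + B * r := by exact_mod_cast h.hb
  set b : ℝ := A * p + B * r with hbdef
  have hL0 : 0 < L := by linarith
  have hr2 : 1 ≤ (r : ℝ) ^ 2 := one_le_pow₀ hr
  obtain ⟨u, hu⟩ : ∃ u : ℝ, u = a * r - c * p := ⟨_, rfl⟩
  have hid := qr_cone h a c
  rw [← hu, ← hbdef] at hid
  rw [← hu] at h5
  have hu1 : -(κ * S) < u := by rw [hu]; linarith
  by_contra hcon
  push Not at hcon
  have hk : 0 < κ * S := by positivity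
  have i1 : u ^ 2 ≤ (κ * S) ^ 2 := by nlinarith
  have i2 : c ^ 2 ≤ (κ * S) ^ 2 := by nlinarith
  have i3 : u * c ≤ (κ * S) ^ 2 := by nlinarith
  have i4 : (r : ℝ) ^ 2 * qr A B C a c ≤ 2 * (A + b) * (κ * S) ^ 2 := by
    rw [hid]
    nlinarith [mul_le_mul_of_nonneg_left i1 (by linarith : (0 : ℝ) ≤ A),
      mul_le_mul_of_nonneg_left i2 (by linarith : (0 : ℝ) ≤ A),
      mul_le_mul_of_nonneg_left i3 (by linarith : (0 : ℝ) ≤ 2 * b)]
  have hq0 : 0 ≤ qr A B C a c := le_trans (by positivity) h1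
  have i5 : qr A B C a c ≤ (r : ℝ) ^ 2 * qr A B C a c := by nlinarith
  have i6 : S ^ 2 / L ≤ 2 * (A + b) * (κ * S) ^ 2 := by linarith
  rw [div_le_iff₀ hL0] at i6
  have i7 : 2 * (A + b) * (κ * S) ^ 2 * L ≤ κ * (2 * (A + b) * L) * S ^ 2 := by
    have : 2 * (A + b) * (κ * S) ^ 2 * L = κ * (κ * (2 * (A + b) * L)) * S ^ 2 := by ring
    rw [this]
    have h0 : 0 ≤ κ * (2 * (A + b) * L) := by positivity
    have : κ * (κ * (2 * (A + b) * L)) ≤ 1 * (κ * (2 * (A + b) * L)) :=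
      mul_le_mul_of_nonneg_right hκ1 h0
    rw [one_mul] at this
    exact mul_le_mul_of_nonneg_right this (by positivity)
  have i8 : κ * (2 * (A + b) * L) * S ^ 2 < 1 * S ^ 2 := mul_lt_mul_of_pos_right hκ2 (by positivity)
  linarith

/-- the automorphism on pairs -/
def mv (p q r s : ℤ) (v : V) : V := (p * v.1 + q * v.2, r * v.1 + s * v.2)

lemma qr_mv (h : Aut A B C p q r s) (a c : ℝ) :
    qr A B C (p * a + q * c) (r * a + s * c) = qr A B C a c := by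
  have e1 : (A : ℝ) * p ^ 2 + 2 * B * p * r + C * r ^ 2 = A := by exact_mod_cast h.e1
  have e2 : (A : ℝ) * p * q + B * (p * s + q * r) + C * r * s = B := by exact_mod_cast h.e2
  have e3 : (A : ℝ) * q ^ 2 + 2 * B * q * s + C * s ^ 2 = C := by exact_mod_cast h.e3
  unfold qr
  linear_combination a ^ 2 * e1 + 2 * a * c * e2 + c ^ 2 * e3

lemma qb_mv (h : Aut A B C p q r s) (v w : V) :
    qb A B C (mv p q r s v) (mv p q r s w) = qb A B C v w := by
  unfold qb mv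
  linear_combination v.1 * w.1 * h.e1 + (v.1 * w.2 + v.2 * w.1) * h.e2 + v.2 * w.2 * h.e3

lemma cross_mv (h : Aut A B C p q r s) (v w : V) :
    cross (mv p q r s v) (mv p q r s w) = cross v w := by
  unfold cross mv
  linear_combination (v.1 * w.2 - v.2 * w.1) * h.det

lemma mv_inv (h : Aut A B C p q r s) (v : V) : mv p q r s (mv s (-q) (-r) p v) = v := by
  have := h.det
  unfold mv
  ext
  · simp only; linear_combination v.1 * this
  · simp only; linear_combination v.2 * this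

lemma inv_mv (h : Aut A B C p q r s) (v : V) : mv s (-q) (-r) p (mv p q r s v) = v := by
  have := h.det
  unfold mv
  ext
  · simp only; linear_combination v.1 * this
  · simp only; linear_combination v.2 * this

end cone

end Pool.Agent.Lib.MP391708.TG.Eqc
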