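import Pool.Agent.Lib.MP_391708_nt.TG.EqcB

/-!
# EQUID in the cone: the theorem
-/

set_option autoImplicit false

namespace Pool.Agent.Lib.MP391708.TG.Eqc

open Finset Filter Topology
open Pool.Agent.Lib.MP391708.Eqd Pool.Agent.Lib.MP391708.T1
open Pool.Agent.Lib.MP391708.T1.Equ (RC cross_of_mem res_mem_sl sl_card_pos)
open Pool.Agent.Lib.MP391708.TA Pool.Agent.Lib.MP391708.TA.Eqf
open scoped Classical

variable {A B C p q r s : ℤ}

/-- the cone between `(1, 0)` and `(p, r)` -/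
def CnP (p r : ℤ) (v : V) : Prop := 0 ≤ v.2 ∧ 0 < cross v (p, r)

/-- the pairs of the region with `v` in the cone -/
noncomputable def RQ (A B C p r : ℤ) (M : ℕ) (T₁ T₂ : ℝ → ℝ) : Finset (V × V) :=
  (pairs 1 M).filter (fun x => RegQ A B C T₁ T₂ x ∧ CnP p r x.1)

/-- the automorphism on residues -/
def mr {m : ℕ} (p q r s : ℤ) (t : RC m) : RC m :=
  (((p : ZMod m) * t.1.1 + q * t.1.2, (r : ZMod m) * t.1.1 + s * t.1.2),
   ((p : ZMod m) * t.2.1 + q * t.2.2, (r : ZMod m) * t.2.1 + s * t.2.2))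

lemma res_mv (m : ℕ) (x : V × V) :
    res m (mv p q r s x.1, mv p q r s x.2) = mr p q r s (res m x) := by
  unfold res mv mr
  push_cast
  rfl

lemma det_cast (h : Aut A B C p q r s) (m : ℕ) : (p : ZMod m) * s - q * r = 1 := by
  have := congrArg (Int.cast : ℤ → ZMod m) h.det
  push_cast at this
  exact this

lemma mr_eq_iff (h : Aut A B C p q r s) {m : ℕ} (u t : RC m) :
    mr p q r s u = t ↔ u = mr s (-q) (-r) p t := by
  have hd := det_cast h m
  constructor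
  · rintro rfl
    unfold mr
    push_cast
    refine Prod.ext (Prod.ext ?_ ?_) (Prod.ext ?_ ?_)
    · simp only; linear_combination (-u.1.1) * hd
    · simp only; linear_combination (-u.1.2) * hd
    · simp only; linear_combination (-u.2.1) * hd
    · simp only; linear_combination (-u.2.2) * hd
  · rintro rfl
    unfold mr
    push_cast
    refine Prod.ext (Prod.ext ?_ ?_) (Prod.ext ?_ ?_)
    · simp only; linear_combination t.1.1 * hd
    · simp only; linear_combination t.1.2 * hd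
    · simp only; linear_combination t.2.1 * hd
    · simp only; linear_combination t.2.2 * hd

lemma mr_mem_sl (h : Aut A B C p q r s) {m : ℕ} [NeZero m] {t : RC m} (ht : t ∈ sl m) :
    mr s (-q) (-r) p t ∈ sl m := by
  have hd := det_cast h m
  unfold sl at ht ⊢
  rw [mem_filter] at ht ⊢
  refine ⟨mem_univ _, ?_⟩
  have h2 := ht.2
  unfold mr
  push_cast
  linear_combination (t.1.1 * t.2.2 - t.1.2 * t.2.1) * hd + h2

/-! ## The four linear forms -/

section forms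

variable {T₁ T₂ : ℝ → ℝ} {κ S L : ℝ}

/-- the tapered bound of the first region -/
noncomputable def VA (A B C p r : ℤ) (T₁ T₂ : ℝ → ℝ) (κ S : ℝ) : ℝ → ℝ → ℝ :=
  U2 A B C T₁ T₂ κ S (fun _ c => -c) (fun a c => c * p - a * r)

/-- the tapered bound of the second region -/
noncomputable def VB (A B C r s : ℤ) (T₁ T₂ : ℝ → ℝ) (κ S : ℝ) : ℝ → ℝ → ℝ :=
  U2 A B C T₁ T₂ κ S (fun a c => -(r * a + s * c)) (fun _ c => c)

lemma VA_mv (h : Aut A B C p q r s) (a c : ℝ) :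
    VA A B C p r T₁ T₂ κ S (p * a + q * c) (r * a + s * c) = VB A B C r s T₁ T₂ κ S a c := by
  have hd : (p : ℝ) * s - q * r = 1 := by exact_mod_cast h.det
  have e : (r * a + s * c) * (p : ℝ) - (p * a + q * c) * r = c := by linear_combination c * hd
  unfold VA VB U2 hh
  rw [qr_mv h]
  beta_reduce
  rw [e]

lemma U1_mv (h : Aut A B C p q r s) (a c : ℝ) :
    U1 A B C T₁ (p * a + q * c) (r * a + s * c) = U1 A B C T₁ a c := by
  unfold U1
  rw [qr_mv h]

/-- the second region is the preimage of the first -/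
lemma regB_iff (h : Aut A B C p q r s) (y : V × V) :
    RegF A B C (U1 A B C T₁) (VB A B C r s T₁ T₂ κ S) y ↔
      RegF A B C (U1 A B C T₁) (VA A B C p r T₁ T₂ κ S) (mv p q r s y.1, mv p q r s y.2) := by
  have e1 : U1 A B C T₁ ((mv p q r s y.1).1 : ℝ) ((mv p q r s y.1).2 : ℝ) =
      U1 A B C T₁ (y.1.1 : ℝ) (y.1.2 : ℝ) := by
    rw [← U1_mv (T₁ := T₁) h (y.1.1 : ℝ) (y.1.2 : ℝ)]
    unfold mv
    push_cast
    rfl
  have e2 : VA A B C p r T₁ T₂ κ S ((mv p q r s y.1).1 : ℝ) ((mv p q r s y.1).2 : ℝ) =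
      VB A B C r s T₁ T₂ κ S (y.1.1 : ℝ) (y.1.2 : ℝ) := by
    rw [← VA_mv h (y.1.1 : ℝ) (y.1.2 : ℝ)]
    unfold mv
    push_cast
    rfl
  unfold RegF
  rw [e1, e2]
  simp only
  rw [qb_mv h]

/-- in the closed cone the first region is the region of the form -/
lemma regA_iff {x : V × V} (h1 : 0 ≤ x.1.2) (h2 : 0 ≤ cross x.1 (p, r)) :
    RegF A B C (U1 A B C T₁) (VA A B C p r T₁ T₂ κ S) x ↔ RegQ A B C T₁ T₂ x := by
  have g1 : -(x.1.2 : ℝ) ≤ 0 := by
    have : (0 : ℝ) ≤ x.1.2 := by exact_mod_cast h1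
    linarith
  have g2 : (x.1.2 : ℝ) * p - x.1.1 * r ≤ 0 := by
    have : (0 : ℝ) ≤ (cross x.1 (p, r) : ℝ) := by exact_mod_cast h2
    unfold cross at this
    push_cast at this
    linarith
  have e : hh κ S (fun _ c => -c) (fun a c => c * p - a * r) (x.1.1 : ℝ) (x.1.2 : ℝ) = 1 :=
    hh_eq_one g1 g2
  unfold RegF RegQ VA U1 U2
  rw [e, mul_one, qv_cast]
  constructor
  · rintro ⟨h3, h4⟩
    refine ⟨h3, ?_⟩
    rcases le_total 0 (T₂ (qr A B C x.1.1 x.1.2) - T₁ (qr A B C x.1.1 x.1.2)) with h5 | h5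
    · rw [max_eq_right h5] at h4; linarith
    · rw [max_eq_left h5] at h4; linarith
  · rintro ⟨h3, h4⟩
    refine ⟨h3, ?_⟩
    have := le_max_right 0 (T₂ (qr A B C x.1.1 x.1.2) - T₁ (qr A B C x.1.1 x.1.2))
    linarith

/-- `v = (±1, 0)` has the value `A` -/
lemma qv_zero {x : V × V} (hc : cross x.1 x.2 = -1) (h0 : x.1.2 = 0) : qv A B C x.1 = A := by
  unfold cross at hc
  rw [h0, zero_mul, sub_zero] at hc
  have h1 : x.1.1 ^ 2 = 1 := by
    have h2 : x.1.1 ∣ 1 := ⟨-x.2.2, by linarith⟩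
    rcases Int.isUnit_iff.1 (isUnit_of_dvd_one h2) with h | h <;> rw [h] <;> norm_num
  unfold qv
  rw [h0, h1]
  ring

lemma cross_mv_e (h : Aut A B C p q r s) (v : V) : cross (mv p q r s v) (p, r) = -v.2 := by
  unfold cross mv
  simp only
  linear_combination (-v.2) * h.det

/-- the identity `1_cone = 1[above (1, 0)] h - 1[above e] h` in numbers of pairs -/
lemma card_id (h : Aut A B C p q r s) {M : ℕ} (hL : 1 ≤ L) (hS : 0 < S) (hκ : 0 < κ) (hκ1 : κ ≤ 1)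
    (hκ2 : κ * (2 * (A + (A * p + B * r)) * L) < 1) (hSA : (A : ℝ) < S ^ 2 / L)
    {X : ℝ} (hB : Bd L X (S ^ 2) T₁ T₂)
    (hM1 : ∀ x : V × V, cross x.1 x.2 = -1 →
      RegF A B C (U1 A B C T₁) (VA A B C p r T₁ T₂ κ S) x → x ∈ pairs 1 M)
    (hM2 : ∀ x : V × V, cross x.1 x.2 = -1 →
      RegF A B C (U1 A B C T₁) (VB A B C r s T₁ T₂ κ S) x → x ∈ pairs 1 M) (P : V × V → Prop) :
    ((RU A B C M (U1 A B C T₁) (VA A B C p r T₁ T₂ κ S)).filter P).card =
      ((RQ A B C p r M T₁ T₂).filter P).card +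
      ((RU A B C M (U1 A B C T₁) (VB A B C r s T₁ T₂ κ S)).filter
        (fun y => P (mv p q r s y.1, mv p q r s y.2))).card := by
  -- the pairs of the first region
  have hval : ∀ x : V × V, RegF A B C (U1 A B C T₁) (VA A B C p r T₁ T₂ κ S) x →
      S ^ 2 / L ≤ (qv A B C x.1 : ℝ) ∧ -(x.1.2 : ℝ) < κ * S ∧ (x.1.2 : ℝ) * p - x.1.1 * r < κ * S := by
    intro x hx
    obtain ⟨h1, h2⟩ := hx
    obtain ⟨h3, h4⟩ := U_lt (lt_of_lt_of_le h1 h2)
    obtain ⟨h5, h6⟩ := lt_of_hh_pos hκ hS h4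
    obtain ⟨g1, -⟩ := hB.supp _ h3
    rw [qv_cast]
    exact ⟨g1, h5, h6⟩
  have hne : ∀ x : V × V, cross x.1 x.2 = -1 →
      RegF A B C (U1 A B C T₁) (VA A B C p r T₁ T₂ κ S) x → x.1.2 ≠ 0 := by
    intro x hc hx h0
    have := (hval x hx).1
    rw [qv_zero hc h0] at this
    linarith
  have hneB : ∀ x : V × V, cross x.1 x.2 = -1 →
      RegF A B C (U1 A B C T₁) (VB A B C r s T₁ T₂ κ S) x → x.1.2 ≠ 0 := by
    intro x hc hx h0
    rw [regB_iff h] at hx
    have h1 := (hval _ hx).1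
    have h2 : qv A B C (mv p q r s x.1) = qv A B C x.1 := by
      have := qb_mv h x.1 x.1
      unfold qb at this
      unfold qv
      linear_combination this
    simp only at h1
    rw [h2, qv_zero hc h0] at h1
    linarith
  -- the split
  have hsplit : (RU A B C M (U1 A B C T₁) (VA A B C p r T₁ T₂ κ S)).filter P =
      ((RQ A B C p r M T₁ T₂).filter P) ∪
      ((RU A B C M (U1 A B C T₁) (VA A B C p r T₁ T₂ κ S)).filter
        (fun x => P x ∧ cross x.1 (p, r) < 0)) := by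
    ext x
    rw [mem_union]
    unfold RU RQ CnP
    simp only [mem_filter]
    constructor
    · rintro ⟨⟨h1, h2, h3⟩, h4⟩
      rcases lt_trichotomy (cross x.1 (p, r)) 0 with h5 | h5 | h5
      · exact Or.inr ⟨⟨h1, h2, h3⟩, h4, h5⟩
      · exfalso
        -- on the ray
        have hc := cross_of_mem h1
        set y : V × V := (mv s (-q) (-r) p x.1, mv s (-q) (-r) p x.2) with hy
        have ey : (mv p q r s y.1, mv p q r s y.2) = x := by
          rw [hy]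
          simp only
          rw [mv_inv h, mv_inv h]
        have hcy : cross y.1 y.2 = -1 := by
          rw [← cross_mv h, ← hc]
          rw [← ey]
        have hry : RegF A B C (U1 A B C T₁) (VB A B C r s T₁ T₂ κ S) y := by
          rw [regB_iff h, ey]; exact h2
        apply hneB y hcy hry
        have h6 := cross_mv_e h y.1
        have h7 : mv p q r s y.1 = x.1 := congrArg Prod.fst ey
        rw [h7, h5] at h6
        linarith
      · refine Or.inl ⟨⟨h1, ?_, h3.le, h5⟩, h4⟩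
        exact (regA_iff h3.le h5.le).1 h2
    · rintro (⟨⟨h1, h2, h3, h5⟩, h4⟩ | ⟨h1, h4, h5⟩)
      · have hr := (regA_iff (κ := κ) (S := S) h3 h5.le).2 h2
        refine ⟨⟨h1, hr, ?_⟩, h4⟩
        exact lt_of_le_of_ne h3 (Ne.symm (hne x (cross_of_mem h1) hr))
      · exact ⟨h1, h4⟩
  rw [hsplit, card_union_of_disjoint]
  · congr 1
    -- the bijection
    symm
    apply card_bij (fun y _ => (mv p q r s y.1, mv p q r s y.2))
    · intro y hy
      unfold RU at hy ⊢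
      simp only [mem_filter] at hy ⊢
      obtain ⟨⟨h1, h2, h3⟩, h4⟩ := hy
      have hc := cross_of_mem h1
      have hcm : cross (mv p q r s y.1) (mv p q r s y.2) = -1 := by rw [cross_mv h, hc]
      have h5 := (regB_iff h y).1 h2
      have h6 := hM1 _ hcm h5
      have h7 : cross (mv p q r s y.1) (p, r) < 0 := by
        rw [cross_mv_e h]; linarith
      refine ⟨⟨h6, h5, ?_⟩, h4, h7⟩
      obtain ⟨g1, g2, g3⟩ := hval _ h5
      rw [qv_cast] at g1
      have h8 : ((mv p q r s y.1).1 : ℝ) * r - ((mv p q r s y.1).2 : ℝ) * p ≤ 0 := by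
        have : ((cross (mv p q r s y.1) (p, r) : ℤ) : ℝ) < 0 := by exact_mod_cast h7
        unfold cross at this
        push_cast at this
        linarith
      have := beyond h hL hS hκ hκ1 hκ2 g1 g2 g3 h8
      exact_mod_cast this
    · intro y _ y' _ he
      have e1 := congrArg Prod.fst he
      have e2 := congrArg Prod.snd he
      simp only at e1 e2
      have f1 := congrArg (mv s (-q) (-r) p) e1
      have f2 := congrArg (mv s (-q) (-r) p) e2
      rw [inv_mv h, inv_mv h] at f1 f2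
      exact Prod.ext f1 f2
    · intro x hx
      unfold RU at hx
      simp only [mem_filter] at hx
      obtain ⟨⟨h1, h2, h3⟩, h4, h5⟩ := hx
      have hc := cross_of_mem h1
      set y : V × V := (mv s (-q) (-r) p x.1, mv s (-q) (-r) p x.2) with hy
      have ey : (mv p q r s y.1, mv p q r s y.2) = x := by
        rw [hy]
        simp only
        rw [mv_inv h, mv_inv h]
      have hcy : cross y.1 y.2 = -1 := by
        rw [← cross_mv h, ← hc]
        rw [← ey]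
      have hry : RegF A B C (U1 A B C T₁) (VB A B C r s T₁ T₂ κ S) y := by
        rw [regB_iff h, ey]; exact h2
      refine ⟨y, ?_, ey⟩
      unfold RU
      simp only [mem_filter]
      refine ⟨⟨hM2 y hcy hry, hry, ?_⟩, ?_⟩
      · have h6 := cross_mv_e h y.1
        have h7 : mv p q r s y.1 = x.1 := congrArg Prod.fst ey
        rw [h7] at h6
        linarith
      · rw [ey]; exact h4
  · rw [disjoint_left]
    intro x hx hx'
    unfold RQ CnP at hx
    simp only [mem_filter] at hx hx'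
    linarith [hx.1.2.2.2, hx'.2.2]

end forms

/-! ## The constants -/

/-- admissible constants -/
structure Cst (A B C p q r s : ℤ) (L N κ L₂ : ℝ) : Prop where
  hN : 1 ≤ N
  hA : |(A : ℝ)| ≤ N
  hB : |(B : ℝ)| ≤ N
  hC : |(C : ℝ)| ≤ N
  hp : |(p : ℝ)| ≤ N
  hr : |(r : ℝ)| ≤ N
  hs : |(s : ℝ)| ≤ N
  hN₁ : (1 + |(p : ℝ)|) * ((r : ℝ) ^ 2 + 2 * (A * p + B * r)) ≤ N
  hN₂ : (|(q : ℝ)| + |(s : ℝ)|) * ((1 + |(p : ℝ)|) * ((r : ℝ) ^ 2 + 2 * (A * p + B * r))) ≤ N
  hN₃ : (|(p : ℝ)| + |(r : ℝ)|) * ((1 + |(p : ℝ)|) * ((r : ℝ) ^ 2 + 2 * (A * p + B * r))) ≤ N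
  hκ : 0 < κ
  hκ1 : κ ≤ 1
  hκ2 : κ * (2 * (A + (A * p + B * r)) * L) < 1
  hL₂ : 48 * N ^ 2 * L ^ 2 + L * N / κ + N ≤ L₂

lemma exists_cst (h : Aut A B C p q r s) {L : ℝ} (hL : 1 ≤ L) :
    ∃ N κ L₂ : ℝ, Cst A B C p q r s L N κ L₂ := by
  have hr : (1 : ℝ) ≤ r := by exact_mod_cast h.hr
  have hA : (1 : ℝ) ≤ A := by exact_mod_cast h.hA
  have hb : (0 : ℝ) < A * p + B * r := by exact_mod_cast h.hb
  obtain ⟨b, hb'⟩ : ∃ b : ℝ, b = A * p + B * r := ⟨_, rfl⟩
  obtain ⟨N₁, hN₁⟩ : ∃ N₁ : ℝ, N₁ = (1 + |(p : ℝ)|) * ((r : ℝ) ^ 2 + 2 * (A * p + B * r)) :=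
    ⟨_, rfl⟩
  have hr2 : 1 ≤ (r : ℝ) ^ 2 := one_le_pow₀ hr
  have h1 : 1 ≤ N₁ := by
    rw [hN₁]
    apply one_le_mul_of_one_le_of_one_le
    · have := abs_nonneg (p : ℝ); linarith
    · linarith
  have a1 := abs_nonneg (A : ℝ)
  have a2 := abs_nonneg (B : ℝ)
  have a3 := abs_nonneg (C : ℝ)
  have a4 := abs_nonneg (p : ℝ)
  have a5 := abs_nonneg (q : ℝ)
  have a6 := abs_nonneg (r : ℝ)
  have a7 := abs_nonneg (s : ℝ)
  have k4 : |(p : ℝ)| ≤ |(p : ℝ)| * N₁ := by nlinarith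
  have k5 : |(q : ℝ)| ≤ |(q : ℝ)| * N₁ := by nlinarith
  have k6 : |(r : ℝ)| ≤ |(r : ℝ)| * N₁ := by nlinarith
  have k7 : |(s : ℝ)| ≤ |(s : ℝ)| * N₁ := by nlinarith
  obtain ⟨N, hN⟩ : ∃ N : ℝ, N = N₁ + |(p : ℝ)| * N₁ + |(q : ℝ)| * N₁ + |(r : ℝ)| * N₁ +
    |(s : ℝ)| * N₁ + |(A : ℝ)| + |(B : ℝ)| + |(C : ℝ)| := ⟨_, rfl⟩
  have hL0 : 0 < L := by linarith
  have hden : 0 < 2 * (A + b) * L + 1 := by
    rw [hb']
    positivity
  refine ⟨N, 1 / (2 * (A + b) * L + 1), 48 * N ^ 2 * L ^ 2 +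
    L * N / (1 / (2 * (A + b) * L + 1)) + N, ?_⟩
  refine ⟨by linarith, by linarith, by linarith, by linarith, by linarith, by linarith,
    by linarith, by rw [← hN₁]; linarith, by rw [← hN₁, add_mul]; linarith,
    by rw [← hN₁, add_mul]; linarith, by positivity, ?_, ?_, le_rfl⟩
  · rw [div_le_one hden]
    have : 0 ≤ 2 * (A + b) * L := by rw [hb']; positivity
    linarith
  · rw [← hb', div_mul_eq_mul_div, one_mul, div_lt_one hden]
    linarith

section regions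

variable {T₁ T₂ : ℝ → ℝ} {κ S L N L₂ X : ℝ}

lemma bdA (h : Aut A B C p q r s) (hc : Cst A B C p q r s L N κ L₂) (hL : 1 ≤ L) (hX : 0 < X)
    (hS : 0 < S) (hB : Bd L X (S ^ 2) T₁ T₂) :
    BdF A B C L₂ X S (U1 A B C T₁) (VA A B C p r T₁ T₂ κ S) := by
  have hN0 : 0 < N := by linarith [hc.hN]
  apply bdH hc.hN hL hX hS hc.hκ hc.hA hc.hB hc.hC hB
  · intro a c a' c'
    have e : -c' - -c = -(c' - c) := by ring
    rw [e, abs_neg]
    have h1 := abs_nonneg (a' - a)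
    have h2 := abs_nonneg (c' - c)
    nlinarith [hc.hN]
  · intro a c a' c'
    have e : (c' * (p : ℝ) - a' * r) - (c * p - a * r) = (c' - c) * p - (a' - a) * r := by ring
    rw [e]
    refine (abs_sub _ _).trans ?_
    rw [abs_mul, abs_mul]
    have h1 := mul_le_mul_of_nonneg_left hc.hp (abs_nonneg (c' - c))
    have h2 := mul_le_mul_of_nonneg_left hc.hr (abs_nonneg (a' - a))
    linarith
  · intro a c _ h2 h3 h4
    exact sup1 h hL hS hc.hκ1 hc.hN₁ a c h2 h3 h4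
  · have := hc.hL₂
    linarith

lemma bdB (h : Aut A B C p q r s) (hc : Cst A B C p q r s L N κ L₂) (hL : 1 ≤ L) (hX : 0 < X)
    (hS : 0 < S) (hB : Bd L X (S ^ 2) T₁ T₂) :
    BdF A B C L₂ X S (U1 A B C T₁) (VB A B C r s T₁ T₂ κ S) := by
  have hN0 : 0 < N := by linarith [hc.hN]
  have hL0 : 0 < L := by linarith
  have hd : (p : ℝ) * s - q * r = 1 := by exact_mod_cast h.det
  apply bdH hc.hN hL hX hS hc.hκ hc.hA hc.hB hc.hC hB
  · intro a c a' c'
    have e : -((r : ℝ) * a' + s * c') - -(r * a + s * c) = -((a' - a) * r + (c' - c) * s) := by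
      ring
    rw [e, abs_neg]
    refine (abs_add_le _ _).trans ?_
    rw [abs_mul, abs_mul]
    have h1 := mul_le_mul_of_nonneg_left hc.hs (abs_nonneg (c' - c))
    have h2 := mul_le_mul_of_nonneg_left hc.hr (abs_nonneg (a' - a))
    linarith
  · intro a c a' c'
    have h1 := abs_nonneg (a' - a)
    have h2 := abs_nonneg (c' - c)
    show |c' - c| ≤ _
    nlinarith [hc.hN]
  · intro a c _ h2 h3 h4
    obtain ⟨a1, ha1⟩ : ∃ z : ℝ, z = p * a + q * c := ⟨_, rfl⟩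
    obtain ⟨c1, hc1⟩ : ∃ z : ℝ, z = r * a + s * c := ⟨_, rfl⟩
    have e1 : c1 * (p : ℝ) - a1 * r = c := by
      rw [ha1, hc1]; linear_combination c * hd
    have hq : qr A B C a1 c1 = qr A B C a c := by rw [ha1, hc1, qr_mv h]
    obtain ⟨s1, s2⟩ := sup1 h (N := (1 + |(p : ℝ)|) * ((r : ℝ) ^ 2 + 2 * (A * p + B * r)))
      hL hS hc.hκ1 le_rfl a1 c1 (by rw [hq]; exact h2)
      (by rw [hc1]; exact h3) (by rw [e1]; exact h4)
    have ea : a = s * a1 - q * c1 := by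
      rw [ha1, hc1]; linear_combination (-a) * hd
    have ec : c = p * c1 - r * a1 := by
      rw [ha1, hc1]; linear_combination (-c) * hd
    have hLS : 0 ≤ L * S := by positivity
    constructor
    · rw [ea]
      refine (abs_sub _ _).trans ?_
      rw [abs_mul, abs_mul]
      have h5 := mul_le_mul_of_nonneg_left s1 (abs_nonneg (s : ℝ))
      have h6 := mul_le_mul_of_nonneg_left s2 (abs_nonneg (q : ℝ))
      have h7 := mul_le_mul_of_nonneg_right hc.hN₂ hLS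
      nlinarith
    · rw [ec]
      refine (abs_sub _ _).trans ?_
      rw [abs_mul, abs_mul]
      have h5 := mul_le_mul_of_nonneg_left s1 (abs_nonneg (r : ℝ))
      have h6 := mul_le_mul_of_nonneg_left s2 (abs_nonneg (p : ℝ))
      have h7 := mul_le_mul_of_nonneg_right hc.hN₃ hLS
      nlinarith
  · have := hc.hL₂
    linarith

end regions

/-- **EQUID in the cone of an automorphism**, indefinite forms included. -/
theorem equidC (h : Aut A B C p q r s) : ∀ L : ℝ, 1 ≤ L → ∃ K : ℝ, ∀ X Y : ℝ, 1 ≤ Y →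
    Y ≤ L * X → ∀ T₁ T₂ : ℝ → ℝ, Bd L X Y T₁ T₂ →
    ∀ M : ℕ, K * (X + 1) ^ 2 ≤ M → ∀ (m : ℕ) [NeZero m], ∀ t ∈ sl m,
      |(((RQ A B C p r M T₁ T₂).filter (fun x => res m x = t)).card : ℝ) -
        ((RQ A B C p r M T₁ T₂).card : ℝ) / ((sl m).card : ℝ)| ≤
        K * (m : ℝ) ^ 8 * X * Y ^ (-(1 / 20) : ℝ) := by
  obtain ⟨K, hK, hU⟩ := equidU
  intro L hL
  obtain ⟨N, κ, L₂, hc⟩ := exists_cst h hL
  have hN := hc.hN
  have hL0 : 0 < L := by linarith
  have hA1 : (1 : ℝ) ≤ A := by exact_mod_cast h.hA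
  have hLNκ : 0 < L * N / κ := by
    have := hc.hκ
    positivity
  have hNL₂ : N ≤ L₂ := by
    have := hc.hL₂
    have : 0 ≤ 48 * N ^ 2 * L ^ 2 := by positivity
    linarith
  have hL₂1 : 1 ≤ L₂ := by linarith
  have hLL₂ : L ≤ L₂ := by
    have h1 := hc.hL₂
    have h2 : L ≤ L ^ 2 := by nlinarith
    have h3 : 1 ≤ N ^ 2 := one_le_pow₀ hN
    have h4 : L ^ 2 ≤ N ^ 2 * L ^ 2 := by nlinarith [sq_nonneg L]
    nlinarith
  have hL₂0 : 0 < L₂ := by linarith
  obtain ⟨K₂, hK₂⟩ : ∃ K₂ : ℝ, K₂ = 2 * (K * L₂ ^ 80) + 4 * L₂ ^ 5 + 9 * L₂ ^ 3 * (L * A) ^ 2 :=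
    ⟨_, rfl⟩
  have q1 : 0 < K * L₂ ^ 80 := by positivity
  have q2 : 0 < 4 * L₂ ^ 5 := by positivity
  have q3 : 0 < 9 * L₂ ^ 3 * (L * A) ^ 2 := by positivity
  refine ⟨K₂, ?_⟩
  intro X Y hY hX T₁ T₂ hB M hM m hm0 t ht
  have hX0 : 0 < X := by
    have : 0 < L * X := by linarith
    exact pos_of_mul_pos_right this hL0.le
  obtain ⟨S, hS⟩ : ∃ z, z = √Y := ⟨_, rfl⟩
  have hS2 : S ^ 2 = Y := by rw [hS]; exact Real.sq_sqrt (by linarith)
  have hS1 : 1 ≤ S := by rw [hS, Real.one_le_sqrt]; exact hY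
  have hS0 : 0 < S := by linarith
  have hB' : Bd L X (S ^ 2) T₁ T₂ := by rw [hS2]; exact hB
  have hFA := bdA h hc hL hX0 hS0 hB'
  have hFB := bdB h hc hL hX0 hS0 hB'
  have hXS : S ^ 2 ≤ L₂ * X := by
    rw [hS2]
    exact hX.trans (mul_le_mul_of_nonneg_right hLL₂ hX0.le)
  have hM' : 4 * L₂ ^ 5 * (X + 1) ≤ M := by
    refine le_trans ?_ hM
    have e1 : (X + 1) ≤ (X + 1) ^ 2 := by nlinarith
    have e2 : 4 * L₂ ^ 5 ≤ K₂ := by rw [hK₂]; linarith
    exact mul_le_mul e2 e1 (by linarith) (by linarith)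
  have hm1 : (1 : ℝ) ≤ m := by exact_mod_cast Nat.pos_of_ne_zero hm0.out
  have hm8 : (1 : ℝ) ≤ (m : ℝ) ^ 8 := one_le_pow₀ hm1
  have hsl := sl_card_pos m
  have hslR : (1 : ℝ) ≤ ((sl m).card : ℝ) := by exact_mod_cast hsl
  have hYp : 0 < Y ^ (-(1 / 20) : ℝ) := Real.rpow_pos_of_pos (by linarith) _
  have hAL := hc.hA.trans hNL₂
  have hBL := hc.hB.trans hNL₂
  have hCL := hc.hC.trans hNL₂
  rcases lt_or_ge (A : ℝ) (S ^ 2 / L) with hbig | hsm
  · -- large `Y`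
    have hM1 : ∀ x : V × V, cross x.1 x.2 = -1 →
        RegF A B C (U1 A B C T₁) (VA A B C p r T₁ T₂ κ S) x → x ∈ pairs 1 M := fun x hx hr =>
      Eqf.reg_mem hL₂1 hS1 hXS hAL hBL hCL hFA hM' x hx hr
    have hM2 : ∀ x : V × V, cross x.1 x.2 = -1 →
        RegF A B C (U1 A B C T₁) (VB A B C r s T₁ T₂ κ S) x → x ∈ pairs 1 M := fun x hx hr =>
      Eqf.reg_mem hL₂1 hS1 hXS hAL hBL hCL hFB hM' x hx hr
    have hid := card_id h hL hS0 hc.hκ hc.hκ1 hc.hκ2 hbig hB' hM1 hM2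
    have i1 : ((RU A B C M (U1 A B C T₁) (VA A B C p r T₁ T₂ κ S)).filter
        (fun x => res m x = t)).card = ((RQ A B C p r M T₁ T₂).filter
        (fun x => res m x = t)).card + ((RU A B C M (U1 A B C T₁) (VB A B C r s T₁ T₂ κ S)).filter
        (fun y => res m y = mr s (-q) (-r) p t)).card := by
      have i0 := hid (fun x => res m x = t)
      have e0 : (RU A B C M (U1 A B C T₁) (VB A B C r s T₁ T₂ κ S)).filter
          (fun y => res m y = mr s (-q) (-r) p t) =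
          (RU A B C M (U1 A B C T₁) (VB A B C r s T₁ T₂ κ S)).filter
          (fun y => (fun x => res m x = t) (mv p q r s y.1, mv p q r s y.2)) := by
        ext y
        simp only [mem_filter]
        rw [res_mv, mr_eq_iff h]
      rw [e0]
      convert i0
    have i2 := hid (fun _ => True)
    simp only [filter_true] at i2
    have a1 := hU L₂ hL₂1 A B C hAL hBL hCL X S hS1 hXS _ _ hFA M hM' m t ht
    have a2 := hU L₂ hL₂1 A B C hAL hBL hCL X S hS1 hXS _ _ hFB M hM' m _ (mr_mem_sl h ht)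
    have c1 : (((RQ A B C p r M T₁ T₂).filter (fun x => res m x = t)).card : ℝ) =
        (((RU A B C M (U1 A B C T₁) (VA A B C p r T₁ T₂ κ S)).filter
          (fun x => res m x = t)).card : ℝ) -
        (((RU A B C M (U1 A B C T₁) (VB A B C r s T₁ T₂ κ S)).filter
          (fun y => res m y = mr s (-q) (-r) p t)).card : ℝ) := by
      rw [i1]; push_cast; ring
    have c2 : ((RQ A B C p r M T₁ T₂).card : ℝ) =
        ((RU A B C M (U1 A B C T₁) (VA A B C p r T₁ T₂ κ S)).card : ℝ) -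
        ((RU A B C M (U1 A B C T₁) (VB A B C r s T₁ T₂ κ S)).card : ℝ) := by
      rw [i2]; push_cast; ring
    rw [c1, c2]
    have hpw : S ^ (-(1 / 5) : ℝ) ≤ Y ^ (-(1 / 20) : ℝ) := by
      have e3 : S ^ (-(1 / 5) : ℝ) = Y ^ (-(1 / 10) : ℝ) := by
        rw [← hS2, ← Real.rpow_natCast S 2, ← Real.rpow_mul hS0.le]
        norm_num
      rw [e3]
      exact Real.rpow_le_rpow_of_exponent_le hY (by norm_num)
    have hS5 : 0 ≤ S ^ (-(1 / 5) : ℝ) := Real.rpow_nonneg hS0.le _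
    have hqq : (m : ℝ) ^ 4 ≤ (m : ℝ) ^ 8 := pow_le_pow_right₀ hm1 (by norm_num)
    have hq4 : 0 ≤ (m : ℝ) ^ 4 := by positivity
    have hbd : K * L₂ ^ 80 * (m : ℝ) ^ 4 * X * S ^ (-(1 / 5) : ℝ) ≤
        K * L₂ ^ 80 * (m : ℝ) ^ 8 * X * Y ^ (-(1 / 20) : ℝ) :=
      mul_le_mul (mul_le_mul_of_nonneg_right (mul_le_mul_of_nonneg_left hqq q1.le) hX0.le) hpw hS5
        (by positivity)
    have hfin : 2 * (K * L₂ ^ 80 * (m : ℝ) ^ 8 * X * Y ^ (-(1 / 20) : ℝ)) ≤
        K₂ * (m : ℝ) ^ 8 * X * Y ^ (-(1 / 20) : ℝ) := by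
      have e4 : 2 * (K * L₂ ^ 80 * (m : ℝ) ^ 8 * X * Y ^ (-(1 / 20) : ℝ)) =
          2 * (K * L₂ ^ 80) * ((m : ℝ) ^ 8 * X * Y ^ (-(1 / 20) : ℝ)) := by ring
      have e5 : K₂ * (m : ℝ) ^ 8 * X * Y ^ (-(1 / 20) : ℝ) =
          K₂ * ((m : ℝ) ^ 8 * X * Y ^ (-(1 / 20) : ℝ)) := by ring
      rw [e4, e5]
      apply mul_le_mul_of_nonneg_right _ (by positivity)
      rw [hK₂]; linarith
    rw [abs_le] at a1 a2 ⊢
    rw [sub_div]
    constructor <;> linarith [a1.1, a1.2, a2.1, a2.2]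
  · -- small `Y`
    have hYA : Y ≤ L * A := by
      rw [hS2, div_le_iff₀ hL0] at hsm
      linarith
    have ht' : ((RQ A B C p r M T₁ T₂).card : ℝ) ≤ 9 * L₂ ^ 3 * X * S ^ 2 := by
      refine le_trans ?_ (Eqf.triv hL₂1 hS1 hX0.le hFA M)
      have : (RQ A B C p r M T₁ T₂).card ≤
          ((pairs 1 M).filter (RegF A B C (U1 A B C T₁) (VA A B C p r T₁ T₂ κ S))).card := by
        apply card_le_card
        intro x hx
        unfold RQ at hx
        rw [mem_filter] at hx ⊢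
        exact ⟨hx.1, (regA_iff hx.2.2.1 hx.2.2.2.le).2 hx.2.1⟩
      exact_mod_cast this
    obtain ⟨n, hn⟩ : ∃ n : ℝ, n = ((RQ A B C p r M T₁ T₂).card : ℝ) := ⟨_, rfl⟩
    have hn0 : 0 ≤ n := by rw [hn]; exact Nat.cast_nonneg _
    have h1 : (((RQ A B C p r M T₁ T₂).filter (fun x => res m x = t)).card : ℝ) ≤ n := by
      rw [hn]
      exact_mod_cast card_filter_le _ _
    rw [← hn] at ht' ⊢
    have h2 : n / ((sl m).card : ℝ) ≤ n := div_le_self hn0 hslR
    have h3 : 0 ≤ n / ((sl m).card : ℝ) := by positivity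
    have h4 : |(((RQ A B C p r M T₁ T₂).filter (fun x => res m x = t)).card : ℝ) -
        n / ((sl m).card : ℝ)| ≤ n := by
      rw [abs_le]
      have : (0 : ℝ) ≤ (((RQ A B C p r M T₁ T₂).filter (fun x => res m x = t)).card : ℝ) :=
        Nat.cast_nonneg _
      constructor <;> linarith
    refine h4.trans (ht'.trans ?_)
    have h5 : 1 ≤ (L * A) * Y ^ (-(1 / 20) : ℝ) := by
      have e1 : Y ^ (1 / 20 : ℝ) ≤ Y := by
        calc Y ^ (1 / 20 : ℝ) ≤ Y ^ (1 : ℝ) := Real.rpow_le_rpow_of_exponent_le hY (by norm_num)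
          _ = Y := Real.rpow_one _
      have e2 : Y ^ (1 / 20 : ℝ) * Y ^ (-(1 / 20) : ℝ) = 1 := by
        rw [← Real.rpow_add (by linarith)]
        norm_num
      calc (1 : ℝ) = Y ^ (1 / 20 : ℝ) * Y ^ (-(1 / 20) : ℝ) := e2.symm
        _ ≤ (L * A) * Y ^ (-(1 / 20) : ℝ) :=
          mul_le_mul_of_nonneg_right (e1.trans hYA) hYp.le
    rw [hS2]
    calc 9 * L₂ ^ 3 * X * Y ≤ 9 * L₂ ^ 3 * X * (L * A) := by gcongr
      _ = 9 * L₂ ^ 3 * (L * A) * X * 1 := by ring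
      _ ≤ 9 * L₂ ^ 3 * (L * A) * X * ((L * A) * Y ^ (-(1 / 20) : ℝ)) := by gcongr
      _ = (9 * L₂ ^ 3 * (L * A) ^ 2) * 1 * X * Y ^ (-(1 / 20) : ℝ) := by ring
      _ ≤ K₂ * (m : ℝ) ^ 8 * X * Y ^ (-(1 / 20) : ℝ) := by
          have q4 : 9 * L₂ ^ 3 * (L * A) ^ 2 ≤ K₂ := by rw [hK₂]; linarith
          exact mul_le_mul_of_nonneg_right (mul_le_mul_of_nonneg_right
            (mul_le_mul q4 hm8 zero_le_one (by linarith)) hX0.le) hYp.le

end Pool.Agent.Lib.MP391708.TG.Eqc
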