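import Pool.Agent.Lib.MP_391708_nt.TG.EqcC
import Pool.Agent.Lib.MP_391708_nt.TG.Defs

/-!
# EQUID in the cone of a form with automorphism (`TG.Frm`)
-/

set_option autoImplicit false

namespace Pool.Agent.Lib.MP391708.TG

open Finset
open Pool.Agent.Lib.MP391708.Eqd (V cross pairs res)
open Pool.Agent.Lib.MP391708.T1 (sl Bd)
open scoped Classical

/-- the automorphism of the form -/
lemma aut [Aa] [Frm] : Eqc.Aut Frm.A Frm.B Frm.C Frm.P Frm.Q Frm.R Frm.S := by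
  have h11 := Frm.inv ((1, 0) : V) ((1, 0) : V)
  have h12 := Frm.inv ((1, 0) : V) ((0, 1) : V)
  have h22 := Frm.inv ((0, 1) : V) ((0, 1) : V)
  simp only at h11 h12 h22
  refine ⟨Frm.hA, Frm.mdet, ?_, ?_, ?_, Frm.rpos, Frm.bpos⟩
  · linear_combination h11
  · linear_combination h12
  · linear_combination h22

/-- the cone -/
lemma cn_iff [Aa] [Frm] (v : V) : Cn v ↔ Eqc.CnP Frm.P Frm.R v := Iff.rfl

/-- **EQUID** for the form in its cone -/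
theorem equidCn [Aa] [Frm] : ∀ L : ℝ, 1 ≤ L → ∃ K : ℝ, ∀ X Y : ℝ, 1 ≤ Y →
    Y ≤ L * X → ∀ T₁ T₂ : ℝ → ℝ, Bd L X Y T₁ T₂ →
    ∀ M : ℕ, K * (X + 1) ^ 2 ≤ M → ∀ (m : ℕ) [NeZero m], ∀ t ∈ sl m,
      |(((pairs 1 M).filter (fun x => (TA.RegQ Frm.A Frm.B Frm.C T₁ T₂ x ∧ Cn x.1) ∧
          res m x = t)).card : ℝ) -
        (((pairs 1 M).filter (fun x => TA.RegQ Frm.A Frm.B Frm.C T₁ T₂ x ∧ Cn x.1)).card : ℝ) /
          ((sl m).card : ℝ)| ≤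
        K * (m : ℝ) ^ 8 * X * Y ^ (-(1 / 20) : ℝ) := by
  intro L hL
  obtain ⟨K, hK⟩ := Eqc.equidC aut L hL
  refine ⟨K, ?_⟩
  intro X Y hY hX T₁ T₂ hB M hM m hm t ht
  have h := hK X Y hY hX T₁ T₂ hB M hM m t ht
  have e1 : (Eqc.RQ Frm.A Frm.B Frm.C Frm.P Frm.R M T₁ T₂) =
      (pairs 1 M).filter (fun x => TA.RegQ Frm.A Frm.B Frm.C T₁ T₂ x ∧ Cn x.1) := by
    ext x
    unfold Eqc.RQ
    simp only [mem_filter, cn_iff]
  have e2 : (Eqc.RQ Frm.A Frm.B Frm.C Frm.P Frm.R M T₁ T₂).filter (fun x => res m x = t) =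
      (pairs 1 M).filter (fun x => (TA.RegQ Frm.A Frm.B Frm.C T₁ T₂ x ∧ Cn x.1) ∧
          res m x = t) := by
    ext x
    rw [e1]
    simp only [mem_filter]
    tauto
  rw [e2, e1] at h
  exact h

end Pool.Agent.Lib.MP391708.TG
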