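import Pool.Agent.Lib.MP_391708_nt.TG.Kasm

/-!
# Group K: from `a = -a₀`, `a₀ > 1` squarefree, to all `a < 0` with `-a` not a square

`n = b m` gives `n² - b² a₀ = b² (m² - a₀)`, and a sign function is `1` at squares.
-/

set_option autoImplicit false
set_option linter.constructorNameAsVariable false

namespace Pool.Agent.Lib.MP391708.TG.KAll

open Finset Filter Topology
open scoped Classical

/-- a squarefree `a₀ > 1` is not a square modulo some odd number -/
theorem exists_jac {a₀ : ℕ} (hs : Squarefree a₀) (h1 : 1 < a₀) :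
    ∃ n : ℕ, n % 2 = 1 ∧ jacobiSym (a₀ : ℤ) n = -1 := by
  by_cases hp : ∃ p : ℕ, p.Prime ∧ p ≠ 2 ∧ p ∣ a₀
  · obtain ⟨p, hp, hp2, β, rfl⟩ := hp
    haveI : Fact p.Prime := ⟨hp⟩
    have hβ0 : 0 < β := by
      rcases Nat.eq_zero_or_pos β with h | h
      · subst h
        simp at h1
      · exact h
    have hcop : Nat.Coprime p β := by
      rcases (Nat.coprime_or_dvd_of_prime hp β) with h | h
      · exact h
      · exfalso
        obtain ⟨γ, rfl⟩ := h
        have := hs p ⟨γ, by ring⟩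
        exact hp.one_lt.ne' (Nat.isUnit_iff.1 this)
    have hc2 : Nat.Coprime p (4 * β) := by
      refine Nat.Coprime.mul_right ?_ hcop
      have : Nat.Coprime p 2 := (Nat.coprime_primes hp Nat.prime_two).2 hp2
      exact this.pow_right 2
    obtain ⟨u, hu⟩ := FiniteField.exists_nonsquare (F := ZMod p) (by
      rw [ZMod.ringChar_zmod_n]
      exact hp2)
    obtain ⟨n, hn1, hn2⟩ := Nat.chineseRemainder hc2 u.val 1
    have hmod : n % (4 * β) = 1 % (4 * β) := hn2
    have hn4 : n % 4 = 1 := by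
      have h5 : n ≡ 1 [MOD 4] := Nat.ModEq.of_mul_right β hn2
      exact h5
    have hodd : n % 2 = 1 := by omega
    have hO : Odd n := Nat.odd_iff.2 hodd
    refine ⟨n, hodd, ?_⟩
    have e1 : jacobiSym (β : ℤ) n = 1 := by
      rw [jacobiSym.mod_right _ hO, Int.natAbs_natCast, hmod, Nat.mod_eq_of_lt (by omega),
        jacobiSym.one_right]
    have e2 : jacobiSym (p : ℤ) n = -1 := by
      rw [← jacobiSym.quadratic_reciprocity_one_mod_four hn4 (hp.odd_of_ne_two hp2),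
        ← jacobiSym.legendreSym.to_jacobiSym, legendreSym.eq_neg_one_iff]
      have h6 : ((n : ℤ) : ZMod p) = u := by
        have h7 : ((n : ℕ) : ZMod p) = ((u.val : ℕ) : ZMod p) :=
          (ZMod.natCast_eq_natCast_iff _ _ _).2 hn1
        rw [Int.cast_natCast, h7, ZMod.natCast_val, ZMod.cast_id', id]
      rw [h6]
      exact hu
    push_cast
    rw [jacobiSym.mul_left, e1, e2]
    norm_num
  · push Not at hp
    have h2 : a₀ = 2 := by
      have h3 : a₀.primeFactors = {2} := by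
        ext q
        rw [Nat.mem_primeFactors, mem_singleton]
        constructor
        · rintro ⟨hq, hd, -⟩
          by_contra h
          exact hp q hq h hd
        · rintro rfl
          obtain ⟨q, hq, hd⟩ := Nat.exists_prime_and_dvd h1.ne'
          by_cases h : q = 2
          · subst h
            exact ⟨hq, hd, by omega⟩
          · exact absurd hd (hp q hq h)
      rw [← Nat.prod_primeFactors_of_squarefree hs, h3, prod_singleton]
    subst h2
    refine ⟨3, by norm_num, ?_⟩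
    norm_num

theorem nsq_of_sqf {a₀ : ℕ} (hs : Squarefree a₀) (h1 : 1 < a₀) : TA.Nsq (-(a₀ : ℤ)) := by
  obtain ⟨n, h2, h3⟩ := exists_jac hs h1
  refine ⟨n, ?_⟩
  unfold TA.chz
  rw [if_neg (by omega), neg_neg]
  exact h3

/-- the determinant as an instance -/
def mkA (a : ℕ) (ha : 0 < a) (hs : Squarefree a) (hn : TA.Nsq (-(a : ℤ))) : Aa := ⟨a, ha, hs, hn⟩

/-- the case `a = -b² a₀` from `-a₀` -/
theorem of_sq {g : ℕ → ℤ} (hg : IsSign g) {a₀ b : ℕ} (hb : 0 < b)
    (hne : ∀ m : ℕ, (m : ℤ) ^ 2 + -(a₀ : ℤ) ≠ 0) {e : ℤ} {c : ℝ}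
    (hc : 0 < c) (h : ∀ᶠ N : ℕ in atTop,
      c * N ≤ (((Icc 1 N).filter (fun n : ℕ => g ((n : ℤ) ^ 2 + -(a₀ : ℤ)).natAbs = e)).card : ℝ)) :
    ∃ c : ℝ, 0 < c ∧ ∀ᶠ N : ℕ in atTop,
      c * N ≤ (((Icc 1 N).filter (fun n : ℕ =>
        g ((n : ℤ) ^ 2 + -((b : ℤ) ^ 2 * a₀)).natAbs = e)).card : ℝ) := by
  obtain ⟨N₀, h⟩ := eventually_atTop.1 h
  refine ⟨c / (2 * b), by positivity, ?_⟩
  filter_upwards [eventually_ge_atTop (b * (N₀ + 1))] with N hN
  set n : ℕ := N / b with hn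
  have h1 : N₀ + 1 ≤ n := by
    rw [hn, Nat.le_div_iff_mul_le hb]
    linarith [mul_comm b (N₀ + 1)]
  have h2 : b * n ≤ N := Nat.mul_div_le N b
  have h3 : N < b * (n + 1) := by
    rw [hn]
    exact Nat.lt_mul_div_succ N hb
  have hb' : (0 : ℝ) < b := by exact_mod_cast hb
  have h4 : (N : ℝ) ≤ 2 * b * n := by
    have : N ≤ 2 * (b * n) := by nlinarith
    have h5 : (N : ℝ) ≤ 2 * (b * n) := by exact_mod_cast this
    linarith
  calc c / (2 * b) * N ≤ c / (2 * b) * (2 * b * n) := by gcongr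
    _ = c * n := by field_simp
    _ ≤ _ := h n (by omega)
    _ ≤ _ := by
      refine Nat.cast_le.2 (card_le_card_of_injOn (fun m => b * m) ?_ ?_)
      · intro m hm
        rw [mem_coe, mem_filter, mem_Icc] at hm
        rw [mem_coe, mem_filter, mem_Icc]
        obtain ⟨⟨m1, m2⟩, m3⟩ := hm
        refine ⟨⟨Nat.mul_pos hb m1, (Nat.mul_le_mul_left b m2).trans h2⟩, ?_⟩
        have e1 : (((b * m : ℕ) : ℤ) ^ 2 + -((b : ℤ) ^ 2 * a₀)).natAbs =
            (b * b) * ((m : ℤ) ^ 2 + -(a₀ : ℤ)).natAbs := by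
          have : ((b * m : ℕ) : ℤ) ^ 2 + -((b : ℤ) ^ 2 * a₀) =
              ((b * b : ℕ) : ℤ) * ((m : ℤ) ^ 2 + -(a₀ : ℤ)) := by
            push_cast
            ring
          rw [this, Int.natAbs_mul, Int.natAbs_natCast]
        rw [e1, hg.mul _ _ (Nat.mul_pos hb hb) (Int.natAbs_pos.2 (hne m)), hg.mul b b hb hb, m3]
        rcases hg.val b hb with hv | hv <;> rw [hv] <;> norm_num
      · intro m _ m' _ hmm
        exact Nat.eq_of_mul_eq_mul_left hb hmm

/-- from `a = -a₀`, `a₀ > 1` squarefree, to all `a < 0` with `-a` not a square, every sign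
function -/
theorem all_a {g : ℕ → ℤ} (hg : IsSign g) {a : ℤ} (ha : a < 0) (hns : ¬ IsSquare (-a)) {e : ℤ}
    (h : ∀ (a₀ b : ℕ) (h₀ : 0 < a₀) (hs : Squarefree a₀) (hn : TA.Nsq (-(a₀ : ℤ))), 0 < b →
      -((b : ℤ) ^ 2 * a₀) = a → @SpecT1g (mkA a₀ h₀ hs hn) g e) :
    ∃ c : ℝ, 0 < c ∧ ∀ᶠ N : ℕ in atTop,
      c * N ≤ (((Icc 1 N).filter (fun n : ℕ => g ((n : ℤ) ^ 2 + a).natAbs = e)).card : ℝ) := by
  obtain ⟨α, hα⟩ : ∃ α : ℕ, (α : ℤ) = -a := ⟨(-a).toNat, Int.toNat_of_nonneg (by omega)⟩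
  have hα0 : 0 < α := by omega
  obtain ⟨a₀, b, hab, hs⟩ := Nat.sq_mul_squarefree α
  have hb : 0 < b := by
    rcases Nat.eq_zero_or_pos b with h0 | h0
    · subst h0
      simp at hab
      omega
    · exact h0
  have h₀ : 0 < a₀ := by
    rcases Nat.eq_zero_or_pos a₀ with h0 | h0
    · subst h0
      simp at hab
      omega
    · exact h0
  have h1 : 1 < a₀ := by
    rcases Nat.lt_or_ge 1 a₀ with h2 | h2
    · exact h2
    · exfalso
      apply hns
      have h3 : a₀ = 1 := by omega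
      refine ⟨(b : ℤ), ?_⟩
      rw [← hα, ← hab, h3]
      push_cast
      ring
  have hn := nsq_of_sqf hs h1
  have hab' : -((b : ℤ) ^ 2 * a₀) = a := by
    have : ((b : ℤ) ^ 2 * a₀) = α := by
      rw [← hab]
      push_cast
      ring
    rw [this, hα, neg_neg]
  obtain ⟨c, hc, h2⟩ := h a₀ b h₀ hs hn hb hab'
  rw [← hab']
  refine of_sq hg hb (fun m => ?_) hc h2
  letI : Aa := mkA a₀ h₀ hs hn
  exact Int.natAbs_pos.1 (KK.vl_pos_all m)

end Pool.Agent.Lib.MP391708.TG.KAll
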