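import Pool.Agent.Lib.MP_391708_nt.Path
import Pool.Agent.Lib.MP_391708_nt.helper43.Parity

/-!
# T1b: the two forms of the result, every integer `a`
-/

set_option autoImplicit false

namespace Pool.Agent.Lib.MP391708.TG

open Finset Filter

/-- the second form of the result for a given `a` -/
def Every (a : ℤ) : Prop :=
  ∀ g : ℕ → ℤ, IsSign g → ∀ s : ℤ,
    (∃ x y : ℤ, 0 < x ^ 2 + a * y ^ 2 ∧ g (x ^ 2 + a * y ^ 2).natAbs = s) →
    ∃ c : ℝ, 0 < c ∧ ∀ᶠ N : ℕ in atTop,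
      c * N ≤ (((Icc 1 N).filter (fun n : ℕ => g ((n : ℤ) ^ 2 + a).natAbs = s)).card : ℝ)

/-- the parity of the number of prime factors, from the second form -/
theorem Every.parity {a : ℤ} (ha : ¬ IsSquare (-a)) (key : Every a) (r : ℕ) :
    ∃ c : ℝ, 0 < c ∧ ∀ᶠ N : ℕ in atTop, c * N ≤ (((Icc 1 N).filter (fun n : ℕ =>
      ArithmeticFunction.cardFactors ((n : ℤ) ^ 2 + a).natAbs ≡ r [MOD 2])).card : ℝ) := by
  have hg : IsSign (fun n => (-1 : ℤ) ^ (ArithmeticFunction.cardFactors n)) := by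
    constructor
    · intro n _
      exact neg_one_pow_eq_or ℤ _
    · intro m n hm hn
      rw [ArithmeticFunction.cardFactors_mul hm.ne' hn.ne', pow_add]
  have e : ∀ m : ℕ, (-1 : ℤ) ^ (ArithmeticFunction.cardFactors m) = (-1) ^ r ↔
      ArithmeticFunction.cardFactors m ≡ r [MOD 2] := by
    intro m
    rcases Nat.even_or_odd (ArithmeticFunction.cardFactors m) with h1 | h1 <;>
      rcases Nat.even_or_odd r with h2 | h2
    · rw [h1.neg_one_pow, h2.neg_one_pow, Nat.ModEq, Nat.even_iff.1 h1, Nat.even_iff.1 h2]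
      simp
    · rw [h1.neg_one_pow, h2.neg_one_pow, Nat.ModEq, Nat.even_iff.1 h1, Nat.odd_iff.1 h2]
      simp
    · rw [h1.neg_one_pow, h2.neg_one_pow, Nat.ModEq, Nat.odd_iff.1 h1, Nat.even_iff.1 h2]
      simp
    · rw [h1.neg_one_pow, h2.neg_one_pow, Nat.ModEq, Nat.odd_iff.1 h1, Nat.odd_iff.1 h2]
      simp
  have hex : ∃ x y : ℤ, 0 < x ^ 2 + a * y ^ 2 ∧
      (-1 : ℤ) ^ (ArithmeticFunction.cardFactors (x ^ 2 + a * y ^ 2).natAbs) = (-1) ^ r := by
    rcases Nat.even_or_odd r with hr | hr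
    · exact ⟨1, 0, by norm_num, by simp [hr.neg_one_pow]⟩
    · have ha0 : a ≠ 0 := by
        rintro rfl
        exact ha ⟨0, by simp⟩
      obtain ⟨p, hp, -, hmod⟩ : ∃ p, p.Prime ∧ 0 < p ∧ p ≡ 1 [MOD 4 * a.natAbs] :=
        Nat.exists_prime_gt_modEq_one 0 (by have := Int.natAbs_pos.2 ha0; omega)
      obtain ⟨X, Y, w, hw, h⟩ :=
        Pool.Agent.Lib.MP_391708_nt.Parity.exists_norm_eq_prime_mul_sq ha hp hmod
      have hpp : (0 : ℤ) < p := by exact_mod_cast hp.pos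
      refine ⟨X, Y, by rw [h]; positivity, ?_⟩
      have hw' : w.natAbs ≠ 0 := Int.natAbs_ne_zero.2 hw
      rw [hr.neg_one_pow, h, Int.natAbs_mul, Int.natAbs_natCast, Int.natAbs_pow,
        ArithmeticFunction.cardFactors_mul hp.ne_zero (pow_ne_zero 2 hw'),
        ArithmeticFunction.cardFactors_apply_prime hp, ArithmeticFunction.cardFactors_pow]
      exact Odd.neg_one_pow ⟨_, by ring⟩
  have h1 := key _ hg ((-1) ^ r) hex
  simp only [e] at h1
  exact h1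

/-- the case `a ≥ 1` in the form with natural `a` -/
theorem every_of_nat {a : ℕ}
    (h : ∀ g : ℕ → ℤ, IsSign g → ∀ s : ℤ,
      (∃ x y : ℤ, x ^ 2 + (a : ℤ) * y ^ 2 ≠ 0 ∧ g (x ^ 2 + (a : ℤ) * y ^ 2).natAbs = s) →
      ∃ c : ℝ, 0 < c ∧ ∀ᶠ N : ℕ in atTop,
        c * N ≤ (((Icc 1 N).filter (fun n : ℕ => g (n ^ 2 + a) = s)).card : ℝ)) :
    Every (a : ℤ) := by
  intro g hg s hs
  obtain ⟨x, y, hpos, hxy⟩ := hs
  have h1 := h g hg s ⟨x, y, hpos.ne', hxy⟩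
  have e : ∀ n : ℕ, ((n : ℤ) ^ 2 + (a : ℤ)).natAbs = n ^ 2 + a := fun n => by
    have : ((n : ℤ) ^ 2 + (a : ℤ)) = ((n ^ 2 + a : ℕ) : ℤ) := by push_cast; ring
    rw [this, Int.natAbs_natCast]
  simp only [e]
  exact h1

end Pool.Agent.Lib.MP391708.TG
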