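import Pool.Agent.Lib.MP_391708_nt.TF.Final
import Pool.Agent.Lib.MP_391708_nt.TG.Asm
import Pool.Agent.Lib.MP_391708_nt.TG.KAll
import Pool.Agent.Lib.MP_391708_nt.TG.SeedG
import Pool.Agent.Lib.MP_391708_nt.TG.Shape
import Pool.Agent.Lib.MP_391708_nt.SR.Main
import Pool.Agent.Lib.MP_391708_nt.MAR.Main

/-!
# Theorem T1b: every integer `a` with `-a` not a square, every completely multiplicative sign function
-/

set_option autoImplicit false

namespace Pool.Agent.Lib.MP391708.TG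

open Finset Filter Topology
open Pool.Agent.Lib.MP391708.MA (Sg gs)
open scoped Classical

/-- squarefree `-a > 1` -/
theorem t1_sqf [Aa] {g : ℕ → ℤ} (hg : IsSign g) {e : ℤ}
    (he : ∃ x y : ℤ, 0 < x ^ 2 + az * y ^ 2 ∧ g (x ^ 2 + az * y ^ 2).natAbs = e) :
    SpecT1g g e := by
  let _ : Sg := ⟨g, ⟨hg.val, hg.mul⟩⟩
  have hk : ¬ IsSquare aa := by
    rintro ⟨b, hb⟩
    refine Bs.sq_ne (b : ℤ) ?_
    rw [az_eq, hb]
    push_cast
    ring
  obtain ⟨F, μ, hF, hFa, hseed⟩ := SR.seeds_of MAR.specMAR hk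
  have hFa' : F.a = az := hFa
  have hgs : ∀ n : ℕ, 0 < n → gs n = g n := fun n hn => MA.gs_of_pos hn
  obtain ⟨x, y, h0, h1⟩ := he
  have hs := hseed e ⟨x, y, by rw [hFa']; exact h0, by
    rw [hFa']
    exact (hgs _ (Int.natAbs_pos.2 h0.ne')).trans h1⟩
  have hA : 0 < F.A := hF.1
  letI : Frm := frmOf μ hA hFa'
  exact t1g hg (SeedBr.seedg μ hA hFa' (G := SG.lam) (fun n hn => by
    show gs _ = g n
    rw [Int.natAbs_natCast]
    exact hgs n hn) hs)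

/-- **Theorem T1b** for `a < 0` -/
theorem t1_neg {a : ℤ} (ha : a < 0) (hns : ¬ IsSquare (-a)) : Every a := by
  intro g hg e he
  refine KAll.all_a hg ha hns fun a₀ b h₀ hs hn hb hab => ?_
  letI : Aa := KAll.mkA a₀ h₀ hs hn
  refine t1_sqf hg ?_
  obtain ⟨x, y, h1, h2⟩ := he
  have e1 : x ^ 2 + a * y ^ 2 = x ^ 2 + -((a₀ : ℕ) : ℤ) * (b * y) ^ 2 := by
    rw [← hab]
    ring
  refine ⟨x, b * y, ?_, ?_⟩
  · show 0 < x ^ 2 + -((a₀ : ℕ) : ℤ) * (b * y) ^ 2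
    rw [← e1]
    exact h1
  · show g (x ^ 2 + -((a₀ : ℕ) : ℤ) * (b * y) ^ 2).natAbs = e
    rw [← e1]
    exact h2

/-- **Theorem T1b** -/
theorem t1_every {a : ℤ} (hns : ¬ IsSquare (-a)) : Every a := by
  rcases lt_trichotomy a 0 with h | h | h
  · exact t1_neg h hns
  · exact absurd ⟨0, by rw [h]; norm_num⟩ hns
  · obtain ⟨n, rfl⟩ := Int.eq_ofNat_of_zero_le h.le
    exact every_of_nat fun g hg e he => TF.t1_all n (by exact_mod_cast h) hg he

end Pool.Agent.Lib.MP391708.TG
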