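import Pool.Agent.Lib.MP_391708_nt.TG.SpecH
import Pool.Agent.Lib.MP_391708_nt.TG.BasF

/-!
# Theorem T1b, group H: the algebra of a datum (`SpecH1a`)
-/

set_option autoImplicit false
set_option linter.unusedSectionVars false

namespace Pool.Agent.Lib.MP391708.TG

variable [Pool.Agent.Lib.MP391708.TG.Aa] [Pool.Agent.Lib.MP391708.TG.Frm]

open Finset Filter Topology
open Pool.Agent.Lib.MP391708.Eqd (V cross pairs)
open scoped Classical

noncomputable section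

namespace H

namespace H1aM

/-! ### sieving parts -/

lemma mem_PP {p : Prm} {N l : ℕ} : l ∈ PP p N ↔ l.Prime ∧ spl l ∧ p.E < l ∧ (l : ℝ) < zz p N := by
  simp only [PP, mem_filter, mem_range, Nat.lt_ceil]
  tauto

lemma sm_pos (p : Prm) (N n : ℕ) : 0 < sm p N n := by
  unfold sm
  exact Finset.prod_pos fun l hl => pow_pos (mem_PP.1 hl).1.pos _

lemma sm_mul {p : Prm} {N m n : ℕ} (hm : m ≠ 0) (hn : n ≠ 0) :
    sm p N (m * n) = sm p N m * sm p N n := by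
  unfold sm
  rw [← Finset.prod_mul_distrib]
  refine Finset.prod_congr rfl fun l _ => ?_
  rw [Nat.factorization_mul hm hn, Finsupp.add_apply, pow_add]

lemma sm_eq_one {p : Prm} {N n : ℕ} (h : ∀ l ∈ PP p N, ¬ l ∣ n) : sm p N n = 1 := by
  unfold sm
  refine Finset.prod_eq_one fun l hl => ?_
  rw [Nat.factorization_eq_zero_of_not_dvd (h l hl), pow_zero]

lemma sm_eq_self {p : Prm} {N n : ℕ} (hn : n ≠ 0) (h : ∀ l : ℕ, l.Prime → l ∣ n → l ∈ PP p N) :
    sm p N n = n := by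
  unfold sm
  have h1 : ∏ l ∈ n.primeFactors, l ^ n.factorization l = n := by
    have := Nat.prod_factorization_pow_eq_self hn
    rw [Finsupp.prod, Nat.support_factorization] at this
    exact this
  have h2 : n.primeFactors ⊆ PP p N := fun l hl =>
    h l (Nat.prime_of_mem_primeFactors hl) (Nat.dvd_of_mem_primeFactors hl)
  rw [← Finset.prod_subset h2]
  · exact h1
  · intro l _ hl2
    have : n.factorization l = 0 := by
      rw [← Nat.support_factorization] at hl2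
      exact Finsupp.notMem_support_iff.1 hl2
    rw [this, pow_zero]

lemma fac_one {n l : ℕ} (hl : l.Prime) (hn : n ≠ 0) (h1 : l ∣ n) (h2 : ¬ l ^ 2 ∣ n) :
    n.factorization l = 1 := by
  have h3 : 1 ≤ n.factorization l := by
    rw [← hl.pow_dvd_iff_le_factorization hn, pow_one]; exact h1
  have h4 : ¬ 2 ≤ n.factorization l := by
    rw [← hl.pow_dvd_iff_le_factorization hn]; exact h2
  omega

lemma sm_eq {p : Prm} {N n s : ℕ} (hn : n ≠ 0) (hs : Squarefree s)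
    (hsP : ∀ l : ℕ, l.Prime → l ∣ s → l ∈ PP p N)
    (h : ∀ l ∈ PP p N, (l ∣ n ↔ l ∣ s) ∧ ¬ l ^ 2 ∣ n) : sm p N n = s := by
  have hs0 : s ≠ 0 := hs.ne_zero
  rw [← sm_eq_self hs0 hsP]
  unfold sm
  refine Finset.prod_congr rfl fun l hl => ?_
  have hlp := (mem_PP.1 hl).1
  obtain ⟨h1, h2⟩ := h l hl
  by_cases hd : l ∣ n
  · rw [fac_one hlp hn hd h2, fac_one hlp hs0 (h1.1 hd)]
    intro h3
    rw [sq] at h3
    exact hlp.one_lt.ne' (Nat.isUnit_iff.1 (hs l h3))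
  · rw [Nat.factorization_eq_zero_of_not_dvd hd,
      Nat.factorization_eq_zero_of_not_dvd (fun h3 => hd (h1.2 h3))]

/-! ### the base measure -/

lemma Md_sq {x : VV} (h : CC x) : aa < Md x ^ 2 := TG.aa_lt_sq h

/-- the facts about `x ∈ Gam N 1 3` in natural numbers -/
lemma gam_facts {N : ℕ} {x : VV} (hx : x ∈ Gam N 1 3) :
    mm x = (Md x : ℤ) ∧ dd x = ((dd x).natAbs : ℤ) ∧ ee x = ((ee x).natAbs : ℤ) ∧
    (dd x).natAbs * (ee x).natAbs = vl (Md x) ∧ 0 < (dd x).natAbs ∧ 0 < (ee x).natAbs ∧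
    N < Md x ∧ Md x ≤ 2 * N ∧ Md x < (dd x).natAbs ∧ (dd x).natAbs ≤ 3 * Md x := by
  obtain ⟨hC, h2, h3, h4, h5⟩ := TG.mem_Gam.1 hx
  have hM : mm x = (Md x : ℤ) := by
    have : 0 ≤ mm x := by have : (0 : ℤ) ≤ N := Int.natCast_nonneg N
                          omega
    simp only [Md]; omega
  have hde : dd x * ee x = mm x ^ 2 + az := TG.dd_mul_ee hC
  have h4' : mm x < dd x := by
    have : (mm x : ℝ) < (dd x : ℝ) := by simpa using h4
    exact_mod_cast this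
  have h5' : dd x ≤ 3 * mm x := by exact_mod_cast h5
  have hd0 : 0 < dd x := hC.2.2.1
  have he0 : 0 < ee x := hC.2.2.2
  have hd : dd x = ((dd x).natAbs : ℤ) := by omega
  have he : ee x = ((ee x).natAbs : ℤ) := by omega
  refine ⟨hM, hd, he, ?_, by omega, by omega, by omega, by omega, by omega, by omega⟩
  have : (((dd x).natAbs * (ee x).natAbs : ℕ) : ℤ) = ((vl (Md x) : ℕ) : ℤ) := by
    rw [vl_cast (Md_sq hC), Nat.cast_mul, ← hd, ← he, hde, hM]
  exact_mod_cast this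

lemma mem_Uu {p : Prm} {N u : ℕ} (h : u ∈ Uu p N) :
    u.Prime ∧ Y1 p N ≤ (u : ℝ) ∧ (u : ℝ) ≤ Y2 p N := by
  simp only [Uu, mem_filter] at h
  exact ⟨h.2.1, h.2.2.2.1, h.2.2.2.2⟩

lemma mem_Vv {p : Prm} {N u : ℕ} (h : u ∈ Vv p N) :
    u.Prime ∧ Y3 p N ≤ (u : ℝ) ∧ (u : ℝ) ≤ Y4 p N := by
  simp only [Vv, mem_filter] at h
  exact ⟨h.2.1, h.2.2.2.1, h.2.2.2.2⟩

/-- conditions on `N` -/
def Big (p : Prm) (N : ℕ) : Prop := 2 ≤ zz p N ∧ (p.E : ℝ) < zz p N ∧ 1 ≤ p.r ∧ 1 ≤ p.k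

lemma big_ev : Good (fun p => ∀ᶠ N : ℕ in atTop, Big p N) := by
  refine ⟨0, fun E _ => ⟨0, fun K _ => ⟨1, fun r hr => ⟨1, fun k hk => ⟨1, one_pos,
    fun ζ hζ _ => ?_⟩⟩⟩⟩⟩
  have h1 : Tendsto (fun N : ℕ => (N : ℝ) ^ ζ) atTop atTop :=
    (tendsto_rpow_atTop hζ).comp tendsto_natCast_atTop_atTop
  filter_upwards [h1.eventually_ge_atTop 2, h1.eventually_gt_atTop (E : ℝ)] with N h2 h3
  exact ⟨h2, h3, hr, hk⟩

lemma sm_dvd {p : Prm} {N n : ℕ} (hn : n ≠ 0) : sm p N n ∣ n := by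
  have h1 : ∏ l ∈ n.primeFactors, l ^ n.factorization l = n := by
    have := Nat.prod_factorization_pow_eq_self hn
    rw [Finsupp.prod, Nat.support_factorization] at this
    exact this
  have h2 : sm p N n = ∏ l ∈ n.primeFactors.filter (fun l => l ∈ PP p N),
      l ^ n.factorization l := by
    unfold sm
    symm
    refine Finset.prod_subset (fun l hl => (mem_filter.1 hl).2) ?_
    intro l hl hl2
    have : l ∉ n.primeFactors := fun h => hl2 (mem_filter.2 ⟨h, hl⟩)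
    rw [← Nat.support_factorization] at this
    rw [Finsupp.notMem_support_iff.1 this, pow_zero]
  rw [h2]
  conv_rhs => rw [← h1, ← Finset.prod_filter_mul_prod_filter_not n.primeFactors
    (fun l => l ∈ PP p N)]
  exact Dvd.intro _ rfl

/-- the facts about a datum over `x` -/
structure DF (p : Prm) (N : ℕ) (a : Dt) (x : VV) : Prop where
  g1 : 0 < g1 a
  m1 : 0 < m1 a
  n1 : 0 < n1 a
  g2 : 0 < g2 a
  m2 : 0 < m2 a
  n2 : 0 < n2 a
  uP : (du a).Prime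
  vP : (dv a).Prime
  uz : zz p N ≤ (du a : ℝ)
  vz : zz p N ≤ (dv a : ℝ)
  u1 : Y1 p N ≤ (du a : ℝ)
  u2 : (du a : ℝ) ≤ Y2 p N
  v1 : Y3 p N ≤ (dv a : ℝ)
  v2 : (dv a : ℝ) ≤ Y4 p N
  uv : du a < dv a
  dsz : (ds a : ℝ) ≤ zz p N ^ p.K
  esz : (es a : ℝ) ≤ zz p N ^ p.K
  sq : Squarefree (ds a * es a)
  pr : ∀ l : ℕ, l.Prime → l ∣ ds a * es a → l ∈ PP p N
  unP : ∀ l ∈ PP p N, ¬ l ∣ du a
  vnP : ∀ l ∈ PP p N, ¬ l ∣ dv a

lemma df {p : Prm} {N : ℕ} (hB : Big p N) {a : Dt} (ha : a ∈ DA p N) (x : VV) :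
    DF p N a x := by
  obtain ⟨hz, hE, hr, hk⟩ := hB
  unfold DA at ha
  obtain ⟨h1, h2, h3, h4, h5⟩ := mem_filter.1 ha
  have hu : du a ∈ Uu p N := (mem_product.1 (mem_product.1 (mem_product.1 h1).2).2).1
  have hv : dv a ∈ Vv p N := (mem_product.1 (mem_product.1 (mem_product.1 h1).2).2).2
  obtain ⟨u0, u1, u2⟩ := mem_Uu hu
  obtain ⟨v0, v1, v2⟩ := mem_Vv hv
  have hz1 : 1 ≤ zz p N := by linarith
  have hY1 : zz p N ≤ Y1 p N := by
    unfold Y1; exact le_self_pow₀ hz1 (by omega)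
  have hY3 : zz p N ≤ Y3 p N := by
    unfold Y3
    refine le_self_pow₀ hz1 ?_
    have : 0 < 10 * p.r * p.k := by positivity
    omega
  have hY23 : Y2 p N < Y3 p N := by
    unfold Y2 Y3
    refine pow_lt_pow_right₀ (by linarith) ?_
    have : 0 < p.r * p.k := by positivity
    nlinarith
  have hne := h2.ne_zero
  have hds : ds a ≠ 0 := left_ne_zero_of_mul hne
  have hes : es a ≠ 0 := right_ne_zero_of_mul hne
  unfold ds at hds
  unfold es at hes
  have g1' : g1 a ≠ 0 := left_ne_zero_of_mul (left_ne_zero_of_mul hds)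
  have m1' : m1 a ≠ 0 := right_ne_zero_of_mul (left_ne_zero_of_mul hds)
  have n1' : n1 a ≠ 0 := right_ne_zero_of_mul hds
  have g2' : g2 a ≠ 0 := left_ne_zero_of_mul (left_ne_zero_of_mul hes)
  have m2' : m2 a ≠ 0 := right_ne_zero_of_mul (left_ne_zero_of_mul hes)
  have n2' : n2 a ≠ 0 := right_ne_zero_of_mul hes
  refine ⟨Nat.pos_of_ne_zero g1', Nat.pos_of_ne_zero m1', Nat.pos_of_ne_zero n1',
    Nat.pos_of_ne_zero g2', Nat.pos_of_ne_zero m2', Nat.pos_of_ne_zero n2', u0, v0,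
    hY1.trans u1, hY3.trans v1, u1, u2, v1, v2, ?_, h4, h5, h2, h3, ?_, ?_⟩
  · have : (du a : ℝ) < (dv a : ℝ) := by linarith
    exact_mod_cast this
  · intro l hl hd
    obtain ⟨hl1, _, _, hl4⟩ := mem_PP.1 hl
    rw [(Nat.prime_dvd_prime_iff_eq hl1 u0).1 hd] at hl4
    linarith
  · intro l hl hd
    obtain ⟨hl1, _, _, hl4⟩ := mem_PP.1 hl
    rw [(Nat.prime_dvd_prime_iff_eq hl1 v0).1 hd] at hl4
    linarith

lemma dvd_nat {l : ℕ} {z : ℤ} : (l : ℤ) ∣ z ↔ l ∣ z.natAbs := Int.natCast_dvd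

/-- divisibilities and sieving parts of `d` and `e` -/
lemma parts {p : Prm} {N : ℕ} (hB : Big p N) {x : VV} (hx : x ∈ Gam N 1 3) {a : Dt}
    (ha : a ∈ DA p N) (hf : fits p N a x) :
    sm p N (dd x).natAbs = ds a ∧ sm p N (ee x).natAbs = es a ∧
    g1 a * m1 a * du a ∣ (dd x).natAbs ∧ g2 a * m2 a * dv a ∣ (ee x).natAbs := by
  obtain ⟨hM, hd, he, hde, hd0, he0, _⟩ := gam_facts hx
  have F := df hB ha x
  obtain ⟨ht, hu, hv, hl⟩ := hf
  have hsd : Squarefree (ds a) := F.sq.squarefree_of_dvd (dvd_mul_right _ _)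
  have hse : Squarefree (es a) := F.sq.squarefree_of_dvd (dvd_mul_left _ _)
  have e1 : sm p N (dd x).natAbs = ds a := by
    refine sm_eq hd0.ne' hsd (fun l h1 h2 => F.pr l h1 (h2.mul_right _)) fun l hl1 => ?_
    obtain ⟨h1, h2, h3, h4⟩ := hl l hl1
    refine ⟨by rw [← dvd_nat]; exact h1, fun h5 => h3 ?_⟩
    have : ((l ^ 2 : ℕ) : ℤ) ∣ dd x := dvd_nat.2 h5
    simpa using this
  have e2 : sm p N (ee x).natAbs = es a := by
    refine sm_eq he0.ne' hse (fun l h1 h2 => F.pr l h1 (h2.mul_left _)) fun l hl1 => ?_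
    obtain ⟨h1, h2, h3, h4⟩ := hl l hl1
    refine ⟨by rw [← dvd_nat]; exact h2, fun h5 => h4 ?_⟩
    have : ((l ^ 2 : ℕ) : ℤ) ∣ ee x := dvd_nat.2 h5
    simpa using this
  refine ⟨e1, e2, ?_, ?_⟩
  · have h1 : ds a ∣ (dd x).natAbs := e1 ▸ sm_dvd hd0.ne'
    have h2 : du a ∣ (dd x).natAbs := dvd_nat.1 hu
    have h3 : Nat.Coprime (ds a) (du a) := by
      rw [Nat.coprime_comm, F.uP.coprime_iff_not_dvd]
      intro h4
      exact F.unP _ (F.pr _ F.uP (h4.mul_right _)) dvd_rfl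
    have h5 := h3.mul_dvd_of_dvd_of_dvd h1 h2
    refine (mul_dvd_mul_right ?_ _).trans h5
    exact ⟨n1 a, rfl⟩
  · have h1 : es a ∣ (ee x).natAbs := e2 ▸ sm_dvd he0.ne'
    have h2 : dv a ∣ (ee x).natAbs := dvd_nat.1 hv
    have h3 : Nat.Coprime (es a) (dv a) := by
      rw [Nat.coprime_comm, F.vP.coprime_iff_not_dvd]
      intro h4
      exact F.vnP _ (F.pr _ F.vP (h4.mul_left _)) dvd_rfl
    have h5 := h3.mul_dvd_of_dvd_of_dvd h1 h2
    refine (mul_dvd_mul_right ?_ _).trans h5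
    exact ⟨n2 a, rfl⟩

/-- the quadratic forms -/
lemma forms {N : ℕ} {x : VV} (hx : x ∈ Gam N 1 3) {a : Dt}
    (hP : Pd a x * (g1 a * m1 a * du a) = (dd x).natAbs * m2 a)
    (hQ : Qd a x * (g2 a * m2 a * dv a) = (ee x).natAbs * m1 a) (t : ℤ × ℕ) :
    ((m2 a * g1 a * m1 a * du a : ℕ) : ℤ) * F1 (rel a t x) =
        qf x (m2 a * t.1) (-((g1 a * m1 a * du a : ℕ) : ℤ)) ∧
      ((m1 a * g2 a * m2 a * dv a : ℕ) : ℤ) * F2 (rel a t x) =
        qf x ((g2 a * m2 a * dv a : ℕ) : ℤ) (m1 a * D2 (rel a t x)) := by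
  obtain ⟨hM, hd, he, _⟩ := gam_facts hx
  generalize hD : D2 (rel a t x) = D'
  simp only [F1, F2, rP, rD, rM, rG, rQ, hD]
  simp only [rel, qf, dG, hM]
  generalize Pd a x = P at *
  generalize Qd a x = Q at *
  generalize Md x = M at *
  have hPz : (P : ℤ) * ((g1 a : ℤ) * m1 a * du a) = dd x * m2 a := by
    rw [hd]; exact_mod_cast hP
  have hQz : (Q : ℤ) * ((g2 a : ℤ) * m2 a * dv a) = ee x * m1 a := by
    rw [he]; exact_mod_cast hQ
  generalize dd x = d at *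
  generalize ee x = e at *
  push_cast
  constructor
  · linear_combination (m2 a * t.1 ^ 2 : ℤ) * hPz +
      ((g1 a : ℤ) * m1 a * du a * g1 a * du a) * hQz
  · linear_combination (m1 a * D' ^ 2 : ℤ) * hQz +
      ((g2 a : ℤ) * m2 a * dv a * g2 a * dv a) * hPz

/-- **H1a**, pointwise -/
theorem pt {p : Prm} {N : ℕ} (hB : Big p N) {x : VV} (hx : x ∈ Gam N 1 3) {a : Dt}
    (ha : a ∈ DA p N) (hf : fits p N a x) :
    Pd a x * (g1 a * m1 a * du a) = (dd x).natAbs * m2 a ∧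
    Qd a x * (g2 a * m2 a * dv a) = (ee x).natAbs * m1 a ∧
    dG a * Pd a x * Qd a x = vl (Md x) ∧
    sm p N (dd x).natAbs = ds a ∧ sm p N (ee x).natAbs = es a ∧
    sm p N (vl (Md x)) = ds a * es a ∧ sm p N (dG a) = g1 a * g2 a ∧
    sm p N (Pd a x) = m2 a * n1 a ∧ sm p N (Qd a x) = m1 a * n2 a ∧ Squarefree (dG a) ∧
    Adm p N (Md x) (dG a) (Pd a x) (Qd a x) ∧
    ∀ t : ℤ × ℕ, ((m2 a * g1 a * m1 a * du a : ℕ) : ℤ) * F1 (rel a t x) =
        qf x (m2 a * t.1) (-((g1 a * m1 a * du a : ℕ) : ℤ)) ∧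
      ((m1 a * g2 a * m2 a * dv a : ℕ) : ℤ) * F2 (rel a t x) =
        qf x ((g2 a * m2 a * dv a : ℕ) : ℤ) (m1 a * D2 (rel a t x)) := by
  obtain ⟨hM, hd, he, hde, hd0, he0, hN1, hN2, hd1, hd2⟩ := gam_facts hx
  have F := df hB ha x
  obtain ⟨e1, e2, dv1, dv2⟩ := parts hB hx ha hf
  have k1 : 0 < g1 a * m1 a * du a := Nat.mul_pos (Nat.mul_pos F.g1 F.m1) F.uP.pos
  have k2 : 0 < g2 a * m2 a * dv a := Nat.mul_pos (Nat.mul_pos F.g2 F.m2) F.vP.pos
  have hP : Pd a x * (g1 a * m1 a * du a) = (dd x).natAbs * m2 a :=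
    Nat.div_mul_cancel (dv1.mul_right _)
  have hQ : Qd a x * (g2 a * m2 a * dv a) = (ee x).natAbs * m1 a :=
    Nat.div_mul_cancel (dv2.mul_right _)
  have hG0 : 0 < dG a := Nat.mul_pos (Nat.mul_pos (Nat.mul_pos F.g1 F.g2) F.uP.pos) F.vP.pos
  have hGPQ : dG a * Pd a x * Qd a x = vl (Md x) := by
    rw [← hde]
    refine Nat.eq_of_mul_eq_mul_right (Nat.mul_pos F.m1 F.m2) ?_
    calc dG a * Pd a x * Qd a x * (m1 a * m2 a)
        = (Pd a x * (g1 a * m1 a * du a)) * (Qd a x * (g2 a * m2 a * dv a)) := by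
          unfold dG; ring
      _ = _ := by rw [hP, hQ]; ring
  have hMsq : aa < Md x ^ 2 := Md_sq (TG.mem_Gam.1 hx).1
  have haa : 0 < vl (Md x) := vl_pos hMsq
  have hP0 : Pd a x ≠ 0 := fun h0 => by
    rw [← hGPQ, h0] at haa; simp at haa
  have hQ0 : Qd a x ≠ 0 := fun h0 => by
    rw [← hGPQ, h0] at haa; simp at haa
  have small : ∀ y : ℕ, y ≠ 0 → y ∣ ds a * es a → sm p N y = y := fun y hy0 hy =>
    sm_eq_self hy0 fun l hl hly => F.pr l hl (hly.trans hy)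
  have su : sm p N (du a) = 1 := sm_eq_one F.unP
  have sv : sm p N (dv a) = 1 := sm_eq_one F.vnP
  have dgg : g1 a * g2 a ∣ ds a * es a :=
    ⟨m1 a * n1 a * (m2 a * n2 a), by unfold ds es; ring⟩
  have sgg : sm p N (g1 a * g2 a) = g1 a * g2 a :=
    small _ (Nat.mul_pos F.g1 F.g2).ne' dgg
  have sg1m1 : sm p N (g1 a * m1 a) = g1 a * m1 a :=
    small _ (Nat.mul_pos F.g1 F.m1).ne' ⟨n1 a * es a, by unfold ds es; ring⟩
  have sg2m2 : sm p N (g2 a * m2 a) = g2 a * m2 a :=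
    small _ (Nat.mul_pos F.g2 F.m2).ne' ⟨n2 a * ds a, by unfold ds es; ring⟩
  have sm2 : sm p N (m2 a) = m2 a := small _ F.m2.ne' ⟨ds a * (g2 a * n2 a), by unfold ds es; ring⟩
  have sm1 : sm p N (m1 a) = m1 a := small _ F.m1.ne' ⟨es a * (g1 a * n1 a), by unfold ds es; ring⟩
  have sG : sm p N (dG a) = g1 a * g2 a := by
    unfold dG
    rw [sm_mul (Nat.mul_pos (Nat.mul_pos F.g1 F.g2) F.uP.pos).ne' F.vP.pos.ne',
      sm_mul (Nat.mul_pos F.g1 F.g2).ne' F.uP.pos.ne', su, sv, sgg, mul_one, mul_one]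
  have sP : sm p N (Pd a x) = m2 a * n1 a := by
    have h3 : sm p N (Pd a x * (g1 a * m1 a * du a)) = sm p N ((dd x).natAbs * m2 a) := by
      rw [hP]
    rw [sm_mul hP0 k1.ne', sm_mul (Nat.mul_pos F.g1 F.m1).ne' F.uP.pos.ne', su, sg1m1,
      sm_mul hd0.ne' F.m2.ne', e1, sm2, mul_one] at h3
    refine Nat.eq_of_mul_eq_mul_right (Nat.mul_pos F.g1 F.m1) ?_
    rw [h3]; unfold ds; ring
  have sQ : sm p N (Qd a x) = m1 a * n2 a := by
    have h3 : sm p N (Qd a x * (g2 a * m2 a * dv a)) = sm p N ((ee x).natAbs * m1 a) := by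
      rw [hQ]
    rw [sm_mul hQ0 k2.ne', sm_mul (Nat.mul_pos F.g2 F.m2).ne' F.vP.pos.ne', sv, sg2m2,
      sm_mul he0.ne' F.m1.ne', e2, sm1, mul_one] at h3
    refine Nat.eq_of_mul_eq_mul_right (Nat.mul_pos F.g2 F.m2) ?_
    rw [h3]; unfold es; ring
  have sMM : sm p N (vl (Md x)) = ds a * es a := by
    rw [← hde, sm_mul hd0.ne' he0.ne', e1, e2]
  -- primes of `G`
  have prG : ∀ l : ℕ, l.Prime → l ∣ dG a → p.E < l := by
    intro l hl h3
    have hzE : ∀ w : ℕ, zz p N ≤ (w : ℝ) → p.E < w := fun w hw => by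
      have : (p.E : ℝ) < w := lt_of_lt_of_le hB.2.1 hw
      exact_mod_cast this
    unfold dG at h3
    rcases hl.dvd_mul.1 h3 with h4 | h4
    · rcases hl.dvd_mul.1 h4 with h5 | h5
      · exact (mem_PP.1 (F.pr l hl (h5.trans dgg))).2.2.1
      · rw [(Nat.prime_dvd_prime_iff_eq hl F.uP).1 h5]
        exact hzE _ F.uz
    · rw [(Nat.prime_dvd_prime_iff_eq hl F.vP).1 h4]
      exact hzE _ F.vz
  have sqG : Squarefree (dG a) := by
    have h3 : dG a = (g1 a * g2 a) * (du a * dv a) := by unfold dG; ring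
    rw [h3, Nat.squarefree_mul_iff]
    refine ⟨?_, F.sq.squarefree_of_dvd dgg, ?_⟩
    · rw [Nat.coprime_mul_iff_right]
      constructor
      · rw [Nat.coprime_comm, F.uP.coprime_iff_not_dvd]
        exact fun h4 => F.unP _ (F.pr _ F.uP (h4.trans dgg)) dvd_rfl
      · rw [Nat.coprime_comm, F.vP.coprime_iff_not_dvd]
        exact fun h4 => F.vnP _ (F.pr _ F.vP (h4.trans dgg)) dvd_rfl
    · rw [Nat.squarefree_mul_iff]
      refine ⟨?_, F.uP.squarefree, F.vP.squarefree⟩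
      rw [Nat.coprime_primes F.uP F.vP]
      exact F.uv.ne
  have copG : Nat.Coprime (dG a) (W0 p) := by
    unfold W0
    refine Nat.Coprime.pow_right _ ?_
    unfold primorial
    refine Nat.Coprime.prod_right fun l hl => ?_
    have hl' := mem_filter.1 hl
    rw [Nat.coprime_comm, hl'.2.coprime_iff_not_dvd]
    intro h4
    have h5 := prG l hl'.2 h4
    have h6 := mem_range.1 hl'.1
    omega
  have hz1 : 1 ≤ zz p N := by linarith [hB.1]
  have zK : zz p N ^ p.K ≤ zz p N ^ (4 * p.K) := pow_le_pow_right₀ hz1 (by omega)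
  have zK0 : 0 ≤ zz p N ^ p.K := by positivity
  have zK1 : 1 ≤ zz p N ^ p.K := one_le_pow₀ hz1
  have Y10 : 0 ≤ Y1 p N := by unfold Y1; positivity
  have Y20 : 0 ≤ Y2 p N := by unfold Y2; positivity
  have Y30 : 0 ≤ Y3 p N := by unfold Y3; positivity
  have Y40 : 0 ≤ Y4 p N := by unfold Y4; positivity
  have le1 : ∀ y w : ℕ, 0 < w → y ∣ w → (y : ℝ) ≤ w := fun y w hw h3 => by
    exact_mod_cast Nat.le_of_dvd hw h3
  have dspos : 0 < ds a := Nat.pos_of_ne_zero (left_ne_zero_of_mul F.sq.ne_zero)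
  have espos : 0 < es a := Nat.pos_of_ne_zero (right_ne_zero_of_mul F.sq.ne_zero)
  have bm2 : (m2 a : ℝ) ≤ zz p N ^ p.K :=
    (le1 _ _ espos ⟨g2 a * n2 a, by unfold es; ring⟩).trans F.esz
  have bg1m1 : ((g1 a * m1 a : ℕ) : ℝ) ≤ zz p N ^ p.K :=
    (le1 _ _ dspos ⟨n1 a, rfl⟩).trans F.dsz
  have bg1 : (g1 a : ℝ) ≤ zz p N ^ p.K :=
    (le1 _ _ dspos ⟨m1 a * n1 a, by unfold ds; ring⟩).trans F.dsz
  have bg2 : (g2 a : ℝ) ≤ zz p N ^ p.K :=
    (le1 _ _ espos ⟨m2 a * n2 a, by unfold es; ring⟩).trans F.esz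
  have hPr : (Pd a x : ℝ) * ((g1 a * m1 a : ℕ) * du a) = (dd x).natAbs * m2 a := by
    exact_mod_cast hP
  have hdM : ((dd x).natAbs : ℝ) ≤ 3 * Md x := by exact_mod_cast hd2
  have hMd : (Md x : ℝ) ≤ (dd x).natAbs := by exact_mod_cast hd1.le
  have hPnn : (0 : ℝ) ≤ Pd a x := by positivity
  have hMnn : (0 : ℝ) ≤ Md x := by positivity
  have hAdm : Adm p N (Md x) (dG a) (Pd a x) (Qd a x) := by
    refine ⟨hMsq, hGPQ, by omega, by omega, copG, hf.1, ?_, ?_, ?_, ?_⟩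
    · calc (Pd a x : ℝ) * Y1 p N ≤ Pd a x * ((g1 a * m1 a : ℕ) * du a) := by
            refine mul_le_mul_of_nonneg_left ?_ hPnn
            have h3 : (1 : ℝ) ≤ ((g1 a * m1 a : ℕ) : ℝ) := by
              exact_mod_cast Nat.mul_pos F.g1 F.m1
            have h4 : (0 : ℝ) ≤ du a := by positivity
            nlinarith [F.u1]
        _ = (dd x).natAbs * m2 a := hPr
        _ ≤ (3 * Md x) * zz p N ^ p.K := mul_le_mul hdM bm2 (by positivity) (by positivity)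
        _ ≤ 10 * Md x * zz p N ^ (4 * p.K) := by
            refine mul_le_mul (by linarith) zK zK0 (by positivity)
    · have h3 : ((dd x).natAbs : ℝ) ≤ (dd x).natAbs * m2 a := by
        have h4 : (1 : ℝ) ≤ m2 a := by exact_mod_cast F.m2
        have h5 : (0 : ℝ) ≤ (dd x).natAbs := by positivity
        nlinarith
      calc (Md x : ℝ) ≤ (dd x).natAbs * m2 a := hMd.trans h3
        _ = Pd a x * ((g1 a * m1 a : ℕ) * du a) := hPr.symm
        _ ≤ Pd a x * (zz p N ^ (4 * p.K) * Y2 p N) := by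
            refine mul_le_mul_of_nonneg_left ?_ hPnn
            exact mul_le_mul (bg1m1.trans zK) F.u2 (by positivity) (by positivity)
        _ ≤ 10 * Pd a x * (Y2 p N * zz p N ^ (4 * p.K)) := by
            have : 0 ≤ (Pd a x : ℝ) * (Y2 p N * zz p N ^ (4 * p.K)) := by positivity
            nlinarith
    · have h3 : ((du a * dv a : ℕ) : ℝ) ≤ dG a :=
        le1 _ _ hG0 ⟨g1 a * g2 a, by unfold dG; ring⟩
      have h4 : Y1 p N * Y3 p N ≤ ((du a * dv a : ℕ) : ℝ) := by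
        push_cast
        exact mul_le_mul F.u1 F.v1 Y30 (by positivity)
      have : (0 : ℝ) ≤ dG a := by positivity
      linarith
    · have h3 : (dG a : ℝ) = (g1 a * g2 a) * (du a * dv a) := by
        unfold dG; push_cast; ring
      have h4 : (g1 a : ℝ) * g2 a ≤ zz p N ^ (4 * p.K) := by
        calc (g1 a : ℝ) * g2 a ≤ zz p N ^ p.K * zz p N ^ p.K :=
              mul_le_mul bg1 bg2 (by positivity) zK0
          _ = zz p N ^ (p.K + p.K) := (pow_add _ _ _).symm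
          _ ≤ zz p N ^ (4 * p.K) := pow_le_pow_right₀ hz1 (by omega)
      have h5 : (du a : ℝ) * dv a ≤ Y2 p N * Y4 p N :=
        mul_le_mul F.u2 F.v2 (by positivity) Y20
      rw [h3]
      calc (g1 a * g2 a : ℝ) * (du a * dv a) ≤ zz p N ^ (4 * p.K) * (Y2 p N * Y4 p N) :=
            mul_le_mul h4 h5 (by positivity) (by positivity)
        _ ≤ _ := by
            have : 0 ≤ zz p N ^ (4 * p.K) * (Y2 p N * Y4 p N) := by positivity
            nlinarith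
  exact ⟨hP, hQ, hGPQ, e1, e2, sMM, sG, sP, sQ, sqG, hAdm, fun t => forms hx hP hQ t⟩

end H1aM

open H1aM in
/-- **H1a** -/
theorem specH1a' : SpecH1a := by
  obtain ⟨E₀, h⟩ := big_ev
  refine ⟨E₀, fun E hE => ?_⟩
  obtain ⟨K₀, h⟩ := h E hE
  refine ⟨K₀, fun K hK => ?_⟩
  obtain ⟨r₀, h⟩ := h K hK
  refine ⟨r₀, fun r hr => ?_⟩
  obtain ⟨k₀, h⟩ := h r hr
  refine ⟨k₀, fun k hk => ?_⟩
  obtain ⟨ζ₀, hζ₀, h⟩ := h k hk
  refine ⟨ζ₀, hζ₀, fun ζ h1 h2 => ?_⟩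
  filter_upwards [h ζ h1 h2] with N hB x hx a ha hf
  exact pt hB hx ha hf

end H

end

end Pool.Agent.Lib.MP391708.TG
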