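import Pool.Agent.Lib.MP_391708_nt.TG.SpecH

/-!
# T1b, group H, module HB: the bad events
-/

set_option autoImplicit false

namespace Pool.Agent.Lib.MP391708.TG

variable [Pool.Agent.Lib.MP391708.TG.Aa]

open Finset Filter Topology
open Pool.Agent.Lib.MP391708.Eqd (V cross pairs)
open scoped Classical

noncomputable section

namespace H

/-- a sieving prime with a square or a common factor -/
def evP (p : Prm) (N : ℕ) (r : Rl) : Prop := ∃ q ∈ PP p N, evB q r ∨ evM q r

/-- the sieving part of `X T R` is large -/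
def evS (p : Prm) (N : ℕ) (r : Rl) : Prop :=
  zz p N ^ p.K < ((∏ l ∈ (PP p N).filter (fun l => evL l r), l : ℕ) : ℝ)

/-- few sieving primes divide `X T R` -/
def evO (p : Prm) (N : ℕ) (e₁ : ℝ) (r : Rl) : Prop :=
  (om p N (rX r) + om p N (rT r) + om p N (rR r) : ℝ) < (1 / 2 - e₁) * S0 p N

variable [Pool.Agent.Lib.MP391708.TG.Frm]

/-- **HB2** (algebra): a relation over a typical `x` is in `RP` outside the bad events. -/
def SpecHB2 : Prop :=
  ∀ δ e₁ : ℝ, 0 < e₁ → Good (fun p => ∀ᶠ N : ℕ in atTop, ∀ x ∈ Gam N 1 3, typ p N δ e₁ x →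
    ∀ a ∈ DA p N, fits p N a x → ∀ t ∈ TS p N a x,
      (rX (rel a t x) : ℤ) ∣ F1 (rel a t x) →
      rel a t x ∈ RP p e₁ N ∨ evP p N (rel a t x) ∨ evD p (rel a t x) ∨ evS p N (rel a t x) ∨
        evO p N e₁ (rel a t x))

end H

end

end Pool.Agent.Lib.MP391708.TG
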