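import Pool.Agent.Lib.MP_391708_nt.TG.HSp
import Pool.Agent.Lib.MP_391708_nt.TG.HBas
import Pool.Agent.Lib.MP_391708_nt.TG.Basic

/-!
# T1, group H, HS: the relations of `RP` over `x` are among the `(a, t)`, `t ∈ TS p N a x`
-/

set_option autoImplicit false
set_option linter.constructorNameAsVariable false

namespace Pool.Agent.Lib.MP391708.TG.H

variable [Pool.Agent.Lib.MP391708.TG.Aa] [Pool.Agent.Lib.MP391708.TG.Frm]

open Finset Filter Topology
open Pool.Agent.Lib.MP391708.Eqd (V cross pairs)
open scoped Classical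

noncomputable section

attribute [local irreducible] rbox dbox in
/-- `(D, X)` of a relation in `RP` over `x` with datum `a` -/
theorem ts_of_RP {p : Prm} {N : ℕ} {e₁ : ℝ} {x : VV} {a : Dt} {r : Rl} (hE : 2 * aa ≤ p.E)
    (hr : r ∈ RP p e₁ N) (hra : r = rel a (rD r, rX r) x) :
    (rD r, rX r) ∈ TS p N a x ∧ iX r = 1 := by
  unfold RP at hr
  rw [mem_filter] at hr
  obtain ⟨hbox, hIs, hsmall, hN1, hN2, w1, w2, w3, w4, hsG, hsX, hDG, hDQ, -, hsq, -, -, hsmX, -⟩ := hr
  have eM : rM r = Md x := by rw [hra]; rfl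
  have eG : rG r = dG a := by rw [hra]; rfl
  have eP : rP r = Pd a x := by rw [hra]; rfl
  have eQ : rQ r = Qd a x := by rw [hra]; rfl
  have er : (Md x, dG a, Pd a x, Qd a x, (rD r, rX r)) = r := hra.symm
  have eD2 : D2 (Md x, dG a, Pd a x, Qd a x, (rD r, rX r)) = D2 r := by rw [er]
  obtain ⟨i0, i1, i2, i3, i4, i5, i6, i7, i8, i9⟩ := hIs
  obtain ⟨s1, s2, s3, s4⟩ := hsmall
  have hX0 : Nat.Coprime (rX r) (W0 p) := Nat.Coprime.coprime_mul_left s3
  constructor
  · unfold TS S1
    rw [mem_filter]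
    refine ⟨?_, ?_, ?_, ?_, ?_, ?_, ?_, ?_, hsmX⟩
    · unfold rbox at hbox
      unfold dbox
      simp only [mem_product] at hbox ⊢
      exact hbox.2.2.2.2
    · refine ⟨i4, ?_, s1, ?_, hX0, hsX, ?_, ?_, ?_⟩
      · show rD r ∣ (rX r : ℤ) - dG a
        rw [← eG]; exact i7
      · rw [eD2]; exact s2
      · intro l hl hd
        have hlE : p.E < l := by
          by_contra hcon
          have h1 : l ∣ W0 p := by
            unfold W0
            exact dvd_pow ((hl.dvd_primorial_iff).2 (not_lt.1 hcon))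
              (by have := hl.two_le; have := not_lt.1 hcon; omega)
          have h2 := Nat.dvd_gcd hd h1
          rw [hX0] at h2
          exact hl.one_lt.ne' (Nat.dvd_one.1 h2)
        refine Bs.spl_of_dvd_int hl (Bs.not_dvd_of_lt hE hlE) (M := rP r * rD r - rM r) ?_
        have h1 : (l : ℤ) ∣ F1 r := (Int.natCast_dvd_natCast.2 hd).trans i8
        have h2 : ((rP r : ℤ) * rD r - rM r) ^ 2 + az = rP r * F1 r := by
          have h3 : (rG r : ℤ) * rP r * rQ r = (rM r : ℤ) ^ 2 + az := by
            rw [← vl_cast i0]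
            exact_mod_cast i6
          unfold F1
          linear_combination (-1 : ℤ) * h3
        rw [h2]
        exact h1.mul_left _
      · rw [← eG]; exact i9
      · rw [← eG]; exact hDG
    · rw [← eM, ← eP]; exact w1
    · rw [← eM, ← eP]; exact w2
    · rw [eD2, ← eM, ← eQ]; exact w3
    · rw [eD2, ← eM, ← eQ]; exact w4
    · intro l hl hd hQ
      rw [← eQ] at hQ
      have h1 := hDQ l (prime_of_mem_PP hl) hd hQ
      have h2 := E_lt_of_mem_PP hl
      omega
    · intro l hl hd hM
      rw [← eM] at hM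
      refine hsq l hl ?_
      rw [i6, sq]
      exact ((mul_dvd_mul hM hd).mul_right _).mul_right _
  · unfold iX
    rw [if_pos i8]

end

end Pool.Agent.Lib.MP391708.TG.H
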