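import Pool.Agent.Lib.MP_391708_nt.TG.HSa
import Pool.Agent.Lib.MP_391708_nt.TG.HSt
import Pool.Agent.Lib.MP_391708_nt.TG.HC

/-!
# T1, group H, HS: the generic pairs (`SpecHSg`)
-/

set_option autoImplicit false
set_option linter.constructorNameAsVariable false

namespace Pool.Agent.Lib.MP391708.TG.H

variable [Pool.Agent.Lib.MP391708.TG.Aa] [Pool.Agent.Lib.MP391708.TG.Frm]

open Finset Filter Topology
open Pool.Agent.Lib.MP391708.Eqd (V cross pairs)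
open scoped Classical

noncomputable section

namespace HSG

variable {p : Prm} {N : ℕ}

/-- the pairs `(a, t)` with a nonempty window -/
def AT (p : Prm) (N : ℕ) : Finset (Dt × (ℤ × ℕ)) :=
  ((DA p N) ×ˢ (dbox N)).filter (fun s => okT p N s.1 s.2 ∧ aL s.1 s.2 < bL s.1 s.2)

/-- the term of `(a, t)`, with a factor `k` -/
def tk (p : Prm) (N : ℕ) (y : ℝ) (k : VV → ℝ) (s : Dt × (ℤ × ℕ)) (x : VV) : ℝ :=
  if x ∈ Gam N (aL s.1 s.2) (bL s.1 s.2) then
    HCP.cA p N y 1 s.1 s.2 * (lw p N y ev0 s.1 s.2 x * k x) else 0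

theorem lw_nonneg {y : ℝ} (hy : 0 ≤ y) (Ev : Rl → Prop) (a : Dt) (t : ℤ × ℕ) (x : VV) :
    0 ≤ lw p N y Ev a t x := by
  unfold lw
  refine mul_nonneg (by split_ifs <;> norm_num) ?_
  unfold tilt
  refine prod_nonneg fun l _ => mul_nonneg ?_ ?_
  · split_ifs
    · exact hy
    · norm_num
  · split_ifs
    · exact hy
    · norm_num

theorem tk_nonneg {y : ℝ} (hy : 0 ≤ y) {k : VV → ℝ} (hk : ∀ x, 0 ≤ k x) (s : Dt × (ℤ × ℕ))
    (x : VV) : 0 ≤ tk p N y k s x := by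
  unfold tk
  split_ifs
  · exact mul_nonneg (HCP.cA_nonneg hy zero_le_one _ _) (mul_nonneg (lw_nonneg hy _ _ _ _) (hk x))
  · exact le_rfl

theorem kX_nonneg (a : Dt) (t : ℤ × ℕ) (x : VV) : 0 ≤ HCP.kX p N a t x := by
  unfold HCP.kX
  split_ifs <;> norm_num

theorem dn_nonneg (n : ℕ) : 0 ≤ dn n := by
  unfold dn
  positivity

attribute [local irreducible] Gam dbox S1 TS DA rbox RP

/-- a datum over `x` gives an element of `AT` -/
theorem mem_AT (hH2 : ∀ a ∈ DA p N, ∀ t : ℤ × ℕ, ∀ x ∈ Gam N 1 3, fits p N a x →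
      (t ∈ TS p N a x ↔ okT p N a t ∧ x ∈ Gam N (aL a t) (bL a t)))
    {a : Dt} (ha : a ∈ DA p N) {t : ℤ × ℕ} {x : VV} (hx : x ∈ Gam N 1 3) (hf : fits p N a x)
    (ht : t ∈ TS p N a x) : (a, t) ∈ AT p N ∧ x ∈ Gam N (aL a t) (bL a t) := by
  obtain ⟨h1, h2⟩ := (hH2 a ha t x hx hf).1 ht
  refine ⟨?_, h2⟩
  unfold AT
  refine mem_filter.2 ⟨mem_product.2 ⟨ha, h1.2.1⟩, h1, ?_⟩
  by_contra h
  rw [HCP.gam_empty (not_lt.1 h)] at h2
  exact absurd h2 (notMem_empty x)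

/-- the term is the weight -/
theorem tk_eq {y : ℝ} {a : Dt} (ha : a ∈ DA p N) {t : ℤ × ℕ} {x : VV} (hx : x ∈ Gam N 1 3)
    (hf : fits p N a x) (hw : x ∈ Gam N (aL a t) (bL a t)) (k : VV → ℝ) :
    tk p N y k (a, t) x = wt p N y (rel a t x) *
      ((if (sm p N t.2 : ℤ) ∣ F1 (rel a t x) then 1 else 0) * k x) := by
  have h1 := HCP.wt_eq (p := p) (N := N) y 1 a t x (HCP.om_fits ha hx hf)
  rw [one_pow, one_mul] at h1
  unfold tk
  rw [if_pos hw, h1]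
  unfold lw
  by_cases hs : (sm p N t.2 : ℤ) ∣ F1 (rel a t x)
  · rw [if_pos hs, if_pos ⟨hf, trivial, hs⟩]
    ring
  · rw [if_neg hs, if_neg (fun h => hs h.2.2)]
    ring

/-- `Zh` as a sum over `AT` -/
theorem Zh_eq (hH2 : ∀ a ∈ DA p N, ∀ t : ℤ × ℕ, ∀ x ∈ Gam N 1 3, fits p N a x →
      (t ∈ TS p N a x ↔ okT p N a t ∧ x ∈ Gam N (aL a t) (bL a t)))
    (y : ℝ) {x : VV} (hx : x ∈ Gam N 1 3) :
    Zh p N y ev0 x = ∑ s ∈ AT p N, tk p N y (fun _ => dn (HCP.XR p N s.2)) s x := by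
  have h1 : Zh p N y ev0 x = ∑ a ∈ DA p N, ∑ t ∈ dbox N,
      if fits p N a x ∧ t ∈ TS p N a x then wt p N y (rel a t x) * iH p N (rel a t x) else 0 := by
    unfold Zh
    rw [sum_filter]
    refine sum_congr rfl fun a _ => ?_
    by_cases hf : fits p N a x
    · have hev : (TS p N a x).filter (fun t => ev0 (rel a t x)) = TS p N a x :=
        filter_true_of_mem (fun t _ => trivial)
      rw [if_pos hf, hev, ← sum_subset (HCP.TS_sub (p := p) (N := N) (a := a) (x := x))]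
      · exact sum_congr rfl fun t ht => (if_pos ⟨hf, ht⟩).symm
      · intro t _ ht
        rw [if_neg (fun h => ht h.2)]
    · rw [if_neg hf]
      exact (sum_eq_zero fun t _ => if_neg (fun h => hf h.1)).symm
  rw [h1, ← sum_product', AT, sum_filter]
  refine sum_congr rfl fun s hs => ?_
  have ha : s.1 ∈ DA p N := (mem_product.1 hs).1
  obtain ⟨a, t⟩ := s
  change a ∈ DA p N at ha
  show (if fits p N a x ∧ t ∈ TS p N a x then wt p N y (rel a t x) * iH p N (rel a t x) else 0) = _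
  by_cases hf : fits p N a x
  · by_cases ht : t ∈ TS p N a x
    · obtain ⟨h2, h3⟩ := mem_AT hH2 ha hx hf ht
      unfold AT at h2
      rw [if_pos ⟨hf, ht⟩, if_pos (mem_filter.1 h2).2, tk_eq ha hx hf h3]
      rfl
    · rw [if_neg (fun h => ht h.2)]
      split_ifs with h2
      · unfold tk
        rw [if_neg]
        intro h3
        exact ht ((hH2 a ha t x hx hf).2 ⟨h2.1, h3⟩)
      · rfl
  · rw [if_neg (fun h => hf h.1)]
    split_ifs with h2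
    · unfold tk lw
      split_ifs with h3 h4
      · exact absurd h4.1 hf
      · ring
      · rfl
    · rfl

/-- the generic pairs of relations over `x` -/
theorem gen_le (hE : 2 * aa ≤ p.E) (hH2 : ∀ a ∈ DA p N, ∀ t : ℤ × ℕ, ∀ x ∈ Gam N 1 3, fits p N a x →
      (t ∈ TS p N a x ↔ okT p N a t ∧ x ∈ Gam N (aL a t) (bL a t)))
    (hfac : ∀ a ∈ DA p N, ∀ t : ℤ × ℕ, okT p N a t → ∀ x ∈ Gam N 1 3, fits p N a x →
      iX (rel a t x) = (if (sm p N t.2 : ℤ) ∣ F1 (rel a t x) then 1 else 0) *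
        HCP.kX p N a t x)
    (δ e₁ : ℝ) {x : VV} (hx : x ∈ Gam N 1 3) :
    ∑ r ∈ RP p e₁ N, ∑ r' ∈ RP p e₁ N,
      (if gpr p N r r' then Zf p N δ e₁ x r * Zf p N δ e₁ x r' else 0) ≤
    ∑ s ∈ AT p N, ∑ s' ∈ AT p N,
      (if gp p N (dG s.1) s.2.2 (dG s'.1) s'.2.2 then
        tk p N (1 / 6) (HCP.kX p N s.1 s.2) s x * tk p N (1 / 6) (HCP.kX p N s'.1 s'.2) s' x
        else 0) := by
  set A := (RP p e₁ N).filter (fun r => Zf p N δ e₁ x r ≠ 0) with hA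
  -- the datum of a relation
  have hex : ∀ r ∈ A, ∃ s ∈ AT p N, r = rel s.1 s.2 x ∧
      tk p N (1 / 6) (HCP.kX p N s.1 s.2) s x = Zf p N δ e₁ x r := by
    intro r hr
    rw [hA, mem_filter] at hr
    obtain ⟨hrP, hne⟩ := hr
    unfold Zf at hne ⊢
    split_ifs at hne with h1
    swap
    · exact absurd rfl hne
    rw [if_pos h1]
    obtain ⟨-, -, -, -, a, ha, hf, hra⟩ := h1
    obtain ⟨h2, h3⟩ := ts_of_RP hE hrP hra
    obtain ⟨h4, h5⟩ := mem_AT hH2 ha hx hf h2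
    refine ⟨(a, (rD r, rX r)), h4, hra, ?_⟩
    rw [tk_eq ha hx hf h5, ← hfac a ha _ ((hH2 a ha _ x hx hf).1 h2).1 x hx hf, ← hra, h3, mul_one]
  choose! φ hφ1 hφ2 hφ3 using hex
  have hnn : ∀ s, 0 ≤ tk p N (1 / 6) (HCP.kX p N s.1 s.2) s x := fun s =>
    tk_nonneg (by norm_num) (kX_nonneg _ _) s x
  have hinj : ∀ r ∈ A, ∀ r' ∈ A, φ r = φ r' → r = r' := by
    intro r hr r' hr' h
    rw [hφ2 r hr, hφ2 r' hr', h]
  have h1 : ∑ r ∈ RP p e₁ N, ∑ r' ∈ RP p e₁ N,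
      (if gpr p N r r' then Zf p N δ e₁ x r * Zf p N δ e₁ x r' else 0) =
      ∑ r ∈ A, ∑ r' ∈ A,
      (if gpr p N r r' then Zf p N δ e₁ x r * Zf p N δ e₁ x r' else 0) := by
    symm
    rw [hA]
    refine (sum_subset (filter_subset _ _) fun r hr hr' => ?_).trans
      (sum_congr rfl fun r hr => sum_subset (filter_subset _ _) fun r' hr2 hr2' => ?_)
    · have h0 : Zf p N δ e₁ x r = 0 := by
        by_contra h
        exact hr' (mem_filter.2 ⟨hr, h⟩)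
      refine sum_eq_zero fun r' _ => ?_
      rw [h0, zero_mul, ite_self]
    · have h0 : Zf p N δ e₁ x r' = 0 := by
        by_contra h
        exact hr2' (mem_filter.2 ⟨hr2, h⟩)
      rw [h0, mul_zero, ite_self]
  have h2 : ∑ r ∈ A, ∑ r' ∈ A,
      (if gpr p N r r' then Zf p N δ e₁ x r * Zf p N δ e₁ x r' else 0) =
      ∑ s ∈ A.image φ, ∑ s' ∈ A.image φ,
      (if gp p N (dG s.1) s.2.2 (dG s'.1) s'.2.2 then
        tk p N (1 / 6) (HCP.kX p N s.1 s.2) s x * tk p N (1 / 6) (HCP.kX p N s'.1 s'.2) s' x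
        else 0) := by
    rw [sum_image (fun r hr r' hr' h => hinj r (mem_coe.1 hr) r' (mem_coe.1 hr') h)]
    refine sum_congr rfl fun r hr => ?_
    rw [sum_image (fun r hr r' hr' h => hinj r (mem_coe.1 hr) r' (mem_coe.1 hr') h)]
    refine sum_congr rfl fun r' hr' => ?_
    rw [hφ3 r hr, hφ3 r' hr']
    have e1 : gpr p N r r' = gp p N (dG (φ r).1) (φ r).2.2 (dG (φ r').1) (φ r').2.2 := by
      unfold gpr
      have a1 : rG r = dG (φ r).1 := by
        conv_lhs => rw [hφ2 r hr]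
        rfl
      have a2 : rX r = (φ r).2.2 := by
        conv_lhs => rw [hφ2 r hr]
        rfl
      have a3 : rG r' = dG (φ r').1 := by
        conv_lhs => rw [hφ2 r' hr']
        rfl
      have a4 : rX r' = (φ r').2.2 := by
        conv_lhs => rw [hφ2 r' hr']
        rfl
      rw [a1, a2, a3, a4]
    simp only [e1]
  have hsub : A.image φ ⊆ AT p N := by
    intro s hs
    obtain ⟨r, hr, rfl⟩ := mem_image.1 hs
    exact hφ1 r hr
  rw [h1, h2]
  have hn2 : ∀ s s' : Dt × (ℤ × ℕ), 0 ≤ (if gp p N (dG s.1) s.2.2 (dG s'.1) s'.2.2 then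
        tk p N (1 / 6) (HCP.kX p N s.1 s.2) s x * tk p N (1 / 6) (HCP.kX p N s'.1 s'.2) s' x
        else 0) := by
    intro s s'
    split_ifs
    · exact mul_nonneg (hnn s) (hnn s')
    · exact le_rfl
  calc _ ≤ ∑ s ∈ A.image φ, ∑ s' ∈ AT p N, _ :=
        sum_le_sum fun s _ => sum_le_sum_of_subset_of_nonneg hsub fun s' _ _ => hn2 s s'
    _ ≤ _ := sum_le_sum_of_subset_of_nonneg hsub fun s _ _ => sum_nonneg fun s' _ => hn2 s s'

/-- exchange of the sums for a pair -/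
theorem pair_sum (y : ℝ) (k k' : VV → ℝ) (s s' : Dt × (ℤ × ℕ)) :
    ∑ x ∈ Gam N 1 3, tk p N y k s x * tk p N y k' s' x =
      (HCP.cA p N y 1 s.1 s.2 * HCP.cA p N y 1 s'.1 s'.2) *
        ∑ x ∈ Gam N (max (aL s.1 s.2) (aL s'.1 s'.2)) (min (bL s.1 s.2) (bL s'.1 s'.2)),
          (lw p N y ev0 s.1 s.2 x * lw p N y ev0 s'.1 s'.2 x) * (k x * k' x) := by
  have ha1 : (1 : ℝ) ≤ aL s.1 s.2 := le_max_left _ _
  have hb2 : bL s.1 s.2 ≤ 3 := min_le_left _ _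
  have hα : (1 : ℝ) ≤ max (aL s.1 s.2) (aL s'.1 s'.2) := ha1.trans (le_max_left _ _)
  have hβ : min (bL s.1 s.2) (bL s'.1 s'.2) ≤ 3 := (min_le_left _ _).trans hb2
  have hsub : Gam N (max (aL s.1 s.2) (aL s'.1 s'.2)) (min (bL s.1 s.2) (bL s'.1 s'.2)) ⊆
      Gam N 1 3 := fun x hx => gam_mono hα hβ hx
  rw [mul_sum, ← sum_subset hsub]
  · refine sum_congr rfl fun x hx => ?_
    obtain ⟨h1, h2⟩ := (gam_inter (hsub hx)).1 hx
    unfold tk
    rw [if_pos h1, if_pos h2]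
    ring
  · intro x hx hx'
    rw [gam_inter hx] at hx'
    unfold tk
    by_cases h1 : x ∈ Gam N (aL s.1 s.2) (bL s.1 s.2)
    · have h2 : x ∉ Gam N (aL s'.1 s'.2) (bL s'.1 s'.2) := fun h2 => hx' ⟨h1, h2⟩
      rw [if_neg h2, mul_zero]
    · rw [if_neg h1, zero_mul]

/-- what `gp` gives for the rough parts -/
theorem gp_cop {s s' : Dt × (ℤ × ℕ)} (hs : okT p N s.1 s.2) (hs' : okT p N s'.1 s'.2)
    (hg : gp p N (dG s.1) s.2.2 (dG s'.1) s'.2.2) :
    Nat.Coprime (HCP.XR p N s.2) (HCP.XR p N s'.2) ∧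
      ∀ l : ℕ, l.Prime → l ∣ HCP.XR p N s.2 * HCP.XR p N s'.2 →
        l ≠ du s.1 ∧ l ≠ dv s.1 ∧ l ≠ du s'.1 ∧ l ≠ dv s'.1 := by
  obtain ⟨-, e1, -, R1, -⟩ := HCP.x_facts hs
  obtain ⟨-, e2, -, R2, -⟩ := HCP.x_facts hs'
  have d1 : HCP.XR p N s.2 ∣ s.2.2 := Dvd.intro_left _ e1
  have d2 : HCP.XR p N s'.2 ∣ s'.2.2 := Dvd.intro_left _ e2
  have u1 : du s.1 ∣ dG s.1 := by unfold dG; exact Dvd.dvd.mul_right (Dvd.intro_left _ rfl) _
  have v1 : dv s.1 ∣ dG s.1 := by unfold dG; exact Dvd.intro_left _ rfl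
  have u2 : du s'.1 ∣ dG s'.1 := by unfold dG; exact Dvd.dvd.mul_right (Dvd.intro_left _ rfl) _
  have v2 : dv s'.1 ∣ dG s'.1 := by unfold dG; exact Dvd.intro_left _ rfl
  constructor
  · rw [Nat.coprime_iff_gcd_eq_one]
    by_contra h
    obtain ⟨l, hl, hd⟩ := Nat.exists_prime_and_dvd h
    have h1 := hd.trans (Nat.gcd_dvd_left _ _)
    have h2 := hd.trans (Nat.gcd_dvd_right _ _)
    exact hg l hl (R1.2 l hl h1).1 (Or.inl ⟨h1.trans d1, (h2.trans d2).mul_right _⟩)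
  · intro l hl hd
    rcases hl.dvd_mul.1 hd with h | h
    · have h1 := HCP.XR_prime hs hl h
      refine ⟨h1.2.2.2.1, h1.2.2.2.2, ?_, ?_⟩
      · intro h2
        exact hg l hl (R1.2 l hl h).1 (Or.inl ⟨h.trans d1, (h2 ▸ u2).mul_left _⟩)
      · intro h2
        exact hg l hl (R1.2 l hl h).1 (Or.inl ⟨h.trans d1, (h2 ▸ v2).mul_left _⟩)
    · have h1 := HCP.XR_prime hs' hl h
      refine ⟨?_, ?_, h1.2.2.2.1, h1.2.2.2.2⟩
      · intro h2
        exact hg l hl (R2.2 l hl h).1 (Or.inr ⟨h.trans d2, (h2 ▸ u1).mul_left _⟩)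
      · intro h2
        exact hg l hl (R2.2 l hl h).1 (Or.inr ⟨h.trans d2, (h2 ▸ v1).mul_left _⟩)

theorem XR_le (hb : Bas p N) {s : Dt × (ℤ × ℕ)} (hs : okT p N s.1 s.2)
    (hw : aL s.1 s.2 < bL s.1 s.2) : (HCP.XR p N s.2 : ℝ) ≤ ML p N := by
  refine le_trans ?_ (HCP.win_bound hb hs hw).2
  have h : HCP.XR p N s.2 ≤ s.2.2 := Nat.div_le_self _ _
  exact_mod_cast h

/-- the sum of the coefficients -/
theorem sum_cA (hb : Bas p N) {C y : ℝ} (hC0 : 0 < C)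
    (h1 : Real.exp (S0 p N) ≤ C * Real.log (zz p N))
    (h2 : C ^ 3 * (W0 p : ℝ) ^ 2 / cE ≤ zz p N) (hy : 0 ≤ y) (hy1 : y ≤ 1) :
    ∑ s ∈ AT p N, HCP.cA p N y 1 s.1 s.2 ≤ ML p N ^ 28 := by
  have hzM := (HCP.ML_bound hb).2.2.1
  have hM2 : 2 ≤ ML p N := hb.z2.trans hzM
  calc ∑ s ∈ AT p N, HCP.cA p N y 1 s.1 s.2 ≤ ∑ s ∈ AT p N, ML p N ^ 8 := by
        refine sum_le_sum fun s hs => ?_
        unfold AT at hs
        obtain ⟨-, h4, h5⟩ := mem_filter.1 hs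
        exact HCP.cA_le hb hC0 h1 h2 hy hy1 zero_le_one le_rfl h4 h5
    _ = ((AT p N).card : ℝ) * ML p N ^ 8 := by rw [sum_const, nsmul_eq_mul]
    _ ≤ (((⌈ML p N⌉₊ + 1) ^ 10 : ℕ) : ℝ) * ML p N ^ 8 := by
        refine mul_le_mul_of_nonneg_right ?_ (by positivity)
        exact_mod_cast HCP.card_act hb
    _ ≤ ML p N ^ 20 * ML p N ^ 8 := by
        refine mul_le_mul_of_nonneg_right ?_ (by positivity)
        push_cast
        have h6 := Nat.ceil_lt_add_one (show (0 : ℝ) ≤ ML p N by linarith)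
        have h7 : (⌈ML p N⌉₊ : ℝ) + 1 ≤ ML p N ^ 2 := by nlinarith
        calc ((⌈ML p N⌉₊ : ℝ) + 1) ^ 10 ≤ (ML p N ^ 2) ^ 10 :=
              pow_le_pow_left₀ (by positivity) h7 10
          _ = _ := by ring
    _ = ML p N ^ 28 := by ring

end HSG

open HSG

attribute [local irreducible] Gam dbox S1 TS DA rbox RP

/-- **HSg** -/
theorem specHSg (h1 : SpecH1a) (h2 : SpecH2) (h3 : SpecH3) (hC : SpecCMP) : SpecHSg := by
  obtain ⟨c, hc, hC⟩ := pair_cmp h3 hC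
  refine ⟨c / 2, by linarith, fun ε δ e₁ hε he₁ => ?_⟩
  have hG := (((((good_bas.and h1).and h2).and (hC (1 / 6) ε (by norm_num) (by norm_num) hε)).and
    Bs.good_aa).and
    (T4.Good.zeta_pos.and (T4.Good.zeta_le
      (fun E K r k => c / (112 * (1000 * (K + 1) * (r + 1) ^ 2 * (k + 1))))
      (fun E K r k => by positivity))))
  refine hG.mono fun p hp => ?_
  obtain ⟨⟨⟨⟨⟨hp1, hp2⟩, hp3⟩, hp4⟩, hE⟩, hζ, hζ2⟩ := hp
  obtain ⟨C, hC0, hexp⟩ := A3.exp_S0_le p hζ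
  filter_upwards [hp1, hp2, hp3, hp4, hexp,
    (A3.tendsto_zz hζ).eventually_ge_atTop (C ^ 3 * (W0 p : ℝ) ^ 2 / cE)] with N hb hN1 hN2 hN4
    hS hz
  have hN : (1 : ℝ) ≤ N := by exact_mod_cast hb.N1
  have he : (0 : ℝ) ≤ (N : ℝ) ^ (1 - c) := by positivity
  have hM0 : 0 < ML p N := lt_of_lt_of_le hb.z0 (HCP.ML_bound hb).2.2.1
  -- the size of the error
  have herr : ML p N ^ 28 * ML p N ^ 28 * (N : ℝ) ^ (1 - c) ≤ (N : ℝ) ^ (1 - c / 2) := by
    have e1 : ML p N ^ 28 * ML p N ^ 28 = (N : ℝ) ^ (p.ζ *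
        ((1000 * (p.K + 1) * (p.r + 1) ^ 2 * (p.k + 1) * 56 : ℕ) : ℝ)) := by
      rw [← pow_add]
      unfold ML zz
      rw [← pow_mul, ← Real.rpow_natCast, ← Real.rpow_mul (by linarith)]
    rw [e1, ← Real.rpow_add (by linarith)]
    refine Real.rpow_le_rpow_of_exponent_le hN ?_
    rw [le_div_iff₀ (by positivity)] at hζ2
    push_cast
    nlinarith
  have hfac : ∀ a ∈ DA p N, ∀ t : ℤ × ℕ, okT p N a t → ∀ x ∈ Gam N 1 3, fits p N a x →
      iX (rel a t x) = (if (sm p N t.2 : ℤ) ∣ F1 (rel a t x) then 1 else 0) *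
        HCP.kX p N a t x :=
    fun a ha t ok x hx hf => HCP.iX_fac ok ((hN1 x hx a ha hf).2.2.2.2.2.2.2.2.2.2.2 t).1
  have hcA : ∀ s : Dt × (ℤ × ℕ), 0 ≤ HCP.cA p N (1 / 6) 1 s.1 s.2 := fun s =>
    HCP.cA_nonneg (by norm_num) zero_le_one _ _
  set tX : Dt × (ℤ × ℕ) → VV → ℝ := fun s x => tk p N (1 / 6) (HCP.kX p N s.1 s.2) s x with htX
  set tH : Dt × (ℤ × ℕ) → VV → ℝ := fun s x =>
    tk p N (1 / 6) (fun _ => dn (HCP.XR p N s.2)) s x with htH
  set g : Dt × (ℤ × ℕ) → Dt × (ℤ × ℕ) → Prop := fun s s' =>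
    gp p N (dG s.1) s.2.2 (dG s'.1) s'.2.2 with hg
  have htH0 : ∀ s x, 0 ≤ tH s x := fun s x => tk_nonneg (by norm_num) (fun _ => dn_nonneg _) s x
  have hpair : ∀ s ∈ AT p N, ∀ s' ∈ AT p N, g s s' →
      ∑ x ∈ Gam N 1 3, tX s x * tX s' x ≤ (1 + ε) * ∑ x ∈ Gam N 1 3, tH s x * tH s' x +
        (HCP.cA p N (1 / 6) 1 s.1 s.2 * HCP.cA p N (1 / 6) 1 s'.1 s'.2) * (N : ℝ) ^ (1 - c) := by
    intro s hs s' hs' hgg
    unfold AT at hs hs'
    obtain ⟨-, ok, hw⟩ := mem_filter.1 hs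
    obtain ⟨-, ok', hw'⟩ := mem_filter.1 hs'
    obtain ⟨k1, k2⟩ := gp_cop ok ok' hgg
    have h5 := hN4 s.1 s'.1 s.2 s'.2 (HCP.XR p N s.2) (HCP.XR p N s'.2)
      (m2 s.1 * s.2.1) (-((g1 s.1 * m1 s.1 * du s.1 : ℕ) : ℤ))
      (m2 s'.1 * s'.2.1) (-((g1 s'.1 * m1 s'.1 * du s'.1 : ℕ) : ℤ)) ok ok'
      (HCP.x_facts ok).2.2.2.1 (HCP.x_facts ok').2.2.2.1 (XR_le hb ok hw) (XR_le hb ok' hw')
      k2 k1 (HCP.XR_prim ok) (HCP.XR_prim ok')
    rw [htX, htH]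
    simp only
    rw [pair_sum, pair_sum]
    have h6 := mul_le_mul_of_nonneg_left h5 (mul_nonneg (hcA s) (hcA s'))
    refine h6.trans (le_of_eq ?_)
    rw [mul_add, ← sum_mul]
    ring
  have hsum : ∑ x ∈ Gam N 1 3, ∑ s ∈ AT p N, ∑ s' ∈ AT p N,
      (if g s s' then tX s x * tX s' x else 0) ≤
      (1 + ε) * ∑ x ∈ Gam N 1 3, (∑ s ∈ AT p N, tH s x) ^ 2 +
        (∑ s ∈ AT p N, HCP.cA p N (1 / 6) 1 s.1 s.2) *
          (∑ s ∈ AT p N, HCP.cA p N (1 / 6) 1 s.1 s.2) * (N : ℝ) ^ (1 - c) := by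
    calc ∑ x ∈ Gam N 1 3, ∑ s ∈ AT p N, ∑ s' ∈ AT p N, (if g s s' then tX s x * tX s' x else 0)
        = ∑ s ∈ AT p N, ∑ s' ∈ AT p N,
          (if g s s' then ∑ x ∈ Gam N 1 3, tX s x * tX s' x else 0) := by
          rw [sum_comm]
          refine sum_congr rfl fun s _ => ?_
          rw [sum_comm]
          refine sum_congr rfl fun s' _ => ?_
          by_cases h : g s s'
          · simp only [if_pos h]
          · simp only [if_neg h, sum_const_zero]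
      _ ≤ ∑ s ∈ AT p N, ∑ s' ∈ AT p N, ((1 + ε) * ∑ x ∈ Gam N 1 3, tH s x * tH s' x +
        (HCP.cA p N (1 / 6) 1 s.1 s.2 * HCP.cA p N (1 / 6) 1 s'.1 s'.2) *
          (N : ℝ) ^ (1 - c)) := by
          refine sum_le_sum fun s hs => sum_le_sum fun s' hs' => ?_
          split_ifs with h
          · exact hpair s hs s' hs' h
          · refine add_nonneg (mul_nonneg (by linarith) (sum_nonneg fun x _ =>
              mul_nonneg (htH0 s x) (htH0 s' x))) (mul_nonneg (mul_nonneg (hcA s) (hcA s')) he)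
      _ = _ := by
          simp only [sum_add_distrib]
          congr 1
          · rw [mul_sum]
            have e1 : ∀ x, (1 + ε) * (∑ s ∈ AT p N, tH s x) ^ 2 =
                ∑ s ∈ AT p N, ∑ s' ∈ AT p N, (1 + ε) * (tH s x * tH s' x) := by
              intro x
              rw [sq, sum_mul_sum, mul_sum]
              exact sum_congr rfl fun s _ => mul_sum _ _ _
            simp only [e1]
            symm
            rw [sum_comm]
            refine sum_congr rfl fun s _ => ?_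
            rw [sum_comm]
            refine sum_congr rfl fun s' _ => ?_
            rw [mul_sum]
          · rw [sum_mul_sum, sum_mul]
            refine sum_congr rfl fun s _ => ?_
            rw [sum_mul]
  have hZh : ∀ x ∈ Gam N 1 3, ∑ s ∈ AT p N, tH s x = Zh p N (1 / 6) ev0 x := fun x hx =>
    (Zh_eq hN2 (1 / 6) hx).symm
  calc _ ≤ ∑ x ∈ Gam N 1 3, ∑ s ∈ AT p N, ∑ s' ∈ AT p N,
        (if g s s' then tX s x * tX s' x else 0) :=
        sum_le_sum fun x hx => gen_le hE hN2 hfac δ e₁ hx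
    _ ≤ _ := hsum
    _ ≤ _ := by
        refine add_le_add (le_of_eq ?_) ?_
        · congr 1
          exact sum_congr rfl fun x hx => by rw [hZh x hx]
        · have h8 := sum_cA hb hC0 hS.1 hz (y := 1 / 6) (by norm_num) (by norm_num)
          have h9 : 0 ≤ ∑ s ∈ AT p N, HCP.cA p N (1 / 6) 1 s.1 s.2 :=
            sum_nonneg fun s _ => hcA s
          refine le_trans ?_ herr
          refine mul_le_mul_of_nonneg_right ?_ he
          exact mul_le_mul h8 h8 h9 (by positivity)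

end

end Pool.Agent.Lib.MP391708.TG.H
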