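import Pool.Agent.Lib.MP_391708_nt.TG.ISpecB
import Pool.Agent.Lib.MP_391708_nt.T1.GoodL

/-!
# Group I, module I9D: the sum over the data for a fixed unimodular pair
-/

set_option autoImplicit false
set_option linter.constructorNameAsVariable false
set_option linter.unusedSectionVars false

namespace Pool.Agent.Lib.MP391708.TG.I

variable [Pool.Agent.Lib.MP391708.TG.Aa] [Pool.Agent.Lib.MP391708.TG.Frm]

open Finset Filter Topology
open Pool.Agent.Lib.MP391708.Eqd (V cross pairs)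
open scoped Classical

attribute [local irreducible] RG S2 DS CS Gam dtbox dbox rbox

namespace I9D

theorem dn_nonneg (n : ℕ) : 0 ≤ dn n := by
  unfold dn
  positivity

theorem rp_pos (D : ℕ) : 0 < rp D := TA.rp_pos az D

theorem tilt_nonneg (p : Prm) (N : ℕ) {bT bR : ℝ} (hT : 0 ≤ bT) (hR : 0 ≤ bR) (r : Rl) :
    0 ≤ tilt p N bT bR r := by
  unfold tilt
  refine prod_nonneg fun l _ => mul_nonneg ?_ ?_ <;> split_ifs <;> norm_num <;> assumption

theorem vh_nonneg (p : Prm) (N : ℕ) {al bT bR : ℝ} (h1 : 0 ≤ al) (h2 : 0 ≤ bT) (h3 : 0 ≤ bR)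
    (r : Rl) : 0 ≤ vh p N al bT bR r := by
  unfold vh
  have h7 := rp_pos (rD r).natAbs
  have h8 := tilt_nonneg p N h2 h3 r
  have h9 := dn_nonneg (rX r / sm p N (rX r))
  split_ifs <;> positivity

theorem PI_nonneg (p : Prm) (N : ℕ) {C : ℝ} (hC : 0 < C) (M : ℕ) : 0 ≤ PI p N C M := by
  unfold PI
  exact prod_nonneg fun l _ => by positivity

theorem W0_ge_one (p : Prm) : (1 : ℝ) ≤ (W0 p : ℝ) := by
  unfold W0
  have h : 1 ≤ primorial p.E ^ p.E := Nat.one_le_iff_ne_zero.2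
    (pow_ne_zero _ (primorial_pos p.E).ne')
  exact_mod_cast h

/-- if the local weight does not vanish then `QQ` holds -/
theorem QQ_of_PH {p : Prm} {N : ℕ} {c : Wts} {t : Dt} {x : VV} (h : PH p N c t x ≠ 0) :
    QQ p N t x := by
  unfold PH at h
  rw [prod_ne_zero_iff] at h
  intro l hl
  have h1 := h l hl
  unfold ph at h1
  by_cases hd : (l : ℤ) ∣ dd x
  · rw [if_pos hd] at h1
    exact absurd rfl h1
  · refine ⟨hd, fun hD => ?_⟩
    by_contra hcon
    rw [not_or, not_not] at hcon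
    obtain ⟨h2, h3⟩ := hcon
    have h4 : ¬ l ∣ tK t := fun h5 => h2 (dvd_mul_of_dvd_left h5 _)
    have h5 : ¬ l ∣ tG t := fun h5 => h2 (dvd_mul_of_dvd_right h5 _)
    rw [if_neg hd, if_neg h4, if_neg h5, if_pos h3, if_pos hD, zero_mul] at h1
    exact absurd rfl h1

/-- the colour weight of a pair `(κ, G)` -/
noncomputable def col (p : Prm) (N : ℕ) (c : Wts) (x : VV) (s : ℕ × ℕ) : ℝ :=
  c.cP ^ om p N s.1 * c.cG ^ om p N s.2 * c.cQ ^ om p N ((ee x).toNat / (s.1 * s.2))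

theorem col_nonneg (p : Prm) (N : ℕ) {c : Wts} (hc : c.ok) (x : VV) (s : ℕ × ℕ) :
    0 ≤ col p N c x s := by
  obtain ⟨h1, h2, h3, -⟩ := hc
  unfold col
  positivity

theorem exp_kpU (p : Prm) (N M : ℕ) (τ : ℝ) {C : ℝ} (hC : 0 < C) :
    Real.exp (τ * S0 p N) * kpU p N M τ C ≤ C * PI p N C M := by
  have h1 : Real.exp (τ * S0 p N) * kpU p N M τ C = 1 / (W0 p : ℝ) ^ 2 * (C * PI p N C M) := by
    unfold kpU kp PI
    rw [Real.exp_neg]
    have := Real.exp_pos (τ * S0 p N)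
    field_simp
  rw [h1]
  have h2 : 1 / (W0 p : ℝ) ^ 2 ≤ 1 := by
    rw [div_le_one (by have := W0_ge_one p; positivity)]
    exact one_le_pow₀ (W0_ge_one p)
  have h3 : 0 ≤ C * PI p N C M := mul_nonneg hC.le (PI_nonneg p N hC M)
  nlinarith

theorem sum_data {p : Prm} {N : ℕ} {c : Wts} (hc : c.ok) {x : VV} {C₁ : ℝ} (hC₁ : 0 < C₁)
    (hphu : ∀ M G P Q : ℕ, Adm p N M G P Q →
      ∑ t ∈ S2 p N M G P Q, vh p N c.al c.bT c.bR (M, G, P, Q, t) ≤ kpU p N M c.tau C₁)
    (h5 : ∀ t ∈ DS p N, CC p N t x → QQ p N t x → win N t x →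
      Adm p N (mm x).toNat (tG t) (rP (rel x t)) (rQ (rel x t)) ∧
      (tD t, tX t) ∈ S2 p N (mm x).toNat (tG t) (rP (rel x t)) (rQ (rel x t)) ∧
      (tK t, tG t) ∈ CS p N x ∧
      ∀ c : Wts, AA p N c t * dn (XR p N t) * PH p N c t x =
        Real.exp (c.tau * S0 p N) * (c.cP ^ om p N (tK t) * c.cG ^ om p N (tG t) *
          c.cQ ^ om p N (rQ (rel x t))) * vh p N c.al c.bT c.bR (rel x t)) :
    ∑ t ∈ DS p N, hh p N c t x ≤ C₁ * PI p N C₁ (mm x).toNat * ∑ s ∈ CS p N x, col p N c x s := by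
  obtain ⟨T, hT⟩ : ∃ T : Finset Dt, T = (DS p N).filter (fun t => win N t x ∧ CC p N t x ∧
    QQ p N t x) := ⟨_, rfl⟩
  have hvh : ∀ r, 0 ≤ vh p N c.al c.bT c.bR r := by
    obtain ⟨-, -, -, -, h1, -, h2, -, h3, -⟩ := hc
    exact fun r => vh_nonneg p N h1.le h2.le h3.le r
  have hTm : ∀ t, t ∈ T → t ∈ DS p N ∧ win N t x ∧ CC p N t x ∧ QQ p N t x := by
    intro t ht
    rw [hT, mem_filter] at ht
    exact ht
  have hsub : T ⊆ DS p N := by
    rw [hT]
    exact filter_subset _ _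
  have h1 : ∑ t ∈ DS p N, hh p N c t x = ∑ t ∈ T, hh p N c t x := by
    symm
    refine sum_subset hsub fun t ht hn => ?_
    by_contra hne
    apply hn
    rw [hT, mem_filter]
    unfold hh at hne
    by_cases hw : win N t x
    · rw [if_pos hw] at hne
      unfold ww at hne
      by_cases hcc : CC p N t x
      · rw [if_pos hcc] at hne
        exact ⟨ht, hw, hcc, QQ_of_PH (right_ne_zero_of_mul hne)⟩
      · rw [if_neg hcc, mul_zero] at hne
        exact absurd rfl hne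
    · rw [if_neg hw] at hne
      exact absurd rfl hne
  have h2 : ∀ t ∈ T, hh p N c t x = Real.exp (c.tau * S0 p N) *
      (col p N c x (tK t, tG t) * vh p N c.al c.bT c.bR (rel x t)) := by
    intro t ht
    obtain ⟨ht1, ht2, ht3, ht4⟩ := hTm t ht
    have h := (h5 t ht1 ht3 ht4 ht2).2.2.2 c
    unfold hh ww
    rw [if_pos ht2, if_pos ht3, h]
    unfold col rel rQ
    ring
  rw [h1, sum_congr rfl h2]
  have hmaps : ∀ t ∈ T, (tK t, tG t) ∈ CS p N x := by
    intro t ht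
    obtain ⟨ht1, ht2, ht3, ht4⟩ := hTm t ht
    exact (h5 t ht1 ht3 ht4 ht2).2.2.1
  rw [← sum_fiberwise_of_maps_to hmaps, mul_sum]
  refine sum_le_sum fun s hs => ?_
  have hcol := col_nonneg p N hc x s
  have hPI : 0 ≤ C₁ * PI p N C₁ (mm x).toNat := mul_nonneg hC₁.le (PI_nonneg p N hC₁ _)
  have h3 : ∑ t ∈ T.filter (fun t => (tK t, tG t) = s), Real.exp (c.tau * S0 p N) *
      (col p N c x (tK t, tG t) * vh p N c.al c.bT c.bR (rel x t)) =
      col p N c x s * (Real.exp (c.tau * S0 p N) *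
        ∑ t ∈ T.filter (fun t => (tK t, tG t) = s), vh p N c.al c.bT c.bR (rel x t)) := by
    rw [mul_sum, mul_sum]
    refine sum_congr rfl fun t ht => ?_
    rw [mem_filter] at ht
    rw [ht.2]
    ring
  rw [h3, mul_comm (C₁ * PI p N C₁ (mm x).toNat)]
  refine mul_le_mul_of_nonneg_left ?_ hcol
  rcases (T.filter (fun t => (tK t, tG t) = s)).eq_empty_or_nonempty with he | ⟨t₀, ht₀⟩
  · rw [he, sum_empty, mul_zero]
    exact hPI
  rw [mem_filter] at ht₀
  obtain ⟨ht₀, hs₀⟩ := ht₀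
  obtain ⟨ht1, ht2, ht3, ht4⟩ := hTm t₀ ht₀
  have hadm := (h5 t₀ ht1 ht3 ht4 ht2).1
  have hrel : ∀ t, (tK t, tG t) = s → rel x t = ((mm x).toNat, s.2, s.1 * (dd x).toNat,
      (ee x).toNat / (s.1 * s.2), (tD t, tX t)) := by
    intro t ht
    rw [← ht]
    rfl
  have hP : ∀ t, (tK t, tG t) = s → rP (rel x t) = s.1 * (dd x).toNat := by
    intro t ht
    rw [hrel t ht]
    rfl
  have hQ : ∀ t, (tK t, tG t) = s → rQ (rel x t) = (ee x).toNat / (s.1 * s.2) := by
    intro t ht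
    rw [hrel t ht]
    rfl
  have hG : ∀ t, (tK t, tG t) = s → tG t = s.2 := by
    intro t ht
    rw [← ht]
  rw [hP t₀ hs₀, hQ t₀ hs₀, hG t₀ hs₀] at hadm
  refine le_trans ?_ (exp_kpU p N (mm x).toNat c.tau hC₁)
  refine mul_le_mul_of_nonneg_left ?_ (Real.exp_pos _).le
  refine le_trans ?_ (hphu _ _ _ _ hadm)
  have hinj : Set.InjOn (fun t : Dt => (tD t, tX t))
      (T.filter (fun t => (tK t, tG t) = s) : Set Dt) := by
    intro t ht t' ht' htt
    rw [Finset.mem_coe, mem_filter] at ht ht'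
    obtain ⟨G, κ, D, X⟩ := t
    obtain ⟨G', κ', D', X'⟩ := t'
    have e1 := ht.2
    have e2 := ht'.2
    rw [← e2] at e1
    simp only [tK, tG, tD, tX, Prod.mk.injEq] at e1 htt
    obtain ⟨ea, eb⟩ := e1
    obtain ⟨ec, ed⟩ := htt
    subst ea eb ec ed
    rfl
  have h4 : ∑ t ∈ T.filter (fun t => (tK t, tG t) = s), vh p N c.al c.bT c.bR (rel x t) =
      ∑ u ∈ (T.filter (fun t => (tK t, tG t) = s)).image (fun t : Dt => (tD t, tX t)),
        vh p N c.al c.bT c.bR ((mm x).toNat, s.2, s.1 * (dd x).toNat,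
          (ee x).toNat / (s.1 * s.2), u) := by
    rw [sum_image hinj]
    refine sum_congr rfl fun t ht => ?_
    rw [mem_filter] at ht
    rw [hrel t ht.2]
  rw [h4]
  refine sum_le_sum_of_subset_of_nonneg ?_ fun u _ _ => hvh _
  intro u hu
  rw [mem_image] at hu
  obtain ⟨t, ht, rfl⟩ := hu
  rw [mem_filter] at ht
  obtain ⟨ht, hts⟩ := ht
  obtain ⟨ht1, ht2, ht3, ht4⟩ := hTm t ht
  have h6 := (h5 t ht1 ht3 ht4 ht2).2.1
  rw [hP t hts, hQ t hts, hG t hts] at h6
  exact h6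

end I9D

open I9D in
theorem specI9D : SpecI9D := by
  intro hPHU hI2 hI5 hI7 c hc
  obtain ⟨hc1, hc2, hc3, hc4, hal0, hal1, hbT0, hbT1, hbR0, hbR1⟩ := hc
  have hc : c.ok := ⟨hc1, hc2, hc3, hc4, hal0, hal1, hbT0, hbT1, hbR0, hbR1⟩
  obtain ⟨C₁, hC₁, hgood⟩ := hPHU c.al c.bT c.bR hal0 hal1 hbT0 hbT1 hbR0 hbR1
  refine ⟨C₁, hC₁, ?_⟩
  refine ((hgood.and hI2).and hI5).mono ?_
  rintro p ⟨⟨h1, C₂, h2⟩, h3⟩
  refine ⟨C₁ * (C₂ + 1), by positivity, ?_⟩
  filter_upwards [h1, h2, h3, eventually_ge_atTop 1] with N h1 h2 h3 hN1 x hx hM1 hM2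
  have hPI : 0 ≤ PI p N C₁ (mm x).toNat := PI_nonneg p N hC₁ _
  split_ifs with hg
  · obtain ⟨hg1, hg2⟩ := hg
    have hpos : 0 < mm x := by omega
    have hMle : (mm x).toNat ≤ 8 * N := by omega
    have h4 := sum_data hc (x := x) hC₁ (fun M G P Q hA => (h1 M G P Q hA).1)
      (fun t ht hcc hqq hw => h3 t ht x hx hM1 hM2 hcc hqq hw)
    refine h4.trans ?_
    have h6 := h2 _ hMle hg2
    have h5 := hI7 p N c x hc hx hpos hg1
    have h7 : ∑ s ∈ CS p N x, col p N c x s ≤ (C₂ : ℝ) + 1 := by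
      refine (h5.trans ?_)
      have : (((vl (mm x).toNat) / sm p N (vl (mm x).toNat)).divisors.card : ℝ) ≤
        (C₂ : ℝ) := by exact_mod_cast h6
      linarith
    calc C₁ * PI p N C₁ (mm x).toNat * ∑ s ∈ CS p N x, col p N c x s
        ≤ C₁ * PI p N C₁ (mm x).toNat * ((C₂ : ℝ) + 1) :=
          mul_le_mul_of_nonneg_left h7 (mul_nonneg hC₁.le hPI)
      _ = C₁ * ((C₂ : ℝ) + 1) * PI p N C₁ (mm x).toNat := by ring
  · have h4 : ∀ t ∈ DS p N, hh p N c t x = 0 := by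
      intro t _
      unfold hh
      split_ifs with hw
      · unfold ww
        split_ifs with hcc
        · by_cases hd : ∀ l ∈ PP p N, ¬ (l : ℤ) ∣ dd x
          · exfalso
            apply hg
            refine ⟨hd, fun l hl hlE hdiv => ?_⟩
            apply hcc.2.2.2 l hl hlE
            have h5 : (((mm x).toNat : ℕ) : ℤ) = mm x := Int.toNat_of_nonneg (by omega)
            rw [← h5]
            exact_mod_cast natCast_dvd_vl.1 hdiv
          · push Not at hd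
            obtain ⟨l, hl, hld⟩ := hd
            have : PH p N c t x = 0 := by
              unfold PH
              refine prod_eq_zero hl ?_
              unfold ph
              rw [if_pos hld]
            rw [this, mul_zero]
        · rw [mul_zero]
      · rfl
    rw [sum_congr rfl h4, sum_const_zero]

end Pool.Agent.Lib.MP391708.TG.I
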