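import Pool.Agent.Lib.MP_391708_nt.TG.ISpecB
import Pool.Agent.Lib.MP_391708_nt.TG.ISm
import Pool.Agent.Lib.MP_391708_nt.TG.Basic
import Pool.Agent.Lib.MP_391708_nt.T1.GoodL

/-!
# T1, group I, module I9E: the sum over the unimodular pairs
-/

set_option autoImplicit false

namespace Pool.Agent.Lib.MP391708.TG.I

variable [Pool.Agent.Lib.MP391708.TG.Aa] [Pool.Agent.Lib.MP391708.TG.Frm]

open Finset Filter Topology
open Pool.Agent.Lib.MP391708.Eqd (V cross pairs)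
open scoped Classical

attribute [local irreducible] RG S2 DS CS dtbox dbox rbox

noncomputable section

/-- at most `C0 C` pairs over `M` with `dd x` PP-free -/
theorem I9E.card_le {C0 : ℕ} (hC0 : ∀ (S : Finset VV) (M d : ℤ), 0 < d →
    (∀ x ∈ S, cross x.1 x.2 = -1 ∧ Cn x.1 ∧ mm x = M ∧ dd x = d) → S.card ≤ C0)
    {p : Prm} {N : ℕ} {S : Finset VV} (M : ℕ)
    (hS : ∀ x ∈ S, TG.CC x ∧ mm x = M ∧ ∀ l ∈ PP p N, ¬ (l : ℤ) ∣ dd x) :
    S.card ≤ C0 * ((vl M) / sm p N (vl M)).divisors.card := by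
  have hM0 : vl M ≠ 0 := (Bs.vl_pos_all M).ne'
  have hd0 : (vl M) / sm p N (vl M) ≠ 0 := by
    have h1 := Nat.le_of_dvd (Nat.pos_of_ne_zero hM0) (sm_dvd (p := p) (N := N) hM0)
    exact (Nat.div_pos h1 (sm_pos _)).ne'
  have hsub : S ⊆ ((vl M) / sm p N (vl M)).divisors.biUnion
      (fun d => S.filter (fun x => dd x = (d : ℤ))) := by
    intro x hx
    obtain ⟨h1, h2, h3⟩ := hS x hx
    have h4 := Bs.dd_mul_ee h1
    have h5 := h1.2.2.1
    have h6 : ((dd x).toNat : ℤ) = dd x := Int.toNat_of_nonneg h5.le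
    have h7 : (dd x).toNat ∣ vl M := by
      have h8 : dd x ∣ (M : ℤ) ^ 2 + az := ⟨ee x, by rw [h4, h2]⟩
      rw [← h6] at h8
      exact natCast_dvd_vl.2 h8
    refine mem_biUnion.2 ⟨(dd x).toNat, ?_, ?_⟩
    · refine Nat.mem_divisors.2 ⟨dvd_div_sm hM0 h7 fun l hl hd => h3 l hl ?_, hd0⟩
      rw [← h6]
      exact_mod_cast hd
    · rw [mem_filter]
      exact ⟨hx, h6.symm⟩
  refine (card_le_card hsub).trans (card_biUnion_le.trans ?_)
  rw [mul_comm, ← smul_eq_mul]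
  refine sum_le_card_nsmul _ _ _ fun d hd => ?_
  have hd1 : 0 < d := Nat.pos_of_mem_divisors hd
  refine hC0 _ (M : ℤ) (d : ℤ) (by exact_mod_cast hd1) fun x hx => ?_
  obtain ⟨h1, h2⟩ := mem_filter.1 hx
  exact ⟨(hS x h1).1.1, (hS x h1).1.2.1, (hS x h1).2.1, h2⟩

theorem specI9E : SpecI9E := by
  intro hAUT hI2 hI3 C₁ hC₁
  obtain ⟨C0, hC0p, hC0⟩ := hAUT
  refine (hI2.and (hI3 C₁ hC₁)).mono fun p hp => ?_
  obtain ⟨⟨C2, h2⟩, C3, hC3, h3⟩ := hp
  refine ⟨C0 * C2 * C3 + 1, by positivity, ?_⟩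
  filter_upwards [h2, h3] with N h2 h3
  intro N₁ hN₁
  have hN1 : N₁ ≤ 4 * N := by
    unfold pcs at hN₁
    simp only [mem_insert, mem_singleton] at hN₁
    omega
  rw [← sum_filter]
  have hmap : ∀ x ∈ (Gam N₁ 0 20).filter (fun x => gx p N x),
      (mm x).toNat ∈ range (8 * N + 1) := by
    intro x hx
    rw [mem_filter, Bs.mem_Gam] at hx
    rw [mem_range]
    have h1 := hx.1.2.2.1
    omega
  rw [← sum_fiberwise_of_maps_to hmap]
  have hM : ∀ M ∈ range (8 * N + 1), ∑ x ∈ ((Gam N₁ 0 20).filter (fun x => gx p N x)).filter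
      (fun x => (mm x).toNat = M), PI p N C₁ (mm x).toNat ^ 2 ≤
      C0 * C2 * (∏ l ∈ (PP p N).filter (fun l => l ∣ vl M), (1 + C₁ / (l : ℝ))) ^ 2 := by
    intro M hM
    obtain ⟨S, hSdef⟩ : ∃ S, S = ((Gam N₁ 0 20).filter (fun x => gx p N x)).filter
      (fun x => (mm x).toNat = M) := ⟨_, rfl⟩
    rw [← hSdef]
    have h1 : ∑ x ∈ S, PI p N C₁ (mm x).toNat ^ 2 = (S.card : ℝ) * PI p N C₁ M ^ 2 := by
      rw [← nsmul_eq_mul, ← sum_const]
      refine sum_congr rfl fun x hx => ?_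
      rw [hSdef, mem_filter] at hx
      rw [hx.2]
    rw [h1]
    have h0 : (0 : ℝ) ≤ PI p N C₁ M ^ 2 := sq_nonneg _
    have hcard : (S.card : ℝ) ≤ C0 * C2 := by
      rcases S.eq_empty_or_nonempty with he | ⟨x₀, hx₀⟩
      · rw [he, card_empty, Nat.cast_zero]
        positivity
      · have h4 : ∀ x ∈ S, TG.CC x ∧ mm x = M ∧ gx p N x := by
          intro x hx
          rw [hSdef, mem_filter, mem_filter, Bs.mem_Gam] at hx
          refine ⟨hx.1.1.1, ?_, hx.1.2⟩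
          have h5 := hx.1.1.2.1
          have h6 := hx.2
          omega
        have h5 := I9E.card_le hC0 (p := p) (N := N) M fun x hx =>
          ⟨(h4 x hx).1, (h4 x hx).2.1, (h4 x hx).2.2.1⟩
        have h6 := (h4 x₀ hx₀).2.2.2
        rw [(h4 x₀ hx₀).2.1, Int.toNat_natCast] at h6
        have h7 := h2 M (by
          have := mem_range.1 hM
          omega) h6
        have h8 : S.card ≤ C0 * C2 := h5.trans (Nat.mul_le_mul_left C0 h7)
        exact_mod_cast h8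
    exact mul_le_mul_of_nonneg_right hcard h0
  refine (sum_le_sum hM).trans ?_
  rw [← mul_sum]
  have h4 : (C0 * C2 : ℝ) * (∑ M ∈ range (8 * N + 1),
      (∏ l ∈ (PP p N).filter (fun l => l ∣ vl M), (1 + C₁ / (l : ℝ))) ^ 2) ≤
      C0 * C2 * (C3 * N) := mul_le_mul_of_nonneg_left h3 (by positivity)
  have h5 : (0 : ℝ) ≤ N := Nat.cast_nonneg N
  nlinarith

end

end Pool.Agent.Lib.MP391708.TG.I
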