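import Pool.Agent.Lib.MP_391708_nt.TG.I9A
import Pool.Agent.Lib.MP_391708_nt.TG.I9D
import Pool.Agent.Lib.MP_391708_nt.TG.I9E

/-!
# Group I (T1b): assembly of SpecIG and SpecBB over the forms
-/

set_option autoImplicit false
set_option linter.constructorNameAsVariable false
set_option linter.unusedSectionVars false

namespace Pool.Agent.Lib.MP391708.TG.I

variable [Pool.Agent.Lib.MP391708.TG.Aa]

open Finset Filter Topology
open Pool.Agent.Lib.MP391708.Eqd (V cross pairs)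
open scoped Classical

attribute [local irreducible] RG Gam DS

/-- the bound for one form -/
lemma form_bound [Frm] {p : Prm} {N : ℕ} {c : Wts} {C C₁ C' : ℝ} (hc : c.ok) (hN4 : 4 ≤ N)
    (aD : ∀ x : VV, cross x.1 x.2 = -1 → (N : ℤ) ≤ 2 * mm x → mm x ≤ 8 * N →
      ∑ t ∈ DS p N, hh p N c t x ≤ if gx p N x then C * PI p N C₁ (mm x).toNat else 0)
    (aE : ∀ N₁ ∈ pcs N, ∑ x ∈ Gam N₁ 0 20,
      (if gx p N x then PI p N C₁ (mm x).toNat ^ 2 else 0) ≤ C' * N) :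
    ∑ N₁ ∈ pcs N, ∑ x ∈ Gam N₁ 0 20, (∑ t ∈ DS p N, hh p N c t x) ^ 2 ≤
      5 * (C ^ 2 * (|C'| * N)) := by
  have hNr : (0 : ℝ) ≤ N := Nat.cast_nonneg N
  have h1 : ∀ N₁ ∈ pcs N, ∑ x ∈ Gam N₁ 0 20, (∑ t ∈ DS p N, hh p N c t x) ^ 2 ≤
      C ^ 2 * (|C'| * N) := by
    intro N₁ hN₁
    calc ∑ x ∈ Gam N₁ 0 20, (∑ t ∈ DS p N, hh p N c t x) ^ 2
        ≤ ∑ x ∈ Gam N₁ 0 20, C ^ 2 * (if gx p N x then PI p N C₁ (mm x).toNat ^ 2 else 0) := by
          refine sum_le_sum fun x hx => ?_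
          rw [mem_Gam] at hx
          obtain ⟨x1, x2, x3, -⟩ := hx
          have hM : ((mm x).toNat : ℤ) = mm x :=
            Int.toNat_of_nonneg ((Int.natCast_nonneg N₁).trans x2.le)
          have hr := pcs_range (M := (mm x).toNat) hN4 hN₁ (by omega) (by omega)
          have h := aD x x1.1 (by omega) (by omega)
          have h0 : 0 ≤ ∑ t ∈ DS p N, hh p N c t x := sum_nonneg fun t _ => hh_nonneg hc t x
          split_ifs at h ⊢ with hg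
          · calc (∑ t ∈ DS p N, hh p N c t x) ^ 2 ≤ (C * PI p N C₁ (mm x).toNat) ^ 2 := by
                  gcongr
              _ = _ := by ring
          · have : ∑ t ∈ DS p N, hh p N c t x = 0 := le_antisymm h h0
            rw [this]; norm_num
      _ = C ^ 2 * ∑ x ∈ Gam N₁ 0 20, (if gx p N x then PI p N C₁ (mm x).toNat ^ 2 else 0) := by
          rw [mul_sum]
      _ ≤ C ^ 2 * (C' * N) := mul_le_mul_of_nonneg_left (aE N₁ hN₁) (sq_nonneg C)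
      _ ≤ C ^ 2 * (|C'| * N) := mul_le_mul_of_nonneg_left
          (mul_le_mul_of_nonneg_right (le_abs_self C') hNr) (sq_nonneg C)
  refine (sum_le_sum h1).trans ?_
  rw [sum_const, nsmul_eq_mul]
  have h5 : ((pcs N).card : ℝ) ≤ 5 := by exact_mod_cast card_pcs N
  exact mul_le_mul_of_nonneg_right h5 (by positivity)

/-- **I9** -/
theorem specI9 : SpecI9 := by
  intro hPHU h2 h3 h8 hAUT h4 h5 h6 h7 hCLS c hc
  obtain ⟨k, L, hL⟩ := hCLS
  have hD : ∀ i : Fin k, ∃ C₁ : ℝ, 0 < C₁ ∧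
      Good (fun p => ∃ C : ℝ, 0 < C ∧ ∀ᶠ N : ℕ in atTop, ∀ x : VV, cross x.1 x.2 = -1 →
        (N : ℤ) ≤ 2 * @mm _ (L i) x → @mm _ (L i) x ≤ 8 * N →
        ∑ t ∈ DS p N, @hh _ (L i) p N c t x ≤ if @gx _ (L i) p N x then
          C * PI p N C₁ (@mm _ (L i) x).toNat else 0) :=
    fun i => @specI9D _ (L i) hPHU h2 (h5 (L i)) (h7 (L i)) c hc
  choose C₁ hC₁ gD using hD
  have gE : ∀ i : Fin k, Good (fun p => ∃ C : ℝ, 0 < C ∧ ∀ᶠ N : ℕ in atTop,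
      ∀ N₁ ∈ pcs N, ∑ x ∈ @Gam _ (L i) N₁ 0 20,
        (if @gx _ (L i) p N x then PI p N (C₁ i) (@mm _ (L i) x).toNat ^ 2 else 0) ≤ C * N) :=
    fun i => @specI9E _ (L i) (hAUT (L i)) h2 h3 (C₁ i) (hC₁ i)
  have gA := specI9A k L hL (fun i => h4 (L i)) (fun i => h6 (L i)) h8 c hc
  refine T4.Good.mono (T4.Good.and (T4.Good.and (goodAll gD) (goodAll gE)) gA) fun p hp => ?_
  obtain ⟨⟨kD, kE⟩, kA⟩ := hp
  choose C hC kD using kD
  choose C' hC' kE using kE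
  refine ⟨2 * (∑ i, 5 * (C i ^ 2 * |C' i|)) + 1, ?_, ?_⟩
  · have : 0 ≤ ∑ i, 5 * (C i ^ 2 * |C' i|) := sum_nonneg fun i _ => by positivity
    linarith
  filter_upwards [Filter.eventually_all.2 kD, Filter.eventually_all.2 kE, kA,
    eventually_ge_atTop 4] with N aD aE aA hN4
  refine aA.trans ?_
  have h1 : ∑ i : Fin k, ∑ N₁ ∈ pcs N, ∑ x ∈ @Gam _ (L i) N₁ 0 20,
      (∑ t ∈ DS p N, @hh _ (L i) p N c t x) ^ 2 ≤ ∑ i, 5 * (C i ^ 2 * (|C' i| * N)) :=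
    sum_le_sum fun i _ => @form_bound _ (L i) p N c (C i) (C₁ i) (C' i) hc hN4 (aD i) (aE i)
  have e2 : ∑ i, 5 * (C i ^ 2 * (|C' i| * (N : ℝ))) = (∑ i, 5 * (C i ^ 2 * |C' i|)) * (N : ℝ) := by
    rw [sum_mul]
    refine sum_congr rfl fun i _ => by ring
  rw [e2] at h1
  linarith

/-- **SpecBB** from the modules -/
theorem specBB_of (hPHU : SpecPHU) (hNG : SpecNG) (h1 : SpecI1) (h2 : SpecI2) (h3 : SpecI3)
    (h8 : SpecI8) (hAUT : ∀ F : Frm, @SpecAUT _ F) (h4 : ∀ F : Frm, @SpecI4 _ F)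
    (h5 : ∀ F : Frm, @SpecI5 _ F) (h6 : ∀ F : Frm, @SpecI6 _ F) (h7 : ∀ F : Frm, @SpecI7 _ F)
    (hCLS : SpecCLS) : SpecBB :=
  h1 hNG h2 (specI9 hPHU h2 h3 h8 hAUT h4 h5 h6 h7 hCLS)

end Pool.Agent.Lib.MP391708.TG.I
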