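import Pool.Agent.Lib.MP_391708_nt.TG.Spec

/-!
# Group I: the bound for the other vertices (`SpecBB`), definitions and internal statements

Plan.  Fix `M` and `ρ = P / sm P` (at most `C(p)` values for given `M`: I2) and apply
Cauchy-Schwarz (I1): only pairs `(r, r')` of relations with the same `(M, ρ)` are needed; the equal
ones cost `∑ U ≤ (N ∑ (∑ U)²)^{1/2}`, the nongeneric ones `#NGp` (SpecNG), the others are the
generic pairs `GP` (SpecIG).  Base measure: `x` unimodular, `mm x = M`, `dd x = ρ`: PP-free.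
A relation over `x` is `rel x t`, data `t = (G, κ, D, X)`, `κ = sm P` squarefree, `P = κ dd x`,
`Q = ee x / (κ G)`, `κ F₁ = qf x (κ D) (-1)`, `κ G F₂ = qf x (κ G) D₂`.  For fixed `t, t'` the
weight `UW (rel x t) * UW (rel x t')` is a constant times a product of local functions of `x` and
the two rough conditions, which CMP replaces by `dn (X_R) dn (X'_R)` (I6).  Then the sum over
`(t, t')` for fixed `x` is the square of `∑_t A_t dn(X_R) w_t(x)`, and this is (colour sum) times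
PHU (I5, I7) `≤ C(p) ∏_{l ∣ M² + a} (1 + C/l)`; the sum over `x` is
`≤ 4 C(p) ∑_M ∏ (1 + C/l)² ≤ C N` (I3).
-/

set_option autoImplicit false

namespace Pool.Agent.Lib.MP391708.TG.I

variable [Pool.Agent.Lib.MP391708.TG.Aa] [Pool.Agent.Lib.MP391708.TG.Frm]

open Finset Filter Topology
open Pool.Agent.Lib.MP391708.Eqd (V cross pairs)
open scoped Classical

noncomputable section

/-! ## Pairs of relations -/

/-- the part of `P` prime to the sieving primes -/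
def rho (p : Prm) (N : ℕ) (r : Rl) : ℕ := rP r / sm p N (rP r)

/-- no common prime `≥ z` of `X` and `X' G'`, or of `X'` and `X G` -/
def gp (p : Prm) (N : ℕ) (G X G' X' : ℕ) : Prop := ∀ l : ℕ, l.Prime → zz p N ≤ (l : ℝ) →
  ¬ ((l ∣ X ∧ l ∣ X' * G') ∨ (l ∣ X' ∧ l ∣ X * G))

/-- the generic pairs of relations with the same `M` and the same `ρ` -/
def GP (p : Prm) (N : ℕ) : Finset (Rl × Rl) := (RG p N ×ˢ RG p N).filter (fun t =>
  rM t.1 = rM t.2 ∧ rho p N t.1 = rho p N t.2 ∧ gp p N (rG t.1) (rX t.1) (rG t.2) (rX t.2))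

/-- **IG**: the generic pairs -/
def SpecIG : Prop :=
  ∀ c : Wts, c.ok → Good (fun p => ∃ C : ℝ, 0 < C ∧ ∀ᶠ N : ℕ in atTop,
    ∑ t ∈ GP p N, UW p N c t.1 * UW p N c t.2 ≤ C * N)

/-- **I2**: `(M² + a) / sm (M² + a)` has a bounded number of divisors: `l`-part for `l ≤ E` by
`tame` (`v_l < E`), the rest has all prime factors `≥ z` (primes dividing `M² + a` are `2` or
`1 mod 4`), so at most `2 ^ (3 / ζ)` divisors. -/
def SpecI2 : Prop :=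
  Good (fun p => ∃ C : ℕ, ∀ᶠ N : ℕ in atTop, ∀ M : ℕ, M ≤ 8 * N → tame p (vl M) →
    ((vl M) / sm p N (vl M)).divisors.card ≤ C)

/-- **I1**: Cauchy-Schwarz over `ρ`.  `S₂ = ∑_M (∑_r U)²`, `(∑_r U)² ≤ C ∑_ρ (∑_{r ∈ ρ} U)²`
(`ρ ∣ (M² + a) / sm (M² + a)`), and the pairs with the same `(M, ρ)` are: equal (`U² ≤ U`,
`∑ U ≤ √((8N+1) S₂)`), in `NGp` (`P sm P' = P' sm P`, `sm P ≤ sm (M² + a) ≤ z^{4K}`,
`ep P = ep P'`; `U ≤ 1`), or in `GP`.  So `S₂ ≤ C (√(9 N S₂) + N + C N)`. -/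
def SpecI1 : Prop := SpecNG → SpecI2 → SpecIG → SpecBB

/-- **I3**: second moment of `∏ (1 + C/l)`: the square is `≤ ∏ (1 + C'/l)`, expand over the subsets
`S ⊆ PP`, number of `M ≤ 8N` with `∏ S ∣ M² + a` is `≤ 2^|S| (8N / ∏ S + 1)`; total
`≤ 8 N ∏ (1 + 2C'/l²) + ∏ (1 + 2C'/l)`, and the last product is `≤ z^{C''} ≤ N`. -/
def SpecI3 : Prop :=
  ∀ C₁ : ℝ, 0 < C₁ → Good (fun p => ∃ C : ℝ, 0 < C ∧ ∀ᶠ N : ℕ in atTop,
    ∑ M ∈ range (8 * N + 1),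
      (∏ l ∈ (PP p N).filter (fun l => l ∣ vl M), (1 + C₁ / (l : ℝ))) ^ 2 ≤ C * N)

/-! ## Relations over a unimodular pair -/

/-- data `(G, κ, D, X)` -/
abbrev Dt := ℕ × ℕ × ℤ × ℕ

def tG (t : Dt) : ℕ := t.1
def tK (t : Dt) : ℕ := t.2.1
def tD (t : Dt) : ℤ := t.2.2.1
def tX (t : Dt) : ℕ := t.2.2.2
/-- `D₂` -/
def tE (t : Dt) : ℤ := ((tX t : ℤ) - tG t) / tD t

/-- the relation over `x` with data `t` -/
def rel (x : VV) (t : Dt) : Rl :=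
  ((mm x).toNat, tG t, tK t * (dd x).toNat, (ee x).toNat / (tK t * tG t), tD t, tX t)

/-- the data of a relation over `x`, `dd x = ρ` -/
def dat (p : Prm) (N : ℕ) (r : Rl) : Dt := (rG r, sm p N (rP r), rD r, rX r)

def dtbox (B : ℕ) : Finset Dt := range B ×ˢ range B ×ˢ Ioo (-(B : ℤ)) B ×ˢ range B

/-- the possible data -/
def DS (p : Prm) (N : ℕ) : Finset Dt := (dtbox (10000 * (N + 1) ^ 2)).filter (fun t =>
  0 < tG t ∧ 0 < tK t ∧ tD t ≠ 0 ∧ 0 < tX t ∧ tD t ∣ (tX t : ℤ) - tG t ∧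
  Nat.Coprime (tG t) (tX t) ∧ (W0 p : ℤ) ∣ tD t ∧ (W0 p : ℤ) ∣ tE t ∧
  Nat.Coprime (tG t * tX t) (W0 p) ∧ tX t ≤ 100 * tG t ∧ tG t ≤ 100 * tX t ∧
  Squarefree (tG t) ∧ Squarefree (tX t) ∧ IsCoprime (tD t) (tG t : ℤ) ∧
  (∀ l : ℕ, l.Prime → l ∣ tX t → spl l) ∧ Squarefree (tK t) ∧ sm p N (tK t) = tK t ∧
  Nat.Coprime (tK t) (tG t) ∧ (tK t : ℝ) ≤ zz p N ^ (4 * p.K) ∧
  (sm p N (tX t) : ℝ) ≤ zz p N ^ (4 * p.K) ∧
  Y1 p N / zz p N ^ (4 * p.K) ≤ (|tD t| : ℝ) ∧ (|tD t| : ℝ) ≤ Y2 p N * zz p N ^ (4 * p.K) ∧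
  Y1 p N * Y3 p N ≤ 10 * (tG t : ℝ) ∧
  (tG t : ℝ) ≤ 10 * (Y2 p N * Y4 p N * zz p N ^ (4 * p.K)))

/-- lower end of the window for `dd x / mm x` -/
def wl (N : ℕ) (t : Dt) : ℝ := (1 - 1 / (N : ℝ) ^ 4) *
  max (1 / (3 * |(tD t : ℝ)| * tK t)) (|(tE t : ℝ)| / (10 * tG t * tK t))
/-- upper end -/
def wu (t : Dt) : ℝ := 10 / (|(tD t : ℝ)| * tK t)

/-- the window: `M ≤ 3 |D| P ≤ 30 M`, `|D₂| Q M ≤ 10 (M² + a)` -/
def win (N : ℕ) (t : Dt) (x : VV) : Prop := wl N t * (mm x : ℝ) < dd x ∧ (dd x : ℝ) ≤ wu t * mm x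

/-- the conditions which are periodic modulo `mt` -/
def CC (p : Prm) (N : ℕ) (t : Dt) (x : VV) : Prop :=
  ((tK t * tG t : ℕ) : ℤ) ∣ ee x ∧
  (∀ l ∈ PP p N, l ∣ tK t * tG t → ¬ ((l : ℤ) ^ 2 ∣ mm x ^ 2 + az)) ∧
  ((tK t * sm p N (tX t) : ℕ) : ℤ) ∣ qf x (tK t * tD t) (-1) ∧
  ∀ l : ℕ, l.Prime → l ≤ p.E → ¬ ((l : ℤ) ^ p.E ∣ mm x ^ 2 + az)

/-- the modulus of the data -/
def mt (p : Prm) (N : ℕ) (t : Dt) : ℕ := W0 p * (tK t * tG t) ^ 2 * sm p N (tX t)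

/-- `dd x` is PP-free, and no prime of `PP` divides `D` and `Q` -/
def QQ (p : Prm) (N : ℕ) (t : Dt) (x : VV) : Prop := ∀ l ∈ PP p N, ¬ (l : ℤ) ∣ dd x ∧
  ((l : ℤ) ∣ tD t → l ∣ tK t * tG t ∨ ¬ (l : ℤ) ∣ ee x)

/-- the local factor at `l ∈ PP` -/
def ph (c : Wts) (t : Dt) (l : ℕ) (x : VV) : ℝ :=
  if (l : ℤ) ∣ dd x then 0 else
  (if l ∣ tK t then c.cP else if l ∣ tG t then c.cG else
    if (l : ℤ) ∣ ee x then (if (l : ℤ) ∣ tD t then 0 else c.cQ) else 1) *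
  (if l ∣ tX t then c.al else if l ∣ tK t ∨ l ∣ tG t ∨ (l : ℤ) ∣ ee x then 1 else
    (if (l : ℤ) ∣ qf x (tK t * tD t) (-1) then c.bT else 1) *
      (if (l : ℤ) ∣ qf x (tK t * tG t) (tE t) then c.bR else 1))

/-- the product of the local factors -/
def PH (p : Prm) (N : ℕ) (c : Wts) (t : Dt) (x : VV) : ℝ := ∏ l ∈ PP p N, ph c t l x

/-- the local weight -/
def ww (p : Prm) (N : ℕ) (c : Wts) (t : Dt) (x : VV) : ℝ :=
  if CC p N t x then PH p N c t x else 0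

/-- the constant factor of the weight -/
def AA (p : Prm) (N : ℕ) (c : Wts) (t : Dt) : ℝ :=
  Real.exp (c.tau * S0 p N) / rp (tD t).natAbs

/-- the rough part of `X` -/
def XR (p : Prm) (N : ℕ) (t : Dt) : ℕ := tX t / sm p N (tX t)

/-- five pieces `(N₁, 2 N₁]` which cover exactly `N/2 ≤ M ≤ 8 N` -/
def pcs (N : ℕ) : Finset ℕ := {(N + 1) / 2 - 1, (N + 1) / 2, N, 2 * N, 4 * N}

/-- **I4a** (windows): for `M > 0` of size `≤ 8N`. -/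
def SpecI4a : Prop :=
  Good (fun p => ∀ᶠ N : ℕ in atTop, ∀ t ∈ DS p N, ∀ x : VV, 0 < mm x → mm x ≤ 8 * N → 0 < dd x →
    (win N t x ↔ mm x ≤ 3 * (|tD t| * (tK t * dd x)) ∧ |tD t| * (tK t * dd x) ≤ 10 * mm x ∧
      |tE t| * mm x ≤ 10 * (tG t * (tK t * dd x))))

/-- **I4b** (the weight is the product of the local factors). For `l ∈ PP`: `l ∤ dd x`; if `l ∣ κ`
then `l ∣ P`, `l ∤ G Q`; if `l ∣ G` then `l ∤ P Q`; else `l ∣ Q ↔ l ∣ ee x`; `l ∣ M² + a ↔ l ∣ ee x`;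
if `l ∤ M² + a`: `l ∣ F₁ ↔ l ∣ qf x (κ D) (-1)`, `l ∣ F₂ ↔ l ∣ qf x (κ G) D₂`. -/
def SpecI4b : Prop :=
  ∀ (p : Prm) (N : ℕ) (c : Wts) (t : Dt) (x : VV), t ∈ DS p N → cross x.1 x.2 = -1 →
    0 < dd x → 0 < ee x → 0 < mm x → CC p N t x → QQ p N t x →
    c.cG ^ om p N (tG t) * c.cP ^ om p N (rP (rel x t)) * c.cQ ^ om p N (rQ (rel x t)) *
      c.al ^ om p N (tX t) * tilt p N c.bT c.bR (rel x t) = PH p N c t x ∧
    om p N (rP (rel x t)) = om p N (tK t)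

/-- **I4** (from relations to data) -/
def SpecI4 : Prop :=
  Good (fun p => ∀ᶠ N : ℕ in atTop, ∀ r ∈ RG p N, ∀ x : VV, cross x.1 x.2 = -1 →
    mm x = rM r → dd x = rho p N r →
    dat p N r ∈ DS p N ∧ rel x (dat p N r) = r ∧ CC p N (dat p N r) x ∧ QQ p N (dat p N r) x ∧
      win N (dat p N r) x ∧
      ((XR p N (dat p N r) : ℕ) : ℤ) ∣ qf x (sm p N (rP r) * rD r) (-1) ∧
      ∀ c : Wts, UW p N c r = AA p N c (dat p N r) * PH p N c (dat p N r) x)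

/-- the pairs `(κ, G)` over `x` -/
def CS (p : Prm) (N : ℕ) (x : VV) : Finset (ℕ × ℕ) :=
  ((ee x).toNat.divisors ×ˢ (ee x).toNat.divisors).filter (fun s =>
    Squarefree s.1 ∧ sm p N s.1 = s.1 ∧ Squarefree s.2 ∧ s.1 * s.2 ∣ (ee x).toNat ∧
    ∀ l ∈ PP p N, l ∣ s.1 * s.2 → ¬ ((l : ℤ) ^ 2 ∣ mm x ^ 2 + az))

/-- **I5** (from data to `(D, X)`-sums) -/
def SpecI5 : Prop :=
  Good (fun p => ∀ᶠ N : ℕ in atTop, ∀ t ∈ DS p N, ∀ x : VV, cross x.1 x.2 = -1 →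
    (N : ℤ) ≤ 2 * mm x → mm x ≤ 8 * N → CC p N t x → QQ p N t x → win N t x →
    Adm p N (mm x).toNat (tG t) (rP (rel x t)) (rQ (rel x t)) ∧
      (tD t, tX t) ∈ S2 p N (mm x).toNat (tG t) (rP (rel x t)) (rQ (rel x t)) ∧
      (tK t, tG t) ∈ CS p N x ∧
      ∀ c : Wts, AA p N c t * dn (XR p N t) * PH p N c t x =
        Real.exp (c.tau * S0 p N) * (c.cP ^ om p N (tK t) * c.cG ^ om p N (tG t) *
          c.cQ ^ om p N (rQ (rel x t))) * vh p N c.al c.bT c.bR (rel x t))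

/-- **I6a**: the pair weight is a product of local functions (`κ = 12`): `f l = ph t l * ph t' l`,
`F` = the conditions `CC` times the local factors at `l ∣ m = mt t * mt t'`. -/
def SpecI6a : Prop :=
  ∀ c : Wts, c.ok → Good (fun p => ∀ᶠ N : ℕ in atTop, ∀ t ∈ DS p N, ∀ t' ∈ DS p N,
    ∃ (F : VV → ℝ) (f : ℕ → VV → ℝ), Loc (PP p N) 12 (mt p N t * mt p N t')
      (fun x => ww p N c t x * ww p N c t' x) F f)

/-- **I6** (comparison): from I6a and CMP with `H₁ = XR t`, `H₂ = XR t'`, `(s, s') = (κ D, -1)`,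
`ε = 1`; the windows are in `[N^{-c}, 20]` and everything is `≤ ML`. -/
def SpecI6 : Prop :=
  ∃ c₀ : ℝ, 0 < c₀ ∧ ∀ c : Wts, c.ok → Good (fun p => ∀ᶠ N : ℕ in atTop, ∀ N₁ ∈ pcs N,
    ∀ t ∈ DS p N, ∀ t' ∈ DS p N, gp p N (tG t) (tX t) (tG t') (tX t') →
    ∑ x ∈ Gam N₁ (max (wl N t) (wl N t')) (min (wu t) (wu t')), ww p N c t x * ww p N c t' x *
        ((if ((XR p N t : ℕ) : ℤ) ∣ qf x (tK t * tD t) (-1) then 1 else 0) *
          (if ((XR p N t' : ℕ) : ℤ) ∣ qf x (tK t' * tD t') (-1) then 1 else 0)) ≤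
      2 * (dn (XR p N t) * dn (XR p N t')) *
        ∑ x ∈ Gam N₁ (max (wl N t) (wl N t')) (min (wu t) (wu t')),
          ww p N c t x * ww p N c t' x + (N : ℝ) ^ (1 - c₀))

/-- **I7** (colours): `∑ c_P^{om κ} c_G^{om G} c_Q^{om Q} ≤ #divisors of (M²+1)/sm (M²+1)`:
`G = sm G * G_r`, `G_r ∣ (M² + a) / sm (M² + a)`, and `κ`, `sm G` are disjoint subsets of the primes
of `PP` dividing `ee x`; the sum over these is `≤ ∏ (c_P + c_G + c_Q) = 1`. -/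
def SpecI7 : Prop :=
  ∀ (p : Prm) (N : ℕ) (c : Wts) (x : VV), c.ok → cross x.1 x.2 = -1 → 0 < mm x →
    (∀ l ∈ PP p N, ¬ (l : ℤ) ∣ dd x) →
    ∑ s ∈ CS p N x, c.cP ^ om p N s.1 * c.cG ^ om p N s.2 *
        c.cQ ^ om p N ((ee x).toNat / (s.1 * s.2)) ≤
      (((vl (mm x).toNat) / sm p N (vl (mm x).toNat)).divisors.card : ℝ)

/-- **I8** (sizes): the number of data and the constant factors are `N^{small}` -/
def SpecI8 : Prop :=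
  ∀ c₀ : ℝ, 0 < c₀ → ∀ c : Wts, c.ok → Good (fun p => ∀ᶠ N : ℕ in atTop,
    ((DS p N).card : ℝ) ≤ (N : ℝ) ^ (c₀ / 8) ∧ ∀ t ∈ DS p N, AA p N c t ≤ (N : ℝ) ^ (c₀ / 8))

end

end Pool.Agent.Lib.MP391708.TG.I
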